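import Pool.Agent.Lib.MP_2fe79c_gt.Geo.Trans

/-!
MP_2fe79c_gt, geometric bodies. Module Fold: every admissible function is equivalent to its periodization
restricted to the unit cube.

fold F = indicator of Q n times per F.
PROOF. Let Sup0 R F, K ≥ R + n natural. F x = sum over m in boxZ n K of (indicator of Qm m) F x (Base: Qm, iUnion_Qm,
disjoint_Qm; if F x ≠ 0 then ‖x‖ < R, x in Qm (fl x), and |fl x i| ≤ |x i| + 1; choose K ≥ R + n + 1). The piece
P_m = (Qm m).indicator F is JF (frontier of Qm m is null: Qm m is convex, or it is a translate of Q n) and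
fold F x = sum_m P_m (x + zv m): for x in Q n, x + zv m is in Qm m, and for x not in Q n all terms vanish. The translation
by -zv m is an isometry g_m with g_m.symm x = x + zv m (IsometryEquiv.addRight (-zv m)). Teq_mk with the index type ↥(boxZ n K).
JF_fold: natural number valued (finite sums of natural numbers), bounded by per_Bd, support in Q n, a.e. continuous
by AC.per, AC.indicator.
-/

set_option autoImplicit false
open MeasureTheory Filter Topology

namespace Pool.MP_2fe79c_gt.Geo

/-- periodization restricted to the unit cube -/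
noncomputable def fold {n : ℕ} (F : E n → ℝ) : E n → ℝ := (Q n).indicator (per F)

theorem JF_fold {n : ℕ} {F : E n → ℝ} (hF : JF F) : JF (fold F) := by
  obtain ⟨b, hb⟩ := hF.bd
  obtain ⟨R, hR⟩ := hF.sup
  have h0 : 0 ≤ Cp n R * b := mul_nonneg (Cp_nonneg R) ((abs_nonneg _).trans (hb 0))
  refine ⟨fun x => ?_, ⟨Cp n R * b, fun x => ?_⟩, ⟨n + 1, fun x hx => ?_⟩,
    (AC.per hR hF.ac).indicator volume_frontier_Q⟩
  · unfold fold
    by_cases hx : x ∈ Q n
    · rw [Set.indicator_of_mem hx, per_eq_sum hR (norm_le_of_mem_Q hx) (Nat.le_ceil (R + n))]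
      choose k hk using hF.nat
      exact ⟨∑ m ∈ boxZ n ⌈R + n⌉₊, k (x + zv m), by
        push_cast
        exact Finset.sum_congr rfl fun m _ => hk _⟩
    · rw [Set.indicator_of_notMem hx]
      exact ⟨0, by simp⟩
  · unfold fold
    by_cases hx : x ∈ Q n
    · rw [Set.indicator_of_mem hx]
      exact per_Bd hR hb x
    · rw [Set.indicator_of_notMem hx, abs_zero]
      exact h0
  · unfold fold
    apply Set.indicator_of_notMem
    intro h
    linarith [norm_le_of_mem_Q h]

theorem fold_notMem {n : ℕ} (F : E n → ℝ) {x : E n} (hx : x ∉ Q n) : fold F x = 0 := by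
  exact Set.indicator_of_notMem hx _

theorem fold_le {n : ℕ} {F : E n → ℝ} {R b : ℝ} (hs : Sup0 R F) (hb : Bd b F) (x : E n) :
    fold F x ≤ Cp n R * b := by
  have h0 : 0 ≤ Cp n R * b := mul_nonneg (Cp_nonneg R) ((abs_nonneg _).trans (hb 0))
  unfold fold
  by_cases hx : x ∈ Q n
  · rw [Set.indicator_of_mem hx]
    exact (le_abs_self _).trans (per_Bd hs hb x)
  · rw [Set.indicator_of_notMem hx]
    exact h0

theorem fold_frontier_Qm {n : ℕ} (m : Fin n → ℤ) : volume (frontier (Qm (n := n) m)) = 0 := by
  have h : Convex ℝ (Qm (n := n) m) := by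
    intro x hx y hy a b ha hb hab
    have h1 : a • x + b • y - zv m = a • (x - zv m) + b • (y - zv m) := by
      have h2 : (zv m : E n) = a • zv m + b • zv m := by rw [← add_smul, hab, one_smul]
      conv_lhs => rw [h2]
      rw [smul_sub, smul_sub]
      abel
    show a • x + b • y - zv m ∈ Q n
    rw [h1]
    exact convex_Q hx hy ha hb hab
  exact h.addHaar_frontier volume

theorem Teq_fold {n : ℕ} {F : E n → ℝ} (hF : JF F) : Teq F (fold F) := by
  classical
  obtain ⟨R, hR⟩ := hF.sup
  obtain ⟨K, hK⟩ := exists_nat_ge (R + n + 1)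
  refine Teq_mk (ι := ↥(boxZ n K)) (fun m => (Qm m.1).indicator F)
    (fun m => IsometryEquiv.addRight (-zv m.1)) (fun m => hF.indicator (fold_frontier_Qm m.1))
    (Eventually.of_forall fun x => ?_) (Eventually.of_forall fun x => ?_)
  · rw [Finset.sum_coe_sort (boxZ n K) (fun m => (Qm m).indicator F x)]
    have h1 : ∀ m : Fin n → ℤ, (Qm m).indicator F x = if m = fl x then F x else 0 := by
      intro m
      by_cases hm : m = fl x
      · rw [if_pos hm, Set.indicator_of_mem]
        rw [hm]
        exact sub_fl_mem x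
      · rw [if_neg hm, Set.indicator_of_notMem]
        intro h
        exact hm (fl_eq_of_mem h)
    simp only [h1]
    rw [Finset.sum_ite_eq']
    split_ifs with h
    · rfl
    · by_contra hne
      apply h
      rw [mem_boxZ]
      intro i
      have h2 : ‖x‖ < R := by
        by_contra h3
        exact hne (hR x (not_lt.mp h3))
      have h3 := abs_coord_le x i
      have h4 : |(fl x i : ℝ)| ≤ |x i| + 1 := by
        have h5 := Int.floor_le (x i)
        have h6 := Int.lt_floor_add_one (x i)
        have h7 : (fl x i : ℝ) = ((⌊x i⌋ : ℤ) : ℝ) := rfl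
        rw [h7, abs_le]
        constructor
        · have := neg_abs_le (x i)
          linarith
        · have := le_abs_self (x i)
          linarith
      have hn0 : (0 : ℝ) ≤ n := Nat.cast_nonneg n
      have h8 : |(fl x i : ℝ)| ≤ K := by linarith
      exact_mod_cast h8
  · rw [Finset.sum_coe_sort (boxZ n K)
      (fun m => (Qm m).indicator F ((IsometryEquiv.addRight (-zv m : E n)).symm x))]
    have h1 : ∀ m : Fin n → ℤ, (IsometryEquiv.addRight (-zv m : E n)).symm x = x + zv m := by
      intro m
      rw [IsometryEquiv.symm_apply_eq]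
      simp
    have h2 : ∀ m : Fin n → ℤ, x + zv m ∈ Qm m ↔ x ∈ Q n := by
      intro m
      show x + zv m - zv m ∈ Q n ↔ x ∈ Q n
      rw [add_sub_cancel_right]
    simp only [h1]
    unfold fold
    by_cases hx : x ∈ Q n
    · rw [Set.indicator_of_mem hx, per_eq_sum hR (norm_le_of_mem_Q hx) (K := K) (by linarith)]
      exact Finset.sum_congr rfl fun m _ => (Set.indicator_of_mem ((h2 m).mpr hx) F).symm
    · rw [Set.indicator_of_notMem hx]
      exact (Finset.sum_eq_zero fun m _ =>
        Set.indicator_of_notMem (fun h => hx ((h2 m).mp h)) F).symm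

end Pool.MP_2fe79c_gt.Geo
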