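import Pool.Agent.Lib.MP_2fe79c_gt.Geo.UThm
import Pool.Agent.Lib.MP_2fe79c_gt.Geo.Fold

/-!
MP_2fe79c_gt, geometric bodies. Module Absorb: equal integrals imply equivalence after adding a bounded function.

PROOF. Take m, g, R, C from uThm. f = per F - per G is in RX n, integer valued, Bd N f (on the unit cube per F = F since
F vanishes outside Q n; per F is periodic with values in [0,N]) and ∫_Q f = ∫ F - ∫ G = 0 (integral_per). Get k_i from uThm.
Split k_i = k_i⁺ - k_i⁻ (max 0, max of the negative; both JF). Let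
 P = sum_i [fold (k_i⁺) + fold (k_i⁻ ∘ g_i⁻¹)],   P' = sum_i [fold (k_i⁺ ∘ g_i⁻¹) + fold (k_i⁻)].
On Q n: F - G = f = P - P' a.e. (per is additive on functions of bounded support), outside of Q n all are 0. So
F + P' = G + P a.e. Moreover Teq P P': fold k ~ k ~ k ∘ g⁻¹ ~ fold (k ∘ g⁻¹) (Teq_fold, Teq.isom, trans, symm, sum).
Hence F + P' = G + P ~ G + P', with H = P'. Bound: each fold ≤ Cp n R'' * (C N) with R'' = R + max_i ‖g_i 0‖ (Sup0.comp_isom),
so H ≤ 2 m Cp n R'' C N ≤ C0 N with C0 the natural ceiling. H vanishes outside Q n.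
-/

set_option autoImplicit false
open MeasureTheory Filter Topology

namespace Pool.MP_2fe79c_gt.Geo

theorem absorb_per_eq {n : ℕ} {F : E n → ℝ} (hF : ∀ x, x ∉ Q n → F x = 0) {x : E n}
    (hx : x ∈ Q n) : per F x = F x := by
  unfold per
  rw [tsum_eq_single 0]
  · rw [zv_zero, add_zero]
  · intro m hm
    apply hF
    intro h
    apply hm
    have h1 : -m = fl x := fl_eq_of_mem (by rwa [zv_neg, sub_neg_eq_add])
    have h2 : (0 : Fin n → ℤ) = fl x := fl_eq_of_mem (by rwa [zv_zero, sub_zero])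
    rw [← h2] at h1
    exact neg_eq_zero.mp h1

theorem absorb_sup0 {n : ℕ} {F : E n → ℝ} (hF : ∀ x, x ∉ Q n → F x = 0) : Sup0 (n + 1) F := by
  intro x hx
  apply hF
  intro h
  linarith [norm_le_of_mem_Q h]

theorem absorb_nonneg {n : ℕ} {F : E n → ℝ} (hF : JF F) (x : E n) : 0 ≤ F x := by
  obtain ⟨k, hk⟩ := hF.nat x
  rw [hk]
  exact Nat.cast_nonneg k

/-- positive part -/
theorem absorb_jf_pos {n : ℕ} {R b : ℝ} {k : E n → ℝ} (hi : IntV k) (hb : Bd b k) (hs : Sup0 R k)
    (hc : AC k) : JF (fun x => max (k x) 0) ∧ Bd b (fun x => max (k x) 0) ∧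
      Sup0 R (fun x => max (k x) 0) := by
  have h1 : Bd b (fun x => max (k x) 0) := by
    intro x
    have h2 := hb x
    have h3 : 0 ≤ b := (abs_nonneg _).trans h2
    rw [abs_of_nonneg (le_max_right _ _)]
    exact max_le ((le_abs_self _).trans h2) h3
  have h2 : Sup0 R (fun x => max (k x) 0) := by
    intro x hx
    change max (k x) 0 = 0
    rw [hs x hx, max_self]
  refine ⟨⟨fun x => ?_, ⟨b, h1⟩, ⟨R, h2⟩, hc.max (AC.const 0)⟩, h1, h2⟩
  obtain ⟨z, hz⟩ := hi x
  refine ⟨z.toNat, ?_⟩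
  have h3 : ((z.toNat : ℕ) : ℝ) = ((max z 0 : ℤ) : ℝ) := by
    rw [← Int.toNat_eq_max z, Int.cast_natCast]
  rw [h3, hz]
  push_cast
  rfl

theorem absorb_teq {n : ℕ} {k : E n → ℝ} (hk : JF k) (g : E n ≃ᵢ E n) :
    Teq (fold k) (fold (fun y => k (g.symm y))) :=
  (Teq_fold hk).symm.trans ((Teq.isom hk g).trans (Teq_fold (hk.comp_isom g.symm)))

theorem absorb {n : ℕ} (hn : 3 ≤ n) :
    ∃ C0 : ℕ, ∀ (N : ℕ) (F G : E n → ℝ), 1 ≤ N → JF F → JF G → (∀ x, x ∉ Q n → F x = 0) →
      (∀ x, x ∉ Q n → G x = 0) → (∀ x, F x ≤ N) → (∀ x, G x ≤ N) → ∫ x, F x = ∫ x, G x →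
      ∃ H : E n → ℝ, JF H ∧ (∀ x, x ∉ Q n → H x = 0) ∧ (∀ x, H x ≤ C0 * N) ∧
        Teq (fun x => F x + H x) (fun x => G x + H x) := by
  obtain ⟨m, g, R, C, hC, hU⟩ := uThm hn
  let R₂ : ℝ := R + ∑ i, ‖(g i).symm.symm 0‖
  have hR₂ : ∀ i, R + ‖(g i).symm.symm 0‖ ≤ R₂ := fun i => by
    have := Finset.single_le_sum (f := fun i => ‖(g i).symm.symm (0 : E n)‖)
      (fun j _ => norm_nonneg _) (Finset.mem_univ i)
    simp only [R₂]
    linarith
  have hR₂' : R ≤ R₂ := by
    have : 0 ≤ ∑ i, ‖(g i).symm.symm (0 : E n)‖ := Finset.sum_nonneg fun j _ => norm_nonneg _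
    simp only [R₂]
    linarith
  refine ⟨⌈2 * m * Cp n R₂ * C⌉₊, ?_⟩
  intro N F G hN hF hG hF0 hG0 hFN hGN hint
  have hN' : (1 : ℝ) ≤ N := by exact_mod_cast hN
  have hFs := absorb_sup0 hF0
  have hGs := absorb_sup0 hG0
  have hFb : Bd N F := fun x => by
    rw [abs_of_nonneg (absorb_nonneg hF x)]
    exact hFN x
  have hGb : Bd N G := fun x => by
    rw [abs_of_nonneg (absorb_nonneg hG x)]
    exact hGN x
  have hfP : Per (fun x => per F x - per G x) := fun x z => by
    change per F (x + zv z) - per G (x + zv z) = per F x - per G x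
    rw [Per_per, Per_per]
  have hfb : Bd N (fun x => per F x - per G x) := by
    intro x
    obtain ⟨y, hy, hxy⟩ := hfP.exists_Q x
    change |per F x - per G x| ≤ N
    rw [hxy, absorb_per_eq hF0 hy, absorb_per_eq hG0 hy, abs_le]
    have h1 := absorb_nonneg hF y
    have h2 := absorb_nonneg hG y
    constructor
    · linarith [hGN y]
    · linarith [hFN y]
  have hfA : AC (fun x => per F x - per G x) := (AC.per hFs hF.ac).sub (AC.per hGs hG.ac)
  have hfi : IntV (fun x => per F x - per G x) := by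
    have h1 : ∀ {F : E n → ℝ}, JF F → Sup0 (n + 1) F → ∀ x, ∃ z : ℤ, per F x = z := by
      intro F hF hs x
      obtain ⟨K, hK⟩ := exists_nat_ge ((n + 1 : ℝ) + ‖x‖)
      rw [per_eq_sum hs le_rfl hK]
      choose k hk using hF.nat
      exact ⟨∑ z ∈ boxZ n K, (k (x + zv z) : ℤ), by
        push_cast
        exact Finset.sum_congr rfl fun z _ => hk _⟩
    intro x
    obtain ⟨z, hz⟩ := h1 hF hFs x
    obtain ⟨z', hz'⟩ := h1 hG hGs x
    refine ⟨z - z', ?_⟩
    change per F x - per G x = _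
    rw [hz, hz']
    push_cast
    rfl
  have hvol : volume (Q n) < ⊤ := by
    rw [volume_Q]
    exact ENNReal.one_lt_top
  have hf0 : ∫ x in Q n, (per F x - per G x) = 0 := by
    rw [integral_sub ((AC.per hFs hF.ac).integrableOn (per_Bd hFs hFb) hvol)
      ((AC.per hGs hG.ac).integrableOn (per_Bd hGs hGb) hvol), integral_per hFs hFb hF.ac,
      integral_per hGs hGb hG.ac, hint, sub_self]
  obtain ⟨k, hk, hkf⟩ := hU ⟨fun x => per F x - per G x, ⟨⟨N, hfb⟩, hfP, hfA⟩⟩ N hN' hfi hfb hf0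
  have hk1 := fun i => absorb_jf_pos (hk i).1 (hk i).2 (k i).2.2.1 (k i).2.2.2
  have hk2 := fun i => absorb_jf_pos (n := n) (R := R) (b := C * N) (k := fun x => -(k i).1 x)
    (fun x => by
      obtain ⟨z, hz⟩ := (hk i).1 x
      refine ⟨-z, ?_⟩
      change -(k i).1 x = _
      rw [hz]
      push_cast
      rfl)
    (fun x => by
      rw [abs_neg]
      exact (hk i).2 x)
    (fun x hx => by
      change -(k i).1 x = 0
      rw [(k i).2.2.1 x hx, neg_zero]) (k i).2.2.2.neg
  let kp : Fin m → E n → ℝ := fun i x => max ((k i).1 x) 0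
  let kn : Fin m → E n → ℝ := fun i x => max (-(k i).1 x) 0
  have hkp : ∀ i, JF (kp i) := fun i => (hk1 i).1
  have hkn : ∀ i, JF (kn i) := fun i => (hk2 i).1
  have hkpb : ∀ i, Bd (C * N) (kp i) := fun i => (hk1 i).2.1
  have hknb : ∀ i, Bd (C * N) (kn i) := fun i => (hk2 i).2.1
  have hkps : ∀ i, Sup0 R (kp i) := fun i => (hk1 i).2.2
  have hkns : ∀ i, Sup0 R (kn i) := fun i => (hk2 i).2.2
  have hksub : ∀ i x, (k i).1 x = kp i x - kn i x := by
    intro i x
    simp only [kp, kn]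
    rcases le_total 0 ((k i).1 x) with h | h
    · rw [max_eq_left h, max_eq_right (by linarith), sub_zero]
    · rw [max_eq_right h, max_eq_left (by linarith)]
      ring
  let kpg : Fin m → E n → ℝ := fun i y => kp i ((g i).symm y)
  let kng : Fin m → E n → ℝ := fun i y => kn i ((g i).symm y)
  have hkpg : ∀ i, JF (kpg i) := fun i => (hkp i).comp_isom _
  have hkng : ∀ i, JF (kng i) := fun i => (hkn i).comp_isom _
  have hkpgb : ∀ i, Bd (C * N) (kpg i) := fun i x => hkpb i _
  have hkngb : ∀ i, Bd (C * N) (kng i) := fun i x => hknb i _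
  have hkpgs : ∀ i, Sup0 R₂ (kpg i) := fun i => ((hkps i).comp_isom _).mono (hR₂ i)
  have hkngs : ∀ i, Sup0 R₂ (kng i) := fun i => ((hkns i).comp_isom _).mono (hR₂ i)
  let P : E n → ℝ := fun x => ∑ i, (fold (kp i) x + fold (kng i) x)
  let P' : E n → ℝ := fun x => ∑ i, (fold (kpg i) x + fold (kn i) x)
  have hP' : JF P' := JF.sum _ fun i _ => (JF_fold (hkpg i)).add (JF_fold (hkn i))
  have hTeq : Teq P P' := Teq.sum _ fun i _ =>
    (absorb_teq (hkp i) (g i)).add (absorb_teq (hkn i) (g i)).symm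
  have hkey : ∀ᵐ x ∂(volume : Measure (E n)), F x + P' x = G x + P x := by
    filter_upwards [hkf] with x hx
    by_cases hxQ : x ∈ Q n
    · have h1 : per F x - per G x = ∑ i, ((per (kp i) x - per (kn i) x) -
          (per (kpg i) x - per (kng i) x)) := by
        have h2 : per F x - per G x = ∑ i, (per (k i).1 x -
            per (fun y => (k i).1 ((g i).symm y)) x) := hx
        rw [h2]
        refine Finset.sum_congr rfl fun i _ => ?_
        have h3 : (k i).1 = fun y => kp i y - kn i y := funext fun y => hksub i y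
        have h4 : (fun y => (k i).1 ((g i).symm y)) = fun y => kpg i y - kng i y :=
          funext fun y => hksub i _
        rw [h4, per_sub (hkpgs i) (hkngs i), h3, per_sub (hkps i) (hkns i)]
      rw [absorb_per_eq hF0 hxQ, absorb_per_eq hG0 hxQ] at h1
      have h2 : ∀ h : E n → ℝ, fold h x = per h x := fun h => Set.indicator_of_mem hxQ _
      have h3 : P x - P' x = ∑ i, ((per (kp i) x - per (kn i) x) -
          (per (kpg i) x - per (kng i) x)) := by
        simp only [P, P', h2]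
        rw [← Finset.sum_sub_distrib]
        exact Finset.sum_congr rfl fun i _ => by ring
      linarith
    · have h2 : ∀ h : E n → ℝ, fold h x = 0 := fun h => fold_notMem h hxQ
      simp only [P, P', h2, hF0 x hxQ, hG0 x hxQ]
  refine ⟨P', hP', fun x hx => ?_, fun x => ?_, ?_⟩
  · simp only [P']
    exact Finset.sum_eq_zero fun i _ => by rw [fold_notMem _ hx, fold_notMem _ hx, add_zero]
  · have h1 : P' x ≤ ∑ _i : Fin m, (Cp n R₂ * (C * N) + Cp n R₂ * (C * N)) :=
      Finset.sum_le_sum fun i _ => add_le_add (fold_le (hkpgs i) (hkpgb i) x)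
        (fold_le ((hkns i).mono hR₂') (hknb i) x)
    have h2 : ∑ _i : Fin m, (Cp n R₂ * (C * N) + Cp n R₂ * (C * N)) =
        2 * m * Cp n R₂ * C * N := by
      rw [Finset.sum_const, Finset.card_univ, Fintype.card_fin, nsmul_eq_mul]
      ring
    rw [h2] at h1
    refine h1.trans (mul_le_mul_of_nonneg_right (Nat.le_ceil _) (Nat.cast_nonneg N))
  · have h1 : Teq (fun x => F x + P' x) (fun x => G x + P x) :=
      (Teq.refl (hF.add hP')).congr (Eventually.of_forall fun _ => rfl) hkey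
    exact h1.trans ((Teq.refl hG).add hTeq)

end Pool.MP_2fe79c_gt.Geo
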