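import Pool.Agent.Lib.MP_2fe79c_gt.Geo.Defs

/-!
MP_2fe79c_gt, geometric bodies: basic lemmas on a.e. continuity, periodization,
and the two function spaces.
-/

set_option autoImplicit false
open MeasureTheory Filter Topology

namespace Pool.MP_2fe79c_gt.Geo

variable {n : ℕ}

/-! ### integer vectors -/

@[simp] theorem zv_apply (m : Fin n → ℤ) (i : Fin n) : (zv m : E n) i = m i := rfl

theorem zv_add (a b : Fin n → ℤ) : (zv (a + b) : E n) = zv a + zv b := by
  ext i; simp

theorem zv_neg (a : Fin n → ℤ) : (zv (-a) : E n) = - zv a := by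
  ext i; simp

@[simp] theorem zv_zero : (zv (0 : Fin n → ℤ) : E n) = 0 := by
  ext i; simp

theorem zv_sub (a b : Fin n → ℤ) : (zv (a - b) : E n) = zv a - zv b := by
  ext i; simp

theorem abs_coord_le (x : E n) (i : Fin n) : |x i| ≤ ‖x‖ := by
  have := PiLp.norm_apply_le (p := 2) x i
  simpa using this

theorem zv_inj {a b : Fin n → ℤ} (h : (zv a : E n) = zv b) : a = b := by
  funext i
  have := congrArg (fun v : E n => v i) h
  simpa using this

/-! ### a.e. continuity -/

section AClemmas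

variable {β γ δ : Type*} [TopologicalSpace β] [TopologicalSpace γ] [TopologicalSpace δ]

theorem AC.of_continuous {f : E n → β} (hf : Continuous f) : AC f :=
  Eventually.of_forall fun _ => hf.continuousAt

theorem AC.comp_cont {f : E n → β} (hf : AC f) {g : β → γ} (hg : Continuous g) :
    AC (fun x => g (f x)) := by
  filter_upwards [hf] with x hx
  exact hg.continuousAt.comp hx

theorem AC.comp_cont2 {f : E n → β} {f' : E n → γ} (hf : AC f) (hf' : AC f') {g : β → γ → δ}
    (hg : Continuous (fun p : β × γ => g p.1 p.2)) : AC (fun x => g (f x) (f' x)) := by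
  filter_upwards [hf, hf'] with x hx hx'
  exact hg.continuousAt.comp (f := fun x => (f x, f' x)) (hx.prodMk hx')

theorem AC.add {f g : E n → ℝ} (hf : AC f) (hg : AC g) : AC (fun x => f x + g x) :=
  hf.comp_cont2 (g := fun a b => a + b) hg (by fun_prop)

theorem AC.sub {f g : E n → ℝ} (hf : AC f) (hg : AC g) : AC (fun x => f x - g x) :=
  hf.comp_cont2 (g := fun a b => a - b) hg (by fun_prop)

theorem AC.mul {f g : E n → ℝ} (hf : AC f) (hg : AC g) : AC (fun x => f x * g x) :=
  hf.comp_cont2 (g := fun a b => a * b) hg (by fun_prop)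

theorem AC.neg {f : E n → ℝ} (hf : AC f) : AC (fun x => - f x) :=
  hf.comp_cont (g := fun a => - a) (by fun_prop)

theorem AC.const_mul {f : E n → ℝ} (c : ℝ) (hf : AC f) : AC (fun x => c * f x) :=
  hf.comp_cont (g := fun a => c * a) (by fun_prop)

theorem AC.max {f g : E n → ℝ} (hf : AC f) (hg : AC g) : AC (fun x => max (f x) (g x)) :=
  hf.comp_cont2 (g := fun a b => Max.max a b) hg (by fun_prop)

theorem AC.min {f g : E n → ℝ} (hf : AC f) (hg : AC g) : AC (fun x => min (f x) (g x)) :=
  hf.comp_cont2 (g := fun a b => Min.min a b) hg (by fun_prop)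

theorem AC.abs {f : E n → ℝ} (hf : AC f) : AC (fun x => |f x|) :=
  hf.comp_cont (g := fun a => |a|) (by fun_prop)

theorem AC.const (c : β) : AC (fun _ : E n => c) := AC.of_continuous continuous_const

theorem AC.sum {ι : Type*} (s : Finset ι) {f : ι → E n → ℝ} (hf : ∀ i ∈ s, AC (f i)) :
    AC (fun x => ∑ i ∈ s, f i x) := by
  classical
  induction s using Finset.induction_on with
  | empty => simpa using AC.const (n := n) (0 : ℝ)
  | insert a s ha ih =>
    simp only [Finset.sum_insert ha]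
    exact (hf a (Finset.mem_insert_self a s)).add
      (ih fun i hi => hf i (Finset.mem_insert_of_mem hi))

/-- composition with a homeomorphism that preserves null sets -/
theorem AC.comp_homeo {f : E n → β} (hf : AC f) (e : E n → E n) (he : Continuous e)
    (hq : Measure.QuasiMeasurePreserving e volume volume) : AC (fun x => f (e x)) := by
  have h := hq.ae hf
  filter_upwards [h] with x hx
  exact ContinuousAt.comp (f := e) (x := x) hx he.continuousAt

theorem AC.comp_add {f : E n → β} (hf : AC f) (v : E n) : AC (fun x => f (x + v)) :=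
  hf.comp_homeo (fun x => x + v) (by fun_prop)
    (measurePreserving_add_right volume v).quasiMeasurePreserving

theorem AC.comp_sub {f : E n → β} (hf : AC f) (v : E n) : AC (fun x => f (x - v)) :=
  hf.comp_homeo (fun x => x - v) (by fun_prop)
    (measurePreserving_sub_right volume v).quasiMeasurePreserving

theorem AC.comp_lin {f : E n → β} (hf : AC f) (g : E n ≃ₗᵢ[ℝ] E n) : AC (fun x => f (g x)) :=
  hf.comp_homeo (fun x => g x) g.continuous g.measurePreserving.quasiMeasurePreserving

/-- an isometry of euclidean space preserves the volume -/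
theorem isom_measurePreserving (g : E n ≃ᵢ E n) :
    MeasurePreserving (fun x => g x) (volume : Measure (E n)) volume := by
  have h : (fun x => g x) = (fun y => y + g 0) ∘ (fun x => g.toRealLinearIsometryEquiv x) := by
    funext x
    simp [IsometryEquiv.toRealLinearIsometryEquiv_apply]
  rw [h]
  exact (measurePreserving_add_right volume (g 0)).comp
    g.toRealLinearIsometryEquiv.measurePreserving

theorem AC.comp_isom {f : E n → β} (hf : AC f) (g : E n ≃ᵢ E n) : AC (fun x => f (g x)) :=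
  hf.comp_homeo (fun x => g x) g.continuous (isom_measurePreserving g).quasiMeasurePreserving

end AClemmas

/-- an a.e. continuous function is a.e. strongly measurable -/
theorem AC.aestronglyMeasurable {f : E n → ℝ} (hf : AC f) :
    AEStronglyMeasurable f (volume : Measure (E n)) := by
  have hD : MeasurableSet {x | ContinuousAt f x} := measurableSet_of_continuousAt f
  have hc : ContinuousOn f {x | ContinuousAt f x} := fun x hx => ContinuousAt.continuousWithinAt hx
  have h1 : AEStronglyMeasurable f ((volume : Measure (E n)).restrict {x | ContinuousAt f x}) :=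
    hc.aestronglyMeasurable hD
  have h2 : (volume : Measure (E n)).restrict {x | ContinuousAt f x} = volume :=
    Measure.restrict_eq_self_of_ae_mem (s := {x | ContinuousAt f x}) hf
  rwa [h2] at h1

/-- the indicator of a set with null frontier is a.e. continuous -/
theorem AC.indicator {f : E n → ℝ} (hf : AC f) {A : Set (E n)} (hA : volume (frontier A) = 0) :
    AC (A.indicator f) := by
  have h1 : ∀ᵐ x ∂(volume : Measure (E n)), x ∉ frontier A := measure_eq_zero_iff_ae_notMem.mp hA
  filter_upwards [hf, h1] with x hx hxA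
  rw [frontier_eq_closure_inter_closure] at hxA
  by_cases h : x ∈ closure A
  · have h' : x ∉ closure Aᶜ := fun hh => hxA ⟨h, hh⟩
    have hi : x ∈ interior A := by
      rw [closure_compl] at h'
      simpa using h'
    have he : A.indicator f =ᶠ[𝓝 x] f := by
      filter_upwards [mem_interior_iff_mem_nhds.mp hi] with y hy
      exact Set.indicator_of_mem hy f
    exact hx.congr he.symm
  · have he : A.indicator f =ᶠ[𝓝 x] fun _ => 0 := by
      have : (closure A)ᶜ ∈ 𝓝 x := isClosed_closure.isOpen_compl.mem_nhds h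
      filter_upwards [this] with y hy
      exact Set.indicator_of_notMem (fun hh => hy (subset_closure hh)) f
    exact (continuousAt_const).congr he.symm

/-- uniform limits of a.e. continuous functions are a.e. continuous -/
theorem AC.of_uniform {f : E n → ℝ} {F : ℕ → E n → ℝ} (hF : ∀ k, AC (F k))
    (hu : TendstoUniformly F f atTop) : AC f := by
  have h : ∀ᵐ x ∂(volume : Measure (E n)), ∀ k, ContinuousAt (F k) x := ae_all_iff.mpr hF
  filter_upwards [h] with x hx
  rw [Metric.continuousAt_iff]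
  intro ε hε
  obtain ⟨k, hk⟩ := ((Metric.tendstoUniformly_iff.mp hu) (ε / 3) (by positivity)).exists
  obtain ⟨δ, hδ, h2⟩ := Metric.continuousAt_iff.mp (hx k) (ε / 3) (by positivity)
  refine ⟨δ, hδ, fun {y} hy => ?_⟩
  have a1 := hk y
  have a2 := hk x
  have a3 := h2 hy
  calc dist (f y) (f x) ≤ dist (f y) (F k y) + dist (F k y) (F k x) + dist (F k x) (f x) :=
        dist_triangle4 _ _ _ _
    _ < ε / 3 + ε / 3 + ε / 3 := by
        have a4 : dist (F k x) (f x) < ε / 3 := by rw [dist_comm]; exact a2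
        linarith
    _ = ε := by ring

/-! ### periodization -/

/-- the finite set of integer vectors with all coordinates in [-K,K] -/
noncomputable def boxZ (n K : ℕ) : Finset (Fin n → ℤ) := Finset.Icc (fun _ => -(K : ℤ)) (fun _ => (K : ℤ))

theorem mem_boxZ {K : ℕ} {m : Fin n → ℤ} : m ∈ boxZ n K ↔ ∀ i, |m i| ≤ K := by
  simp only [boxZ, Finset.mem_Icc, Pi.le_def, abs_le]
  exact ⟨fun h i => ⟨h.1 i, h.2 i⟩, fun h => ⟨fun i => (h i).1, fun i => (h i).2⟩⟩

theorem mem_boxZ_of_ne_zero {R ρ : ℝ} {h : E n → ℝ} (hs : Sup0 R h) {x : E n} (hx : ‖x‖ ≤ ρ)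
    {m : Fin n → ℤ} (hm : h (x + zv m) ≠ 0) {K : ℕ} (hK : R + ρ ≤ K) : m ∈ boxZ n K := by
  rw [mem_boxZ]
  intro i
  have h1 : ‖x + zv m‖ < R := by
    by_contra hh
    exact hm (hs _ (not_lt.mp hh))
  have h2 : |(m i : ℝ)| ≤ ‖(zv m : E n)‖ := by simpa using abs_coord_le (zv m : E n) i
  have h3 : ‖(zv m : E n)‖ ≤ ‖x + zv m‖ + ‖x‖ := by
    calc ‖(zv m : E n)‖ = ‖(x + zv m) - x‖ := by congr 1; abel
      _ ≤ ‖x + zv m‖ + ‖x‖ := norm_sub_le _ _
  have h4 : |(m i : ℝ)| ≤ K := by linarith
  exact_mod_cast h4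

/-- local formula for the periodization -/
theorem per_eq_sum {R ρ : ℝ} {h : E n → ℝ} (hs : Sup0 R h) {x : E n} (hx : ‖x‖ ≤ ρ)
    {K : ℕ} (hK : R + ρ ≤ K) : per h x = ∑ m ∈ boxZ n K, h (x + zv m) := by
  unfold per
  refine tsum_eq_sum fun m hm => ?_
  by_contra hh
  exact hm (mem_boxZ_of_ne_zero hs hx hh hK)

theorem per_finite {R : ℝ} {h : E n → ℝ} (hs : Sup0 R h) (x : E n) :
    (Function.support fun m : Fin n → ℤ => h (x + zv m)).Finite := by
  obtain ⟨K, hK⟩ := exists_nat_ge (R + ‖x‖)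
  exact (boxZ n K).finite_toSet.subset fun m hm => mem_boxZ_of_ne_zero hs le_rfl hm hK

theorem per_summable {R : ℝ} {h : E n → ℝ} (hs : Sup0 R h) (x : E n) :
    Summable fun m : Fin n → ℤ => h (x + zv m) :=
  summable_of_hasFiniteSupport (per_finite hs x)

theorem Per_per (h : E n → ℝ) : Per (per h) := by
  intro x m
  unfold per
  rw [← (Equiv.addLeft m).tsum_eq (fun k => h (x + zv k))]
  refine tsum_congr fun k => ?_
  simp [zv_add, add_assoc]

theorem per_add {R : ℝ} {h k : E n → ℝ} (hs : Sup0 R h) (ks : Sup0 R k) (x : E n) :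
    per (fun y => h y + k y) x = per h x + per k x :=
  (per_summable hs x).tsum_add (per_summable ks x)

theorem per_sub {R : ℝ} {h k : E n → ℝ} (hs : Sup0 R h) (ks : Sup0 R k) (x : E n) :
    per (fun y => h y - k y) x = per h x - per k x :=
  (per_summable hs x).tsum_sub (per_summable ks x)

theorem per_const_mul (c : ℝ) (h : E n → ℝ) (x : E n) :
    per (fun y => c * h y) x = c * per h x := tsum_mul_left

theorem per_neg (h : E n → ℝ) (x : E n) : per (fun y => - h y) x = - per h x := tsum_neg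

theorem per_tr (v : E n) (h : E n → ℝ) : per (tr v h) = tr v (per h) := by
  funext x
  unfold per tr
  refine tsum_congr fun m => ?_
  congr 1
  abel

theorem per_mul_Per {w : E n → ℝ} (hw : Per w) (h : E n → ℝ) (x : E n) :
    per (fun y => w y * h y) x = w x * per h x := by
  unfold per
  simp_rw [hw x]
  exact tsum_mul_left

theorem per_sum {ι : Type*} (s : Finset ι) {R : ℝ} {h : ι → E n → ℝ} (hs : ∀ i ∈ s, Sup0 R (h i))
    (x : E n) : per (fun y => ∑ i ∈ s, h i y) x = ∑ i ∈ s, per (h i) x := by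
  unfold per
  exact Summable.tsum_finsetSum fun i hi => per_summable (hs i hi) x

theorem per_nonneg {h : E n → ℝ} (h0 : ∀ x, 0 ≤ h x) (x : E n) : 0 ≤ per h x :=
  tsum_nonneg fun _ => h0 _

theorem per_le_per {R : ℝ} {h k : E n → ℝ} (hs : Sup0 R h) (ks : Sup0 R k)
    (hk : ∀ x, h x ≤ k x) (x : E n) : per h x ≤ per k x :=
  (per_summable hs x).tsum_le_tsum (fun _ => hk _) (per_summable ks x)

theorem le_per {R : ℝ} {h : E n → ℝ} (hs : Sup0 R h) (h0 : ∀ x, 0 ≤ h x) (x : E n) :
    h x ≤ per h x := by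
  have := (per_summable hs x).le_tsum 0 (fun _ _ => h0 _)
  rw [zv_zero, add_zero] at this
  exact this

/-! ### the unit cube -/

/-- integer part vector -/
noncomputable def fl (x : E n) : Fin n → ℤ := fun i => ⌊x i⌋

theorem sub_fl_mem (x : E n) : x - zv (fl x) ∈ Q n := by
  intro i
  simp only [PiLp.sub_apply, zv_apply, fl]
  exact ⟨Int.fract_nonneg _, Int.fract_lt_one _⟩

theorem fl_eq_of_mem {x : E n} {m : Fin n → ℤ} (h : x - zv m ∈ Q n) : m = fl x := by
  funext i
  have := h i
  simp only [PiLp.sub_apply, zv_apply] at this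
  simp only [fl]
  symm
  rw [Int.floor_eq_iff]
  constructor <;> linarith [this.1, this.2]

theorem norm_le_of_mem_Q {x : E n} (hx : x ∈ Q n) : ‖x‖ ≤ n := by
  rw [EuclideanSpace.norm_eq]
  have h1 : ∑ i, ‖x i‖ ^ 2 ≤ ∑ _i : Fin n, (1 : ℝ) := by
    refine Finset.sum_le_sum fun i _ => ?_
    have := hx i
    rw [Real.norm_eq_abs, sq_abs]
    nlinarith [this.1, this.2]
  have h2 : ∑ _i : Fin n, (1 : ℝ) = n := by simp
  rw [h2] at h1
  calc √(∑ i, ‖x i‖ ^ 2) ≤ √(n : ℝ) := Real.sqrt_le_sqrt h1
    _ ≤ n := by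
        rcases Nat.eq_zero_or_pos n with h | h
        · subst h; simp
        · rw [Real.sqrt_le_left (by positivity)]
          have : (1 : ℝ) ≤ n := by exact_mod_cast h
          nlinarith

theorem Per.sub {β : Type*} {f : E n → β} (hf : Per f) (x : E n) (m : Fin n → ℤ) :
    f (x - zv m) = f x := by
  have := hf (x - zv m) m
  rw [sub_add_cancel] at this
  exact this.symm

theorem Per.exists_Q {β : Type*} {f : E n → β} (hf : Per f) (x : E n) :
    ∃ y ∈ Q n, f x = f y := ⟨x - zv (fl x), sub_fl_mem x, (hf.sub x (fl x)).symm⟩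

/-- a constant for the sup bound of the periodization -/
noncomputable def Cp (n : ℕ) (R : ℝ) : ℝ := (boxZ n ⌈R + n⌉₊).card

theorem Cp_nonneg (R : ℝ) : 0 ≤ Cp n R := by unfold Cp; positivity

theorem per_Bd {R b : ℝ} {h : E n → ℝ} (hs : Sup0 R h) (hb : Bd b h) : Bd (Cp n R * b) (per h) := by
  intro x
  obtain ⟨y, hy, hxy⟩ := (Per_per h).exists_Q x
  rw [hxy, per_eq_sum hs (norm_le_of_mem_Q hy) (Nat.le_ceil (R + n))]
  calc |∑ m ∈ boxZ n ⌈R + n⌉₊, h (y + zv m)| ≤ ∑ m ∈ boxZ n ⌈R + n⌉₊, |h (y + zv m)| :=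
        Finset.abs_sum_le_sum_abs _ _
    _ ≤ ∑ _m ∈ boxZ n ⌈R + n⌉₊, b := Finset.sum_le_sum fun m _ => hb _
    _ = Cp n R * b := by simp [Cp]

theorem per_indicator_Q {w : E n → ℝ} (hw : Per w) (x : E n) :
    per ((Q n).indicator w) x = w x := by
  unfold per
  rw [tsum_eq_single (- fl x)]
  · rw [zv_neg, ← sub_eq_add_neg, Set.indicator_of_mem (sub_fl_mem x), hw.sub]
  · intro m hm
    apply Set.indicator_of_notMem
    intro h
    apply hm
    have h2 : x - zv (-m) ∈ Q n := by rwa [zv_neg, sub_neg_eq_add]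
    have := fl_eq_of_mem h2
    rw [← this, neg_neg]

/-! ### a.e. continuity and periodization -/

theorem AC.per {R : ℝ} {h : E n → ℝ} (hs : Sup0 R h) (hh : AC h) : AC (per h) := by
  have h1 : ∀ᵐ x ∂(volume : Measure (E n)), ∀ m : Fin n → ℤ,
      ContinuousAt (fun y => h (y + zv m)) x := ae_all_iff.mpr fun m => hh.comp_add (zv m)
  filter_upwards [h1] with x hx
  obtain ⟨K, hK⟩ := exists_nat_ge (R + (‖x‖ + 1))
  have h2 : (fun y => ∑ m ∈ boxZ n K, h (y + zv m)) =ᶠ[𝓝 x] Geo.per h := by
    have : ∀ᶠ y in 𝓝 x, ‖y‖ < ‖x‖ + 1 :=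
      (continuous_norm.continuousAt (x := x)).eventually_lt continuousAt_const (by linarith)
    filter_upwards [this] with y hy
    exact (per_eq_sum hs hy.le hK).symm
  refine ContinuousAt.congr ?_ h2
  exact tendsto_finsetSum _ fun m _ => hx m

theorem measurableSet_Q : MeasurableSet (Q n) := by
  have : Q n = ⋂ i, {x : E n | 0 ≤ x i ∧ x i < 1} := by ext x; simp [Q]
  rw [this]
  refine MeasurableSet.iInter fun i => ?_
  have hm : Measurable fun x : E n => x i := by fun_prop
  exact hm (measurableSet_Ico (a := (0 : ℝ)) (b := 1))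

/-- the unit cube is the preimage of a product of intervals -/
theorem Q_eq_preimage : Q n = (@WithLp.ofLp 2 (Fin n → ℝ)) ⁻¹'
    (Set.univ.pi fun _ : Fin n => Set.Ico (0 : ℝ) 1) := by
  ext x
  simp [Q, Set.mem_pi]

theorem volume_Q : volume (Q n) = 1 := by
  rw [Q_eq_preimage, (PiLp.volume_preserving_ofLp (Fin n)).measure_preimage
    (MeasurableSet.univ_pi fun _ => measurableSet_Ico).nullMeasurableSet, volume_pi_pi]
  simp

theorem convex_Q : Convex ℝ (Q n) := by
  intro x hx y hy a b ha hb hab i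
  have h1 := hx i
  have h2 := hy i
  have : (a • x + b • y) i = a * x i + b * y i := by simp
  rw [this]
  constructor
  · nlinarith [h1.1, h2.1, mul_nonneg ha h1.1, mul_nonneg hb h2.1]
  · rcases eq_or_lt_of_le ha with h | h
    · have hb1 : b = 1 := by linarith
      subst h
      rw [hb1]
      linarith [h2.2]
    · nlinarith [mul_lt_mul_of_pos_left h1.2 h, mul_le_mul_of_nonneg_left h2.2.le hb]

theorem volume_frontier_Q : volume (frontier (Q n)) = 0 := convex_Q.addHaar_frontier volume

instance isProb_Q : IsProbabilityMeasure ((volume : Measure (E n)).restrict (Q n)) :=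
  ⟨by rw [Measure.restrict_apply_univ, volume_Q]⟩

/-! ### integrals -/

theorem AC.integrableOn {f : E n → ℝ} (hf : AC f) {b : ℝ} (hb : Bd b f) {s : Set (E n)}
    (hs : volume s < ⊤) : IntegrableOn f s volume :=
  Measure.integrableOn_of_bounded (M := b) hs.ne hf.aestronglyMeasurable
    (Eventually.of_forall fun x => by rw [Real.norm_eq_abs]; exact hb x)

theorem AC.integrable {f : E n → ℝ} (hf : AC f) {b R : ℝ} (hb : Bd b f) (hs : Sup0 R f) :
    Integrable f volume := by
  have h1 : IntegrableOn f (Metric.ball 0 R) volume := hf.integrableOn hb measure_ball_lt_top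
  rw [← integrableOn_univ]
  refine h1.of_forall_sdiff_eq_zero MeasurableSet.univ fun x hx => ?_
  apply hs
  simpa using hx.2

/-- translates of the unit cube -/
def Qm (m : Fin n → ℤ) : Set (E n) := {x | x - zv m ∈ Q n}

theorem measurableSet_Qm (m : Fin n → ℤ) : MeasurableSet (Qm m) := by
  have hm : Measurable fun x : E n => x - zv m := by fun_prop
  exact hm measurableSet_Q

theorem iUnion_Qm : (⋃ m, Qm (n := n) m) = Set.univ := by
  ext x
  simp only [Set.mem_iUnion, Set.mem_univ, iff_true]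
  exact ⟨fl x, sub_fl_mem x⟩

theorem disjoint_Qm : Pairwise (Function.onFun Disjoint (Qm (n := n))) := by
  intro a b hab
  rw [Function.onFun, Set.disjoint_left]
  intro x ha hb
  exact hab ((fl_eq_of_mem ha).trans (fl_eq_of_mem hb).symm)

theorem setIntegral_Qm (h : E n → ℝ) (m : Fin n → ℤ) :
    ∫ x in Qm m, h x = ∫ x in Q n, h (x + zv m) := by
  have h1 := (measurePreserving_sub_right (volume : Measure (E n)) (zv m)).setIntegral_preimage_emb
    (MeasurableEquiv.subRight (zv m)).measurableEmbedding (fun x => h (x + zv m)) (Q n)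
  have h2 : (fun x : E n => x - zv m) ⁻¹' (Q n) = Qm m := rfl
  rw [h2] at h1
  simpa using h1

/-- unfolding of the integral -/
theorem integral_per {R b : ℝ} {h : E n → ℝ} (hs : Sup0 R h) (hb : Bd b h) (hh : AC h) :
    ∫ x in Q n, per h x = ∫ x, h x := by
  have hint : Integrable h volume := hh.integrable hb hs
  have h1 : HasSum (fun m : Fin n → ℤ => ∫ x in Qm m, h x) (∫ x in ⋃ m, Qm (n := n) m, h x) :=
    hasSum_integral_iUnion (fun m => measurableSet_Qm m) disjoint_Qm hint.integrableOn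
  rw [iUnion_Qm, setIntegral_univ] at h1
  obtain ⟨K, hK⟩ := exists_nat_ge (R + n)
  have h2 : ∀ m ∉ boxZ n K, ∫ x in Qm m, h x = 0 := by
    intro m hm
    rw [setIntegral_Qm]
    refine setIntegral_eq_zero_of_forall_eq_zero fun x hx => ?_
    by_contra hh
    exact hm (mem_boxZ_of_ne_zero hs (norm_le_of_mem_Q hx) hh hK)
  have h3 : HasSum (fun m : Fin n → ℤ => ∫ x in Qm m, h x)
      (∑ m ∈ boxZ n K, ∫ x in Qm m, h x) := hasSum_sum_of_ne_finset_zero h2
  rw [h1.unique h3]
  have h4 : ∫ x in Q n, per h x = ∫ x in Q n, ∑ m ∈ boxZ n K, h (x + zv m) :=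
    setIntegral_congr_fun measurableSet_Q fun x hx => per_eq_sum hs (norm_le_of_mem_Q hx) hK
  rw [h4, integral_finset_sum]
  · exact Finset.sum_congr rfl fun m _ => (setIntegral_Qm h m).symm
  · intro m _
    exact (hh.comp_add (zv m)).integrableOn (fun x => hb _) (by rw [volume_Q]; exact ENNReal.one_lt_top)

/-- the integral of a periodic function over the unit cube is translation invariant -/
theorem integral_Q_sub {f : E n → ℝ} {b : ℝ} (hf : Per f) (hb : Bd b f) (hAC : AC f) (v : E n) :
    ∫ x in Q n, f (x - v) = ∫ x in Q n, f x := by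
  have hs : Sup0 (n + 1) ((Q n).indicator f) := by
    intro x hx
    apply Set.indicator_of_notMem
    intro h
    linarith [norm_le_of_mem_Q h]
  have hAC' : AC ((Q n).indicator f) := hAC.indicator volume_frontier_Q
  have hb0 : 0 ≤ b := (abs_nonneg _).trans (hb 0)
  have hb' : Bd b ((Q n).indicator f) := by
    intro x
    by_cases h : x ∈ Q n
    · rw [Set.indicator_of_mem h]; exact hb x
    · rw [Set.indicator_of_notMem h]; simpa using hb0
  have h1 : ∀ x, f (x - v) = per (tr v ((Q n).indicator f)) x := by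
    intro x
    rw [per_tr]
    exact (per_indicator_Q hf (x - v)).symm
  have hs2 : Sup0 (n + 1 + ‖v‖) (tr v ((Q n).indicator f)) := by
    intro x hx
    apply hs
    have := norm_sub_norm_le x v
    linarith
  simp_rw [h1]
  rw [integral_per hs2 (fun x => hb' _) (hAC'.comp_sub v)]
  have h2 : ∫ x, f x ∂((volume : Measure (E n)).restrict (Q n)) = ∫ x, (Q n).indicator f x :=
    (integral_indicator measurableSet_Q).symm
  rw [h2]
  exact integral_sub_right_eq_self _ v

/-! ### support condition -/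

theorem Sup0.mono {R R' : ℝ} {h : E n → ℝ} (hs : Sup0 R h) (hR : R ≤ R') : Sup0 R' h :=
  fun x hx => hs x (hR.trans hx)

theorem Sup0.add {R : ℝ} {h k : E n → ℝ} (hs : Sup0 R h) (ks : Sup0 R k) :
    Sup0 R (fun x => h x + k x) := fun x hx => by
  change h x + k x = 0
  rw [hs x hx, ks x hx, add_zero]

theorem Sup0.mul_left {R : ℝ} {h : E n → ℝ} (hs : Sup0 R h) (w : E n → ℝ) :
    Sup0 R (fun x => w x * h x) := fun x hx => by
  change w x * h x = 0
  rw [hs x hx, mul_zero]

theorem Sup0.comp_lin {R : ℝ} {h : E n → ℝ} (hs : Sup0 R h) (g : E n ≃ₗᵢ[ℝ] E n) :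
    Sup0 R (fun x => h (g x)) := fun x hx => hs _ (by rwa [g.norm_map])

theorem Sup0.tr {R : ℝ} {h : E n → ℝ} (hs : Sup0 R h) (v : E n) :
    Sup0 (R + ‖v‖) (Geo.tr v h) := fun x hx => hs _ (by
  have := norm_sub_norm_le x v
  linarith)

theorem Sup0.comp_isom {R : ℝ} {h : E n → ℝ} (hs : Sup0 R h) (g : E n ≃ᵢ E n) :
    Sup0 (R + ‖g.symm 0‖) (fun x => h (g x)) := fun x hx => hs _ (by
  have h1 : ‖x - g.symm 0‖ = ‖g x‖ := by
    have := g.dist_eq x (g.symm 0)
    rw [g.apply_symm_apply, dist_zero_right, dist_eq_norm] at this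
    exact this.symm
  have := norm_sub_norm_le x (g.symm 0)
  linarith)

/-! ### the two function spaces -/

/-- bounded, periodic, a.e. continuous functions -/
def RX (n : ℕ) : Submodule ℝ (E n → ℝ) where
  carrier := {f | (∃ b, Bd b f) ∧ Per f ∧ AC f}
  add_mem' := by
    rintro f g ⟨⟨b, hb⟩, hf, hf'⟩ ⟨⟨c, hc⟩, hg, hg'⟩
    refine ⟨⟨b + c, fun x => (abs_add_le _ _).trans (add_le_add (hb x) (hc x))⟩, fun x m => ?_,
      hf'.add hg'⟩
    change f (x + zv m) + g (x + zv m) = f x + g x
    rw [hf, hg]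
  zero_mem' := ⟨⟨0, fun x => by simp⟩, fun _ _ => rfl, AC.const _⟩
  smul_mem' := by
    rintro c f ⟨⟨b, hb⟩, hf, hf'⟩
    refine ⟨⟨|c| * b, fun x => ?_⟩, fun x m => ?_, hf'.const_mul c⟩
    · change |c * f x| ≤ |c| * b
      rw [abs_mul]
      exact mul_le_mul_of_nonneg_left (hb x) (abs_nonneg c)
    · change c * f (x + zv m) = c * f x
      rw [hf]

/-- bounded, a.e. continuous functions vanishing outside the ball of radius R -/
def RB (n : ℕ) (R : ℝ) : Submodule ℝ (E n → ℝ) where
  carrier := {f | (∃ b, Bd b f) ∧ Sup0 R f ∧ AC f}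
  add_mem' := by
    rintro f g ⟨⟨b, hb⟩, hf, hf'⟩ ⟨⟨c, hc⟩, hg, hg'⟩
    exact ⟨⟨b + c, fun x => (abs_add_le _ _).trans (add_le_add (hb x) (hc x))⟩, hf.add hg,
      hf'.add hg'⟩
  zero_mem' := ⟨⟨0, fun x => by simp⟩, fun _ _ => rfl, AC.const _⟩
  smul_mem' := by
    rintro c f ⟨⟨b, hb⟩, hf, hf'⟩
    refine ⟨⟨|c| * b, fun x => ?_⟩, fun x hx => ?_, hf'.const_mul c⟩
    · change |c * f x| ≤ |c| * b
      rw [abs_mul]
      exact mul_le_mul_of_nonneg_left (hb x) (abs_nonneg c)
    · change c * f x = 0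
      rw [hf x hx, mul_zero]

theorem mem_RX {f : E n → ℝ} : f ∈ RX n ↔ (∃ b, Bd b f) ∧ Per f ∧ AC f := Iff.rfl

theorem mem_RB {R : ℝ} {f : E n → ℝ} : f ∈ RB n R ↔ (∃ b, Bd b f) ∧ Sup0 R f ∧ AC f := Iff.rfl

/-- the periodization as a linear map -/
noncomputable def perL (n : ℕ) (R : ℝ) : RB n R →ₗ[ℝ] RX n where
  toFun h := ⟨per h.1, ⟨⟨_, per_Bd h.2.2.1 h.2.1.choose_spec⟩, Per_per _, AC.per h.2.2.1 h.2.2.2⟩⟩
  map_add' h k := by
    apply Subtype.ext
    funext x
    exact per_add h.2.2.1 k.2.2.1 x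
  map_smul' c h := by
    apply Subtype.ext
    funext x
    exact per_const_mul c h.1 x

/-- h maps to h composed with the inverse of g -/
noncomputable def compL (n : ℕ) (R : ℝ) (g : E n ≃ₗᵢ[ℝ] E n) : RB n R →ₗ[ℝ] RB n R where
  toFun h := ⟨fun x => h.1 (g.symm x), ⟨⟨_, fun _ => h.2.1.choose_spec _⟩, h.2.2.1.comp_lin g.symm,
    h.2.2.2.comp_lin g.symm⟩⟩
  map_add' _ _ := rfl
  map_smul' _ _ := rfl

@[simp] theorem perL_apply {R : ℝ} (h : RB n R) : (perL n R h).1 = per h.1 := rfl

@[simp] theorem compL_apply {R : ℝ} (g : E n ≃ₗᵢ[ℝ] E n) (h : RB n R) (x : E n) :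
    (compL n R g h).1 x = h.1 (g.symm x) := rfl

/-- the constant function one -/
def oneX (n : ℕ) : RX n := ⟨fun _ => 1, ⟨⟨1, fun x => by simp⟩, fun _ _ => rfl, AC.const _⟩⟩

/-- the L1 spectral gap property of a finite family of linear isometries -/
def GapP {n : ℕ} {ι : Type*} [Fintype ι] (γ : ι → (E n ≃ₗᵢ[ℝ] E n)) (R c : ℝ) : Prop :=
  ∀ F : E n → ℝ, Continuous F → Per F → (∀ x, 0 ≤ F x) →
    (∫ x in Q n, |F x - ∫ y in Q n, F y|) ^ 2 ≤
      c * (∑ i, ∫ x in Metric.ball (0 : E n) R, |F (γ i x) - F x|) * ∫ x in Q n, F x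

end Pool.MP_2fe79c_gt.Geo
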