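import Pool.Agent.Lib.MP_2fe79c_gt.Geo.Pot

/-!
MP_2fe79c_gt, geometric bodies. Module Block: the gluing of the potentials of different levels (pointwise part).

NOTATION. KK j = rectangles of level j, ii x = the least j with x in KK j. Points y, y' are neighbours if each of the
two coordinates i₁, i₂ of y' is that of y or that of y plus or minus α.
(T) If i < j, y ∈ KK i and y' is a neighbour of y, then y ∈ KK j ↔ y' ∈ KK j. [Coordinatewise: t ∉ N i implies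
    (t ∈ N j ↔ t - α ∈ N j) and (t + α ∈ N j ↔ t ∈ N j), both by the contrapositive of ToastP.bdry.]
Let a finite set of pairwise neighbours, each in some KK, be given (2 or 4 points), J = the maximum of ii over
the set, attained at y*.
(M) every y in the set is in KK J (if ii y < J use (T) with i = ii y, j = J and y*).
(S) if ii y < J and ii y' < J then ii y = ii y': if ii y' < ii y =: a then y' ∈ KK a by (T) (i = ii y', y ∈ KK a), and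
    again by (T) (from y' to y*) y* ∈ KK a, a < J, contradiction.
MOD 1: if y ∈ KK j (j ≥ ii y) then Psi j y = pot j y mod 1: fract (a - s) + s = a mod 1 for every real a.
Dl_vert: j = max (ii x) (ii x'), x' = x - α e₂, both in KK j by (M); pot_vert. Dl_horz: the same with pot_horz.
Dl_bound: Psi (ii x) x ∈ [s, s+1), any other Psi j x ∈ [2s, 2s+2), and at least one of x, y has level = max.
Dl_closed: let a = x, b = x - α e₁, c = x - α e₂, d = x - α e₁ - α e₂ (pairwise neighbours) and J the maximal level.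
 Claim: Dl y y' = Psi J y - Psi J y' for the four pairs (a,c), (b,d), (a,b), (c,d). If max (ii y) (ii y') = J this is
 the definition. Otherwise ii y = ii y' = i < J by (S), and the difference of the two sides is
 fract (pot J y - pot i y - s) - fract (pot J y' - pot i y' - s), which is 0 because
 (pot J y - pot J y') - (pot i y - pot i y') is an integer (pot_vert or pot_horz for J and for i; fract depends
 only on the class mod 1, Int.fract_eq_fract). Now the sum of the four terms telescopes to 0.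
-/

set_option autoImplicit false
open MeasureTheory Filter Topology

namespace Pool.MP_2fe79c_gt.Geo

/-- the first level whose rectangles contain x -/
noncomputable def ii {n : ℕ} (N : ℕ → Set ℝ) (i₁ i₂ : Fin n) (x : E n) : ℕ :=
  sInf {j : ℕ | x ∈ KK N i₁ i₂ j}

/-- lifted potential, P j is the potential of level j -/
noncomputable def Psi {n : ℕ} (N : ℕ → Set ℝ) (i₁ i₂ : Fin n) (P : ℕ → E n → ℝ) (s : ℝ) (j : ℕ)
    (x : E n) : ℝ :=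
  if ii N i₁ i₂ x = j then Int.fract (P j x - s) + s
  else (Int.fract (P (ii N i₁ i₂ x) x - s) + s) +
    (Int.fract (P j x - P (ii N i₁ i₂ x) x - s) + s)

/-- difference of the glued potential between x and y -/
noncomputable def Dl {n : ℕ} (N : ℕ → Set ℝ) (i₁ i₂ : Fin n) (P : ℕ → E n → ℝ) (s : ℝ)
    (x y : E n) : ℝ :=
  Psi N i₁ i₂ P s (max (ii N i₁ i₂ x) (ii N i₁ i₂ y)) x -
    Psi N i₁ i₂ P s (max (ii N i₁ i₂ x) (ii N i₁ i₂ y)) y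

private theorem psi_mod {n : ℕ} (N : ℕ → Set ℝ) (i₁ i₂ : Fin n) (P : ℕ → E n → ℝ) (s : ℝ)
    (j : ℕ) (x : E n) : ∃ z : ℤ, Psi N i₁ i₂ P s j x - P j x = z := by
  unfold Psi
  split_ifs with h
  · refine ⟨-⌊P j x - s⌋, ?_⟩
    unfold Int.fract
    push_cast
    ring
  · refine ⟨-⌊P (ii N i₁ i₂ x) x - s⌋ - ⌊P j x - P (ii N i₁ i₂ x) x - s⌋, ?_⟩
    unfold Int.fract
    push_cast
    ring

private theorem psi_eq_bd {n : ℕ} (N : ℕ → Set ℝ) (i₁ i₂ : Fin n) (P : ℕ → E n → ℝ) (s : ℝ)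
    (j : ℕ) (x : E n) (h : ii N i₁ i₂ x = j) :
    s ≤ Psi N i₁ i₂ P s j x ∧ Psi N i₁ i₂ P s j x < s + 1 := by
  unfold Psi
  rw [if_pos h]
  have h1 := Int.fract_nonneg (P j x - s)
  have h2 := Int.fract_lt_one (P j x - s)
  constructor <;> linarith

private theorem psi_bd {n : ℕ} (N : ℕ → Set ℝ) (i₁ i₂ : Fin n) (P : ℕ → E n → ℝ) (s : ℝ)
    (h0 : 0 ≤ s) (_h1 : s < 1) (j : ℕ) (x : E n) :
    s ≤ Psi N i₁ i₂ P s j x ∧ Psi N i₁ i₂ P s j x < 2 * s + 2 := by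
  by_cases h : ii N i₁ i₂ x = j
  · have := psi_eq_bd N i₁ i₂ P s j x h
    constructor <;> linarith [this.1, this.2]
  · unfold Psi
    rw [if_neg h]
    have h2 := Int.fract_nonneg (P (ii N i₁ i₂ x) x - s)
    have h3 := Int.fract_lt_one (P (ii N i₁ i₂ x) x - s)
    have h4 := Int.fract_nonneg (P j x - P (ii N i₁ i₂ x) x - s)
    have h5 := Int.fract_lt_one (P j x - P (ii N i₁ i₂ x) x - s)
    constructor <;> linarith

theorem Dl_bound {n : ℕ} (N : ℕ → Set ℝ) (i₁ i₂ : Fin n) (P : ℕ → E n → ℝ) {s : ℝ} (h0 : 0 ≤ s)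
    (h1 : s < 1) (x y : E n) : |Dl N i₁ i₂ P s x y| ≤ 3 := by
  unfold Dl
  have hx := psi_bd N i₁ i₂ P s h0 h1 (max (ii N i₁ i₂ x) (ii N i₁ i₂ y)) x
  have hy := psi_bd N i₁ i₂ P s h0 h1 (max (ii N i₁ i₂ x) (ii N i₁ i₂ y)) y
  rw [abs_le]
  rcases le_total (ii N i₁ i₂ x) (ii N i₁ i₂ y) with h | h
  · have hy' := psi_eq_bd N i₁ i₂ P s (max (ii N i₁ i₂ x) (ii N i₁ i₂ y)) y
      (max_eq_right h).symm
    constructor <;> linarith [hx.1, hx.2, hy'.1, hy'.2]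
  · have hx' := psi_eq_bd N i₁ i₂ P s (max (ii N i₁ i₂ x) (ii N i₁ i₂ y)) x
      (max_eq_left h).symm
    constructor <;> linarith [hx'.1, hx'.2, hy.1, hy.2]

/-- neighbours on the line -/
private def Nb (α t t' : ℝ) : Prop := t' = t ∨ t' = t - α ∨ t' = t + α

private theorem Nb.symm {α t t' : ℝ} (h : Nb α t t') : Nb α t' t := by
  rcases h with h | h | h
  · exact Or.inl h.symm
  · exact Or.inr (Or.inr (by linarith))
  · exact Or.inr (Or.inl (by linarith))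

private theorem nb_mem {α : ℝ} {N : ℕ → Set ℝ} (hN : ToastP α N) {i j : ℕ} (hij : i < j)
    {t t' : ℝ} (h : Nb α t t') (ht : t ∉ N i) : (t ∈ N j ↔ t' ∈ N j) := by
  rcases h with h | h | h
  · rw [h]
  · by_contra hcon
    rw [h] at hcon
    exact ht (hN.bdry i j t hij hcon).1
  · by_contra hcon
    have h1 : ¬ (t' ∈ N j ↔ t' - α ∈ N j) := by
      have : t' - α = t := by linarith
      rw [this]
      tauto
    have h2 := (hN.bdry i j t' hij h1).2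
    have : t' - α = t := by linarith
    rw [this] at h2
    exact ht h2

/-- neighbours -/
private def NB {n : ℕ} (α : ℝ) (i₁ i₂ : Fin n) (x y : E n) : Prop :=
  Nb α (x i₁) (y i₁) ∧ Nb α (x i₂) (y i₂)

private theorem NB.symm {n : ℕ} {α : ℝ} {i₁ i₂ : Fin n} {x y : E n} (h : NB α i₁ i₂ x y) :
    NB α i₁ i₂ y x := ⟨Nb.symm h.1, Nb.symm h.2⟩

private theorem NB_KK {n : ℕ} {α : ℝ} {N : ℕ → Set ℝ} (hN : ToastP α N) {i₁ i₂ : Fin n}
    {i j : ℕ} (hij : i < j) {y y' : E n} (h : NB α i₁ i₂ y y') (hy : y ∈ KK N i₁ i₂ i) :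
    y ∈ KK N i₁ i₂ j ↔ y' ∈ KK N i₁ i₂ j := by
  unfold KK at *
  simp only [Set.mem_ofPred_eq] at *
  rw [nb_mem hN hij h.1 hy.1, nb_mem hN hij h.2 hy.2]

private theorem mem_KK_ii {n : ℕ} {N : ℕ → Set ℝ} {i₁ i₂ : Fin n} {x : E n}
    (hx : ∃ j, x ∈ KK N i₁ i₂ j) : x ∈ KK N i₁ i₂ (ii N i₁ i₂ x) :=
  Nat.sInf_mem (s := {j : ℕ | x ∈ KK N i₁ i₂ j}) hx

private theorem ii_le {n : ℕ} {N : ℕ → Set ℝ} {i₁ i₂ : Fin n} {x : E n} {j : ℕ}
    (hx : x ∈ KK N i₁ i₂ j) : ii N i₁ i₂ x ≤ j :=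
  Nat.sInf_le (s := {j : ℕ | x ∈ KK N i₁ i₂ j}) hx

private theorem KK_of_le {n : ℕ} {α : ℝ} {N : ℕ → Set ℝ} (hN : ToastP α N) {i₁ i₂ : Fin n}
    {y y' : E n} (h : NB α i₁ i₂ y y') (hy : ∃ j, y ∈ KK N i₁ i₂ j)
    (hy' : ∃ j, y' ∈ KK N i₁ i₂ j) (hle : ii N i₁ i₂ y ≤ ii N i₁ i₂ y') :
    y ∈ KK N i₁ i₂ (ii N i₁ i₂ y') := by
  rcases eq_or_lt_of_le hle with he | hl
  · rw [← he]
    exact mem_KK_ii hy
  · rw [NB_KK hN hl h (mem_KK_ii hy)]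
    exact mem_KK_ii hy'

private theorem KK_max {n : ℕ} {α : ℝ} {N : ℕ → Set ℝ} (hN : ToastP α N) {i₁ i₂ : Fin n}
    {y y' : E n} (h : NB α i₁ i₂ y y') (hy : ∃ j, y ∈ KK N i₁ i₂ j)
    (hy' : ∃ j, y' ∈ KK N i₁ i₂ j) :
    y ∈ KK N i₁ i₂ (max (ii N i₁ i₂ y) (ii N i₁ i₂ y')) ∧
      y' ∈ KK N i₁ i₂ (max (ii N i₁ i₂ y) (ii N i₁ i₂ y')) := by
  rcases le_total (ii N i₁ i₂ y) (ii N i₁ i₂ y') with hl | hl
  · rw [max_eq_right hl]
    exact ⟨KK_of_le hN h hy hy' hl, mem_KK_ii hy'⟩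
  · rw [max_eq_left hl]
    exact ⟨mem_KK_ii hy, KK_of_le hN h.symm hy' hy hl⟩

private theorem not_lt_S {n : ℕ} {α : ℝ} {N : ℕ → Set ℝ} (hN : ToastP α N) {i₁ i₂ : Fin n}
    {y y' z : E n} (h : NB α i₁ i₂ y' y) (hz : NB α i₁ i₂ y' z)
    (hy : ∃ j, y ∈ KK N i₁ i₂ j) (hy' : ∃ j, y' ∈ KK N i₁ i₂ j)
    (hlt : ii N i₁ i₂ y < ii N i₁ i₂ z) : ¬ ii N i₁ i₂ y' < ii N i₁ i₂ y := by
  intro hcon
  have h1 : y' ∈ KK N i₁ i₂ (ii N i₁ i₂ y) := KK_of_le hN h hy' hy hcon.le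
  have h2 : z ∈ KK N i₁ i₂ (ii N i₁ i₂ y) := (NB_KK hN hcon hz (mem_KK_ii hy')).mp h1
  have h3 := ii_le h2
  omega

/-- the differences may be computed at a common level -/
private theorem Dl_eq {n : ℕ} {α : ℝ} {N : ℕ → Set ℝ} (hN : ToastP α N) {i₁ i₂ : Fin n}
    (P : ℕ → E n → ℝ) (s w : ℝ) {y y' z : E n} (h : NB α i₁ i₂ y y')
    (hyz : NB α i₁ i₂ y z) (hyz' : NB α i₁ i₂ y' z)
    (hy : ∃ j, y ∈ KK N i₁ i₂ j) (hy' : ∃ j, y' ∈ KK N i₁ i₂ j) (hz : ∃ j, z ∈ KK N i₁ i₂ j)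
    (hle : ii N i₁ i₂ y ≤ ii N i₁ i₂ z) (hle' : ii N i₁ i₂ y' ≤ ii N i₁ i₂ z)
    (hint : ∀ j, y' ∈ KK N i₁ i₂ j → ∃ k : ℤ, P j y - P j y' - w = k) :
    Dl N i₁ i₂ P s y y' =
      Psi N i₁ i₂ P s (ii N i₁ i₂ z) y - Psi N i₁ i₂ P s (ii N i₁ i₂ z) y' := by
  by_cases hJ : max (ii N i₁ i₂ y) (ii N i₁ i₂ y') = ii N i₁ i₂ z
  · unfold Dl
    rw [hJ]
  · have hl : ii N i₁ i₂ y < ii N i₁ i₂ z := by
      rcases lt_or_eq_of_le hle with h1 | h1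
      · exact h1
      · exfalso
        apply hJ
        rw [h1]
        exact max_eq_left hle'
    have hl' : ii N i₁ i₂ y' < ii N i₁ i₂ z := by
      rcases lt_or_eq_of_le hle' with h1 | h1
      · exact h1
      · exfalso
        apply hJ
        rw [h1]
        exact max_eq_right hle
    have he : ii N i₁ i₂ y = ii N i₁ i₂ y' := by
      have h1 := not_lt_S hN h.symm hyz' hy hy' hl
      have h2 := not_lt_S hN h hyz hy' hy hl'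
      omega
    have hK : y' ∈ KK N i₁ i₂ (ii N i₁ i₂ z) := KK_of_le hN hyz' hy' hz hle'
    have hK' : y' ∈ KK N i₁ i₂ (ii N i₁ i₂ y') := mem_KK_ii hy'
    obtain ⟨k, hk⟩ := hint _ hK
    obtain ⟨k', hk'⟩ := hint _ hK'
    unfold Dl Psi
    rw [he, max_self, if_pos rfl, if_pos rfl, if_neg hl'.ne, if_neg hl'.ne]
    have hf : Int.fract (P (ii N i₁ i₂ z) y - P (ii N i₁ i₂ y') y - s) =
        Int.fract (P (ii N i₁ i₂ z) y' - P (ii N i₁ i₂ y') y' - s) := by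
      rw [Int.fract_eq_fract]
      refine ⟨k - k', ?_⟩
      push_cast
      rw [← hk, ← hk']
      ring
    rw [hf]
    ring

private theorem ev_apply_self' {n : ℕ} (i : Fin n) : (ev i : E n) i = 1 := by
  simp [ev]

private theorem ev_apply_ne' {n : ℕ} {i k : Fin n} (h : k ≠ i) : (ev i : E n) k = 0 := by
  simp [ev, h]

private theorem sub_ev_self' {n : ℕ} (x : E n) (a : ℝ) (i : Fin n) :
    (x - a • ev i) i = x i - a := by
  simp [ev_apply_self']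

private theorem sub_ev_ne' {n : ℕ} (x : E n) (a : ℝ) {i k : Fin n} (h : k ≠ i) :
    (x - a • ev i) k = x k := by
  simp [ev_apply_ne' h]

/-- membership in the block of four points -/
private def Fo {n : ℕ} (α : ℝ) (i₁ i₂ : Fin n) (x y : E n) : Prop :=
  (y i₁ = x i₁ ∨ y i₁ = x i₁ - α) ∧ (y i₂ = x i₂ ∨ y i₂ = x i₂ - α)

private theorem Fo.nb {n : ℕ} {α : ℝ} {i₁ i₂ : Fin n} {x y y' : E n} (h : Fo α i₁ i₂ x y)
    (h' : Fo α i₁ i₂ x y') : NB α i₁ i₂ y y' := by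
  refine ⟨?_, ?_⟩
  · rcases h.1 with h1 | h1 <;> rcases h'.1 with h2 | h2
    · exact Or.inl (by rw [h1, h2])
    · exact Or.inr (Or.inl (by rw [h1, h2]))
    · exact Or.inr (Or.inr (by rw [h1, h2]; ring))
    · exact Or.inl (by rw [h1, h2])
  · rcases h.2 with h1 | h1 <;> rcases h'.2 with h2 | h2
    · exact Or.inl (by rw [h1, h2])
    · exact Or.inr (Or.inl (by rw [h1, h2]))
    · exact Or.inr (Or.inr (by rw [h1, h2]; ring))
    · exact Or.inl (by rw [h1, h2])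

private theorem fo_a {n : ℕ} (α : ℝ) (i₁ i₂ : Fin n) (x : E n) : Fo α i₁ i₂ x x :=
  ⟨Or.inl rfl, Or.inl rfl⟩

private theorem fo_b {n : ℕ} (α : ℝ) {i₁ i₂ : Fin n} (h12 : i₁ ≠ i₂) (x : E n) :
    Fo α i₁ i₂ x (x - α • ev i₁) :=
  ⟨Or.inr (sub_ev_self' x α i₁), Or.inl (sub_ev_ne' x α h12.symm)⟩

private theorem fo_c {n : ℕ} (α : ℝ) {i₁ i₂ : Fin n} (h12 : i₁ ≠ i₂) (x : E n) :
    Fo α i₁ i₂ x (x - α • ev i₂) :=
  ⟨Or.inl (sub_ev_ne' x α h12), Or.inr (sub_ev_self' x α i₂)⟩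

private theorem fo_d {n : ℕ} (α : ℝ) {i₁ i₂ : Fin n} (h12 : i₁ ≠ i₂) (x : E n) :
    Fo α i₁ i₂ x (x - α • ev i₁ - α • ev i₂) :=
  ⟨Or.inr (by rw [sub_ev_ne' _ α h12, sub_ev_self']),
    Or.inr (by rw [sub_ev_self', sub_ev_ne' x α h12.symm])⟩

theorem Dl_vert {n : ℕ} {α : ℝ} {N : ℕ → Set ℝ} (hN : ToastP α N) {i₁ i₂ : Fin n} (h12 : i₁ ≠ i₂)
    (c₁ c₂ : E n → ℝ) (s : ℝ) (x : E n) (hx : ∃ j, x ∈ KK N i₁ i₂ j)
    (hx' : ∃ j, x - α • ev i₂ ∈ KK N i₁ i₂ j) :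
    ∃ z : ℤ, c₁ x - Dl N i₁ i₂ (pot α N i₁ i₂ c₁ c₂) s x (x - α • ev i₂) = z := by
  have h1 := (KK_max hN ((fo_a α i₁ i₂ x).nb (fo_c α h12 x)) hx hx').2
  unfold Dl
  set j := max (ii N i₁ i₂ x) (ii N i₁ i₂ (x - α • ev i₂)) with hj
  have h2 : x i₂ - α ∉ N j := by
    have h3 := h1.2
    rwa [sub_ev_self'] at h3
  have h3 := pot_vert hN h12 c₁ c₂ j x h2
  obtain ⟨z, hz⟩ := psi_mod N i₁ i₂ (pot α N i₁ i₂ c₁ c₂) s j x
  obtain ⟨z', hz'⟩ := psi_mod N i₁ i₂ (pot α N i₁ i₂ c₁ c₂) s j (x - α • ev i₂)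
  refine ⟨z' - z, ?_⟩
  push_cast
  rw [← hz, ← hz']
  linarith

theorem Dl_horz {n : ℕ} {α : ℝ} {N : ℕ → Set ℝ} (hN : ToastP α N) {i₁ i₂ : Fin n} (h12 : i₁ ≠ i₂)
    (c₁ c₂ : E n → ℝ) (s : ℝ) (x : E n) (hx : ∃ j, x ∈ KK N i₁ i₂ j)
    (hx' : ∃ j, x - α • ev i₁ ∈ KK N i₁ i₂ j)
    (hc : ∀ a : ℕ, ∃ z : ℤ, (c₁ (x - ((a : ℝ) * α) • ev i₂) -
      c₁ (x - ((a : ℝ) * α) • ev i₂ - α • ev i₁)) + (c₂ (x - ((a : ℝ) * α) • ev i₂) -
      c₂ (x - ((a : ℝ) * α) • ev i₂ - α • ev i₂)) = z) :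
    ∃ z : ℤ, c₂ x + Dl N i₁ i₂ (pot α N i₁ i₂ c₁ c₂) s x (x - α • ev i₁) = z := by
  have h1 := (KK_max hN ((fo_a α i₁ i₂ x).nb (fo_b α h12 x)) hx hx').2
  unfold Dl
  set j := max (ii N i₁ i₂ x) (ii N i₁ i₂ (x - α • ev i₁)) with hj
  have h2 : x i₁ - α ∉ N j := by
    have h3 := h1.1
    rwa [sub_ev_self'] at h3
  obtain ⟨w, hw⟩ := pot_horz hN h12 c₁ c₂ j x h2 hc
  obtain ⟨z, hz⟩ := psi_mod N i₁ i₂ (pot α N i₁ i₂ c₁ c₂) s j x
  obtain ⟨z', hz'⟩ := psi_mod N i₁ i₂ (pot α N i₁ i₂ c₁ c₂) s j (x - α • ev i₁)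
  refine ⟨w + z - z', ?_⟩
  push_cast
  rw [← hz, ← hz', ← hw]
  ring

theorem Dl_closed {n : ℕ} {α : ℝ} {N : ℕ → Set ℝ} (hN : ToastP α N) {i₁ i₂ : Fin n} (h12 : i₁ ≠ i₂)
    (c₁ c₂ : E n → ℝ) (s : ℝ) (x : E n) (ha : ∃ j, x ∈ KK N i₁ i₂ j)
    (hb : ∃ j, x - α • ev i₁ ∈ KK N i₁ i₂ j) (hc' : ∃ j, x - α • ev i₂ ∈ KK N i₁ i₂ j)
    (hd : ∃ j, x - α • ev i₁ - α • ev i₂ ∈ KK N i₁ i₂ j)
    (hc : ∀ a : ℕ, ∃ z : ℤ, (c₁ (x - ((a : ℝ) * α) • ev i₂) -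
      c₁ (x - ((a : ℝ) * α) • ev i₂ - α • ev i₁)) + (c₂ (x - ((a : ℝ) * α) • ev i₂) -
      c₂ (x - ((a : ℝ) * α) • ev i₂ - α • ev i₂)) = z) :
    Dl N i₁ i₂ (pot α N i₁ i₂ c₁ c₂) s x (x - α • ev i₂)
      - Dl N i₁ i₂ (pot α N i₁ i₂ c₁ c₂) s (x - α • ev i₁) (x - α • ev i₁ - α • ev i₂)
      - Dl N i₁ i₂ (pot α N i₁ i₂ c₁ c₂) s x (x - α • ev i₁)
      + Dl N i₁ i₂ (pot α N i₁ i₂ c₁ c₂) s (x - α • ev i₂) (x - α • ev i₂ - α • ev i₁) = 0 := by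
  have hdd : x - α • ev i₂ - α • ev i₁ = x - α • ev i₁ - α • ev i₂ := by abel
  rw [hdd]
  have fa := fo_a α i₁ i₂ x
  have fb := fo_b α h12 x
  have fc := fo_c α h12 x
  have fd := fo_d α h12 x
  -- a point of maximal level
  obtain ⟨z, hzF, hzK, h1, h2, h3, h4⟩ : ∃ z : E n, Fo α i₁ i₂ x z ∧ (∃ j, z ∈ KK N i₁ i₂ j) ∧
      ii N i₁ i₂ x ≤ ii N i₁ i₂ z ∧ ii N i₁ i₂ (x - α • ev i₁) ≤ ii N i₁ i₂ z ∧
      ii N i₁ i₂ (x - α • ev i₂) ≤ ii N i₁ i₂ z ∧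
      ii N i₁ i₂ (x - α • ev i₁ - α • ev i₂) ≤ ii N i₁ i₂ z := by
    rcases le_total (ii N i₁ i₂ x) (ii N i₁ i₂ (x - α • ev i₁)) with h1 | h1 <;>
    rcases le_total (ii N i₁ i₂ (x - α • ev i₂)) (ii N i₁ i₂ (x - α • ev i₁ - α • ev i₂))
      with h2 | h2
    · rcases le_total (ii N i₁ i₂ (x - α • ev i₁)) (ii N i₁ i₂ (x - α • ev i₁ - α • ev i₂))
        with h3 | h3
      · exact ⟨_, fd, hd, h1.trans h3, h3, h2, le_rfl⟩
      · exact ⟨_, fb, hb, h1, le_rfl, h2.trans h3, h3⟩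
    · rcases le_total (ii N i₁ i₂ (x - α • ev i₁)) (ii N i₁ i₂ (x - α • ev i₂)) with h3 | h3
      · exact ⟨_, fc, hc', h1.trans h3, h3, le_rfl, h2⟩
      · exact ⟨_, fb, hb, h1, le_rfl, h3, h2.trans h3⟩
    · rcases le_total (ii N i₁ i₂ x) (ii N i₁ i₂ (x - α • ev i₁ - α • ev i₂)) with h3 | h3
      · exact ⟨_, fd, hd, h3, h1.trans h3, h2, le_rfl⟩
      · exact ⟨_, fa, ha, le_rfl, h1, h2.trans h3, h3⟩
    · rcases le_total (ii N i₁ i₂ x) (ii N i₁ i₂ (x - α • ev i₂)) with h3 | h3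
      · exact ⟨_, fc, hc', h3, h1.trans h3, le_rfl, h2⟩
      · exact ⟨_, fa, ha, le_rfl, h1, h3, h2.trans h3⟩
  have e1 := Dl_eq hN (pot α N i₁ i₂ c₁ c₂) s (c₁ x) (fa.nb fc) (fa.nb hzF) (fc.nb hzF) ha hc' hzK
    h1 h3 (fun j hj => ⟨0, by
      have h5 : x i₂ - α ∉ N j := by
        have h6 := hj.2
        rwa [sub_ev_self'] at h6
      rw [pot_vert hN h12 c₁ c₂ j x h5]
      simp⟩)
  have e2 := Dl_eq hN (pot α N i₁ i₂ c₁ c₂) s (c₁ (x - α • ev i₁)) (fb.nb fd) (fb.nb hzF)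
    (fd.nb hzF) hb hd hzK h2 h4 (fun j hj => ⟨0, by
      have h5 : (x - α • ev i₁) i₂ - α ∉ N j := by
        have h6 := hj.2
        rwa [sub_ev_self'] at h6
      rw [pot_vert hN h12 c₁ c₂ j (x - α • ev i₁) h5]
      simp⟩)
  have e3 := Dl_eq hN (pot α N i₁ i₂ c₁ c₂) s (- c₂ x) (fa.nb fb) (fa.nb hzF) (fb.nb hzF) ha hb hzK
    h1 h2 (fun j hj => by
      have h5 : x i₁ - α ∉ N j := by
        have h6 := hj.1
        rwa [sub_ev_self'] at h6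
      obtain ⟨k, hk⟩ := pot_horz hN h12 c₁ c₂ j x h5 hc
      exact ⟨k, by rw [← hk]; ring⟩)
  have e4 := Dl_eq hN (pot α N i₁ i₂ c₁ c₂) s (- c₂ (x - α • ev i₂)) (fc.nb fd) (fc.nb hzF)
    (fd.nb hzF) hc' hd hzK h3 h4 (fun j hj => by
      have h5 : (x - α • ev i₂) i₁ - α ∉ N j := by
        have h6 := hj.1
        rwa [← hdd, sub_ev_self'] at h6
      obtain ⟨k, hk⟩ := pot_horz hN h12 c₁ c₂ j (x - α • ev i₂) h5 (fun a => by
        obtain ⟨k, hk⟩ := hc (a + 1)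
        refine ⟨k, ?_⟩
        have e5 : x - α • ev i₂ - ((a : ℝ) * α) • ev i₂ =
            x - (((a + 1 : ℕ) : ℝ) * α) • ev i₂ := by
          push_cast
          module
        rw [e5]
        exact hk)
      rw [hdd] at hk
      exact ⟨k, by rw [← hk]; ring⟩)
  rw [e1, e2, e3, e4]
  ring

end Pool.MP_2fe79c_gt.Geo
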