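import Pool.Agent.Lib.MP_2fe79c_gt.Geo.Rot

/-!
MP_2fe79c_gt, geometric bodies. Module Comb: the combinatorial spectral gap on Z^n.

PROOF. Fix three distinct coordinates T = {j,k,l} and let P_T be the 6 ordered pairs p = (s,t),
s ≠ t in T; write p' = (t,s) for the swapped pair. The integral matrix mT p is 5 times an
orthogonal matrix and mT p (mT p' z) = 25 z (direct computation), so
    mT p w = 5 z  <->  mT p' z = 5 w.                                              (1)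
For z with z_T ≠ 0 let v(z) = largest e with 5^e | z_j, z_k, z_l and z' = z / 5^v(z) on T.
 DOWN p z : v(mT p z) = v(z), i.e. mT p z' is not divisible by 5 on T.
   For p = (s,t): (mT p z')_s = 3 z'_s + 4 z'_t, (mT p z')_t = 3 z'_t - 4 z'_s, other = 5 z'.
   mod 5: (mT p z')_t = 3 z'_t + z'_s, (mT p z')_s = 3 (3 z'_t + z'_s) mod 5. Hence
   not DOWN p z  <->  z'_s = 2 z'_t mod 5   (indeed 3 z_t + z_s = 0 <-> z_s = -3 z_t = 2 z_t).
   FACT A: for z'_T ≠ 0 mod 5 at most 2 of the 6 ordered pairs (s,t) satisfy z'_s = 2 z'_t mod 5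
   (finite check over (ZMod 5)^3, decide). So at least 4 of the 6 pairs are DOWN.
 UP p w : v(mT p w) = v(w) + 2.
   FACT B: for w_T ≠ 0 at most one of the 6 pairs is UP.  (If p = (s,t) is UP, w' = w/5^v(w), then
   5 w'_r is divisible by 25 for the third coordinate r, so w'_r = 0 mod 5, and w'_s = 2 w'_t mod 5.
   Two different pairs with the same {s,t}: w'_s = 2 w'_t and w'_t = 2 w'_s, so w' = 0 mod 5 on T.
   Different {s,t}: both third coordinates vanish mod 5, so one of the coordinates of a pair is 0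
   mod 5 and then the other one too. Contradiction to w' ≠ 0 mod 5 on T.)
 If z is DOWN for p' and mT p w = 5 z then UP p w: v(w) + 1 = v(5w) = v(mT p' z) = v(z) and
   v(mT p w) = v(5 z) = v(z) + 1 = v(w) + 2, also w_T ≠ 0.
Let eps_p = (a.mapDomain (mT p) - a.mapDomain m5). mT p and m5 are injective on Z^n (mT p' mT p = 25).
For z in the support of a with z_T ≠ 0 and DOWN p' z:  (a.mapDomain m5)(m5 z) = a z and
(a.mapDomain (mT p))(m5 z) = a w if mT p w = m5 z for some (unique) w, and 0 otherwise. So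
    |a z|^2 ≤ 2 |a w|^2 + 2 |eps_p (m5 z)|^2   (or without the first term).
Sum over z and the six p, with S = sum_{z_T ≠ 0} |a z|^2; z -> m5 z and z -> w are injective:
    4 S ≤ 2 S + 2 sum_{p in P_T} ||eps_p||^2,  i.e.  S ≤ sum_{p in P_T} ||eps_p||^2 ≤ sum_p ||eps_p||^2.
Every z ≠ 0 has a coordinate i with z_i ≠ 0; choose for each i a triple T_i containing i (n ≥ 3)
and sum over i: sum |a z|^2 ≤ n * sum_p ||eps_p||^2.
-/

set_option autoImplicit false
open MeasureTheory Filter Topology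

namespace Pool.MP_2fe79c_gt.Geo

/-- coordinates of the swapped pair -/
def comb_sw {n : ℕ} (p : Jn n) : Jn n := ⟨(p.1.2, p.1.1), p.2.symm⟩

theorem comb_mT_mT {n : ℕ} (p : Jn n) (z : Fin n → ℤ) :
    mT p.1 (mT (comb_sw p).1 z) = fun i => 25 * z i := by
  funext i
  have hne : p.1.1 ≠ p.1.2 := p.2
  by_cases h1 : i = p.1.1
  · subst h1
    simp [mT, comb_sw, hne]
    ring
  · by_cases h2 : i = p.1.2
    · subst h2
      simp [mT, comb_sw, hne, hne.symm]
      ring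
    · simp [mT, comb_sw, h1, h2]
      ring

theorem comb_sw_sw {n : ℕ} (p : Jn n) : comb_sw (comb_sw p) = p := rfl

theorem comb_mT_inj {n : ℕ} (p : Jn n) : Function.Injective (mT p.1) := by
  intro a b h
  have h1 := comb_mT_mT (comb_sw p) a
  have h2 := comb_mT_mT (comb_sw p) b
  rw [comb_sw_sw] at h1 h2
  rw [h] at h1
  funext i
  have := congrFun (h1.symm.trans h2) i
  omega

theorem comb_m5_inj {n : ℕ} : Function.Injective (m5 (n := n)) := by
  intro a b h
  funext i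
  have := congrFun h i
  simp only [m5] at this
  omega

/-- the same matrix modulo 5 on three coordinates -/
def comb_m3 (q : Fin 3 × Fin 3) (u : Fin 3 → ZMod 5) : Fin 3 → ZMod 5 := fun i =>
  if i = q.1 then 3 * u q.1 + 4 * u q.2 else if i = q.2 then 3 * u q.2 - 4 * u q.1 else 5 * u i

theorem comb_factA : ∀ a b c : ZMod 5, ¬ (a = 0 ∧ b = 0 ∧ c = 0) →
    4 ≤ (Finset.univ.filter (fun q : Jn 3 => ¬ ∀ i, comb_m3 (comb_sw q).1 ![a, b, c] i = 0)).card := by
  decide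

theorem comb_factB : ∀ a b c : ZMod 5, ¬ (a = 0 ∧ b = 0 ∧ c = 0) → ∀ q r : Jn 3,
    (∀ i, comb_m3 q.1 ![a, b, c] i = 0 ∧ (i = q.1.1 ∨ i = q.1.2 ∨ (![a, b, c] : Fin 3 → ZMod 5) i = 0)) →
    (∀ i, comb_m3 r.1 ![a, b, c] i = 0 ∧ (i = r.1.1 ∨ i = r.1.2 ∨ (![a, b, c] : Fin 3 → ZMod 5) i = 0)) →
    q = r := by
  decide

/-- primitive vector modulo 5 -/
def comb_prim (u : Fin 3 → ℤ) : Prop := ∃ i, ¬ (5 : ℤ) ∣ u i

theorem comb_exists_prim_aux (N : ℕ) : ∀ y : Fin 3 → ℤ, y ≠ 0 → (∑ i, (y i).natAbs) ≤ N →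
    ∃ (e : ℕ) (u : Fin 3 → ℤ), comb_prim u ∧ ∀ i, y i = 5 ^ e * u i := by
  induction N with
  | zero =>
    intro y hy hN
    exfalso
    apply hy
    funext i
    have := Finset.sum_eq_zero_iff.mp (Nat.le_zero.mp hN) i (Finset.mem_univ i)
    exact Int.natAbs_eq_zero.mp this
  | succ N ih =>
    intro y hy hN
    by_cases hp : comb_prim y
    · exact ⟨0, y, hp, fun i => by simp⟩
    · unfold comb_prim at hp
      push Not at hp
      choose u hu using hp
      have hu0 : u ≠ 0 := by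
        rintro rfl
        apply hy
        funext i
        rw [hu i]; simp
      have hlt : (∑ i, (u i).natAbs) < ∑ i, (y i).natAbs := by
        apply Finset.sum_lt_sum
        · intro i _
          rw [hu i, Int.natAbs_mul]
          have : (5 : ℤ).natAbs = 5 := rfl
          rw [this]; omega
        · obtain ⟨i, hi⟩ : ∃ i, u i ≠ 0 := by
            by_contra hh
            push Not at hh
            exact hu0 (funext hh)
          refine ⟨i, Finset.mem_univ i, ?_⟩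
          rw [hu i, Int.natAbs_mul]
          have : (5 : ℤ).natAbs = 5 := rfl
          rw [this]
          have := Int.natAbs_pos.mpr hi
          omega
      obtain ⟨e, w, hw, he⟩ := ih u hu0 (by omega)
      refine ⟨e + 1, w, hw, fun i => ?_⟩
      rw [hu i, he i]; ring

theorem comb_exists_prim (y : Fin 3 → ℤ) (hy : y ≠ 0) :
    ∃ (u : Fin 3 → ℤ) (e : ℕ), comb_prim u ∧ ∀ i, y i = 5 ^ e * u i := by
  obtain ⟨e, u, h⟩ := comb_exists_prim_aux _ y hy le_rfl
  exact ⟨u, e, h⟩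

theorem comb_prim_unique_aux {u w : Fin 3 → ℤ} {e f : ℕ} (hef : e ≤ f) (hu : comb_prim u)
    (h : ∀ i, (5 : ℤ) ^ e * u i = 5 ^ f * w i) : u = w := by
  have h2 : ∀ i, u i = 5 ^ (f - e) * w i := by
    intro i
    have h3 : (5 : ℤ) ^ f = 5 ^ e * 5 ^ (f - e) := by rw [← pow_add]; congr 1; omega
    have h4 := h i
    rw [h3, mul_assoc] at h4
    exact mul_left_cancel₀ (by positivity) h4
  rcases Nat.eq_zero_or_pos (f - e) with h5 | h5
  · funext i; rw [h2 i, h5]; simp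
  · exfalso
    obtain ⟨i, hi⟩ := hu
    apply hi
    rw [h2 i]
    exact Dvd.dvd.mul_right (dvd_pow_self 5 (by omega)) _

theorem comb_prim_unique {u w : Fin 3 → ℤ} {e f : ℕ} (hu : comb_prim u) (hw : comb_prim w)
    (h : ∀ i, (5 : ℤ) ^ e * u i = 5 ^ f * w i) : u = w := by
  rcases le_total e f with hef | hef
  · exact comb_prim_unique_aux hef hu h
  · exact (comb_prim_unique_aux hef hw (fun i => (h i).symm)).symm

open Classical in
/-- the primitive part -/
noncomputable def comb_pr (y : Fin 3 → ℤ) : Fin 3 → ℤ :=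
  if h : y ≠ 0 then (comb_exists_prim y h).choose else 0

theorem comb_pr_spec {y : Fin 3 → ℤ} (hy : y ≠ 0) :
    comb_prim (comb_pr y) ∧ ∃ e : ℕ, ∀ i, y i = 5 ^ e * comb_pr y i := by
  unfold comb_pr
  rw [dif_pos hy]
  obtain ⟨e, h1, h2⟩ := (comb_exists_prim y hy).choose_spec
  exact ⟨h1, e, h2⟩

theorem comb_pr_eq {y u : Fin 3 → ℤ} {e : ℕ} (hu : comb_prim u) (h : ∀ i, y i = 5 ^ e * u i) :
    comb_pr y = u := by
  have hy : y ≠ 0 := by
    rintro rfl
    obtain ⟨i, hi⟩ := hu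
    apply hi
    have := h i
    have h5 : (5 : ℤ) ^ e ≠ 0 := by positivity
    have : u i = 0 := by
      have h6 : (5 : ℤ) ^ e * u i = 0 := by rw [← h i]; rfl
      exact (mul_eq_zero.mp h6).resolve_left h5
    rw [this]; exact dvd_zero 5
  obtain ⟨h1, f, hf⟩ := comb_pr_spec hy
  exact comb_prim_unique h1 hu (fun i => by rw [← hf i, h i])

def comb_Down (q : Jn 3) (y : Fin 3 → ℤ) : Prop := ¬ ∀ i, (5 : ℤ) ∣ mT q.1 (comb_pr y) i

def comb_Up (q : Jn 3) (y : Fin 3 → ℤ) : Prop := y ≠ 0 ∧ ∀ i, (25 : ℤ) ∣ mT q.1 (comb_pr y) i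

theorem comb_cast (q : Fin 3 × Fin 3) (u : Fin 3 → ℤ) (i : Fin 3) :
    ((mT q u i : ℤ) : ZMod 5) = comb_m3 q ![(u 0 : ZMod 5), (u 1 : ZMod 5), (u 2 : ZMod 5)] i := by
  have h : ∀ j : Fin 3, (![(u 0 : ZMod 5), (u 1 : ZMod 5), (u 2 : ZMod 5)] : Fin 3 → ZMod 5) j = (u j : ZMod 5) := by
    intro j; fin_cases j <;> rfl
  unfold mT comb_m3
  split_ifs <;> simp only [h] <;> push_cast <;> rfl

theorem comb_dvd_iff (q : Fin 3 × Fin 3) (u : Fin 3 → ℤ) (i : Fin 3) :
    (5 : ℤ) ∣ mT q u i ↔ comb_m3 q ![(u 0 : ZMod 5), (u 1 : ZMod 5), (u 2 : ZMod 5)] i = 0 := by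
  rw [← comb_cast]
  exact ((ZMod.intCast_zmod_eq_zero_iff_dvd _ 5)).symm

theorem comb_prim_iff (u : Fin 3 → ℤ) (hu : comb_prim u) :
    ¬ ((u 0 : ZMod 5) = 0 ∧ (u 1 : ZMod 5) = 0 ∧ (u 2 : ZMod 5) = 0) := by
  rintro ⟨h0, h1, h2⟩
  obtain ⟨i, hi⟩ := hu
  apply hi
  have : ((u i : ℤ) : ZMod 5) = 0 := by fin_cases i <;> assumption
  exact (ZMod.intCast_zmod_eq_zero_iff_dvd _ 5).mp this

open Classical in
theorem comb_A {y : Fin 3 → ℤ} (hy : y ≠ 0) :
    4 ≤ (Finset.univ.filter (fun q : Jn 3 => comb_Down (comb_sw q) y)).card := by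
  have h1 := comb_factA _ _ _ (comb_prim_iff _ (comb_pr_spec hy).1)
  refine h1.trans (le_of_eq ?_)
  congr 1
  ext q
  simp only [Finset.mem_filter, Finset.mem_univ, true_and, comb_Down, comb_dvd_iff]

open Classical in
theorem comb_B {y : Fin 3 → ℤ} :
    (Finset.univ.filter (fun q : Jn 3 => comb_Up q y)).card ≤ 1 := by
  rw [Finset.card_le_one]
  intro q hq r hr
  simp only [Finset.mem_filter, Finset.mem_univ, true_and] at hq hr
  have key : ∀ s : Jn 3, comb_Up s y → ∀ i, comb_m3 s.1 ![(comb_pr y 0 : ZMod 5), (comb_pr y 1 : ZMod 5), (comb_pr y 2 : ZMod 5)] i = 0 ∧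
      (i = s.1.1 ∨ i = s.1.2 ∨ (![(comb_pr y 0 : ZMod 5), (comb_pr y 1 : ZMod 5), (comb_pr y 2 : ZMod 5)] : Fin 3 → ZMod 5) i = 0) := by
    intro s hs i
    constructor
    · rw [← comb_dvd_iff]
      exact Dvd.dvd.trans (by norm_num) (hs.2 i)
    · by_cases h1 : i = s.1.1
      · exact Or.inl h1
      · by_cases h2 : i = s.1.2
        · exact Or.inr (Or.inl h2)
        · refine Or.inr (Or.inr ?_)
          have h3 := hs.2 i
          simp only [mT, if_neg h1, if_neg h2] at h3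
          have h4 : (5 : ℤ) ∣ comb_pr y i := by omega
          have h5 : ((comb_pr y i : ℤ) : ZMod 5) = 0 := (ZMod.intCast_zmod_eq_zero_iff_dvd _ 5).mpr h4
          fin_cases i <;> simpa using h5
  exact comb_factB _ _ _ (comb_prim_iff _ (comb_pr_spec hq.1).1) q r (key q hq) (key r hr)

theorem comb_trans {q : Jn 3} {y w : Fin 3 → ℤ} (hy : y ≠ 0) (hd : comb_Down (comb_sw q) y)
    (h : mT q.1 w = m5 y) : comb_Up q w := by
  obtain ⟨hp, e, he⟩ := comb_pr_spec hy
  have h1 : ∀ i, 5 * w i = mT (comb_sw q).1 y i := by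
    intro i
    have h2 := congrFun (comb_mT_mT (comb_sw q) w) i
    rw [comb_sw_sw, h] at h2
    have h3 : mT (comb_sw q).1 (m5 y) i = 5 * mT (comb_sw q).1 y i := by
      simp only [mT, m5]; split_ifs <;> ring
    rw [h3] at h2
    omega
  have h4 : ∀ i, mT (comb_sw q).1 y i = 5 ^ e * mT (comb_sw q).1 (comb_pr y) i := by
    intro i
    simp only [mT, he (comb_sw q).1.1, he (comb_sw q).1.2]
    split_ifs
    · ring
    · ring
    · rw [he i]; ring
  have hprim : comb_prim (mT (comb_sw q).1 (comb_pr y)) := by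
    unfold comb_Down at hd
    push Not at hd
    exact hd
  have he1 : 1 ≤ e := by
    by_contra hh
    have : e = 0 := by omega
    subst this
    obtain ⟨i, hi⟩ := hprim
    apply hi
    have := h1 i
    rw [h4 i] at this
    simp only [pow_zero, one_mul] at this
    exact ⟨w i, this.symm⟩
  have h5 : ∀ i, w i = 5 ^ (e - 1) * mT (comb_sw q).1 (comb_pr y) i := by
    intro i
    have h6 := h1 i
    rw [h4 i] at h6
    have h7 : (5 : ℤ) ^ e = 5 * 5 ^ (e - 1) := by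
      conv_lhs => rw [show e = (e - 1) + 1 by omega, pow_succ]
      ring
    rw [h7, mul_assoc] at h6
    exact mul_left_cancel₀ (by norm_num) h6
  have h8 := comb_pr_eq hprim h5
  refine ⟨?_, fun i => ?_⟩
  · rintro rfl
    obtain ⟨i, hi⟩ := hprim
    apply hi
    have h9 := h5 i
    have h10 : (5 : ℤ) ^ (e - 1) ≠ 0 := by positivity
    have : mT (comb_sw q).1 (comb_pr y) i = 0 := by
      have h6 : (5 : ℤ) ^ (e - 1) * mT (comb_sw q).1 (comb_pr y) i = 0 := by rw [← h9]; rfl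
      exact (mul_eq_zero.mp h6).resolve_left h10
    rw [this]; exact dvd_zero 5
  · rw [h8]
    have := congrFun (comb_mT_mT q (comb_pr y)) i
    rw [this]
    exact Dvd.intro _ rfl

/-- the pair of coordinates in Fin n given by an injection of three coordinates -/
def comb_tp {n : ℕ} (τ : Fin 3 → Fin n) (hτ : Function.Injective τ) (q : Jn 3) : Jn n :=
  ⟨(τ q.1.1, τ q.1.2), fun h => q.2 (hτ h)⟩

theorem comb_tp_inj {n : ℕ} (τ : Fin 3 → Fin n) (hτ : Function.Injective τ) :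
    Function.Injective (comb_tp τ hτ) := by
  intro a b h
  have h1 := congrArg (fun p : Jn n => p.1) h
  simp only [comb_tp, Prod.mk.injEq] at h1
  exact Subtype.ext (Prod.ext (hτ h1.1) (hτ h1.2))

theorem comb_res {n : ℕ} (τ : Fin 3 → Fin n) (hτ : Function.Injective τ) (q : Jn 3)
    (z : Fin n → ℤ) : (fun i => mT (comb_tp τ hτ q).1 z (τ i)) = mT q.1 (fun i => z (τ i)) := by
  funext i
  simp only [mT, comb_tp, hτ.eq_iff]

/-- the sum of squares of the entries -/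
noncomputable def comb_nrm {n : ℕ} (a : (Fin n → ℤ) →₀ ℂ) : ℝ := a.sum fun _ c => ‖c‖ ^ 2

theorem comb_nrm_nonneg {n : ℕ} (a : (Fin n → ℤ) →₀ ℂ) : 0 ≤ comb_nrm a :=
  Finset.sum_nonneg fun _ _ => by positivity

theorem comb_sum_le_nrm {n : ℕ} (a : (Fin n → ℤ) →₀ ℂ) (D : Finset (Fin n → ℤ)) :
    ∑ z ∈ D, ‖a z‖ ^ 2 ≤ comb_nrm a := by
  classical
  unfold comb_nrm Finsupp.sum
  calc ∑ z ∈ D, ‖a z‖ ^ 2 ≤ ∑ z ∈ D ∪ a.support, ‖a z‖ ^ 2 :=
        Finset.sum_le_sum_of_subset_of_nonneg Finset.subset_union_left fun _ _ _ => by positivity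
    _ = ∑ z ∈ a.support, ‖a z‖ ^ 2 := by
        refine (Finset.sum_subset Finset.subset_union_right fun z _ hz => ?_).symm
        rw [Finsupp.notMem_support_iff.mp hz]; simp

open Classical in
theorem comb_step {n : ℕ} (τ : Fin 3 → Fin n) (hτ : Function.Injective τ) (q : Jn 3)
    (a : (Fin n → ℤ) →₀ ℂ) :
    ∑ z ∈ a.support.filter (fun z => (fun i => z (τ i)) ≠ 0 ∧
        comb_Down (comb_sw q) (fun i => z (τ i))), ‖a z‖ ^ 2 ≤
      2 * ∑ w ∈ a.support.filter (fun w => comb_Up q (fun i => w (τ i))), ‖a w‖ ^ 2 +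
      2 * comb_nrm (a.mapDomain (mT (comb_tp τ hτ q).1) - a.mapDomain m5) := by
  set p := comb_tp τ hτ q with hp
  set D := a.support.filter (fun z => (fun i => z (τ i)) ≠ 0 ∧
        comb_Down (comb_sw q) (fun i => z (τ i))) with hD
  have h1 : ∀ z, ‖a z‖ ^ 2 ≤ 2 * ‖a.mapDomain (mT p.1) (m5 z)‖ ^ 2 +
      2 * ‖(a.mapDomain (mT p.1) - a.mapDomain m5) (m5 z)‖ ^ 2 := by
    intro z
    have h2 : a.mapDomain m5 (m5 z) = a z := Finsupp.mapDomain_apply comb_m5_inj a z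
    have h3 : a z = a.mapDomain (mT p.1) (m5 z) - (a.mapDomain (mT p.1) - a.mapDomain m5) (m5 z) := by
      rw [Finsupp.sub_apply, h2]; ring
    have h4 : ‖a z‖ ≤ ‖a.mapDomain (mT p.1) (m5 z)‖ +
        ‖(a.mapDomain (mT p.1) - a.mapDomain m5) (m5 z)‖ := by
      conv_lhs => rw [h3]
      exact norm_sub_le _ _
    have h5 := norm_nonneg (a z)
    nlinarith [sq_nonneg (‖a.mapDomain (mT p.1) (m5 z)‖ -
        ‖(a.mapDomain (mT p.1) - a.mapDomain m5) (m5 z)‖), norm_nonneg (a.mapDomain (mT p.1) (m5 z)),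
        norm_nonneg ((a.mapDomain (mT p.1) - a.mapDomain m5) (m5 z))]
  have h6 : ∑ z ∈ D, ‖(a.mapDomain (mT p.1) - a.mapDomain m5) (m5 z)‖ ^ 2 ≤
      comb_nrm (a.mapDomain (mT p.1) - a.mapDomain m5) := by
    have : ∑ z ∈ D, ‖(a.mapDomain (mT p.1) - a.mapDomain m5) (m5 z)‖ ^ 2 =
        ∑ z ∈ D.image m5, ‖(a.mapDomain (mT p.1) - a.mapDomain m5) z‖ ^ 2 := by
      rw [Finset.sum_image (fun x _ y _ h => comb_m5_inj h)]
    rw [this]
    exact comb_sum_le_nrm _ _
  have h7 : ∑ z ∈ D, ‖a.mapDomain (mT p.1) (m5 z)‖ ^ 2 ≤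
      ∑ w ∈ a.support.filter (fun w => comb_Up q (fun i => w (τ i))), ‖a w‖ ^ 2 := by
    set D' := D.filter (fun z => m5 z ∈ Set.range (mT p.1)) with hD'
    have h8 : ∑ z ∈ D, ‖a.mapDomain (mT p.1) (m5 z)‖ ^ 2 =
        ∑ z ∈ D', ‖a.mapDomain (mT p.1) (m5 z)‖ ^ 2 := by
      refine (Finset.sum_subset (Finset.filter_subset _ _) fun z hz hz' => ?_).symm
      have h : m5 z ∉ Set.range (mT p.1) := fun h => hz' (Finset.mem_filter.mpr ⟨hz, h⟩)
      rw [Finsupp.mapDomain_notin_range _ _ h]; simp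
    have h9 : ∀ z ∈ D', ∃ w, mT p.1 w = m5 z := fun z hz => (Finset.mem_filter.mp hz).2
    choose! w hw using h9
    have h10 : ∀ z ∈ D', ‖a.mapDomain (mT p.1) (m5 z)‖ ^ 2 = ‖a (w z)‖ ^ 2 := by
      intro z hz
      rw [← hw z hz, Finsupp.mapDomain_apply (comb_mT_inj p)]
    have hinj : Set.InjOn w (D' : Set (Fin n → ℤ)) := by
      intro x hx y hy hxy
      apply comb_m5_inj
      rw [← hw x hx, ← hw y hy, hxy]
    have h13 : ∑ z ∈ D', ‖a.mapDomain (mT p.1) (m5 z)‖ ^ 2 = ∑ z ∈ D', ‖a (w z)‖ ^ 2 :=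
      Finset.sum_congr rfl h10
    rw [h8, h13]
    have h11 : ∑ z ∈ D', ‖a (w z)‖ ^ 2 = ∑ u ∈ D'.image w, ‖a u‖ ^ 2 := by
      rw [Finset.sum_image hinj]
    rw [h11]
    have h12 : ∑ u ∈ D'.image w, ‖a u‖ ^ 2 = ∑ u ∈ (D'.image w).filter (fun u => a u ≠ 0), ‖a u‖ ^ 2 := by
      rw [Finset.sum_filter]
      refine Finset.sum_congr rfl fun z _ => ?_
      split_ifs with h
      · rfl
      · rw [not_not.mp h]; simp
    rw [h12]
    refine Finset.sum_le_sum_of_subset_of_nonneg ?_ fun _ _ _ => by positivity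
    intro u hu
    rw [Finset.mem_filter, Finset.mem_image] at hu
    obtain ⟨⟨z, hz, rfl⟩, hu0⟩ := hu
    rw [Finset.mem_filter]
    refine ⟨Finsupp.mem_support_iff.mpr hu0, ?_⟩
    have hzD := (Finset.mem_filter.mp (Finset.mem_filter.mp hz).1).2
    refine comb_trans hzD.1 hzD.2 ?_
    rw [← comb_res τ hτ q (w z), ← hp, hw z hz]
    rfl
  calc ∑ z ∈ D, ‖a z‖ ^ 2 ≤ ∑ z ∈ D, (2 * ‖a.mapDomain (mT p.1) (m5 z)‖ ^ 2 +
      2 * ‖(a.mapDomain (mT p.1) - a.mapDomain m5) (m5 z)‖ ^ 2) := Finset.sum_le_sum fun z _ => h1 z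
    _ = 2 * ∑ z ∈ D, ‖a.mapDomain (mT p.1) (m5 z)‖ ^ 2 +
        2 * ∑ z ∈ D, ‖(a.mapDomain (mT p.1) - a.mapDomain m5) (m5 z)‖ ^ 2 := by
        rw [Finset.sum_add_distrib, Finset.mul_sum, Finset.mul_sum]
    _ ≤ _ := by linarith

open Classical in
theorem comb_triple {n : ℕ} (τ : Fin 3 → Fin n) (hτ : Function.Injective τ)
    (a : (Fin n → ℤ) →₀ ℂ) :
    ∑ z ∈ a.support.filter (fun z => (fun i => z (τ i)) ≠ 0), ‖a z‖ ^ 2 ≤
      ∑ p : Jn n, comb_nrm (a.mapDomain (mT p.1) - a.mapDomain m5) := by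
  set S := ∑ z ∈ a.support.filter (fun z => (fun i => z (τ i)) ≠ 0), ‖a z‖ ^ 2 with hS
  have h1 : 4 * S ≤ ∑ q : Jn 3, ∑ z ∈ a.support.filter (fun z => (fun i => z (τ i)) ≠ 0 ∧
        comb_Down (comb_sw q) (fun i => z (τ i))), ‖a z‖ ^ 2 := by
    have e1 : ∀ q : Jn 3, ∑ z ∈ a.support.filter (fun z => (fun i => z (τ i)) ≠ 0 ∧
        comb_Down (comb_sw q) (fun i => z (τ i))), ‖a z‖ ^ 2 =
        ∑ z ∈ a.support.filter (fun z => (fun i => z (τ i)) ≠ 0),
          if comb_Down (comb_sw q) (fun i => z (τ i)) then ‖a z‖ ^ 2 else 0 := by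
      intro q
      rw [← Finset.sum_filter, Finset.filter_filter]
    simp_rw [e1]
    rw [Finset.sum_comm, hS, Finset.mul_sum]
    refine Finset.sum_le_sum fun z hz => ?_
    rw [← Finset.sum_filter, Finset.sum_const, nsmul_eq_mul]
    have h4 := comb_A (Finset.mem_filter.mp hz).2
    have h5 : (4 : ℝ) ≤ ((Finset.univ.filter (fun q : Jn 3 => comb_Down (comb_sw q) (fun i => z (τ i)))).card : ℝ) := by
      exact_mod_cast h4
    exact mul_le_mul_of_nonneg_right h5 (by positivity)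
  have h2 : ∑ q : Jn 3, ∑ w ∈ a.support.filter (fun w => comb_Up q (fun i => w (τ i))), ‖a w‖ ^ 2 ≤ S := by
    have e1 : ∀ q : Jn 3, ∑ w ∈ a.support.filter (fun w => comb_Up q (fun i => w (τ i))), ‖a w‖ ^ 2 =
        ∑ w ∈ a.support.filter (fun z => (fun i => z (τ i)) ≠ 0),
          if comb_Up q (fun i => w (τ i)) then ‖a w‖ ^ 2 else 0 := by
      intro q
      rw [← Finset.sum_filter, Finset.filter_filter]
      refine Finset.sum_congr ?_ fun _ _ => rfl
      ext z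
      simp only [Finset.mem_filter]
      constructor
      · rintro ⟨h, h'⟩; exact ⟨h, h'.1, h'⟩
      · rintro ⟨h, _, h'⟩; exact ⟨h, h'⟩
    simp_rw [e1]
    rw [Finset.sum_comm, hS]
    refine Finset.sum_le_sum fun z hz => ?_
    rw [← Finset.sum_filter, Finset.sum_const, nsmul_eq_mul]
    have h4 := comb_B (y := fun i => z (τ i))
    have h5 : ((Finset.univ.filter (fun q : Jn 3 => comb_Up q (fun i => z (τ i)))).card : ℝ) ≤ 1 := by
      exact_mod_cast h4
    calc _ ≤ 1 * ‖a z‖ ^ 2 := mul_le_mul_of_nonneg_right h5 (by positivity)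
      _ = ‖a z‖ ^ 2 := one_mul _
  have h3 : ∑ q : Jn 3, comb_nrm (a.mapDomain (mT (comb_tp τ hτ q).1) - a.mapDomain m5) ≤
      ∑ p : Jn n, comb_nrm (a.mapDomain (mT p.1) - a.mapDomain m5) := by
    rw [← Finset.sum_image (s := Finset.univ) (g := comb_tp τ hτ)
      (f := fun p : Jn n => comb_nrm (a.mapDomain (mT p.1) - a.mapDomain m5))
      (fun x _ y _ h => comb_tp_inj τ hτ h)]
    exact Finset.sum_le_sum_of_subset_of_nonneg (Finset.subset_univ _) fun _ _ _ => comb_nrm_nonneg _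
  have h4 := Finset.sum_le_sum fun (q : Jn 3) (_ : q ∈ Finset.univ) => comb_step τ hτ q a
  rw [Finset.sum_add_distrib, ← Finset.mul_sum, ← Finset.mul_sum] at h4
  linarith

theorem combGap {n : ℕ} (hn : 3 ≤ n) (a : (Fin n → ℤ) →₀ ℂ) (h0 : a 0 = 0) :
    (a.sum fun _ c => ‖c‖ ^ 2) ≤ n * ∑ p : Jn n,
      ((a.mapDomain (mT p.1) - a.mapDomain m5).sum fun _ c => ‖c‖ ^ 2) := by
  classical
  have hcoord : ∀ i : Fin n, ∃ τ : Fin 3 → Fin n, Function.Injective τ ∧ τ 0 = i := by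
    intro i
    refine ⟨fun j => Equiv.swap (Fin.castLE hn 0) i (Fin.castLE hn j), ?_, ?_⟩
    · intro x y h
      exact Fin.castLE_injective hn ((Equiv.swap _ _).injective h)
    · exact Equiv.swap_apply_left _ _
  choose τ hτ hτ0 using hcoord
  have h1 : (a.sum fun _ c => ‖c‖ ^ 2) ≤ ∑ i : Fin n, ∑ z ∈ a.support.filter
      (fun z => (fun j => z (τ i j)) ≠ 0), ‖a z‖ ^ 2 := by
    have e1 : ∀ i : Fin n, ∑ z ∈ a.support.filter (fun z => (fun j => z (τ i j)) ≠ 0), ‖a z‖ ^ 2 =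
        ∑ z ∈ a.support, if (fun j => z (τ i j)) ≠ 0 then ‖a z‖ ^ 2 else 0 := by
      intro i
      rw [← Finset.sum_filter]
    simp_rw [e1]
    rw [Finset.sum_comm]
    unfold Finsupp.sum
    refine Finset.sum_le_sum fun z hz => ?_
    obtain ⟨i, hi⟩ : ∃ i, z i ≠ 0 := by
      by_contra hh
      push Not at hh
      have : z = 0 := funext hh
      rw [this] at hz
      exact (Finsupp.mem_support_iff.mp hz) h0
    have h2 : (fun j => z (τ i j)) ≠ 0 := by
      intro hh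
      have := congrFun hh 0
      simp only [hτ0 i] at this
      exact hi this
    calc ‖a z‖ ^ 2 = if (fun j => z (τ i j)) ≠ 0 then ‖a z‖ ^ 2 else 0 := by rw [if_pos h2]
      _ ≤ _ := Finset.single_le_sum (f := fun i => if (fun j => z (τ i j)) ≠ 0 then ‖a z‖ ^ 2 else 0)
          (fun j _ => by split_ifs <;> positivity) (Finset.mem_univ i)
  calc _ ≤ _ := h1
    _ ≤ ∑ _i : Fin n, ∑ p : Jn n, comb_nrm (a.mapDomain (mT p.1) - a.mapDomain m5) :=
        Finset.sum_le_sum fun i _ => comb_triple (τ i) (hτ i) a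
    _ = _ := by
        rw [Finset.sum_const, Finset.card_univ, Fintype.card_fin, nsmul_eq_mul]
        rfl

end Pool.MP_2fe79c_gt.Geo
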