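import Pool.Agent.Lib.MP_2fe79c_gt.Geo.Rot

/-!
MP_2fe79c_gt, geometric bodies. Module Dense: uniform approximation of continuous periodic
functions by trigonometric polynomials (descend to the torus, then
UnitAddTorus.span_mFourier_closure_eq_top).
-/

set_option autoImplicit false
open MeasureTheory Filter Topology

namespace Pool.MP_2fe79c_gt.Geo

/-- the projection to the torus -/
noncomputable def dense_toTorus (n : ℕ) (x : E n) : UnitAddTorus (Fin n) := fun i => (x i : UnitAddCircle)

theorem dense_toTorus_open (n : ℕ) : IsOpenQuotientMap (dense_toTorus n) := by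
  have h1 : IsOpenQuotientMap (fun y : Fin n → ℝ => fun i => ((y i : ℝ) : UnitAddCircle)) :=
    IsOpenQuotientMap.piMap (f := fun (_ : Fin n) (t : ℝ) => ((t : ℝ) : UnitAddCircle))
      (fun _ => QuotientAddGroup.isOpenQuotientMap_mk)
  have h2 : IsOpenQuotientMap (fun x : E n => (WithLp.ofLp x : Fin n → ℝ)) :=
    (PiLp.homeomorph 2 (fun _ : Fin n => ℝ)).isOpenQuotientMap
  exact h1.comp h2

theorem dense_mFourier_toTorus {n : ℕ} (z : Fin n → ℤ) (x : E n) :
    UnitAddTorus.mFourier z (dense_toTorus n x) =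
      Complex.exp (2 * Real.pi * Complex.I * ((∑ i, (z i : ℝ) * x i : ℝ) : ℂ)) := by
  simp only [UnitAddTorus.mFourier, ContinuousMap.coe_mk, dense_toTorus, fourier_coe_apply]
  rw [← Complex.exp_sum]
  congr 1
  push_cast
  rw [Finset.mul_sum]
  refine Finset.sum_congr rfl fun i _ => ?_
  simp
  ring

theorem tp_dense {n : ℕ} (F : E n → ℂ) (hF : Continuous F) (hP : Per F) (ε : ℝ) (hε : 0 < ε) :
    ∃ a : (Fin n → ℤ) →₀ ℂ, ∀ x, ‖F x - tp a x‖ ≤ ε := by
  have hq := dense_toTorus_open n
  -- F is constant on the fibres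
  have hfib : ∀ x y : E n, dense_toTorus n x = dense_toTorus n y → F x = F y := by
    intro x y hxy
    have h : ∀ i, ∃ k : ℤ, x i = y i + k := by
      intro i
      have h1 : ((x i : ℝ) : UnitAddCircle) = ((y i : ℝ) : UnitAddCircle) := congrFun hxy i
      have h2 : ((x i - y i : ℝ) : UnitAddCircle) = 0 := by
        rw [AddCircle.coe_sub, h1, sub_self]
      obtain ⟨k, hk⟩ := AddCircle.coe_eq_zero_iff (1 : ℝ) |>.mp h2
      refine ⟨k, ?_⟩
      rw [zsmul_eq_mul, mul_one] at hk
      linarith
    choose k hk using h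
    have : x = y + zv k := by
      ext i
      simp [hk i]
    rw [this, hP]
  obtain ⟨s, hs⟩ : ∃ s : UnitAddTorus (Fin n) → E n, ∀ t, dense_toTorus n (s t) = t :=
    ⟨Function.surjInv hq.surjective, Function.surjInv_eq hq.surjective⟩
  have hGc : Continuous (fun t => F (s t)) := by
    rw [hq.isQuotientMap.continuous_iff]
    convert hF using 1
    funext x
    exact hfib _ _ (hs _)
  let G : C(UnitAddTorus (Fin n), ℂ) := ⟨fun t => F (s t), hGc⟩
  have hG : ∀ x, G (dense_toTorus n x) = F x := fun x => hfib _ _ (hs _)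
  have hmem : G ∈ closure ((Submodule.span ℂ (Set.range (UnitAddTorus.mFourier (d := Fin n))) :
      Submodule ℂ C(UnitAddTorus (Fin n), ℂ)) : Set C(UnitAddTorus (Fin n), ℂ)) := by
    have h := UnitAddTorus.span_mFourier_closure_eq_top (d := Fin n)
    have h2 : G ∈ (Submodule.span ℂ (Set.range (UnitAddTorus.mFourier (d := Fin n)))).topologicalClosure := by
      rw [h]; trivial
    exact h2
  obtain ⟨P, hP1, hP2⟩ := Metric.mem_closure_iff.mp hmem ε hε
  rw [SetLike.mem_coe, Finsupp.mem_span_range_iff_exists_finsupp] at hP1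
  obtain ⟨a, ha⟩ := hP1
  refine ⟨a, fun x => ?_⟩
  have h1 : tp a x = P (dense_toTorus n x) := by
    rw [← ha]
    simp only [tp, Finsupp.sum, ContinuousMap.coe_sum, ContinuousMap.coe_smul, Finset.sum_apply,
      Pi.smul_apply, smul_eq_mul, dense_mFourier_toTorus]
  rw [h1, ← hG x, ← dist_eq_norm]
  exact (ContinuousMap.dist_apply_le_dist _).trans hP2.le

end Pool.MP_2fe79c_gt.Geo
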