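import Pool.Agent.Lib.MP_2fe79c_gt.Geo.Trig
import Pool.Agent.Lib.MP_2fe79c_gt.Geo.Dense

/-!
MP_2fe79c_gt, geometric bodies. Module ContGap: the L2 spectral gap for continuous periodic functions.
-/

set_option autoImplicit false
open MeasureTheory Filter Topology

namespace Pool.MP_2fe79c_gt.Geo

/-- a continuous periodic function is bounded -/
theorem Per.bounded {n : ℕ} {F : E n → ℝ} (hF : Continuous F) (hP : Per F) : ∃ b, Bd b F := by
  obtain ⟨b, hb⟩ := (isCompact_closedBall (0 : E n) n).exists_bound_of_continuousOn hF.continuousOn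
  refine ⟨b, fun x => ?_⟩
  obtain ⟨y, hy, hxy⟩ := hP.exists_Q x
  rw [hxy]
  have h1 : y ∈ Metric.closedBall (0 : E n) n := by
    rw [mem_closedBall_zero_iff]
    exact norm_le_of_mem_Q hy
  have := hb y h1
  rwa [Real.norm_eq_abs] at this

theorem contgap_intOn {n : ℕ} {f : E n → ℝ} (hf : Continuous f) : IntegrableOn f (Q n) volume := by
  refine (hf.continuousOn.integrableOn_compact (isCompact_closedBall (0 : E n) n)).mono_set ?_
  intro x hx
  rw [mem_closedBall_zero_iff]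
  exact norm_le_of_mem_Q hx

theorem contgap_tp_cont {n : ℕ} (a : (Fin n → ℤ) →₀ ℂ) : Continuous (tp a) := by
  unfold tp Finsupp.sum
  refine continuous_finsetSum _ fun z _ => ?_
  have h : Continuous fun x : E n => ((∑ i, (z i : ℝ) * x i : ℝ) : ℂ) := by fun_prop
  fun_prop

theorem contgap_tp_erase {n : ℕ} (a : (Fin n → ℤ) →₀ ℂ) (x : E n) :
    tp a x = a 0 + tp (a.erase 0) x := by
  unfold tp
  rw [← Finsupp.add_sum_erase' a 0 (fun z c => c * Complex.exp (2 * Real.pi * Complex.I *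
    ((∑ i, (z i : ℝ) * x i : ℝ) : ℂ))) (fun z => by simp)]
  simp

theorem contgap_mean {n : ℕ} {F : E n → ℝ} (hF : Continuous F) (c : ℝ) :
    ∫ x in Q n, (F x - ∫ y in Q n, F y) ^ 2 ≤ ∫ x in Q n, (F x - c) ^ 2 := by
  set m := ∫ y in Q n, F y with hm
  have h1 : ∫ x in Q n, (F x - m) = 0 := by
    rw [integral_sub (contgap_intOn hF) (contgap_intOn continuous_const), ← hm]
    simp [Measure.real]
  have h2 : ∫ x in Q n, (F x - c) ^ 2 =
      (∫ x in Q n, (F x - m) ^ 2) + ((2 * (m - c)) * ∫ x in Q n, (F x - m)) + (m - c) ^ 2 := by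
    have e1 : ∀ x, (F x - c) ^ 2 = ((F x - m) ^ 2 + (2 * (m - c)) * (F x - m)) + (m - c) ^ 2 := by
      intro x; ring
    simp_rw [e1]
    rw [integral_add, integral_add, integral_const_mul]
    · simp [Measure.real]
    · exact contgap_intOn (by fun_prop)
    · exact contgap_intOn (by fun_prop)
    · exact contgap_intOn (by fun_prop)
    · exact contgap_intOn (by fun_prop)
  rw [h2, h1]
  nlinarith [sq_nonneg (m - c)]

theorem contgap_sq {u v w δ : ℝ} (hδ : 0 < δ) (hu : |u| ≤ |v| + w) :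
    u ^ 2 ≤ (1 + δ) * v ^ 2 + (1 + 1 / δ) * w ^ 2 := by
  have h1 : u ^ 2 ≤ (|v| + w) ^ 2 := by
    rw [← sq_abs u]
    exact pow_le_pow_left₀ (abs_nonneg u) hu 2
  have h2 : 2 * (|v| * w) ≤ δ * |v| ^ 2 + (1 / δ) * w ^ 2 := by
    have h3 : 0 ≤ (δ * |v| - w) ^ 2 / δ := by positivity
    have h4 : (δ * |v| - w) ^ 2 / δ = δ * |v| ^ 2 + (1 / δ) * w ^ 2 - 2 * (|v| * w) := by
      field_simp
      ring
    linarith
  have h5 : |v| ^ 2 = v ^ 2 := sq_abs v
  calc u ^ 2 ≤ (|v| + w) ^ 2 := h1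
    _ = |v| ^ 2 + 2 * (|v| * w) + w ^ 2 := by ring
    _ ≤ |v| ^ 2 + (δ * |v| ^ 2 + (1 / δ) * w ^ 2) + w ^ 2 := by linarith
    _ = (1 + δ) * v ^ 2 + (1 + 1 / δ) * w ^ 2 := by rw [h5]; ring

theorem contGap {n : ℕ} (hn : 3 ≤ n) (F : E n → ℝ) (hF : Continuous F) (hP : Per F) :
    ∫ x in Q n, (F x - ∫ y in Q n, F y) ^ 2 ≤ n * ∑ p : Jn n,
      ∫ x in Q n, (F ((5 : ℝ) • rot p x) - F ((5 : ℝ) • x)) ^ 2 := by
  set L := ∫ x in Q n, (F x - ∫ y in Q n, F y) ^ 2 with hL
  set R := (n : ℝ) * ∑ p : Jn n, ∫ x in Q n, (F ((5 : ℝ) • rot p x) - F ((5 : ℝ) • x)) ^ 2 with hR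
  have hR0 : 0 ≤ R := by
    rw [hR]
    refine mul_nonneg (Nat.cast_nonneg n) (Finset.sum_nonneg fun p _ => ?_)
    exact integral_nonneg fun x => sq_nonneg _
  -- the main estimate
  have key : ∀ δ : ℝ, 0 < δ → ∀ ε : ℝ, 0 < ε →
      L ≤ (1 + δ) * ((1 + δ) * R + (n * Fintype.card (Jn n)) * ((1 + 1 / δ) * (2 * ε) ^ 2))
        + (1 + 1 / δ) * ε ^ 2 := by
    intro δ hδ ε hε
    obtain ⟨a, ha⟩ := tp_dense (fun x => (F x : ℂ)) (by fun_prop)
      (fun x m => by simp only [hP x m]) ε hε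
    set b := a.erase 0 with hb
    have hb0 : b 0 = 0 := by simp [hb]
    have htb : Continuous (tp b) := contgap_tp_cont b
    have hro : ∀ p : Jn n, Continuous fun x : E n => (5 : ℝ) • rot p x := fun p =>
      (continuous_const_smul (5 : ℝ)).comp (rot p).continuous
    have h5 : Continuous fun x : E n => (5 : ℝ) • x := continuous_const_smul _
    have e1 : L ≤ ∫ x in Q n, (F x - (a 0).re) ^ 2 := contgap_mean hF _
    have e2 : ∫ x in Q n, (F x - (a 0).re) ^ 2 ≤
        ∫ x in Q n, ((1 + δ) * ‖tp b x‖ ^ 2 + (1 + 1 / δ) * ε ^ 2) := by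
      refine setIntegral_mono (contgap_intOn (by fun_prop)) (contgap_intOn (by fun_prop)) fun x => ?_
      refine contgap_sq hδ ?_
      have e3 : |F x - (a 0).re| ≤ ‖(F x : ℂ) - a 0‖ := by
        have := Complex.abs_re_le_norm ((F x : ℂ) - a 0)
        simpa using this
      have e4 : (F x : ℂ) - a 0 = ((F x : ℂ) - tp a x) + tp b x := by
        rw [contgap_tp_erase a x]; ring
      rw [abs_of_nonneg (norm_nonneg _)]
      calc |F x - (a 0).re| ≤ ‖(F x : ℂ) - a 0‖ := e3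
        _ = ‖((F x : ℂ) - tp a x) + tp b x‖ := by rw [e4]
        _ ≤ ‖(F x : ℂ) - tp a x‖ + ‖tp b x‖ := norm_add_le _ _
        _ ≤ ‖tp b x‖ + ε := by linarith [ha x]
    have e5 : ∫ x in Q n, ((1 + δ) * ‖tp b x‖ ^ 2 + (1 + 1 / δ) * ε ^ 2) =
        (1 + δ) * (∫ x in Q n, ‖tp b x‖ ^ 2) + (1 + 1 / δ) * ε ^ 2 := by
      rw [integral_add (contgap_intOn (by fun_prop)) (contgap_intOn (by fun_prop)),
        integral_const_mul]
      simp [Measure.real]
    have e6 := trigGap hn b hb0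
    have e7 : ∀ p : Jn n, ∫ x in Q n, ‖tp b ((5 : ℝ) • rot p x) - tp b ((5 : ℝ) • x)‖ ^ 2 ≤
        (1 + δ) * (∫ x in Q n, (F ((5 : ℝ) • rot p x) - F ((5 : ℝ) • x)) ^ 2)
          + (1 + 1 / δ) * (2 * ε) ^ 2 := by
      intro p
      have c1 : Continuous fun x : E n => tp b ((5 : ℝ) • rot p x) := htb.comp (hro p)
      have c2 : Continuous fun x : E n => tp b ((5 : ℝ) • x) := htb.comp h5
      have c3 : Continuous fun x : E n => F ((5 : ℝ) • rot p x) := hF.comp (hro p)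
      have c4 : Continuous fun x : E n => F ((5 : ℝ) • x) := hF.comp h5
      calc ∫ x in Q n, ‖tp b ((5 : ℝ) • rot p x) - tp b ((5 : ℝ) • x)‖ ^ 2
          ≤ ∫ x in Q n, ((1 + δ) * (F ((5 : ℝ) • rot p x) - F ((5 : ℝ) • x)) ^ 2
            + (1 + 1 / δ) * (2 * ε) ^ 2) := by
            refine setIntegral_mono (contgap_intOn (by fun_prop)) (contgap_intOn (by fun_prop))
              fun x => ?_
            refine contgap_sq hδ ?_
            rw [abs_of_nonneg (norm_nonneg _)]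
            have f1 : tp b ((5 : ℝ) • rot p x) - tp b ((5 : ℝ) • x) =
                tp a ((5 : ℝ) • rot p x) - tp a ((5 : ℝ) • x) := by
              rw [contgap_tp_erase a, contgap_tp_erase a ((5 : ℝ) • x)]; ring
            rw [f1]
            have f2 : tp a ((5 : ℝ) • rot p x) - tp a ((5 : ℝ) • x) =
                ((F ((5 : ℝ) • rot p x) - F ((5 : ℝ) • x) : ℝ) : ℂ)
                - ((F ((5 : ℝ) • rot p x) : ℂ) - tp a ((5 : ℝ) • rot p x))
                + ((F ((5 : ℝ) • x) : ℂ) - tp a ((5 : ℝ) • x)) := by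
              push_cast; ring
            rw [f2]
            have f3 := ha ((5 : ℝ) • rot p x)
            have f4 := ha ((5 : ℝ) • x)
            have f5 := norm_add_le (((F ((5 : ℝ) • rot p x) - F ((5 : ℝ) • x) : ℝ) : ℂ)
                - ((F ((5 : ℝ) • rot p x) : ℂ) - tp a ((5 : ℝ) • rot p x)))
                ((F ((5 : ℝ) • x) : ℂ) - tp a ((5 : ℝ) • x))
            have f6 := norm_sub_le ((F ((5 : ℝ) • rot p x) - F ((5 : ℝ) • x) : ℝ) : ℂ)
                ((F ((5 : ℝ) • rot p x) : ℂ) - tp a ((5 : ℝ) • rot p x))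
            rw [Complex.norm_real, Real.norm_eq_abs] at f6
            linarith
        _ = _ := by
            rw [integral_add (contgap_intOn (by fun_prop)) (contgap_intOn (by fun_prop)),
              integral_const_mul]
            simp [Measure.real]
    have e8 : ∑ p : Jn n, ∫ x in Q n, ‖tp b ((5 : ℝ) • rot p x) - tp b ((5 : ℝ) • x)‖ ^ 2 ≤
        (1 + δ) * (∑ p : Jn n, ∫ x in Q n, (F ((5 : ℝ) • rot p x) - F ((5 : ℝ) • x)) ^ 2)
          + Fintype.card (Jn n) * ((1 + 1 / δ) * (2 * ε) ^ 2) := by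
      calc _ ≤ ∑ p : Jn n, ((1 + δ) * (∫ x in Q n, (F ((5 : ℝ) • rot p x) - F ((5 : ℝ) • x)) ^ 2)
          + (1 + 1 / δ) * (2 * ε) ^ 2) := Finset.sum_le_sum fun p _ => e7 p
        _ = _ := by
          rw [Finset.sum_add_distrib, ← Finset.mul_sum, Finset.sum_const, Finset.card_univ,
            nsmul_eq_mul]
    have e9 : ∫ x in Q n, ‖tp b x‖ ^ 2 ≤
        (1 + δ) * R + (n * Fintype.card (Jn n)) * ((1 + 1 / δ) * (2 * ε) ^ 2) := by
      refine e6.trans ?_
      have := mul_le_mul_of_nonneg_left e8 (Nat.cast_nonneg (α := ℝ) n)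
      refine this.trans (le_of_eq ?_)
      rw [hR]; ring
    calc L ≤ (1 + δ) * (∫ x in Q n, ‖tp b x‖ ^ 2) + (1 + 1 / δ) * ε ^ 2 := by
          rw [← e5]; exact e1.trans e2
      _ ≤ _ := by
          have := mul_le_mul_of_nonneg_left e9 (show (0 : ℝ) ≤ 1 + δ by positivity)
          linarith
  -- let eps tend to 0
  have key2 : ∀ δ : ℝ, 0 < δ → L ≤ (1 + δ) * ((1 + δ) * R) := by
    intro δ hδ
    have ht : Tendsto (fun ε : ℝ => (1 + δ) * ((1 + δ) * R + (n * Fintype.card (Jn n)) *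
        ((1 + 1 / δ) * (2 * ε) ^ 2)) + (1 + 1 / δ) * ε ^ 2) (𝓝[>] 0)
        (𝓝 ((1 + δ) * ((1 + δ) * R + (n * Fintype.card (Jn n)) *
        ((1 + 1 / δ) * (2 * 0) ^ 2)) + (1 + 1 / δ) * 0 ^ 2)) := by
      refine Tendsto.mono_left ?_ nhdsWithin_le_nhds
      exact Continuous.tendsto (by fun_prop) 0
    have h2 := ge_of_tendsto ht (eventually_nhdsWithin_of_forall fun ε (hε : 0 < ε) => key δ hδ ε hε)
    simpa using h2
  have ht : Tendsto (fun δ : ℝ => (1 + δ) * ((1 + δ) * R)) (𝓝[>] 0)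
      (𝓝 ((1 + 0) * ((1 + 0) * R))) := by
    refine Tendsto.mono_left ?_ nhdsWithin_le_nhds
    exact Continuous.tendsto (by fun_prop) 0
  have h2 := ge_of_tendsto ht (eventually_nhdsWithin_of_forall fun δ (hδ : 0 < δ) => key2 δ hδ)
  simpa using h2

end Pool.MP_2fe79c_gt.Geo
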