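import Mathlib

/-!
MP_2fe79c_gt, geometric bodies: definitions.
-/

set_option autoImplicit false
open MeasureTheory

namespace Pool.MP_2fe79c_gt.Geo

/-- Euclidean space of dimension n -/
abbrev E (n : ℕ) := EuclideanSpace ℝ (Fin n)

/-- the vector with the integer coordinates m -/
noncomputable def zv {n : ℕ} (m : Fin n → ℤ) : E n := WithLp.toLp 2 (fun i => (m i : ℝ))

/-- invariance under all integer translations -/
def Per {n : ℕ} {β : Type*} (f : E n → β) : Prop :=
  ∀ (x : E n) (m : Fin n → ℤ), f (x + zv m) = f x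

/-- almost everywhere continuity -/
def AC {n : ℕ} {β : Type*} [TopologicalSpace β] (f : E n → β) : Prop :=
  ∀ᵐ x ∂(volume : Measure (E n)), ContinuousAt f x

/-- the half-open unit cube -/
def Q (n : ℕ) : Set (E n) := {x | ∀ i, 0 ≤ x i ∧ x i < 1}

/-- vanishing outside the open ball of radius R about the origin -/
def Sup0 {n : ℕ} (R : ℝ) (h : E n → ℝ) : Prop := ∀ x, R ≤ ‖x‖ → h x = 0

/-- the periodization of h (all sums that occur are finite) -/
noncomputable def per {n : ℕ} (h : E n → ℝ) : E n → ℝ :=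
  fun x => ∑' m : Fin n → ℤ, h (x + zv m)

/-- integer valued -/
def IntV {α : Type*} (f : α → ℝ) : Prop := ∀ x, ∃ z : ℤ, f x = z

/-- translation of a function by the vector v -/
def tr {n : ℕ} (v : E n) (f : E n → ℝ) : E n → ℝ := fun x => f (x - v)

/-- coordinate vector -/
noncomputable def ev {n : ℕ} (i : Fin n) : E n := EuclideanSpace.single i (1 : ℝ)

/-- bounded by b in absolute value -/
def Bd {α : Type*} (b : ℝ) (f : α → ℝ) : Prop := ∀ x, |f x| ≤ b

end Pool.MP_2fe79c_gt.Geo
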