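import Pool.Agent.Lib.MP_2fe79c_gt.Geo.Base

/-!
MP_2fe79c_gt, geometric bodies. Module Floor: choice of a rounding threshold.

PROOF of exists_threshold. Let μ be volume restricted to the ball of radius k (finite measure), and f i a.e.
continuous, hence a.e. measurable (AC.aestronglyMeasurable). For fixed i, k the sets
A_s = {x in ball 0 k | Int.fract (f i x - s) = 0}, s in [0,1), are pairwise disjoint and null measurable, so only
countably many have positive measure (Measure.countable_meas_level_set_pos₀ or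
Measure.countable_meas_pos_of_disjoint_iUnion₀, applied to the level sets of Int.fract (f i)). The union over i
and k of the exceptional s is countable, [0,1) is not, so there is s in [0,1) with: for all i, a.e. x,
f i x - s is not an integer.
PROOF of AC.floor. If f is continuous at x and f x - s is not an integer, then ⌊f y - s⌋ is locally constant near
x, so y ↦ (⌊f y - s⌋ : ℝ) is continuous at x. AC.fract: fract = value - floor.
PROOF of AC.round (integer valued almost everywhere, then rounding keeps a.e. continuity): at a point x where w is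
continuous and w x is an integer, |w y - w x| < 1/2 near x, so round (w y) = w x there.
-/

set_option autoImplicit false
open MeasureTheory Filter Topology

namespace Pool.MP_2fe79c_gt.Geo

theorem floor_fract_iff {r s : ℝ} (h0 : 0 ≤ s) (h1 : s < 1) :
    Int.fract (r - s) = 0 ↔ Int.fract r = s := by
  constructor
  · intro h
    obtain ⟨z, hz⟩ : ∃ z : ℤ, r - s = z := by
      refine ⟨⌊r - s⌋, ?_⟩
      have := Int.fract_add_floor (r - s)
      rw [h] at this; linarith
    have : r = s + z := by linarith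
    rw [this, Int.fract_add_intCast]
    exact Int.fract_eq_self.mpr ⟨h0, h1⟩
  · intro h
    have : r - s = (⌊r⌋ : ℤ) := by
      have := Int.fract_add_floor r
      rw [h] at this; linarith
    rw [this, Int.fract_intCast]

theorem exists_threshold {n : ℕ} {κ : Type*} [Countable κ] (f : κ → E n → ℝ) (hf : ∀ i, AC (f i)) :
    ∃ s : ℝ, 0 ≤ s ∧ s < 1 ∧ ∀ i, ∀ᵐ x ∂(volume : Measure (E n)), Int.fract (f i x - s) ≠ 0 := by
  have hc : ∀ i, Set.Countable {t : ℝ | 0 < (volume : Measure (E n)) {x | Int.fract (f i x) = t}} := by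
    intro i
    apply Measure.countable_meas_level_set_pos₀
    exact (measurable_fract.comp_aemeasurable (hf i).aestronglyMeasurable.aemeasurable).nullMeasurable
  have hU : Set.Countable (⋃ i, {t : ℝ | 0 < (volume : Measure (E n)) {x | Int.fract (f i x) = t}}) :=
    Set.countable_iUnion hc
  have hne : ∃ s ∈ Set.Ico (0 : ℝ) 1,
      s ∉ ⋃ i, {t : ℝ | 0 < (volume : Measure (E n)) {x | Int.fract (f i x) = t}} := by
    by_contra hh
    push Not at hh
    have h1 : (Set.Ico (0 : ℝ) 1).Countable := hU.mono hh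
    rw [Cardinal.Real.Ico_countable_iff] at h1
    linarith
  obtain ⟨s, hs, hs'⟩ := hne
  refine ⟨s, hs.1, hs.2, fun i => ?_⟩
  have h2 : (volume : Measure (E n)) {x | Int.fract (f i x) = s} = 0 := by
    by_contra hh
    exact hs' (Set.mem_iUnion.mpr ⟨i, pos_iff_ne_zero.mpr hh⟩)
  have h3 : ∀ᵐ x ∂(volume : Measure (E n)), x ∉ {x | Int.fract (f i x) = s} :=
    measure_eq_zero_iff_ae_notMem.mp h2
  filter_upwards [h3] with x hx hh
  exact hx ((floor_fract_iff hs.1 hs.2).mp hh)

theorem AC.floor {n : ℕ} {f : E n → ℝ} (hf : AC f) (s : ℝ)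
    (hs : ∀ᵐ x ∂(volume : Measure (E n)), Int.fract (f x - s) ≠ 0) :
    AC (fun x => ((⌊f x - s⌋ : ℤ) : ℝ)) := by
  filter_upwards [hf, hs] with x hx hsx
  have h1 : ContinuousAt (fun y => f y - s) x := hx.sub continuousAt_const
  have h2 : (⌊f x - s⌋ : ℝ) < f x - s := by
    have h3 := Int.floor_le (f x - s)
    have h4 : Int.fract (f x - s) = f x - s - ⌊f x - s⌋ := rfl
    rcases h3.lt_or_eq with h | h
    · exact h
    · exfalso; apply hsx; rw [h4]; linarith
  have h3 := Int.lt_floor_add_one (f x - s)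
  have h4 : ∀ᶠ y in 𝓝 x, (⌊f x - s⌋ : ℝ) < f y - s := h1.eventually (lt_mem_nhds h2)
  have h5 : ∀ᶠ y in 𝓝 x, f y - s < ⌊f x - s⌋ + 1 := h1.eventually (gt_mem_nhds h3)
  have h6 : (fun y => ((⌊f y - s⌋ : ℤ) : ℝ)) =ᶠ[𝓝 x] fun _ => ((⌊f x - s⌋ : ℤ) : ℝ) := by
    filter_upwards [h4, h5] with y hy1 hy2
    have : ⌊f y - s⌋ = ⌊f x - s⌋ := by
      rw [Int.floor_eq_iff]; exact ⟨hy1.le, hy2⟩
    rw [this]
  exact continuousAt_const.congr h6.symm

theorem AC.fract {n : ℕ} {f : E n → ℝ} (hf : AC f) (s : ℝ)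
    (hs : ∀ᵐ x ∂(volume : Measure (E n)), Int.fract (f x - s) ≠ 0) :
    AC (fun x => Int.fract (f x - s)) := by
  have h1 : (fun x => Int.fract (f x - s)) = fun x => (f x - s) - ((⌊f x - s⌋ : ℤ) : ℝ) := rfl
  rw [h1]
  exact (hf.sub (AC.const s)).sub (hf.floor s hs)

theorem AC.round {n : ℕ} {w : E n → ℝ} (hw : AC w)
    (hz : ∀ᵐ x ∂(volume : Measure (E n)), ∃ z : ℤ, w x = z) :
    AC (fun x => ((_root_.round (w x) : ℤ) : ℝ)) := by
  filter_upwards [hw, hz] with x hx hzx
  obtain ⟨z, hz⟩ := hzx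
  have h4 : ∀ᶠ y in 𝓝 x, (z : ℝ) - 1 / 2 < w y := hx.eventually (lt_mem_nhds (by rw [hz]; linarith))
  have h5 : ∀ᶠ y in 𝓝 x, w y < z + 1 / 2 := hx.eventually (gt_mem_nhds (by rw [hz]; linarith))
  have h6 : (fun y => ((_root_.round (w y) : ℤ) : ℝ)) =ᶠ[𝓝 x] fun _ => (z : ℝ) := by
    filter_upwards [h4, h5] with y hy1 hy2
    have : _root_.round (w y) = z := by
      rw [round_eq, Int.floor_eq_iff]
      constructor <;> linarith
    rw [this]
  exact (continuousAt_const (y := (z : ℝ))).congr h6.symm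

end Pool.MP_2fe79c_gt.Geo
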