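import Pool.Agent.Lib.MP_2fe79c_gt.Geo.Lev

/-!
MP_2fe79c_gt, geometric bodies. Module Forest: the one-ended forest.

A point x moves one step to the right (x ↦ x + α e₁) if lev (x₁) ≤ lev (x₂), and one step up
(x ↦ x + α e₂) otherwise. Lop h x = the sum of h over the (at most two) points that move to x:
x - α e₁ if lev (x₁ - α) ≤ lev x₂, and x - α e₂ if lev (x₂ - α) < lev x₁.

MAIN CLAIM (Lop_nilp): for good x (goodT α (x i₁), goodT α (x i₂)) there is N such that for all y in a
neighbourhood of x, all m ≥ N and all h: (Lop^[m] h) y = 0.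
PROOF. Let P x be the claim at x. (I) If P holds at the children of x (x - α e₁ if lev (x₁ - α) ≤ lev x₂, x - α e₂ if
lev (x₂ - α) < lev x₁) then P x: near x the two conditions are constant (lev_locally at x₁, x₁ - α, x₂, x₂ - α), and
(Lop^[m+1] h) y = Lop (Lop^[m] h) y (Function.iterate_succ_apply') only involves the children.
(II) Induction. Claim B r: P x for all good x with lev x₂ < lev x₁ = r. Claim A r: P x for all good x with
lev x₁ ≤ lev x₂ = r. Prove by strong induction on r first B r, from A s (s < r), then A r, from B s (s ≤ r).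
 B r: inner induction on e = the least e ≥ 1 with r ≤ lev (x₂ - e α) (exists by lev_hit). Left child: exists only if
   lev (x₁ - α) ≤ lev x₂ =: s < r, and then it satisfies the hypothesis of A s. Lower child (x₁, x₂ - α): exists only if
   lev (x₂ - α) < lev x₁ = r; it is again in case B r, and e decreases by one (if e = 1 it does not exist).
 A r: inner induction on d = the least d ≥ 1 with r + 1 ≤ lev (x₁ - d α). Left child: exists only if lev (x₁-α) ≤ r; it is
   in case A r with d - 1 (if d = 1 it does not exist). Lower child: exists only if lev (x₂-α) < lev x₁ = s ≤ r; it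
   is in case B s.
 Every good x is in case A (lev x₂) or B (lev x₁).
-/

set_option autoImplicit false
open MeasureTheory Filter Topology

namespace Pool.MP_2fe79c_gt.Geo

/-- transfer operator of the forest -/
noncomputable def Lop {n : ℕ} (α : ℝ) (i₁ i₂ : Fin n) (h : E n → ℝ) : E n → ℝ := fun x =>
  (if lev (x i₁ - α) ≤ lev (x i₂) then h (x - α • ev i₁) else 0) +
  (if lev (x i₂ - α) < lev (x i₁) then h (x - α • ev i₂) else 0)

theorem forest_Lop {n : ℕ} (α : ℝ) (i₁ i₂ : Fin n) (h : E n → ℝ) (x : E n) :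
    Lop α i₁ i₂ h x = (if lev (x i₁ - α) ≤ lev (x i₂) then h (x - α • ev i₁) else 0) +
      (if lev (x i₂ - α) < lev (x i₁) then h (x - α • ev i₂) else 0) := rfl

theorem forest_coord {n : ℕ} (α : ℝ) (i : Fin n) (x : E n) : (x - α • ev i) i = x i - α := by
  simp [ev]

theorem forest_coord_ne {n : ℕ} (α : ℝ) {i j : Fin n} (hij : j ≠ i) (x : E n) :
    (x - α • ev i) j = x j := by
  simp [ev, hij]

theorem forest_good0 {α t : ℝ} (h : goodT α t) : t ∉ badT := by
  have := h 0
  simpa using this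

/-- the conditions are locally constant -/
theorem forest_loc {n : ℕ} {α : ℝ} (i : Fin n) (x : E n) (h : goodT α (x i)) :
    (∀ᶠ y : E n in 𝓝 x, lev (y i) = lev (x i)) ∧
      ∀ᶠ y : E n in 𝓝 x, lev (y i - α) = lev (x i - α) := by
  constructor
  · have hc : ContinuousAt (fun y : E n => y i) x := by fun_prop
    exact hc.eventually (lev_locally (forest_good0 h))
  · have hc : ContinuousAt (fun y : E n => y i - α) x := by fun_prop
    exact hc.eventually (lev_locally (forest_good0 (goodT_sub h)))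

/-- nilpotency at a point -/
def forest_P {n : ℕ} (α : ℝ) (i₁ i₂ : Fin n) (x : E n) : Prop :=
  ∃ N : ℕ, ∀ᶠ y in 𝓝 x, ∀ m : ℕ, N ≤ m → ∀ h : E n → ℝ, ((Lop α i₁ i₂)^[m] h) y = 0

theorem forest_child {n : ℕ} {α : ℝ} {i₁ i₂ : Fin n} {x : E n} (v : E n) {c : Prop}
    (h : c → forest_P α i₁ i₂ (x - v)) :
    ∃ N : ℕ, ∀ᶠ y in 𝓝 x, ∀ m : ℕ, N ≤ m → c → ∀ h : E n → ℝ,
      ((Lop α i₁ i₂)^[m] h) (y - v) = 0 := by
  by_cases hc : c
  · obtain ⟨N, hN⟩ := h hc
    refine ⟨N, ?_⟩
    have hcont : ContinuousAt (fun y : E n => y - v) x := by fun_prop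
    filter_upwards [hcont.eventually hN] with y hy m hm _ k
    exact hy m hm k
  · exact ⟨0, Eventually.of_forall fun y m _ h' => absurd h' hc⟩

theorem forest_step {n : ℕ} {α : ℝ} {i₁ i₂ : Fin n} {x : E n}
    (h1 : goodT α (x i₁)) (h2 : goodT α (x i₂))
    (hl : lev (x i₁ - α) ≤ lev (x i₂) → forest_P α i₁ i₂ (x - α • ev i₁))
    (hd : lev (x i₂ - α) < lev (x i₁) → forest_P α i₁ i₂ (x - α • ev i₂)) :
    forest_P α i₁ i₂ x := by
  obtain ⟨N₁, hN₁⟩ := forest_child (α • ev i₁) hl
  obtain ⟨N₂, hN₂⟩ := forest_child (α • ev i₂) hd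
  refine ⟨max N₁ N₂ + 1, ?_⟩
  filter_upwards [hN₁, hN₂, (forest_loc i₁ x h1).1, (forest_loc i₁ x h1).2,
    (forest_loc i₂ x h2).1, (forest_loc i₂ x h2).2] with y a1 a2 b1 b2 b3 b4 m hm h
  obtain ⟨m', rfl⟩ : ∃ m', m = m' + 1 := ⟨m - 1, by omega⟩
  have hm1 : N₁ ≤ m' := by have := le_max_left N₁ N₂; omega
  have hm2 : N₂ ≤ m' := by have := le_max_right N₁ N₂; omega
  rw [Function.iterate_succ_apply', forest_Lop, b1, b2, b3, b4]
  have e1 : (if lev (x i₁ - α) ≤ lev (x i₂) then
      ((Lop α i₁ i₂)^[m'] h) (y - α • ev i₁) else 0) = 0 := by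
    split_ifs with hc
    · exact a1 m' hm1 hc h
    · rfl
  have e2 : (if lev (x i₂ - α) < lev (x i₁) then
      ((Lop α i₁ i₂)^[m'] h) (y - α • ev i₂) else 0) = 0 := by
    split_ifs with hc
    · exact a2 m' hm2 hc h
    · rfl
  rw [e1, e2, add_zero]

theorem forest_main {n : ℕ} {α : ℝ} (hα : Irrational α) {i₁ i₂ : Fin n} (h12 : i₁ ≠ i₂) (r : ℕ) :
    (∀ x : E n, goodT α (x i₁) → goodT α (x i₂) → lev (x i₁) = r → lev (x i₂) < r →
      forest_P α i₁ i₂ x) ∧
    (∀ x : E n, goodT α (x i₁) → goodT α (x i₂) → lev (x i₁) ≤ r → lev (x i₂) = r →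
      forest_P α i₁ i₂ x) := by
  induction r using Nat.strong_induction_on with
  | _ r ih =>
    have hB : ∀ e : ℕ, ∀ x : E n, goodT α (x i₁) → goodT α (x i₂) → lev (x i₁) = r →
        lev (x i₂) < r → r ≤ lev (x i₂ - e * α) → forest_P α i₁ i₂ x := by
      intro e
      induction e with
      | zero =>
        intro x _ _ _ h4 h5
        rw [Nat.cast_zero, zero_mul, sub_zero] at h5
        omega
      | succ e ihe =>
        intro x g1 g2 h3 h4 h5
        refine forest_step g1 g2 (fun hc => ?_) (fun hc => ?_)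
        · refine (ih _ h4).2 _ ?_ ?_ ?_ ?_
          · rw [forest_coord]; exact goodT_sub g1
          · rw [forest_coord_ne _ h12.symm]; exact g2
          · rw [forest_coord]; exact hc
          · rw [forest_coord_ne _ h12.symm]
        · refine ihe _ ?_ ?_ ?_ ?_ ?_
          · rw [forest_coord_ne _ h12]; exact g1
          · rw [forest_coord]; exact goodT_sub g2
          · rw [forest_coord_ne _ h12]; exact h3
          · rw [forest_coord]; omega
          · rw [forest_coord]
            have : x i₂ - α - e * α = x i₂ - ((e + 1 : ℕ) : ℝ) * α := by push_cast; ring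
            rw [this]
            exact h5
    have hB' : ∀ x : E n, goodT α (x i₁) → goodT α (x i₂) → lev (x i₁) = r → lev (x i₂) < r →
        forest_P α i₁ i₂ x := by
      intro x g1 g2 h3 h4
      obtain ⟨m, _, hm⟩ := lev_hit hα g2 r
      exact hB m x g1 g2 h3 h4 hm
    refine ⟨hB', ?_⟩
    have hA : ∀ d : ℕ, ∀ x : E n, goodT α (x i₁) → goodT α (x i₂) → lev (x i₁) ≤ r →
        lev (x i₂) = r → r + 1 ≤ lev (x i₁ - d * α) → forest_P α i₁ i₂ x := by
      intro d
      induction d with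
      | zero =>
        intro x _ _ h3 _ h5
        rw [Nat.cast_zero, zero_mul, sub_zero] at h5
        omega
      | succ d ihd =>
        intro x g1 g2 h3 h4 h5
        refine forest_step g1 g2 (fun hc => ?_) (fun hc => ?_)
        · refine ihd _ ?_ ?_ ?_ ?_ ?_
          · rw [forest_coord]; exact goodT_sub g1
          · rw [forest_coord_ne _ h12.symm]; exact g2
          · rw [forest_coord]; omega
          · rw [forest_coord_ne _ h12.symm]; exact h4
          · rw [forest_coord]
            have : x i₁ - α - d * α = x i₁ - ((d + 1 : ℕ) : ℝ) * α := by push_cast; ring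
            rw [this]
            exact h5
        · have g1' : goodT α ((x - α • ev i₂) i₁) := by rw [forest_coord_ne _ h12]; exact g1
          have g2' : goodT α ((x - α • ev i₂) i₂) := by rw [forest_coord]; exact goodT_sub g2
          have h6 : lev ((x - α • ev i₂) i₁) = lev (x i₁) := by rw [forest_coord_ne _ h12]
          have h7 : lev ((x - α • ev i₂) i₂) < lev (x i₁) := by rw [forest_coord]; exact hc
          rcases h3.lt_or_eq with h8 | h8
          · exact (ih _ h8).1 _ g1' g2' h6 h7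
          · exact hB' _ g1' g2' (h6.trans h8) (by omega)
    intro x g1 g2 h3 h4
    obtain ⟨m, _, hm⟩ := lev_hit hα g1 (r + 1)
    exact hA m x g1 g2 h3 h4 hm

theorem Lop_nilp {n : ℕ} {α : ℝ} (hα : Irrational α) {i₁ i₂ : Fin n} (h12 : i₁ ≠ i₂) (x : E n)
    (h1 : goodT α (x i₁)) (h2 : goodT α (x i₂)) :
    ∃ N : ℕ, ∀ᶠ y in 𝓝 x, ∀ m : ℕ, N ≤ m → ∀ h : E n → ℝ, ((Lop α i₁ i₂)^[m] h) y = 0 := by
  rcases le_or_gt (lev (x i₁)) (lev (x i₂)) with h | h
  · exact (forest_main hα h12 _).2 x h1 h2 h rfl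
  · exact (forest_main hα h12 _).1 x h1 h2 rfl h

/-- the operator preserves a.e. continuity -/
theorem Lop_AC {n : ℕ} {α : ℝ} {i₁ i₂ : Fin n} {h : E n → ℝ} (hh : AC h) :
    AC (Lop α i₁ i₂ h) := by
  filter_upwards [ae_goodT (n := n) α, hh.comp_sub (α • ev i₁), hh.comp_sub (α • ev i₂)]
    with x hg hx1 hx2
  have heq : (fun y : E n => (if lev (x i₁ - α) ≤ lev (x i₂) then h (y - α • ev i₁) else 0) +
      (if lev (x i₂ - α) < lev (x i₁) then h (y - α • ev i₂) else 0)) =ᶠ[𝓝 x]
      Lop α i₁ i₂ h := by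
    filter_upwards [(forest_loc i₁ x (hg i₁)).1, (forest_loc i₁ x (hg i₁)).2,
      (forest_loc i₂ x (hg i₂)).1, (forest_loc i₂ x (hg i₂)).2] with y b1 b2 b3 b4
    unfold Lop
    rw [b1, b2, b3, b4]
  refine ContinuousAt.congr ?_ heq
  refine ContinuousAt.add ?_ ?_
  · split_ifs
    · exact hx1
    · exact continuousAt_const
  · split_ifs
    · exact hx2
    · exact continuousAt_const

theorem Lop_Per {n : ℕ} {α : ℝ} {i₁ i₂ : Fin n} {h : E n → ℝ} (hh : Per h) :
    Per (Lop α i₁ i₂ h) := by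
  intro x m
  unfold Lop
  have e1 : x + zv m - α • ev i₁ = (x - α • ev i₁) + zv m := by abel
  have e2 : x + zv m - α • ev i₂ = (x - α • ev i₂) + zv m := by abel
  have e3 : (x + zv m) i₁ - α = (x i₁ - α) + m i₁ := by
    rw [PiLp.add_apply, zv_apply]; ring
  have e4 : (x + zv m) i₂ - α = (x i₂ - α) + m i₂ := by
    rw [PiLp.add_apply, zv_apply]; ring
  have e5 : (x + zv m) i₁ = x i₁ + m i₁ := by rw [PiLp.add_apply, zv_apply]
  have e6 : (x + zv m) i₂ = x i₂ + m i₂ := by rw [PiLp.add_apply, zv_apply]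
  rw [e1, e2, hh, hh, e3, e4, e5, e6, lev_add_int, lev_add_int, lev_add_int, lev_add_int]

end Pool.MP_2fe79c_gt.Geo
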