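import Pool.Agent.Lib.MP_2fe79c_gt.Geo.Smooth

/-!
MP_2fe79c_gt, geometric bodies. Module PosCont: a positive almost invariant functional is close to
the integral, on continuous functions.

PROOF. Let δ > 0. G is continuous and periodic, hence uniformly continuous (compactness of a closed cube),
so there is r in (0,1) with |G x - G y| ≤ δ for ‖x-y‖ ≤ r. Take F from smoothing with this r.
(1) ∫_{ball 0 R} |F (γ i x) - F x| ≤ κ for every i. Let w x = F (γ i x) - F x (continuous, bounded by B since F
    is bounded), for m ≥ 1 and ε > 0 let θ x = min 1 (m * max 0 (R - ‖x‖)) and u = θ w / (|w| + ε): continuous,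
    Sup0 R u, Bd 1 u. By smoothing with g = γ i and with g = the identity (LinearIsometryEquiv.refl), same u':
    ∫ w u = φ (perL (compL (γ i) u')) - φ (perL u') ≤ κ, where u' is in RB n (R + r), which is contained in
    RB n (R + 1) (Sup0.mono; compL and perL of the same function) so that hinv applies. Now
    w u = θ w^2/(|w|+ε) ≥ θ (|w| - ε) ≥ θ |w| - ε on the ball and both vanish outside, so
    ∫_{ball} θ |w| ≤ κ + ε vol(ball). Let ε → 0 and m → ∞ (dominated or monotone convergence): the claim.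
(2) GapP: (∫_Q |F - φ(1)|)^2 ≤ c * (card ι * κ) * φ(1) ≤ |c| * card ι * κ, as ∫_Q F = φ(1) ≤ 1 and φ(1) ≥ 0.
(3) |φ G - φ(1) ∫_Q G| ≤ |φ G - ∫_Q F G| + |∫_Q (F - φ(1)) G| ≤ δ φ(1) + b ∫_Q |F - φ(1)|
    ≤ δ + b sqrt(|c| card ι κ). Let δ → 0.
-/

set_option autoImplicit false
open MeasureTheory Filter Topology

namespace Pool.MP_2fe79c_gt.Geo

private theorem poscont_unif {n : ℕ} {G : E n → ℝ} (hG : Continuous G) (hp : Per G) {δ : ℝ}
    (hδ : 0 < δ) : ∃ r : ℝ, 0 < r ∧ r ≤ 1 ∧ ∀ x y, ‖x - y‖ ≤ r → |G x - G y| ≤ δ := by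
  have h1 : UniformContinuousOn G (Metric.closedBall (0 : E n) (n + 1)) :=
    (isCompact_closedBall _ _).uniformContinuousOn_of_continuous hG.continuousOn
  obtain ⟨d, hd, h2⟩ := Metric.uniformContinuousOn_iff.mp h1 δ hδ
  refine ⟨min 1 (d / 2), lt_min one_pos (by positivity), min_le_left _ _, fun x y hxy => ?_⟩
  have hx : ‖x - zv (fl x)‖ ≤ n := norm_le_of_mem_Q (sub_fl_mem x)
  have hxy1 : ‖x - y‖ ≤ 1 := hxy.trans (min_le_left _ _)
  have hxy2 : ‖x - y‖ ≤ d / 2 := hxy.trans (min_le_right _ _)
  have hdist : ‖(x - zv (fl x)) - (y - zv (fl x))‖ = ‖x - y‖ := by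
    congr 1
    abel
  have hy : ‖y - zv (fl x)‖ ≤ n + 1 := by
    have h3 : y - zv (fl x) = (x - zv (fl x)) - ((x - zv (fl x)) - (y - zv (fl x))) := by abel
    rw [h3]
    refine (norm_sub_le _ _).trans ?_
    rw [hdist]
    linarith
  have h4 := h2 (x - zv (fl x)) (mem_closedBall_zero_iff.mpr (hx.trans (by linarith)))
    (y - zv (fl x)) (mem_closedBall_zero_iff.mpr hy) (by
      rw [dist_eq_norm, hdist]
      linarith)
  rw [Real.dist_eq, hp.sub x (fl x), hp.sub y (fl x)] at h4
  exact h4.le

private theorem poscont_integrable {n : ℕ} {u : E n → ℝ} {R : ℝ} (hu : Continuous u)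
    (hs : Sup0 R u) : Integrable u (volume : Measure (E n)) := by
  refine hu.integrable_of_hasCompactSupport ?_
  refine HasCompactSupport.intro (isCompact_closedBall (0 : E n) R) fun x hx => ?_
  refine hs x ?_
  rw [mem_closedBall_zero_iff, not_le] at hx
  exact hx.le

private theorem poscont_Q {n : ℕ} {f : E n → ℝ} (hf : Continuous f) :
    IntegrableOn f (Q n) (volume : Measure (E n)) := by
  refine (hf.continuousOn.integrableOn_compact (isCompact_closedBall (0 : E n) n)).mono_set ?_
  intro x hx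
  exact mem_closedBall_zero_iff.mpr (norm_le_of_mem_Q hx)

/-- cut off function -/
private noncomputable def poscont_th {n : ℕ} (R : ℝ) (m : ℕ) (x : E n) : ℝ :=
  min 1 ((m : ℝ) * max 0 (R - ‖x‖))

private theorem poscont_th_cont {n : ℕ} (R : ℝ) (m : ℕ) : Continuous (poscont_th (n := n) R m) := by
  unfold poscont_th
  fun_prop

private theorem poscont_th_nonneg {n : ℕ} (R : ℝ) (m : ℕ) (x : E n) : 0 ≤ poscont_th R m x := by
  unfold poscont_th
  exact le_min zero_le_one (mul_nonneg (Nat.cast_nonneg m) (le_max_left _ _))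

private theorem poscont_th_le {n : ℕ} (R : ℝ) (m : ℕ) (x : E n) : poscont_th R m x ≤ 1 :=
  min_le_left _ _

private theorem poscont_th_sup {n : ℕ} (R : ℝ) (m : ℕ) : Sup0 R (poscont_th (n := n) R m) := by
  intro x hx
  unfold poscont_th
  rw [max_eq_left (by linarith), mul_zero]
  exact min_eq_right zero_le_one

/-- integral of |w| against the cut off functions -/
private theorem poscont_cut {n : ℕ} {R κ : ℝ} {w : E n → ℝ} (hw : Continuous w)
    (h : ∀ u : E n → ℝ, Continuous u → Sup0 R u → Bd 1 u → ∫ x, w x * u x ≤ κ) (m : ℕ) :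
    ∫ x, poscont_th R m x * |w x| ≤ κ := by
  have hth := poscont_th_cont (n := n) R m
  have hI : 0 ≤ ∫ x, poscont_th (n := n) R m x :=
    integral_nonneg fun x => poscont_th_nonneg R m x
  have hint1 : Integrable (fun x => poscont_th R m x * |w x|) (volume : Measure (E n)) := by
    refine poscont_integrable (R := R) (hth.mul hw.abs) fun x hx => ?_
    show poscont_th R m x * |w x| = 0
    rw [poscont_th_sup R m x hx, zero_mul]
  have hint2 : Integrable (poscont_th (n := n) R m) (volume : Measure (E n)) :=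
    poscont_integrable hth (poscont_th_sup R m)
  have key : ∀ ε : ℝ, 0 < ε → ∫ x, poscont_th R m x * |w x| ≤
      κ + ε * ∫ x, poscont_th (n := n) R m x := by
    intro ε hε
    have hden : ∀ x, 0 < |w x| + ε := fun x => by positivity
    set u : E n → ℝ := fun x => poscont_th R m x * (w x / (|w x| + ε)) with hu
    have huc : Continuous u :=
      hth.mul (hw.div (hw.abs.add continuous_const) fun x => (hden x).ne')
    have hus : Sup0 R u := fun x hx => by
      show poscont_th R m x * (w x / (|w x| + ε)) = 0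
      rw [poscont_th_sup R m x hx, zero_mul]
    have hub : Bd 1 u := fun x => by
      show |poscont_th R m x * (w x / (|w x| + ε))| ≤ 1
      rw [abs_mul, abs_of_nonneg (poscont_th_nonneg R m x), abs_div, abs_of_pos (hden x)]
      have h1 : |w x| / (|w x| + ε) ≤ 1 := by
        rw [div_le_one (hden x)]
        linarith
      calc poscont_th R m x * (|w x| / (|w x| + ε)) ≤ 1 * 1 :=
            mul_le_mul (poscont_th_le R m x) h1 (by positivity) zero_le_one
        _ = 1 := one_mul 1
    have h1 := h u huc hus hub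
    have hint3 : Integrable (fun x => w x * u x) (volume : Measure (E n)) :=
      poscont_integrable (R := R) (hw.mul huc) fun x hx => by
        show w x * u x = 0
        rw [hus x hx, mul_zero]
    have h2 : ∫ x, poscont_th R m x * |w x| ≤
        ∫ x, (w x * u x + ε * poscont_th (n := n) R m x) := by
      refine integral_mono hint1 (hint3.add (hint2.const_mul ε)) fun x => ?_
      show poscont_th R m x * |w x| ≤
        w x * (poscont_th R m x * (w x / (|w x| + ε))) + ε * poscont_th R m x
      have h3 : |w x| - ε ≤ w x * (w x / (|w x| + ε)) := by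
        rw [← mul_div_assoc, le_div_iff₀ (hden x)]
        nlinarith [abs_mul_abs_self (w x)]
      have h4 := mul_le_mul_of_nonneg_left h3 (poscont_th_nonneg R m x)
      nlinarith [h4]
    rw [integral_add hint3 (hint2.const_mul ε), integral_const_mul] at h2
    linarith
  refine le_of_forall_pos_le_add fun e he => ?_
  have h5 := key (e / ((∫ x, poscont_th (n := n) R m x) + 1)) (by positivity)
  refine h5.trans ?_
  have h6 : e / ((∫ x, poscont_th (n := n) R m x) + 1) * ∫ x, poscont_th (n := n) R m x ≤ e := by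
    rw [div_mul_eq_mul_div, div_le_iff₀ (by linarith)]
    nlinarith
  linarith

private theorem poscont_ball {n : ℕ} {R κ : ℝ} {w : E n → ℝ} (hw : Continuous w)
    (h : ∀ u : E n → ℝ, Continuous u → Sup0 R u → Bd 1 u → ∫ x, w x * u x ≤ κ) :
    ∫ x in Metric.ball (0 : E n) R, |w x| ≤ κ := by
  have hlim : Tendsto (fun m : ℕ => ∫ x in Metric.ball (0 : E n) R, poscont_th R m x * |w x|) atTop
      (𝓝 (∫ x in Metric.ball (0 : E n) R, |w x|)) := by
    refine tendsto_integral_of_dominated_convergence (fun x => |w x|) ?_ ?_ ?_ ?_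
    · intro m
      exact ((poscont_th_cont (n := n) R m).mul hw.abs).aestronglyMeasurable
    · exact (hw.abs.continuousOn.integrableOn_compact (isCompact_closedBall (0 : E n) R)).mono_set
        Metric.ball_subset_closedBall
    · intro m
      refine Eventually.of_forall fun x => ?_
      rw [Real.norm_eq_abs, abs_mul, abs_abs, abs_of_nonneg (poscont_th_nonneg R m x)]
      calc poscont_th R m x * |w x| ≤ 1 * |w x| :=
            mul_le_mul_of_nonneg_right (poscont_th_le R m x) (abs_nonneg _)
        _ = |w x| := one_mul _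
    · rw [ae_restrict_iff' Metric.isOpen_ball.measurableSet]
      refine Eventually.of_forall fun x hx => ?_
      have hx' : 0 < R - ‖x‖ := by
        rw [mem_ball_zero_iff] at hx
        linarith
      refine tendsto_const_nhds.congr' ?_
      obtain ⟨M, hM⟩ := exists_nat_ge (1 / (R - ‖x‖))
      filter_upwards [eventually_ge_atTop M] with m hm
      have h1 : (1 : ℝ) ≤ m * (R - ‖x‖) := by
        rw [div_le_iff₀ hx'] at hM
        refine hM.trans (mul_le_mul_of_nonneg_right ?_ hx'.le)
        exact_mod_cast hm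
      unfold poscont_th
      rw [max_eq_right hx'.le, min_eq_left h1, one_mul]
  refine le_of_tendsto hlim (Eventually.of_forall fun m => ?_)
  have h1 : ∫ x in Metric.ball (0 : E n) R, poscont_th R m x * |w x| =
      ∫ x, poscont_th R m x * |w x| := by
    refine setIntegral_eq_integral_of_forall_compl_eq_zero fun x hx => ?_
    rw [mem_ball_zero_iff, not_lt] at hx
    rw [poscont_th_sup R m x hx, zero_mul]
  rw [h1]
  exact poscont_cut hw h m

theorem posCont {n : ℕ} {ι : Type*} [Fintype ι] (γ : ι → (E n ≃ₗᵢ[ℝ] E n)) (R c : ℝ)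
    (hgap : GapP γ R c) (κ : ℝ) (hκ : 0 ≤ κ) (φ : RX n →ₗ[ℝ] ℝ)
    (hpos : ∀ g : RX n, (∀ x, 0 ≤ g.1 x) → 0 ≤ φ g) (h1 : φ (oneX n) ≤ 1)
    (hinv : ∀ (i : ι) (h : RB n (R + 1)) (b : ℝ), Bd b h.1 →
      |φ (perL n (R + 1) h) - φ (perL n (R + 1) (compL n (R + 1) (γ i) h))| ≤ κ * b)
    (G : RX n) (hG : Continuous G.1) (b : ℝ) (hb : Bd b G.1) :
    |φ G - φ (oneX n) * ∫ x in Q n, G.1 x| ≤ b * Real.sqrt (|c| * Fintype.card ι * κ) := by
  have hb0 : 0 ≤ b := (abs_nonneg _).trans (hb 0)
  have hone : 0 ≤ φ (oneX n) := hpos _ fun x => zero_le_one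
  refine le_of_forall_pos_le_add fun δ hδ => ?_
  obtain ⟨r, hr, hr1, hG1⟩ := poscont_unif hG G.2.2.1 hδ
  obtain ⟨F, hFc, hFp, hF0, hF1, hFu, hFG⟩ := smoothing φ hpos r hr
  -- almost invariance of F
  have hinvF : ∀ i, ∫ x in Metric.ball (0 : E n) R, |F (γ i x) - F x| ≤ κ := by
    intro i
    refine poscont_ball (w := fun x => F (γ i x) - F x)
      ((hFc.comp (γ i).continuous).sub hFc) fun u huc hus hub => ?_
    obtain ⟨u', hu'b, hu'⟩ := hFu u R huc hus
    have e1 := hu' (γ i)
    have e2 := hu' (LinearIsometryEquiv.refl ℝ (E n))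
    have hint1 : Integrable (fun x => F (γ i x) * u x) (volume : Measure (E n)) :=
      poscont_integrable (R := R) ((hFc.comp (γ i).continuous).mul huc) fun x hx => by
        show F (γ i x) * u x = 0
        rw [hus x hx, mul_zero]
    have hint2 : Integrable (fun x => F x * u x) (volume : Measure (E n)) :=
      poscont_integrable (R := R) (hFc.mul huc) fun x hx => by
        show F x * u x = 0
        rw [hus x hx, mul_zero]
    have e3 : ∫ x, (F (γ i x) - F x) * u x =
        (∫ x, F (γ i x) * u x) - ∫ x, F x * u x := by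
      rw [← integral_sub hint1 hint2]
      refine integral_congr_ae (Eventually.of_forall fun x => ?_)
      show (F (γ i x) - F x) * u x = F (γ i x) * u x - F x * u x
      ring
    rw [e3, e1]
    have e4 : ∫ x, F x * u x = φ (perL n (R + r) u') := e2
    rw [e4]
    have hR : R + r ≤ R + 1 := by linarith
    set u'' : RB n (R + 1) := ⟨u'.1, ⟨u'.2.1, u'.2.2.1.mono hR, u'.2.2.2⟩⟩ with hu''
    have h5 := hinv i u'' 1 (hu'b 1 hub)
    have e5 : perL n (R + 1) u'' = perL n (R + r) u' := Subtype.ext rfl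
    have e6 : perL n (R + 1) (compL n (R + 1) (γ i) u'') =
        perL n (R + r) (compL n (R + r) (γ i) u') := Subtype.ext rfl
    rw [e5, e6, mul_one, abs_sub_comm] at h5
    exact (le_abs_self _).trans h5
  -- the gap
  have hgapF := hgap F hFc hFp hF0
  rw [hF1] at hgapF
  have hsum : ∑ i, ∫ x in Metric.ball (0 : E n) R, |F (γ i x) - F x| ≤ Fintype.card ι * κ := by
    calc ∑ i, ∫ x in Metric.ball (0 : E n) R, |F (γ i x) - F x| ≤ ∑ _i : ι, κ :=
          Finset.sum_le_sum fun i _ => hinvF i
      _ = Fintype.card ι * κ := by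
          rw [Finset.sum_const, Finset.card_univ, nsmul_eq_mul]
  have hsum0 : 0 ≤ ∑ i, ∫ x in Metric.ball (0 : E n) R, |F (γ i x) - F x| :=
    Finset.sum_nonneg fun i _ => integral_nonneg fun x => abs_nonneg _
  have hgap2 : (∫ x in Q n, |F x - φ (oneX n)|) ^ 2 ≤ |c| * Fintype.card ι * κ := by
    refine hgapF.trans ?_
    calc c * (∑ i, ∫ x in Metric.ball (0 : E n) R, |F (γ i x) - F x|) * φ (oneX n)
        ≤ |c| * (∑ i, ∫ x in Metric.ball (0 : E n) R, |F (γ i x) - F x|) * φ (oneX n) := by
          refine mul_le_mul_of_nonneg_right ?_ hone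
          exact mul_le_mul_of_nonneg_right (le_abs_self c) hsum0
      _ ≤ |c| * (Fintype.card ι * κ) * 1 := by
          refine mul_le_mul ?_ h1 hone (by positivity)
          exact mul_le_mul_of_nonneg_left hsum (abs_nonneg c)
      _ = |c| * Fintype.card ι * κ := by ring
  have hL1 : ∫ x in Q n, |F x - φ (oneX n)| ≤ Real.sqrt (|c| * Fintype.card ι * κ) :=
    Real.le_sqrt_of_sq_le hgap2
  -- conclusion
  have hA := hFG G δ hG hG1
  have hA0 : ∫ x in Q n, (F x * G.1 x - φ G) = (∫ x in Q n, F x * G.1 x) - φ G := by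
    have i1 : IntegrableOn (fun x => F x * G.1 x) (Q n) volume := poscont_Q (hFc.mul hG)
    have i2 : IntegrableOn (fun _ : E n => φ G) (Q n) volume := poscont_Q continuous_const
    have i3 := integral_sub i1 i2
    rw [i3, integral_const]
    simp
  rw [hA0] at hA
  have hB : |(∫ x in Q n, F x * G.1 x) - φ (oneX n) * ∫ x in Q n, G.1 x| ≤
      b * Real.sqrt (|c| * Fintype.card ι * κ) := by
    have hi1 : IntegrableOn (fun x => F x * G.1 x) (Q n) volume := poscont_Q (hFc.mul hG)
    have hi2 : IntegrableOn (fun x => φ (oneX n) * G.1 x) (Q n) volume :=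
      poscont_Q (continuous_const.mul hG)
    rw [← integral_const_mul, ← integral_sub hi1 hi2]
    refine (abs_integral_le_integral_abs).trans ?_
    have hi3 : IntegrableOn (fun x => b * |F x - φ (oneX n)|) (Q n) volume :=
      poscont_Q (continuous_const.mul (hFc.sub continuous_const).abs)
    have hi4 : IntegrableOn (fun x => |F x * G.1 x - φ (oneX n) * G.1 x|) (Q n) volume :=
      poscont_Q ((hFc.mul hG).sub (continuous_const.mul hG)).abs
    calc ∫ x in Q n, |F x * G.1 x - φ (oneX n) * G.1 x| ≤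
        ∫ x in Q n, b * |F x - φ (oneX n)| := by
          refine integral_mono hi4 hi3 fun x => ?_
          show |F x * G.1 x - φ (oneX n) * G.1 x| ≤ b * |F x - φ (oneX n)|
          rw [← sub_mul, abs_mul, mul_comm]
          exact mul_le_mul_of_nonneg_right (hb x) (abs_nonneg _)
      _ = b * ∫ x in Q n, |F x - φ (oneX n)| := integral_const_mul _ _
      _ ≤ b * Real.sqrt (|c| * Fintype.card ι * κ) := mul_le_mul_of_nonneg_left hL1 hb0
  have hC : |φ G - φ (oneX n) * ∫ x in Q n, G.1 x| ≤
      |(∫ x in Q n, F x * G.1 x) - φ G| +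
      |(∫ x in Q n, F x * G.1 x) - φ (oneX n) * ∫ x in Q n, G.1 x| := by
    have := abs_sub ((∫ x in Q n, F x * G.1 x) - φ (oneX n) * ∫ x in Q n, G.1 x)
      ((∫ x in Q n, F x * G.1 x) - φ G)
    have e : ((∫ x in Q n, F x * G.1 x) - φ (oneX n) * ∫ x in Q n, G.1 x) -
      ((∫ x in Q n, F x * G.1 x) - φ G) = φ G - φ (oneX n) * ∫ x in Q n, G.1 x := by ring
    rw [e] at this
    linarith
  have hD : δ * φ (oneX n) ≤ δ := by nlinarith
  linarith

end Pool.MP_2fe79c_gt.Geo
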