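import Pool.Agent.Lib.MP_2fe79c_gt.Geo.Base

/-!
MP_2fe79c_gt, geometric bodies. Module Riesz: the positive part of a bounded linear functional on RX n.

PROOF. For g ≥ 0 in RX n put p g = sSup {ψ k | k ∈ RX n, 0 ≤ k ≤ g}; the set is nonempty (k = 0) and bounded
above (hψ with a bound b of g: 0 ≤ k ≤ g implies Bd b k).
(1) additive on the cone: if 0 ≤ k ≤ g1 + g2 then k1 = min k g1 and k2 = k - k1 are in RX n (AC.min, AC.sub,
    bounded, periodic), 0 ≤ k1 ≤ g1, 0 ≤ k2 ≤ g2, so p (g1+g2) ≤ p g1 + p g2; the reverse inequality: add.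
(2) positively homogeneous: p (c g) = c p g for c ≥ 0.   p 0 = 0.
(3) define φ g = p (g⁺) - p (g⁻) with g⁺ = max g 0, g⁻ = max (-g) 0 (in RX n by AC.max). For g = u - w with
    u, w ≥ 0 one has g⁺ + w = g⁻ + u, so by (1) φ g = p u - p w; this gives additivity and homogeneity
    (c < 0: (c g)⁺ = -c g⁻ etc.). For g ≥ 0: g⁺ = g, g⁻ = 0, φ g = p g, and p g is the least upper bound.
-/

set_option autoImplicit false
open MeasureTheory Filter Topology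

namespace Pool.MP_2fe79c_gt.Geo

private def rS {n : ℕ} (ψ : RX n →ₗ[ℝ] ℝ) (g : RX n) : Set ℝ :=
  {r | ∃ k : RX n, (∀ x, 0 ≤ k.1 x ∧ k.1 x ≤ g.1 x) ∧ r = ψ k}

private noncomputable def rp {n : ℕ} (ψ : RX n →ₗ[ℝ] ℝ) (g : RX n) : ℝ := sSup (rS ψ g)

private theorem rS_nonempty {n : ℕ} (ψ : RX n →ₗ[ℝ] ℝ) (g : RX n) (hg : ∀ x, 0 ≤ g.1 x) :
    (rS ψ g).Nonempty :=
  ⟨0, 0, fun x => ⟨le_rfl, hg x⟩, (map_zero ψ).symm⟩

private theorem rS_bdd {n : ℕ} (ψ : RX n →ₗ[ℝ] ℝ)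
    (hψ : ∀ (g : RX n) (b : ℝ), Bd b g.1 → |ψ g| ≤ b) (g : RX n) : BddAbove (rS ψ g) := by
  obtain ⟨b, hb⟩ := (mem_RX.mp g.2).1
  refine ⟨b, ?_⟩
  rintro r ⟨k, hk, rfl⟩
  refine (le_abs_self _).trans (hψ k b fun x => ?_)
  rw [abs_of_nonneg (hk x).1]
  exact (hk x).2.trans ((le_abs_self _).trans (hb x))

private theorem rp_isLUB {n : ℕ} (ψ : RX n →ₗ[ℝ] ℝ)
    (hψ : ∀ (g : RX n) (b : ℝ), Bd b g.1 → |ψ g| ≤ b) (g : RX n) (hg : ∀ x, 0 ≤ g.1 x) :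
    IsLUB (rS ψ g) (rp ψ g) := isLUB_csSup (rS_nonempty ψ g hg) (rS_bdd ψ hψ g)

/-- the minimum of two members of `RX n` -/
private noncomputable def rmin {n : ℕ} (f g : RX n) : RX n :=
  ⟨fun x => min (f.1 x) (g.1 x), by
    obtain ⟨⟨b, hb⟩, hP, hA⟩ := mem_RX.mp f.2
    obtain ⟨⟨c, hc⟩, hP', hA'⟩ := mem_RX.mp g.2
    refine mem_RX.mpr ⟨⟨max b c, fun x => ?_⟩, fun x m => ?_, hA.min hA'⟩
    · have h1 := abs_le.mp (hb x)
      have h2 := abs_le.mp (hc x)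
      have h3 := le_max_left b c
      have h4 := le_max_right b c
      rw [abs_le]
      constructor
      · rw [le_min_iff]
        constructor <;> linarith
      · exact (min_le_left _ _).trans (h1.2.trans h3)
    · show min (f.1 (x + zv m)) (g.1 (x + zv m)) = _
      rw [hP, hP']⟩

/-- the positive part of a member of `RX n` -/
private noncomputable def rpos {n : ℕ} (f : RX n) : RX n :=
  ⟨fun x => max (f.1 x) 0, by
    obtain ⟨⟨b, hb⟩, hP, hA⟩ := mem_RX.mp f.2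
    refine mem_RX.mpr ⟨⟨b, fun x => ?_⟩, fun x m => ?_, hA.max (AC.const 0)⟩
    · have h1 := abs_le.mp (hb x)
      have h2 : 0 ≤ b := (abs_nonneg _).trans (hb x)
      rw [abs_of_nonneg (le_max_right _ _)]
      exact max_le h1.2 h2
    · show max (f.1 (x + zv m)) 0 = _
      rw [hP]⟩

private theorem rS_add {n : ℕ} (ψ : RX n →ₗ[ℝ] ℝ) (g₁ g₂ : RX n) (h₁ : ∀ x, 0 ≤ g₁.1 x)
    (h₂ : ∀ x, 0 ≤ g₂.1 x) : ∀ r, r ∈ rS ψ (g₁ + g₂) ↔ ∃ a ∈ rS ψ g₁, ∃ b ∈ rS ψ g₂, a + b = r := by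
  intro r
  constructor
  · rintro ⟨k, hk, rfl⟩
    have e1 : ∀ x, (rmin k g₁).1 x = min (k.1 x) (g₁.1 x) := fun _ => rfl
    have e2 : ∀ x, (k - rmin k g₁).1 x = k.1 x - min (k.1 x) (g₁.1 x) := fun _ => rfl
    have e3 : ∀ x, (g₁ + g₂).1 x = g₁.1 x + g₂.1 x := fun _ => rfl
    refine ⟨ψ (rmin k g₁), ⟨rmin k g₁, fun x => ?_, rfl⟩, ψ (k - rmin k g₁),
      ⟨k - rmin k g₁, fun x => ?_, rfl⟩, ?_⟩
    · rw [e1]
      exact ⟨le_min (hk x).1 (h₁ x), min_le_right _ _⟩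
    · rw [e2]
      have h3 := (hk x).2
      rw [e3] at h3
      refine ⟨sub_nonneg.mpr (min_le_left _ _), ?_⟩
      rcases le_total (k.1 x) (g₁.1 x) with h4 | h4
      · rw [min_eq_left h4, sub_self]
        exact h₂ x
      · rw [min_eq_right h4]
        linarith
    · rw [← map_add, add_sub_cancel]
  · rintro ⟨_, ⟨k₁, hk₁, rfl⟩, _, ⟨k₂, hk₂, rfl⟩, rfl⟩
    refine ⟨k₁ + k₂, fun x => ?_, (map_add ψ _ _).symm⟩
    have e3 : (g₁ + g₂).1 x = g₁.1 x + g₂.1 x := rfl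
    have e4 : (k₁ + k₂).1 x = k₁.1 x + k₂.1 x := rfl
    rw [e3, e4]
    exact ⟨add_nonneg (hk₁ x).1 (hk₂ x).1, add_le_add (hk₁ x).2 (hk₂ x).2⟩

private theorem rp_add {n : ℕ} (ψ : RX n →ₗ[ℝ] ℝ)
    (hψ : ∀ (g : RX n) (b : ℝ), Bd b g.1 → |ψ g| ≤ b) (g₁ g₂ : RX n) (h₁ : ∀ x, 0 ≤ g₁.1 x)
    (h₂ : ∀ x, 0 ≤ g₂.1 x) : rp ψ (g₁ + g₂) = rp ψ g₁ + rp ψ g₂ := by
  have h3 : ∀ x, 0 ≤ (g₁ + g₂).1 x := fun x => add_nonneg (h₁ x) (h₂ x)
  have L1 := rp_isLUB ψ hψ g₁ h₁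
  have L2 := rp_isLUB ψ hψ g₂ h₂
  have L3 := rp_isLUB ψ hψ (g₁ + g₂) h3
  apply le_antisymm
  · refine L3.2 ?_
    intro r hr
    obtain ⟨a, ha, b, hb, rfl⟩ := (rS_add ψ g₁ g₂ h₁ h₂ r).mp hr
    exact add_le_add (L1.1 ha) (L2.1 hb)
  · rw [← le_sub_iff_add_le]
    refine L1.2 ?_
    intro a ha
    rw [le_sub_comm]
    refine L2.2 ?_
    intro b hb
    rw [le_sub_iff_add_le, add_comm]
    exact L3.1 ((rS_add ψ g₁ g₂ h₁ h₂ _).mpr ⟨a, ha, b, hb, rfl⟩)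

private theorem rp_smul_le {n : ℕ} (ψ : RX n →ₗ[ℝ] ℝ)
    (hψ : ∀ (g : RX n) (b : ℝ), Bd b g.1 → |ψ g| ≤ b) (g : RX n) (h : ∀ x, 0 ≤ g.1 x)
    (c : ℝ) (hc : 0 < c) : c * rp ψ g ≤ rp ψ (c • g) := by
  have h3 : ∀ x, 0 ≤ (c • g).1 x := fun x => mul_nonneg hc.le (h x)
  have L1 := rp_isLUB ψ hψ g h
  have L3 := rp_isLUB ψ hψ (c • g) h3
  rw [← le_div_iff₀' hc]
  refine L1.2 ?_
  rintro _ ⟨k, hk, rfl⟩
  rw [le_div_iff₀' hc]
  refine L3.1 ⟨c • k, fun x => ?_, ?_⟩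
  · exact ⟨mul_nonneg hc.le (hk x).1, mul_le_mul_of_nonneg_left (hk x).2 hc.le⟩
  · rw [map_smul, smul_eq_mul]

private theorem rp_zero {n : ℕ} (ψ : RX n →ₗ[ℝ] ℝ)
    (hψ : ∀ (g : RX n) (b : ℝ), Bd b g.1 → |ψ g| ≤ b) : rp ψ 0 = 0 := by
  have h := rp_add ψ hψ 0 0 (fun x => le_rfl) (fun x => le_rfl)
  rw [add_zero] at h
  linarith

private theorem rp_smul {n : ℕ} (ψ : RX n →ₗ[ℝ] ℝ)
    (hψ : ∀ (g : RX n) (b : ℝ), Bd b g.1 → |ψ g| ≤ b) (g : RX n) (h : ∀ x, 0 ≤ g.1 x)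
    (c : ℝ) (hc : 0 ≤ c) : rp ψ (c • g) = c * rp ψ g := by
  rcases hc.eq_or_lt with h0 | h0
  · subst h0
    rw [zero_smul, zero_mul]
    exact rp_zero ψ hψ
  · apply le_antisymm
    · have h3 : ∀ x, 0 ≤ (c • g).1 x := fun x => mul_nonneg h0.le (h x)
      have h4 := rp_smul_le ψ hψ (c • g) h3 c⁻¹ (inv_pos.mpr h0)
      rw [smul_smul, inv_mul_cancel₀ h0.ne', one_smul] at h4
      rw [inv_mul_le_iff₀ h0] at h4
      exact h4
    · exact rp_smul_le ψ hψ g h c h0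

private theorem rpos_nonneg {n : ℕ} (f : RX n) (x : E n) : 0 ≤ (rpos f).1 x := le_max_right _ _

private theorem rphi_eq {n : ℕ} (ψ : RX n →ₗ[ℝ] ℝ)
    (hψ : ∀ (g : RX n) (b : ℝ), Bd b g.1 → |ψ g| ≤ b) (g u w : RX n) (hu : ∀ x, 0 ≤ u.1 x)
    (hw : ∀ x, 0 ≤ w.1 x) (h : g = u - w) :
    rp ψ (rpos g) - rp ψ (rpos (-g)) = rp ψ u - rp ψ w := by
  have h1 : rpos g + w = rpos (-g) + u := by
    apply Subtype.ext
    funext x
    show max (g.1 x) 0 + w.1 x = max ((-g).1 x) 0 + u.1 x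
    have h2 : (-g).1 x = - g.1 x := rfl
    have h3 : g.1 x = u.1 x - w.1 x := by rw [h]; rfl
    rw [h2]
    rcases le_total (g.1 x) 0 with h4 | h4
    · rw [max_eq_right h4, max_eq_left (by linarith)]
      linarith
    · rw [max_eq_left h4, max_eq_right (by linarith)]
      linarith
  have h5 := rp_add ψ hψ (rpos g) w (rpos_nonneg g) hw
  have h6 := rp_add ψ hψ (rpos (-g)) u (rpos_nonneg (-g)) hu
  rw [h1, h6] at h5
  linarith

private theorem rpos_sub {n : ℕ} (g : RX n) : g = rpos g - rpos (-g) := by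
  apply Subtype.ext
  funext x
  show g.1 x = max (g.1 x) 0 - max (- g.1 x) 0
  rcases le_total (g.1 x) 0 with h4 | h4
  · rw [max_eq_right h4, max_eq_left (by linarith)]
    ring
  · rw [max_eq_left h4, max_eq_right (by linarith)]
    ring

theorem riesz {n : ℕ} (ψ : RX n →ₗ[ℝ] ℝ)
    (hψ : ∀ (g : RX n) (b : ℝ), Bd b g.1 → |ψ g| ≤ b) :
    ∃ φ : RX n →ₗ[ℝ] ℝ, ∀ g : RX n, (∀ x, 0 ≤ g.1 x) →
      IsLUB {r | ∃ k : RX n, (∀ x, 0 ≤ k.1 x ∧ k.1 x ≤ g.1 x) ∧ r = ψ k} (φ g) := by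
  refine ⟨{ toFun := fun g => rp ψ (rpos g) - rp ψ (rpos (-g))
            map_add' := ?_
            map_smul' := ?_ }, ?_⟩
  · intro g h
    have h1 : g + h = (rpos g + rpos h) - (rpos (-g) + rpos (-h)) := by
      conv_lhs => rw [rpos_sub g, rpos_sub h]
      abel
    rw [rphi_eq ψ hψ (g + h) _ _ (fun x => add_nonneg (rpos_nonneg g x) (rpos_nonneg h x))
      (fun x => add_nonneg (rpos_nonneg (-g) x) (rpos_nonneg (-h) x)) h1,
      rp_add ψ hψ _ _ (rpos_nonneg g) (rpos_nonneg h),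
      rp_add ψ hψ _ _ (rpos_nonneg (-g)) (rpos_nonneg (-h))]
    ring
  · intro c g
    rw [RingHom.id_apply, smul_eq_mul]
    rcases le_total 0 c with hc | hc
    · have h1 : c • g = c • rpos g - c • rpos (-g) := by
        apply Subtype.ext
        funext x
        have h2 : g.1 x = max (g.1 x) 0 - max (- g.1 x) 0 :=
          congrFun (congrArg Subtype.val (rpos_sub g)) x
        show c * g.1 x = c * max (g.1 x) 0 - c * max (- g.1 x) 0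
        conv_lhs => rw [h2]
        ring
      rw [rphi_eq ψ hψ (c • g) _ _ (fun x => mul_nonneg hc (rpos_nonneg g x))
        (fun x => mul_nonneg hc (rpos_nonneg (-g) x)) h1,
        rp_smul ψ hψ _ (rpos_nonneg g) c hc, rp_smul ψ hψ _ (rpos_nonneg (-g)) c hc]
      ring
    · have hc' : 0 ≤ -c := by linarith
      have h1 : c • g = (-c) • rpos (-g) - (-c) • rpos g := by
        apply Subtype.ext
        funext x
        have h2 : g.1 x = max (g.1 x) 0 - max (- g.1 x) 0 :=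
          congrFun (congrArg Subtype.val (rpos_sub g)) x
        show c * g.1 x = (-c) * max (- g.1 x) 0 - (-c) * max (g.1 x) 0
        conv_lhs => rw [h2]
        ring
      rw [rphi_eq ψ hψ (c • g) _ _ (fun x => mul_nonneg hc' (rpos_nonneg (-g) x))
        (fun x => mul_nonneg hc' (rpos_nonneg g x)) h1,
        rp_smul ψ hψ _ (rpos_nonneg g) (-c) hc', rp_smul ψ hψ _ (rpos_nonneg (-g)) (-c) hc']
      ring
  · intro g hg
    have h1 : rp ψ (rpos g) - rp ψ (rpos (-g)) = rp ψ g := by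
      rw [rphi_eq ψ hψ g g 0 hg (fun _ => le_rfl) (sub_zero g).symm, rp_zero ψ hψ, sub_zero]
    have h2 := rp_isLUB ψ hψ g hg
    rw [← h1] at h2
    exact h2

end Pool.MP_2fe79c_gt.Geo
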