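import Pool.Agent.Lib.MP_2fe79c_gt.Geo.Base

/-!
MP_2fe79c_gt, geometric bodies. Module Split: splitting of periodizations and the invariance of
the positive part of an almost invariant functional.

PROOF of split. h' x = h x * (k x / per h x) if per h x ≠ 0, and 0 otherwise. 0 ≤ k ≤ per h gives
0 ≤ h' ≤ h. k / per h is periodic, so per h' x = k x when per h x ≠ 0 (per_mul_Per or per_const_mul for the
fixed orbit); when per h x = 0 then k x = 0 and all h (x + zv m) = 0 (le_per at x + zv m and Per_per), so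
per h' x = 0 = k x. h' is bounded by the bound of h, vanishes where h vanishes. a.e. continuity: at a
point x where h, k and per h are continuous: if per h x ≠ 0 clear; if per h x = 0 then h x = 0 by le_per
and 0 ≤ h' ≤ h gives continuity by squeezing.
PROOF of inv_pos. Let h ≥ 0, Bd b h, g a linear isometry. Upper bound: for k with 0 ≤ k ≤ per h take h' from
split; ψ k = ψ (perL h') ≤ ψ (perL (compL g h')) + κ b (h' is bounded by b) ≤ φ (perL (compL g h)) + κ b,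
because 0 ≤ perL (compL g h') ≤ perL (compL g h) (per_le_per). Taking the sup: φ (perL h) ≤ φ (perL (compL g h)) + κ b.
Conversely for 0 ≤ k ≤ per (compL g h) apply split to compL g h, getting h'' with 0 ≤ h'' ≤ compL g h, and put
h' = compL g.symm h'', so that compL g h' = h'', 0 ≤ h' ≤ h, and ψ k = ψ (perL (compL g h')) ≤ ψ (perL h') + κ b
≤ φ (perL h) + κ b.
PROOF of inv_pos2 (signed h): h = h⁺ - h⁻ with h⁺ = max h 0, h⁻ = max (-h) 0 in RB n R, both bounded by b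
(b ≥ 0 since Bd b h), apply inv_pos to both and linearity.
-/

set_option autoImplicit false
open MeasureTheory Filter Topology

namespace Pool.MP_2fe79c_gt.Geo

theorem split {n : ℕ} {R : ℝ} (h : RB n R) (h0 : ∀ x, 0 ≤ h.1 x) (k : RX n)
    (hk : ∀ x, 0 ≤ k.1 x ∧ k.1 x ≤ per h.1 x) :
    ∃ h' : RB n R, (∀ x, 0 ≤ h'.1 x ∧ h'.1 x ≤ h.1 x) ∧ perL n R h' = k := by
  obtain ⟨⟨b, hb⟩, hS, hA⟩ := mem_RB.mp h.2
  obtain ⟨_, hkP, hkA⟩ := mem_RX.mp k.2
  have hp0 : ∀ x, 0 ≤ per h.1 x := per_nonneg h0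
  have hq0 : ∀ x, 0 ≤ k.1 x / per h.1 x := fun x => div_nonneg (hk x).1 (hp0 x)
  have hq1 : ∀ x, k.1 x / per h.1 x ≤ 1 := fun x => div_le_one_of_le₀ (hk x).2 (hp0 x)
  have hw : Per (fun x => k.1 x / per h.1 x) := by
    intro x m
    show k.1 (x + zv m) / per h.1 (x + zv m) = _
    rw [hkP, Per_per]
  have hle : ∀ x, 0 ≤ k.1 x / per h.1 x * h.1 x ∧ k.1 x / per h.1 x * h.1 x ≤ h.1 x := fun x =>
    ⟨mul_nonneg (hq0 x) (h0 x), mul_le_of_le_one_left (h0 x) (hq1 x)⟩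
  have hAC : AC (fun x => k.1 x / per h.1 x * h.1 x) := by
    filter_upwards [hA, hkA, AC.per hS hA] with x h1 h2 h3
    by_cases hz : per h.1 x = 0
    · have hx0 : h.1 x = 0 := le_antisymm (hz ▸ le_per hS h0 x) (h0 x)
      have hval : k.1 x / per h.1 x * h.1 x = 0 := by rw [hx0, mul_zero]
      have h4 : Tendsto h.1 (𝓝 x) (𝓝 0) := by
        have := h1.tendsto
        rwa [hx0] at this
      show Tendsto (fun x => k.1 x / per h.1 x * h.1 x) (𝓝 x) (𝓝 (k.1 x / per h.1 x * h.1 x))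
      rw [hval]
      exact tendsto_of_tendsto_of_tendsto_of_le_of_le tendsto_const_nhds h4
        (fun y => (hle y).1) (fun y => (hle y).2)
    · exact (h2.div h3 hz).mul h1
  refine ⟨⟨fun x => k.1 x / per h.1 x * h.1 x, mem_RB.mpr ⟨⟨b, fun x => ?_⟩, hS.mul_left _, hAC⟩⟩,
    hle, ?_⟩
  · rw [abs_of_nonneg (hle x).1]
    exact (hle x).2.trans ((le_abs_self _).trans (hb x))
  · apply Subtype.ext
    funext x
    show per (fun x => k.1 x / per h.1 x * h.1 x) x = k.1 x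
    rw [per_mul_Per hw]
    by_cases hz : per h.1 x = 0
    · have h5 := hk x
      rw [hz] at h5
      rw [hz, mul_zero]
      exact le_antisymm h5.1 h5.2
    · exact div_mul_cancel₀ _ hz

private theorem inv_half {n : ℕ} {R : ℝ} (g : E n ≃ₗᵢ[ℝ] E n) (κ : ℝ) (ψ φ : RX n →ₗ[ℝ] ℝ)
    (hφ : ∀ f : RX n, (∀ x, 0 ≤ f.1 x) →
      IsLUB {r | ∃ k : RX n, (∀ x, 0 ≤ k.1 x ∧ k.1 x ≤ f.1 x) ∧ r = ψ k} (φ f))
    (hinv : ∀ (h : RB n R) (b : ℝ), Bd b h.1 → ψ (perL n R h) - ψ (perL n R (compL n R g h)) ≤ κ * b)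
    (h : RB n R) (h0 : ∀ x, 0 ≤ h.1 x) (b : ℝ) (hb : Bd b h.1) :
    φ (perL n R h) ≤ φ (perL n R (compL n R g h)) + κ * b := by
  have hN : ∀ x, 0 ≤ (perL n R h).1 x := fun x => per_nonneg h0 x
  have hN' : ∀ x, 0 ≤ (perL n R (compL n R g h)).1 x := fun x =>
    per_nonneg (fun y => h0 (g.symm y)) x
  refine (hφ _ hN).2 ?_
  rintro _ ⟨k, hk, rfl⟩
  obtain ⟨h', hh', hper⟩ := split h h0 k hk
  have hb' : Bd b h'.1 := fun x => by
    rw [abs_of_nonneg (hh' x).1]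
    exact (hh' x).2.trans ((le_abs_self _).trans (hb x))
  have h1 := hinv h' b hb'
  rw [hper] at h1
  have h2 : ψ (perL n R (compL n R g h')) ≤ φ (perL n R (compL n R g h)) := by
    refine (hφ _ hN').1 ⟨perL n R (compL n R g h'), fun x => ⟨?_, ?_⟩, rfl⟩
    · exact per_nonneg (fun y => (hh' (g.symm y)).1) x
    · exact per_le_per (mem_RB.mp (compL n R g h').2).2.1 (mem_RB.mp (compL n R g h).2).2.1
        (fun y => (hh' (g.symm y)).2) x
  linarith

theorem inv_pos {n : ℕ} {R : ℝ} (g : E n ≃ₗᵢ[ℝ] E n) (κ : ℝ) (ψ φ : RX n →ₗ[ℝ] ℝ)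
    (hφ : ∀ f : RX n, (∀ x, 0 ≤ f.1 x) →
      IsLUB {r | ∃ k : RX n, (∀ x, 0 ≤ k.1 x ∧ k.1 x ≤ f.1 x) ∧ r = ψ k} (φ f))
    (hinv : ∀ (h : RB n R) (b : ℝ), Bd b h.1 → |ψ (perL n R h) - ψ (perL n R (compL n R g h))| ≤ κ * b)
    (h : RB n R) (h0 : ∀ x, 0 ≤ h.1 x) (b : ℝ) (hb : Bd b h.1) :
    |φ (perL n R h) - φ (perL n R (compL n R g h))| ≤ κ * b := by
  have h1 := inv_half g κ ψ φ hφ (fun k c hc => (le_abs_self _).trans (hinv k c hc)) h h0 b hb
  have hcomp : ∀ k : RB n R, compL n R g.symm (compL n R g k) = k := by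
    intro k
    apply Subtype.ext
    funext x
    show k.1 (g.symm (g.symm.symm x)) = k.1 x
    rw [LinearIsometryEquiv.symm_symm, g.symm_apply_apply]
  have hcomp' : ∀ k : RB n R, compL n R g (compL n R g.symm k) = k := by
    intro k
    apply Subtype.ext
    funext x
    show k.1 (g.symm.symm (g.symm x)) = k.1 x
    rw [LinearIsometryEquiv.symm_symm, g.apply_symm_apply]
  have h2 := inv_half g.symm κ ψ φ hφ (fun k c hc => by
    have hc' : Bd c (compL n R g.symm k).1 := fun x => hc _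
    have h3 := hinv (compL n R g.symm k) c hc'
    rw [hcomp' k] at h3
    have h4 := neg_abs_le (ψ (perL n R (compL n R g.symm k)) - ψ (perL n R k))
    linarith) (compL n R g h) (fun x => h0 _) b (fun x => hb _)
  rw [hcomp h] at h2
  rw [abs_le]
  constructor <;> linarith

theorem inv_pos2 {n : ℕ} {R : ℝ} (g : E n ≃ₗᵢ[ℝ] E n) (κ : ℝ) (ψ φ : RX n →ₗ[ℝ] ℝ)
    (hφ : ∀ f : RX n, (∀ x, 0 ≤ f.1 x) →
      IsLUB {r | ∃ k : RX n, (∀ x, 0 ≤ k.1 x ∧ k.1 x ≤ f.1 x) ∧ r = ψ k} (φ f))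
    (hinv : ∀ (h : RB n R) (b : ℝ), Bd b h.1 → |ψ (perL n R h) - ψ (perL n R (compL n R g h))| ≤ κ * b)
    (h : RB n R) (b : ℝ) (hb : Bd b h.1) :
    |φ (perL n R h) - φ (perL n R (compL n R g h))| ≤ 2 * κ * b := by
  obtain ⟨_, hS, hA⟩ := mem_RB.mp h.2
  have hb0 : 0 ≤ b := (abs_nonneg _).trans (hb 0)
  have hP : (fun x => max (h.1 x) 0) ∈ RB n R := by
    refine mem_RB.mpr ⟨⟨b, fun x => ?_⟩, fun x hx => ?_, hA.max (AC.const 0)⟩
    · rw [abs_of_nonneg (le_max_right _ _)]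
      exact max_le ((le_abs_self _).trans (hb x)) hb0
    · show max (h.1 x) 0 = 0
      rw [hS x hx, max_self]
  have hM : (fun x => max (- h.1 x) 0) ∈ RB n R := by
    refine mem_RB.mpr ⟨⟨b, fun x => ?_⟩, fun x hx => ?_, hA.neg.max (AC.const 0)⟩
    · rw [abs_of_nonneg (le_max_right _ _)]
      exact max_le ((neg_le_abs _).trans (hb x)) hb0
    · show max (- h.1 x) 0 = 0
      rw [hS x hx, neg_zero, max_self]
  have hsub : h = (⟨_, hP⟩ : RB n R) - ⟨_, hM⟩ := by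
    apply Subtype.ext
    funext x
    show h.1 x = max (h.1 x) 0 - max (- h.1 x) 0
    rcases le_total (h.1 x) 0 with h4 | h4
    · rw [max_eq_right h4, max_eq_left (by linarith)]
      ring
    · rw [max_eq_left h4, max_eq_right (by linarith)]
      ring
  have h1 := inv_pos g κ ψ φ hφ hinv ⟨_, hP⟩ (fun x => le_max_right _ _) b (fun x => by
    show |max (h.1 x) 0| ≤ b
    rw [abs_of_nonneg (le_max_right _ _)]
    exact max_le ((le_abs_self _).trans (hb x)) hb0)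
  have h2 := inv_pos g κ ψ φ hφ hinv ⟨_, hM⟩ (fun x => le_max_right _ _) b (fun x => by
    show |max (- h.1 x) 0| ≤ b
    rw [abs_of_nonneg (le_max_right _ _)]
    exact max_le ((neg_le_abs _).trans (hb x)) hb0)
  rw [hsub]
  simp only [map_sub]
  rw [abs_le] at h1 h2 ⊢
  constructor <;> linarith [h1.1, h1.2, h2.1, h2.2]

end Pool.MP_2fe79c_gt.Geo
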