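import Pool.Agent.Lib.MP_2fe79c_gt.Geo.Sandwich
import Pool.Agent.Lib.MP_2fe79c_gt.Geo.Riesz
import Pool.Agent.Lib.MP_2fe79c_gt.Geo.Split
import Pool.Agent.Lib.MP_2fe79c_gt.Geo.PosCont

/-!
MP_2fe79c_gt, geometric bodies. Module Half: Hahn-Banach. Every f in RX n with mean zero and |f| ≤ 1 is, up to an
error ≤ 1/2, a sum of differences with uniformly bounded h i.

PROOF.
(A) posAC. posCont holds for every G in RX n, not only continuous ones: take lo k ≤ G ≤ hi k from sandwich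
    (periodic, continuous, bounded by b, in RX n by AC.of_continuous). Positivity: φ (lo k) ≤ φ G ≤ φ (hi k), also
    ∫ lo k ≤ ∫ G ≤ ∫ hi k; so |φ G - φ(1)∫G| ≤ b sqrt(..) + φ(1) ∫_Q (hi k - lo k), and the last integral tends
    to 0 by dominated convergence (hi k - lo k ≤ 2b, tends to 0 a.e.).
(B) Let κ > 0 be so small that 2 * sqrt(|c| * card ι * (2κ)) ≤ 1/4 (κ chosen from c and ι only). For g in RX n let
    N g = sInf {s | ∃ a b, 0 ≤ a, 0 ≤ b, s = a + κ b, ∃ h : ι → RB n (R+1), (∀ i, Bd b (h i).1) ∧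
                        Bd a (g - sum_i (perL (h i) - perL (compL (γ i) (h i)))).1}.
    The set is nonempty and bounded below by 0. N is subadditive and positively homogeneous.
    Let f in RX n, Bd 1 f, ∫_Q f = 0. By exists_extension_of_le_sublinear (algebraic Hahn-Banach; the functional
    t • f -> t * N f on the span of f is ≤ N since 0 = N 0 ≤ N f + N (-f)) there is a linear ψ : RX n → ℝ with
    ψ f = N f and ψ g ≤ N g for all g. (If f = 0 the claim of the theorem is trivial, h = 0.)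
    Consequences: |ψ g| ≤ b for Bd b g (take h = 0, also for -g); |ψ (perL h) - ψ (perL (compL (γ i) h))| ≤ κ b
    for Bd b h (take the family with the single entry h at i, and a = 0; also -h).
(C) riesz for ψ and for -ψ gives φ₁, φ₂; φ₂ = φ₁ - ψ: for g ≥ 0, k -> g - k is a bijection of the order interval
    [0,g], ψ (g - k) = ψ g - ψ k, so sup(-ψ k) = sup(ψ (g-k)) - ψ g; and every element of RX n is a difference of
    nonnegative ones (g = (g + b) - b). So ψ = φ₁ - φ₂ on RX n. φ₁, φ₂ are positive, φᵢ(1) ≤ 1 (ψ k ≤ 1 for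
    0 ≤ k ≤ 1), and almost invariant with constant 2κ by inv_pos2. By (A), since ∫ f = 0:
    |φᵢ f| ≤ sqrt(|c| card ι 2κ) =: η, so N f = ψ f ≤ 2 η ≤ 1/4 < 1/2. Hence there are a, b, h with
    a + κ b < 1/2, so a ≤ 1/2, b ≤ 1/(2κ) =: C. Done.
-/

set_option autoImplicit false
open MeasureTheory Filter Topology

namespace Pool.MP_2fe79c_gt.Geo

theorem half_posAC_aux {n : ℕ} (φ : RX n →ₗ[ℝ] ℝ)
    (hpos : ∀ g : RX n, (∀ x, 0 ≤ g.1 x) → 0 ≤ φ g) (g g' : RX n) (h : ∀ x, g.1 x ≤ g'.1 x) :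
    φ g ≤ φ g' := by
  have h1 := hpos (g' - g) (fun x => by
    change 0 ≤ g'.1 x - g.1 x
    linarith [h x])
  rw [map_sub] at h1
  linarith

theorem posAC {n : ℕ} {ι : Type*} [Fintype ι] (γ : ι → (E n ≃ₗᵢ[ℝ] E n)) (R c : ℝ)
    (hgap : GapP γ R c) (κ : ℝ) (hκ : 0 ≤ κ) (φ : RX n →ₗ[ℝ] ℝ)
    (hpos : ∀ g : RX n, (∀ x, 0 ≤ g.1 x) → 0 ≤ φ g) (h1 : φ (oneX n) ≤ 1)
    (hinv : ∀ (i : ι) (h : RB n (R + 1)) (b : ℝ), Bd b h.1 →
      |φ (perL n (R + 1) h) - φ (perL n (R + 1) (compL n (R + 1) (γ i) h))| ≤ κ * b)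
    (G : RX n) (b : ℝ) (hb : Bd b G.1) :
    |φ G - φ (oneX n) * ∫ x in Q n, G.1 x| ≤ b * Real.sqrt (|c| * Fintype.card ι * κ) := by
  obtain ⟨lo, hi, hc, hle, hlim, hper, -⟩ := sandwich G.1 b hb G.2.2.2
  have hPer := hper G.2.2.1
  have hb0 : 0 ≤ b := (abs_nonneg _).trans (hb 0)
  have hblo : ∀ k, Bd b (lo k) := fun k x => by
    obtain ⟨a1, a2, a3, a4⟩ := hle k x
    rw [abs_le]; constructor <;> linarith
  have hbhi : ∀ k, Bd b (hi k) := fun k x => by
    obtain ⟨a1, a2, a3, a4⟩ := hle k x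
    rw [abs_le]; constructor <;> linarith
  let LO : ℕ → RX n := fun k => ⟨lo k, ⟨⟨b, hblo k⟩, (hPer k).1, AC.of_continuous (hc k).1⟩⟩
  let HI : ℕ → RX n := fun k => ⟨hi k, ⟨⟨b, hbhi k⟩, (hPer k).2, AC.of_continuous (hc k).2⟩⟩
  have hQ : (volume (Q n)) < ⊤ := by rw [volume_Q]; exact ENNReal.one_lt_top
  have hIlo : ∀ k, IntegrableOn (lo k) (Q n) volume := fun k =>
    (AC.of_continuous (hc k).1).integrableOn (hblo k) hQ
  have hIhi : ∀ k, IntegrableOn (hi k) (Q n) volume := fun k =>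
    (AC.of_continuous (hc k).2).integrableOn (hbhi k) hQ
  have hIG : IntegrableOn G.1 (Q n) volume := G.2.2.2.integrableOn hb hQ
  have hlo := fun k => posCont γ R c hgap κ hκ φ hpos h1 hinv (LO k) (hc k).1 b (hblo k)
  have hhi := fun k => posCont γ R c hgap κ hκ φ hpos h1 hinv (HI k) (hc k).2 b (hbhi k)
  have hφ0 : 0 ≤ φ (oneX n) := hpos _ (fun x => by simp [oneX])
  set s := b * Real.sqrt (|c| * Fintype.card ι * κ) with hs
  have hI1 : ∀ k, ∫ x in Q n, lo k x ≤ ∫ x in Q n, G.1 x := fun k =>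
    setIntegral_mono (hIlo k) hIG (fun x => (hle k x).2.1)
  have hI2 : ∀ k, ∫ x in Q n, G.1 x ≤ ∫ x in Q n, hi k x := fun k =>
    setIntegral_mono hIG (hIhi k) (fun x => (hle k x).2.2.1)
  have hlim2 : Tendsto (fun k => ∫ x in Q n, (hi k x - lo k x)) atTop (𝓝 0) := by
    have h0 : (0 : ℝ) = ∫ _x in Q n, (0 : ℝ) := by simp
    rw [h0]
    refine tendsto_integral_of_dominated_convergence (fun _ => 2 * b) ?_ ?_ ?_ ?_
    · intro k
      exact ((hIhi k).sub (hIlo k)).aestronglyMeasurable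
    · exact integrable_const _
    · intro k
      refine Eventually.of_forall fun x => ?_
      obtain ⟨a1, a2, a3, a4⟩ := hle k x
      rw [Real.norm_eq_abs, abs_le]
      constructor <;> linarith
    · exact ae_restrict_of_ae hlim
  have key : ∀ k, |φ G - φ (oneX n) * ∫ x in Q n, G.1 x| ≤
      s + ∫ x in Q n, (hi k x - lo k x) := by
    intro k
    have e1 : ∫ x in Q n, (hi k x - lo k x) = (∫ x in Q n, hi k x) - ∫ x in Q n, lo k x :=
      integral_sub (hIhi k) (hIlo k)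
    have a1 := half_posAC_aux φ hpos (LO k) G (fun x => (hle k x).2.1)
    have a2 := half_posAC_aux φ hpos G (HI k) (fun x => (hle k x).2.2.1)
    have b1 := abs_le.mp (hlo k)
    have b2 := abs_le.mp (hhi k)
    have c1 := hI1 k
    have c2 := hI2 k
    have d1 : φ (oneX n) * ((∫ x in Q n, hi k x) - ∫ x in Q n, G.1 x) ≤
        (∫ x in Q n, hi k x) - ∫ x in Q n, G.1 x :=
      mul_le_of_le_one_left (by linarith) h1
    have d2 : φ (oneX n) * ((∫ x in Q n, G.1 x) - ∫ x in Q n, lo k x) ≤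
        (∫ x in Q n, G.1 x) - ∫ x in Q n, lo k x :=
      mul_le_of_le_one_left (by linarith) h1
    have e2 : (∫ x in Q n, (LO k).1 x) = ∫ x in Q n, lo k x := rfl
    have e3 : (∫ x in Q n, (HI k).1 x) = ∫ x in Q n, hi k x := rfl
    rw [e2] at b1
    rw [e3] at b2
    rw [e1, abs_le]
    constructor
    · nlinarith [b1.1, b1.2, b2.1, b2.2]
    · nlinarith [b1.1, b1.2, b2.1, b2.2]
  have hlim3 : Tendsto (fun k => s + ∫ x in Q n, (hi k x - lo k x)) atTop (𝓝 (s + 0)) :=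
    tendsto_const_nhds.add hlim2
  rw [add_zero] at hlim3
  exact ge_of_tendsto hlim3 (Eventually.of_forall key)

section HalfAux

variable {n : ℕ} {ι : Type*} [Fintype ι] (γ : ι → (E n ≃ₗᵢ[ℝ] E n)) (R κ : ℝ)

/-- the sum of the coboundaries -/
noncomputable def halfT (h : ι → RB n (R + 1)) : RX n :=
  ∑ i, (perL n (R + 1) (h i) - perL n (R + 1) (compL n (R + 1) (γ i) (h i)))

/-- the admissible values -/
def halfS (g : RX n) : Set ℝ :=
  {s | ∃ a b : ℝ, 0 ≤ a ∧ 0 ≤ b ∧ s = a + κ * b ∧ ∃ h : ι → RB n (R + 1), (∀ i, Bd b (h i).1) ∧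
    Bd a (g - halfT γ R h).1}

/-- the sublinear functional -/
noncomputable def halfN (g : RX n) : ℝ := sInf (halfS γ R κ g)

theorem halfT_add (h k : ι → RB n (R + 1)) : halfT γ R (h + k) = halfT γ R h + halfT γ R k := by
  unfold halfT
  rw [← Finset.sum_add_distrib]
  refine Finset.sum_congr rfl fun i _ => ?_
  rw [Pi.add_apply, map_add, map_add, map_add]
  abel

theorem halfT_smul (c : ℝ) (h : ι → RB n (R + 1)) : halfT γ R (c • h) = c • halfT γ R h := by
  unfold halfT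
  rw [Finset.smul_sum]
  refine Finset.sum_congr rfl fun i _ => ?_
  rw [Pi.smul_apply, map_smul, map_smul, map_smul, smul_sub]

theorem halfT_zero : halfT γ R (0 : ι → RB n (R + 1)) = 0 := by
  unfold halfT
  simp

theorem half_mem_zero (g : RX n) (b : ℝ) (hb : Bd b g.1) : b ∈ halfS γ R κ g := by
  refine ⟨b, 0, (abs_nonneg _).trans (hb 0), le_rfl, by ring, 0, fun i x => ?_, ?_⟩
  · simp
  · rw [halfT_zero, sub_zero]; exact hb

theorem half_nonempty (g : RX n) : (halfS γ R κ g).Nonempty := by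
  obtain ⟨b, hb⟩ := g.2.1
  exact ⟨b, half_mem_zero γ R κ g b hb⟩

theorem half_lb (hκ : 0 ≤ κ) (g : RX n) : ∀ s ∈ halfS γ R κ g, 0 ≤ s := by
  rintro s ⟨a, b, ha, hb, rfl, -⟩
  positivity

theorem half_bdd (hκ : 0 ≤ κ) (g : RX n) : BddBelow (halfS γ R κ g) :=
  ⟨0, fun s hs => half_lb γ R κ hκ g s hs⟩

theorem halfN_le (hκ : 0 ≤ κ) (g : RX n) {s : ℝ} (hs : s ∈ halfS γ R κ g) : halfN γ R κ g ≤ s :=
  csInf_le (half_bdd γ R κ hκ g) hs

theorem halfN_nonneg (hκ : 0 ≤ κ) (g : RX n) : 0 ≤ halfN γ R κ g :=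
  le_csInf (half_nonempty γ R κ g) (half_lb γ R κ hκ g)

theorem halfN_add (hκ : 0 ≤ κ) (x y : RX n) :
    halfN γ R κ (x + y) ≤ halfN γ R κ x + halfN γ R κ y := by
  have h1 : ∀ s ∈ halfS γ R κ x, ∀ t ∈ halfS γ R κ y, halfN γ R κ (x + y) ≤ s + t := by
    rintro s ⟨a, b, ha, hb, rfl, h, hh, hx⟩ t ⟨a', b', ha', hb', rfl, h', hh', hy⟩
    refine halfN_le γ R κ hκ _ ⟨a + a', b + b', by positivity, by positivity, by ring, h + h',
      fun i z => ?_, ?_⟩
    · change |(h i).1 z + (h' i).1 z| ≤ b + b'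
      exact (abs_add_le _ _).trans (add_le_add (hh i z) (hh' i z))
    · intro z
      rw [halfT_add]
      have e : x + y - (halfT γ R h + halfT γ R h') = (x - halfT γ R h) + (y - halfT γ R h') := by
        abel
      rw [e]
      change |(x - halfT γ R h).1 z + (y - halfT γ R h').1 z| ≤ a + a'
      exact (abs_add_le _ _).trans (add_le_add (hx z) (hy z))
  have h2 : ∀ s ∈ halfS γ R κ x, halfN γ R κ (x + y) - s ≤ halfN γ R κ y := fun s hs =>
    le_csInf (half_nonempty γ R κ y) fun t ht => by linarith [h1 s hs t ht]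
  have h3 : halfN γ R κ (x + y) - halfN γ R κ y ≤ halfN γ R κ x :=
    le_csInf (half_nonempty γ R κ x) fun s hs => by linarith [h2 s hs]
  linarith

theorem halfN_hom_le (hκ : 0 ≤ κ) (c : ℝ) (hc : 0 < c) (x : RX n) :
    halfN γ R κ (c • x) ≤ c * halfN γ R κ x := by
  have h1 : ∀ s ∈ halfS γ R κ x, halfN γ R κ (c • x) ≤ c * s := by
    rintro s ⟨a, b, ha, hb, rfl, h, hh, hx⟩
    refine halfN_le γ R κ hκ _ ⟨c * a, c * b, by positivity, by positivity, by ring, c • h,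
      fun i z => ?_, ?_⟩
    · change |c * (h i).1 z| ≤ c * b
      rw [abs_mul, abs_of_pos hc]
      exact mul_le_mul_of_nonneg_left (hh i z) hc.le
    · intro z
      rw [halfT_smul, show c • x - c • halfT γ R h = c • (x - halfT γ R h) from
        (smul_sub c x _).symm]
      change |c * (x - halfT γ R h).1 z| ≤ c * a
      rw [abs_mul, abs_of_pos hc]
      exact mul_le_mul_of_nonneg_left (hx z) hc.le
  have h2 : halfN γ R κ (c • x) / c ≤ halfN γ R κ x :=
    le_csInf (half_nonempty γ R κ x) fun s hs => by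
      rw [div_le_iff₀ hc]
      linarith [h1 s hs]
  rw [div_le_iff₀ hc] at h2
  linarith

theorem halfN_hom (hκ : 0 ≤ κ) (c : ℝ) (hc : 0 < c) (x : RX n) :
    halfN γ R κ (c • x) = c * halfN γ R κ x := by
  refine le_antisymm (halfN_hom_le γ R κ hκ c hc x) ?_
  have h1 := halfN_hom_le γ R κ hκ c⁻¹ (_root_.inv_pos.mpr hc) (c • x)
  rw [smul_smul, inv_mul_cancel₀ hc.ne', one_smul] at h1
  calc c * halfN γ R κ x ≤ c * (c⁻¹ * halfN γ R κ (c • x)) :=
        mul_le_mul_of_nonneg_left h1 hc.le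
    _ = halfN γ R κ (c • x) := by rw [← mul_assoc, mul_inv_cancel₀ hc.ne', one_mul]

theorem halfN_zero (hκ : 0 ≤ κ) : halfN γ R κ (0 : RX n) = 0 := by
  refine le_antisymm (halfN_le γ R κ hκ _ (half_mem_zero γ R κ 0 0 fun x => by simp)) ?_
  exact halfN_nonneg γ R κ hκ 0

/-- Hahn-Banach -/
theorem half_ext (hκ : 0 ≤ κ) (f : RX n) (hf : f ≠ 0) :
    ∃ ψ : RX n →ₗ[ℝ] ℝ, ψ f = halfN γ R κ f ∧ ∀ g, ψ g ≤ halfN γ R κ g := by
  obtain ⟨ψ, h1, h2⟩ := exists_extension_of_le_sublinear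
    (LinearPMap.mkSpanSingleton (K := ℝ) f (halfN γ R κ f) hf) (halfN γ R κ)
    (fun c hc x => halfN_hom γ R κ hκ c hc x) (halfN_add γ R κ hκ) (by
      rintro ⟨x, hx⟩
      obtain ⟨t, rfl⟩ := Submodule.mem_span_singleton.mp hx
      rw [LinearPMap.mkSpanSingleton'_apply]
      change t * halfN γ R κ f ≤ halfN γ R κ (t • f)
      rcases lt_trichotomy t 0 with ht | ht | ht
      · have e1 : t • f = (-t) • (-f) := by rw [smul_neg, neg_smul, neg_neg]
        rw [e1, halfN_hom γ R κ hκ (-t) (by linarith)]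
        have h3 := halfN_add γ R κ hκ f (-f)
        rw [add_neg_cancel, halfN_zero γ R κ hκ] at h3
        nlinarith
      · subst ht
        rw [zero_smul, halfN_zero γ R κ hκ, zero_mul]
      · rw [halfN_hom γ R κ hκ t ht])
  refine ⟨ψ, ?_, h2⟩
  have h3 := h1 ⟨f, Submodule.mem_span_singleton_self f⟩
  rw [LinearPMap.mkSpanSingleton_apply] at h3
  exact h3

end HalfAux

theorem half_phi2 {n : ℕ} (ψ φ₁ φ₂ : RX n →ₗ[ℝ] ℝ)
    (h1 : ∀ g : RX n, (∀ x, 0 ≤ g.1 x) →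
      IsLUB {r | ∃ k : RX n, (∀ x, 0 ≤ k.1 x ∧ k.1 x ≤ g.1 x) ∧ r = ψ k} (φ₁ g))
    (h2 : ∀ g : RX n, (∀ x, 0 ≤ g.1 x) →
      IsLUB {r | ∃ k : RX n, (∀ x, 0 ≤ k.1 x ∧ k.1 x ≤ g.1 x) ∧ r = (-ψ) k} (φ₂ g))
    (g : RX n) : φ₂ g = φ₁ g - ψ g := by
  have hpos : ∀ g : RX n, (∀ x, 0 ≤ g.1 x) → φ₂ g = φ₁ g - ψ g := by
    intro g hg
    refine (h2 g hg).unique ?_
    constructor
    · rintro r ⟨k, hk, rfl⟩
      have h3 := (h1 g hg).1 ⟨g - k, fun x => ⟨sub_nonneg.mpr (hk x).2,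
        sub_le_self _ (hk x).1⟩, rfl⟩
      rw [map_sub] at h3
      change -(ψ k) ≤ φ₁ g - ψ g
      linarith
    · intro u hu
      have h3 : φ₁ g ≤ u + ψ g := by
        refine (h1 g hg).2 ?_
        rintro r ⟨k, hk, rfl⟩
        have h4 := hu ⟨g - k, fun x => ⟨sub_nonneg.mpr (hk x).2,
          sub_le_self _ (hk x).1⟩, rfl⟩
        change -(ψ (g - k)) ≤ u at h4
        rw [map_sub] at h4
        linarith
      linarith
  obtain ⟨b, hb⟩ := g.2.1
  have hb0 : 0 ≤ b := (abs_nonneg _).trans (hb 0)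
  have e1 : ∀ x, 0 ≤ (g + b • oneX n).1 x := fun x => by
    change 0 ≤ g.1 x + b * 1
    have := (abs_le.mp (hb x)).1
    linarith
  have e2 : ∀ x, 0 ≤ (b • oneX n).1 x := fun x => by
    change 0 ≤ b * 1
    linarith
  have a1 := hpos _ e1
  have a2 := hpos _ e2
  rw [map_add, map_add, map_add] at a1
  linarith

theorem half {n : ℕ} {ι : Type*} [Fintype ι] (γ : ι → (E n ≃ₗᵢ[ℝ] E n)) (R c : ℝ)
    (hgap : GapP γ R c) :
    ∃ C : ℝ, 0 ≤ C ∧ ∀ f : RX n, Bd 1 f.1 → ∫ x in Q n, f.1 x = 0 →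
      ∃ h : ι → RB n (R + 1), (∀ i, Bd C (h i).1) ∧
        Bd (1 / 2) (f - ∑ i, (perL n (R + 1) (h i) -
          perL n (R + 1) (compL n (R + 1) (γ i) (h i)))).1 := by
  classical
  set c' : ℝ := |c| * Fintype.card ι with hc'
  have hc'0 : 0 ≤ c' := by positivity
  set κ : ℝ := 1 / (128 * (c' + 1)) with hκdef
  have hκ : 0 < κ := by positivity
  have hsq : Real.sqrt (c' * (2 * κ)) ≤ 1 / 8 := by
    rw [Real.sqrt_le_left (by norm_num)]
    rw [hκdef]
    rw [show c' * (2 * (1 / (128 * (c' + 1)))) = c' / (64 * (c' + 1)) by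
      field_simp; ring]
    rw [div_le_iff₀ (by positivity)]
    nlinarith
  refine ⟨1 / (2 * κ), by positivity, fun f hf hint => ?_⟩
  by_cases hf0 : f = 0
  · refine ⟨0, fun i x => ?_, fun x => ?_⟩
    · simp only [Pi.zero_apply, ZeroMemClass.coe_zero, abs_zero]
      positivity
    · rw [hf0]
      simp
  obtain ⟨ψ, hψf, hψN⟩ := half_ext γ R κ hκ.le f hf0
  have hψ : ∀ (g : RX n) (b : ℝ), Bd b g.1 → |ψ g| ≤ b := by
    intro g b hb
    have h1 := (hψN g).trans (halfN_le γ R κ hκ.le g (half_mem_zero γ R κ g b hb))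
    have hb' : Bd b (-g).1 := fun x => by
      change |-(g.1 x)| ≤ b
      rw [abs_neg]; exact hb x
    have h2 := (hψN (-g)).trans (halfN_le γ R κ hκ.le (-g) (half_mem_zero γ R κ (-g) b hb'))
    rw [map_neg] at h2
    rw [abs_le]
    constructor <;> linarith
  have hψi1 : ∀ (i : ι) (h : RB n (R + 1)) (b : ℝ), Bd b h.1 →
      ψ (perL n (R + 1) h) - ψ (perL n (R + 1) (compL n (R + 1) (γ i) h)) ≤ κ * b := by
    intro i h b hb
    have hb0 : 0 ≤ b := (abs_nonneg _).trans (hb 0)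
    rw [← map_sub]
    refine (hψN _).trans (halfN_le γ R κ hκ.le _ ⟨0, b, le_rfl, hb0, by ring, Pi.single i h,
      fun j x => ?_, fun x => ?_⟩)
    · by_cases hj : j = i
      · subst hj
        rw [Pi.single_eq_same]; exact hb x
      · rw [Pi.single_eq_of_ne hj]
        simpa using hb0
    · have e1 : halfT γ R (Pi.single i h) =
          perL n (R + 1) h - perL n (R + 1) (compL n (R + 1) (γ i) h) := by
        unfold halfT
        rw [Finset.sum_eq_single i]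
        · rw [Pi.single_eq_same]
        · intro j _ hj
          rw [Pi.single_eq_of_ne hj]
          simp
        · simp
      rw [e1, sub_self]
      simp
  have hψi : ∀ (i : ι) (h : RB n (R + 1)) (b : ℝ), Bd b h.1 →
      |ψ (perL n (R + 1) h) - ψ (perL n (R + 1) (compL n (R + 1) (γ i) h))| ≤ κ * b := by
    intro i h b hb
    have h1 := hψi1 i h b hb
    have hb' : Bd b (-h).1 := fun x => by
      change |-(h.1 x)| ≤ b
      rw [abs_neg]; exact hb x
    have h2 := hψi1 i (-h) b hb'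
    rw [map_neg, map_neg, map_neg, map_neg, map_neg] at h2
    rw [abs_le]
    constructor <;> linarith
  have hψ' : ∀ (g : RX n) (b : ℝ), Bd b g.1 → |(-ψ) g| ≤ b := by
    intro g b hb
    change |-(ψ g)| ≤ b
    rw [abs_neg]
    exact hψ g b hb
  have hψi' : ∀ (i : ι) (h : RB n (R + 1)) (b : ℝ), Bd b h.1 →
      |(-ψ) (perL n (R + 1) h) - (-ψ) (perL n (R + 1) (compL n (R + 1) (γ i) h))| ≤ κ * b := by
    intro i h b hb
    have h1 := hψi i h b hb
    change |-(ψ _) - -(ψ _)| ≤ κ * b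
    rw [← abs_neg]
    rw [show -(-(ψ (perL n (R + 1) h)) - -(ψ (perL n (R + 1) (compL n (R + 1) (γ i) h)))) =
      ψ (perL n (R + 1) h) - ψ (perL n (R + 1) (compL n (R + 1) (γ i) h)) by ring]
    exact h1
  obtain ⟨φ₁, hφ₁⟩ := riesz ψ hψ
  obtain ⟨φ₂, hφ₂⟩ := riesz (-ψ) hψ'
  have est : ∀ (χ φ : RX n →ₗ[ℝ] ℝ), (∀ (g : RX n) (b : ℝ), Bd b g.1 → |χ g| ≤ b) →
      (∀ (i : ι) (h : RB n (R + 1)) (b : ℝ), Bd b h.1 →
        |χ (perL n (R + 1) h) - χ (perL n (R + 1) (compL n (R + 1) (γ i) h))| ≤ κ * b) →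
      (∀ g : RX n, (∀ x, 0 ≤ g.1 x) →
        IsLUB {r | ∃ k : RX n, (∀ x, 0 ≤ k.1 x ∧ k.1 x ≤ g.1 x) ∧ r = χ k} (φ g)) →
      |φ f| ≤ 1 / 8 := by
    intro χ φ hχ hχi hφ
    have hpos : ∀ g : RX n, (∀ x, 0 ≤ g.1 x) → 0 ≤ φ g := by
      intro g hg
      have := (hφ g hg).1 ⟨0, fun x => ⟨le_rfl, hg x⟩, rfl⟩
      rwa [map_zero] at this
    have h1 : φ (oneX n) ≤ 1 := by
      refine (hφ (oneX n) (fun x => by simp [oneX])).2 ?_
      rintro r ⟨k, hk, rfl⟩
      refine (abs_le.mp (hχ k 1 fun x => ?_)).2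
      have a1 := (hk x).1
      have a2 : k.1 x ≤ 1 := (hk x).2
      rw [abs_le]
      constructor <;> linarith
    have h2 := posAC γ R c hgap (2 * κ) (by positivity) φ hpos h1
      (fun i h b hb => inv_pos2 (γ i) κ χ φ hφ (fun h b hb => hχi i h b hb) h b hb) f 1 hf
    rw [hint, mul_zero, sub_zero, one_mul] at h2
    exact h2.trans hsq
  have e1 := est ψ φ₁ hψ hψi hφ₁
  have e2 := est (-ψ) φ₂ hψ' hψi' hφ₂
  have e3 := half_phi2 ψ φ₁ φ₂ hφ₁ hφ₂ f
  have e4 : halfN γ R κ f < 1 / 2 := by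
    rw [← hψf]
    have a1 := (abs_le.mp e1).2
    have a2 := (abs_le.mp e2).1
    linarith
  obtain ⟨s, ⟨a, b, ha, hb, rfl, h, hh, hx⟩, hs⟩ := exists_lt_of_csInf_lt
    (half_nonempty γ R κ f) e4
  refine ⟨h, fun i x => (hh i x).trans ?_, fun x => (hx x).trans ?_⟩
  · rw [le_div_iff₀ (by positivity)]
    nlinarith
  · have : 0 ≤ κ * b := by positivity
    linarith

end Pool.MP_2fe79c_gt.Geo
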