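import Pool.Agent.Lib.MP_2fe79c_gt.Geo.Block
import Pool.Agent.Lib.MP_2fe79c_gt.Geo.Floor

/-!
MP_2fe79c_gt, geometric bodies. Module IntX: an integral function that is a real coboundary of the two translations
is an integral coboundary.

PROOF. Let N be from toast, P j = pot α N i₁ i₂ c₁ c₂ j (a.e. continuous, periodic: pot_AC, pot_Per). Threshold s from
exists_threshold for the countable family (P j)_j, (P j - P i)_{i,j}. Put
  z₁ x = Dl x (x - α e₂),  z₂ x = - Dl x (x - α e₁)      (bounded by 3, Dl_bound),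
  w_l x = round (c_l x - z_l x)                            (bounded by b + 3 + 1/2 ≤ b + 4, integer valued).
GOOD POINTS. For a.e. x: for all integers (a, b) the point y = x - a α e₁ - b α e₂ satisfies hypothesis hf, has coordinates
 i₁, i₂ outside the countable set B of ToastP.loc, each P j and P j - P i has fract (. - s) ≠ 0 there and is continuous
 there, and y is in some KK j. The last: for a.e. y there is j with y i₁, y i₂ not in N j: the set of y in the unit cube with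
 y i₁ ∈ N j or y i₂ ∈ N j has measure ≤ 2 * 2^(-j) (small; measure of {y in Q n | y i ∈ A} = measure of A ∩ [0,1)), so the
 set of y which are in no KK j is null in the unit cube and, being periodic (ToastP.per), null.
 At a good x: by Dl_vert, Dl_horz: c_l x - z_l x ∈ ℤ, hence w_l x = c_l x - z_l x, the same at x - α e₁, x - α e₂, and by
 Dl_closed (z₁ x - z₁ (x-αe₁)) + (z₂ x - z₂ (x - αe₂)) = 0 (note x - αe₁ - αe₂ = x - αe₂ - αe₁). This gives the identity.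
 A.E. CONTINUITY of w_l: ii is locally constant at good points (membership in KK j, j ≤ ii x, is locally constant by
 loc), so near x Psi and Dl are given by fixed formulas in P j which are continuous at x as fract is continuous away from
 integers (Int.fract; use AC.fract for the countably many functions or directly continuousAt_fract); then AC.round for
 c_l - z_l (integral a.e.).
 Periodicity: P j, KK j, ii, Psi are periodic.
-/

set_option autoImplicit false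
open MeasureTheory Filter Topology

namespace Pool.MP_2fe79c_gt.Geo

variable {n : ℕ}

theorem intX_KK_per {α : ℝ} {N : ℕ → Set ℝ} (hN : ToastP α N) (i₁ i₂ : Fin n) (j : ℕ) (x : E n)
    (m : Fin n → ℤ) : x + zv m ∈ KK N i₁ i₂ j ↔ x ∈ KK N i₁ i₂ j := by
  simp only [KK, Set.mem_ofPred_eq, PiLp.add_apply, zv_apply, hN.per]

theorem intX_ii_per {α : ℝ} {N : ℕ → Set ℝ} (hN : ToastP α N) (i₁ i₂ : Fin n) (x : E n)
    (m : Fin n → ℤ) : ii N i₁ i₂ (x + zv m) = ii N i₁ i₂ x := by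
  unfold ii
  congr 1
  ext j
  exact intX_KK_per hN i₁ i₂ j x m

theorem intX_Psi_per {α : ℝ} {N : ℕ → Set ℝ} (hN : ToastP α N) (i₁ i₂ : Fin n)
    {P : ℕ → E n → ℝ} (hP : ∀ j, Per (P j)) (s : ℝ) (j : ℕ) (x : E n) (m : Fin n → ℤ) :
    Psi N i₁ i₂ P s j (x + zv m) = Psi N i₁ i₂ P s j x := by
  unfold Psi
  rw [intX_ii_per hN, hP j, hP (ii N i₁ i₂ x)]

theorem intX_Dl_per {α : ℝ} {N : ℕ → Set ℝ} (hN : ToastP α N) (i₁ i₂ : Fin n)
    {P : ℕ → E n → ℝ} (hP : ∀ j, Per (P j)) (s : ℝ) (v : E n) :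
    Per (fun x => Dl N i₁ i₂ P s x (x - v)) := by
  intro x m
  have h1 : x + zv m - v = x - v + zv m := by abel
  simp only [h1]
  unfold Dl
  rw [intX_ii_per hN, intX_ii_per hN, intX_Psi_per hN i₁ i₂ hP, intX_Psi_per hN i₁ i₂ hP]

/-- translates of almost everywhere true statements -/
theorem intX_ae_sub {p : E n → Prop} (h : ∀ᵐ x ∂(volume : Measure (E n)), p x) (v : E n) :
    ∀ᵐ x ∂(volume : Measure (E n)), p (x - v) :=
  (measurePreserving_sub_right volume v).quasiMeasurePreserving.ae h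

theorem intX_ae_of_Q {p : E n → Prop} (hp : ∀ (x : E n) (m : Fin n → ℤ), p (x + zv m) ↔ p x)
    (h : volume {x : E n | x ∈ Q n ∧ ¬ p x} = 0) : ∀ᵐ x ∂(volume : Measure (E n)), p x := by
  have h1 : ∀ᵐ x ∂(volume : Measure (E n)), x ∉ {x : E n | x ∈ Q n ∧ ¬ p x} :=
    measure_eq_zero_iff_ae_notMem.mp h
  have h2 : ∀ᵐ x ∂(volume : Measure (E n)), ∀ m : Fin n → ℤ,
      x - zv m ∉ {x : E n | x ∈ Q n ∧ ¬ p x} := ae_all_iff.mpr fun m => intX_ae_sub h1 (zv m)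
  filter_upwards [h2] with x hx
  by_contra hcon
  refine hx (fl x) ⟨sub_fl_mem x, fun h3 => hcon ?_⟩
  have h4 := hp (x - zv (fl x)) (fl x)
  rw [sub_add_cancel] at h4
  exact h4.2 h3

theorem intX_cyl (i : Fin n) (A : Set ℝ) :
    volume {x : E n | x ∈ Q n ∧ x i ∈ A} ≤ volume (A ∩ Set.Ico 0 1) := by
  classical
  set A' : Set ℝ := toMeasurable volume (A ∩ Set.Ico 0 1) with hA'
  have hm : MeasurableSet A' := measurableSet_toMeasurable _ _
  set T : Set (Fin n → ℝ) :=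
    Set.univ.pi fun k : Fin n => if k = i then A' else Set.Ico (0 : ℝ) 1 with hT
  have hTm : MeasurableSet T := by
    refine MeasurableSet.univ_pi fun k => ?_
    by_cases hk : k = i
    · rw [if_pos hk]; exact hm
    · rw [if_neg hk]; exact measurableSet_Ico
  have h1 : {x : E n | x ∈ Q n ∧ x i ∈ A} ⊆ (@WithLp.ofLp 2 (Fin n → ℝ)) ⁻¹' T := by
    intro x hx
    rw [Set.mem_preimage, hT, Set.mem_univ_pi]
    intro k
    by_cases hk : k = i
    · rw [if_pos hk, hk]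
      exact subset_toMeasurable _ _ ⟨hx.2, hx.1 i⟩
    · rw [if_neg hk]
      exact hx.1 k
  refine (measure_mono h1).trans ?_
  rw [(PiLp.volume_preserving_ofLp (Fin n)).measure_preimage hTm.nullMeasurableSet, hT,
    volume_pi_pi]
  have h2 : ∏ k : Fin n, volume (if k = i then A' else Set.Ico (0 : ℝ) 1) = volume A' := by
    rw [Finset.prod_eq_single i]
    · rw [if_pos rfl]
    · intro k _ hk
      rw [if_neg hk]
      simp
    · intro h
      exact absurd (Finset.mem_univ i) h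
  rw [h2, hA', measure_toMeasurable]

theorem intX_cover {α : ℝ} {N : ℕ → Set ℝ} (hN : ToastP α N) (i₁ i₂ : Fin n) :
    ∀ᵐ x ∂(volume : Measure (E n)), ∃ j, x ∈ KK N i₁ i₂ j := by
  refine intX_ae_of_Q (fun x m => ?_) ?_
  · simp only [intX_KK_per hN]
  · have h1 : ∀ j : ℕ, volume {x : E n | x ∈ Q n ∧ ¬ ∃ j, x ∈ KK N i₁ i₂ j} ≤
        ENNReal.ofReal ((1 / 2) ^ j) + ENNReal.ofReal ((1 / 2) ^ j) := by
      intro j
      have h2 : {x : E n | x ∈ Q n ∧ ¬ ∃ j, x ∈ KK N i₁ i₂ j} ⊆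
          {x : E n | x ∈ Q n ∧ x i₁ ∈ N j} ∪ {x : E n | x ∈ Q n ∧ x i₂ ∈ N j} := by
        rintro x ⟨hx, hx2⟩
        by_cases h3 : x i₁ ∈ N j
        · exact Or.inl ⟨hx, h3⟩
        · by_cases h4 : x i₂ ∈ N j
          · exact Or.inr ⟨hx, h4⟩
          · exact absurd ⟨j, h3, h4⟩ hx2
      calc volume {x : E n | x ∈ Q n ∧ ¬ ∃ j, x ∈ KK N i₁ i₂ j} ≤
          volume ({x : E n | x ∈ Q n ∧ x i₁ ∈ N j} ∪ {x : E n | x ∈ Q n ∧ x i₂ ∈ N j}) :=
            measure_mono h2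
        _ ≤ volume {x : E n | x ∈ Q n ∧ x i₁ ∈ N j} + volume {x : E n | x ∈ Q n ∧ x i₂ ∈ N j} :=
            measure_union_le _ _
        _ ≤ ENNReal.ofReal ((1 / 2) ^ j) + ENNReal.ofReal ((1 / 2) ^ j) :=
            add_le_add ((intX_cyl i₁ _).trans (hN.small j)) ((intX_cyl i₂ _).trans (hN.small j))
    have h2 : Tendsto (fun j : ℕ => ENNReal.ofReal ((1 / 2 : ℝ) ^ j) +
        ENNReal.ofReal ((1 / 2 : ℝ) ^ j)) atTop (𝓝 (ENNReal.ofReal 0 + ENNReal.ofReal 0)) := by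
      have h3 : Tendsto (fun j : ℕ => (1 / 2 : ℝ) ^ j) atTop (𝓝 0) :=
        tendsto_pow_atTop_nhds_zero_of_lt_one (by norm_num) (by norm_num)
      exact (ENNReal.tendsto_ofReal h3).add (ENNReal.tendsto_ofReal h3)
    have h3 := ge_of_tendsto' h2 h1
    simpa using h3

/-- good points -/
structure intX_G (N : ℕ → Set ℝ) (B : Set ℝ) (i₁ i₂ : Fin n) (P : ℕ → E n → ℝ) (s : ℝ)
    (x : E n) : Prop where
  cov : ∃ j, x ∈ KK N i₁ i₂ j
  nB : ∀ i, x i ∉ B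
  cont : ∀ j, ContinuousAt (P j) x
  f1 : ∀ j, Int.fract (P j x - s) ≠ 0
  f2 : ∀ i j, Int.fract (P j x - P i x - s) ≠ 0

theorem intX_KK_loc {N : ℕ → Set ℝ} {B : Set ℝ}
    (hB : ∀ t, t ∉ B → ∀ j, ∀ᶠ s in 𝓝 t, (s ∈ N j ↔ t ∈ N j)) (i₁ i₂ : Fin n) (x : E n)
    (hx : ∀ i, x i ∉ B) (j : ℕ) :
    ∀ᶠ y in 𝓝 x, (y ∈ KK N i₁ i₂ j ↔ x ∈ KK N i₁ i₂ j) := by
  have hc : ∀ i : Fin n, Tendsto (fun y : E n => y i) (𝓝 x) (𝓝 (x i)) := by
    intro i
    have : Continuous fun y : E n => y i := by fun_prop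
    exact this.continuousAt
  filter_upwards [(hc i₁).eventually (hB _ (hx i₁) j), (hc i₂).eventually (hB _ (hx i₂) j)]
    with y h1 h2
  simp only [KK, Set.mem_ofPred_eq, h1, h2]

theorem intX_ii_loc {N : ℕ → Set ℝ} {B : Set ℝ}
    (hB : ∀ t, t ∉ B → ∀ j, ∀ᶠ s in 𝓝 t, (s ∈ N j ↔ t ∈ N j)) {i₁ i₂ : Fin n}
    {P : ℕ → E n → ℝ} {s : ℝ} {x : E n} (hx : intX_G N B i₁ i₂ P s x) :
    ∀ᶠ y in 𝓝 x, ii N i₁ i₂ y = ii N i₁ i₂ x := by
  have h1 : ∀ᶠ y in 𝓝 x, ∀ j ∈ Finset.range (ii N i₁ i₂ x + 1),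
      (y ∈ KK N i₁ i₂ j ↔ x ∈ KK N i₁ i₂ j) :=
    (Finset.eventually_all _).2 fun j _ => intX_KK_loc hB i₁ i₂ x hx.nB j
  filter_upwards [h1] with y hy
  have h2 : x ∈ KK N i₁ i₂ (ii N i₁ i₂ x) := Nat.sInf_mem hx.cov
  have h3 : y ∈ KK N i₁ i₂ (ii N i₁ i₂ x) :=
    (hy _ (Finset.mem_range.2 (Nat.lt_succ_self _))).2 h2
  apply le_antisymm
  · exact Nat.sInf_le h3
  · by_contra hlt
    rw [not_le] at hlt
    have h4 : y ∈ KK N i₁ i₂ (ii N i₁ i₂ y) :=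
      Nat.sInf_mem (s := {j : ℕ | y ∈ KK N i₁ i₂ j}) ⟨_, h3⟩
    have h5 := (hy _ (Finset.mem_range.2 (by omega))).1 h4
    have h6 : ii N i₁ i₂ x ≤ ii N i₁ i₂ y := Nat.sInf_le h5
    omega

theorem intX_fract_cont {f : E n → ℝ} {x : E n} (hf : ContinuousAt f x)
    (h : Int.fract (f x) ≠ 0) : ContinuousAt (fun y => Int.fract (f y)) x := by
  have h1 : f x ≠ (⌊f x⌋ : ℤ) := by
    intro h2
    apply h
    rw [Int.fract, sub_eq_zero]
    exact h2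
  exact ContinuousAt.comp (f := f) (x := x) (g := Int.fract) (continuousAt_fract h1) hf

theorem intX_Psi_cont {N : ℕ → Set ℝ} {B : Set ℝ}
    (hB : ∀ t, t ∉ B → ∀ j, ∀ᶠ s in 𝓝 t, (s ∈ N j ↔ t ∈ N j)) {i₁ i₂ : Fin n}
    {P : ℕ → E n → ℝ} {s : ℝ} {x : E n} (hx : intX_G N B i₁ i₂ P s x) (j : ℕ) :
    ContinuousAt (Psi N i₁ i₂ P s j) x := by
  have h0 := intX_ii_loc hB hx
  have h1 : (fun y => if ii N i₁ i₂ x = j then Int.fract (P j y - s) + s
      else (Int.fract (P (ii N i₁ i₂ x) y - s) + s) +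
        (Int.fract (P j y - P (ii N i₁ i₂ x) y - s) + s)) =ᶠ[𝓝 x] Psi N i₁ i₂ P s j := by
    filter_upwards [h0] with y hy
    unfold Psi
    rw [hy]
  refine ContinuousAt.congr ?_ h1
  by_cases hj : ii N i₁ i₂ x = j
  · simp only [if_pos hj]
    exact (intX_fract_cont ((hx.cont j).sub continuousAt_const) (hx.f1 j)).add continuousAt_const
  · simp only [if_neg hj]
    exact ((intX_fract_cont ((hx.cont _).sub continuousAt_const) (hx.f1 _)).add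
      continuousAt_const).add ((intX_fract_cont (((hx.cont _).sub (hx.cont _)).sub
      continuousAt_const) (hx.f2 _ _)).add continuousAt_const)

theorem intX_Dl_cont {N : ℕ → Set ℝ} {B : Set ℝ}
    (hB : ∀ t, t ∉ B → ∀ j, ∀ᶠ s in 𝓝 t, (s ∈ N j ↔ t ∈ N j)) {i₁ i₂ : Fin n}
    {P : ℕ → E n → ℝ} {s : ℝ} {x v : E n} (hx : intX_G N B i₁ i₂ P s x)
    (hv : intX_G N B i₁ i₂ P s (x - v)) :
    ContinuousAt (fun y => Dl N i₁ i₂ P s y (y - v)) x := by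
  have hs : ContinuousAt (fun y : E n => y - v) x := by fun_prop
  have h1 : ∀ᶠ y in 𝓝 x, ii N i₁ i₂ (y - v) = ii N i₁ i₂ (x - v) :=
    hs.eventually (intX_ii_loc hB hv)
  have h2 : (fun y => Psi N i₁ i₂ P s (max (ii N i₁ i₂ x) (ii N i₁ i₂ (x - v))) y -
      Psi N i₁ i₂ P s (max (ii N i₁ i₂ x) (ii N i₁ i₂ (x - v))) (y - v)) =ᶠ[𝓝 x]
      fun y => Dl N i₁ i₂ P s y (y - v) := by
    filter_upwards [intX_ii_loc hB hx, h1] with y hy1 hy2
    unfold Dl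
    rw [hy1, hy2]
  refine ContinuousAt.congr ?_ h2
  exact (intX_Psi_cont hB hx _).sub
    (ContinuousAt.comp (f := fun y : E n => y - v) (x := x) (intX_Psi_cont hB hv _) hs)

theorem intX_round_le {y c : ℝ} (h : |y| ≤ c) : |((_root_.round y : ℤ) : ℝ)| ≤ c + 1 / 2 := by
  have h1 := abs_sub_round y
  have h2 : |((_root_.round y : ℤ) : ℝ)| ≤ |y| + |y - (_root_.round y : ℤ)| := by
    have h3 : ((_root_.round y : ℤ) : ℝ) = y - (y - (_root_.round y : ℤ)) := by ring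
    calc |((_root_.round y : ℤ) : ℝ)| = |y - (y - (_root_.round y : ℤ))| := by rw [← h3]
      _ ≤ |y| + |y - (_root_.round y : ℤ)| := abs_sub _ _
  linarith

theorem intX {n : ℕ} {α : ℝ} (hα : Irrational α) {i₁ i₂ : Fin n} (h12 : i₁ ≠ i₂) (c₁ c₂ : RX n)
    (b : ℝ) (hb₁ : Bd b c₁.1) (hb₂ : Bd b c₂.1)
    (hf : ∀ᵐ x ∂(volume : Measure (E n)), ∃ z : ℤ, (c₁.1 x - c₁.1 (x - α • ev i₁)) +
      (c₂.1 x - c₂.1 (x - α • ev i₂)) = z) :
    ∃ w₁ w₂ : RX n, IntV w₁.1 ∧ IntV w₂.1 ∧ Bd (b + 4) w₁.1 ∧ Bd (b + 4) w₂.1 ∧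
      ∀ᵐ x ∂(volume : Measure (E n)), (w₁.1 x - w₁.1 (x - α • ev i₁)) +
        (w₂.1 x - w₂.1 (x - α • ev i₂)) =
        (c₁.1 x - c₁.1 (x - α • ev i₁)) + (c₂.1 x - c₂.1 (x - α • ev i₂)) := by
  obtain ⟨N, hN⟩ := toast hα
  obtain ⟨B, hBc, -, hB⟩ := hN.loc
  set P : ℕ → E n → ℝ := pot α N i₁ i₂ c₁.1 c₂.1 with hP
  have hPper : ∀ j, Per (P j) := fun j => pot_Per hN c₁.2.2.1 c₂.2.2.1 j
  have hPAC : ∀ j, AC (P j) := fun j => pot_AC hN c₁.2.2.2 c₂.2.2.2 j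
  obtain ⟨s, hs0, hs1, hs⟩ := exists_threshold (n := n) (κ := ℕ ⊕ (ℕ × ℕ))
    (fun k => match k with
      | Sum.inl j => P j
      | Sum.inr p => fun x => P p.1 x - P p.2 x)
    (by
      rintro (j | p)
      · exact hPAC j
      · exact (hPAC p.1).sub (hPAC p.2))
  have hG : ∀ᵐ x ∂(volume : Measure (E n)), intX_G N B i₁ i₂ P s x := by
    have h1 : ∀ᵐ x ∂(volume : Measure (E n)), ∀ j, ContinuousAt (P j) x := ae_all_iff.2 hPAC
    have h2 : ∀ᵐ x ∂(volume : Measure (E n)), ∀ j, Int.fract (P j x - s) ≠ 0 :=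
      ae_all_iff.2 fun j => hs (Sum.inl j)
    have h3 : ∀ᵐ x ∂(volume : Measure (E n)), ∀ p : ℕ × ℕ,
        Int.fract (P p.1 x - P p.2 x - s) ≠ 0 :=
      ae_all_iff.2 fun p => hs (Sum.inr p)
    filter_upwards [h1, h2, h3, intX_cover hN i₁ i₂, ae_coord_notMem (n := n) hBc]
      with x k1 k2 k3 k4 k5
    exact ⟨k4, k5, k1, k2, fun i j => k3 (j, i)⟩
  have hA : ∀ᵐ x ∂(volume : Measure (E n)),
      (∃ z : ℤ, c₁.1 x - Dl N i₁ i₂ P s x (x - α • ev i₂) = z) ∧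
      (∃ z : ℤ, c₂.1 x + Dl N i₁ i₂ P s x (x - α • ev i₁) = z) ∧
      Dl N i₁ i₂ P s x (x - α • ev i₂)
      - Dl N i₁ i₂ P s (x - α • ev i₁) (x - α • ev i₁ - α • ev i₂)
      - Dl N i₁ i₂ P s x (x - α • ev i₁)
      + Dl N i₁ i₂ P s (x - α • ev i₂) (x - α • ev i₂ - α • ev i₁) = 0 := by
    have h1 : ∀ᵐ x ∂(volume : Measure (E n)), ∀ a : ℕ,
        ∃ z : ℤ, (c₁.1 (x - ((a : ℝ) * α) • ev i₂) -
          c₁.1 (x - ((a : ℝ) * α) • ev i₂ - α • ev i₁)) + (c₂.1 (x - ((a : ℝ) * α) • ev i₂) -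
          c₂.1 (x - ((a : ℝ) * α) • ev i₂ - α • ev i₂)) = z :=
      ae_all_iff.2 fun a => intX_ae_sub hf (((a : ℝ) * α) • ev i₂)
    have h2 := intX_cover (n := n) hN i₁ i₂
    filter_upwards [h1, h2, intX_ae_sub h2 (α • ev i₁), intX_ae_sub h2 (α • ev i₂),
      intX_ae_sub (intX_ae_sub h2 (α • ev i₂)) (α • ev i₁)] with x k1 k2 k3 k4 k5
    exact ⟨Dl_vert hN h12 c₁.1 c₂.1 s x k2 k4, Dl_horz hN h12 c₁.1 c₂.1 s x k2 k3 k1,
      Dl_closed hN h12 c₁.1 c₂.1 s x k2 k3 k4 k5 k1⟩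
  have hz1 : ∀ᵐ x ∂(volume : Measure (E n)), ∃ z : ℤ,
      (c₁.1 x - Dl N i₁ i₂ P s x (x - α • ev i₂)) = z := by
    filter_upwards [hA] with x hx using hx.1
  have hz2 : ∀ᵐ x ∂(volume : Measure (E n)), ∃ z : ℤ,
      (c₂.1 x + Dl N i₁ i₂ P s x (x - α • ev i₁)) = z := by
    filter_upwards [hA] with x hx using hx.2.1
  have hD : ∀ i : Fin n, AC (fun x => Dl N i₁ i₂ P s x (x - α • ev i)) := by
    intro i
    filter_upwards [hG, intX_ae_sub hG (α • ev i)] with x k1 k2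
    exact intX_Dl_cont hB k1 k2
  have hw1 : Bd (b + 4) (fun x : E n =>
      ((_root_.round (c₁.1 x - Dl N i₁ i₂ P s x (x - α • ev i₂)) : ℤ) : ℝ)) := by
    intro x
    have h1 := Dl_bound N i₁ i₂ P hs0 hs1 x (x - α • ev i₂)
    have h2 := intX_round_le (y := c₁.1 x - Dl N i₁ i₂ P s x (x - α • ev i₂)) (c := b + 3)
      ((abs_sub _ _).trans (add_le_add (hb₁ x) h1))
    linarith
  have hw2 : Bd (b + 4) (fun x : E n =>
      ((_root_.round (c₂.1 x + Dl N i₁ i₂ P s x (x - α • ev i₁)) : ℤ) : ℝ)) := by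
    intro x
    have h1 := Dl_bound N i₁ i₂ P hs0 hs1 x (x - α • ev i₁)
    have h2 := intX_round_le (y := c₂.1 x + Dl N i₁ i₂ P s x (x - α • ev i₁)) (c := b + 3)
      ((abs_add_le _ _).trans (add_le_add (hb₂ x) h1))
    linarith
  refine ⟨⟨_, ⟨⟨b + 4, hw1⟩, ?_, ((c₁.2.2.2).sub (hD i₂)).round hz1⟩⟩,
    ⟨_, ⟨⟨b + 4, hw2⟩, ?_, ((c₂.2.2.2).add (hD i₁)).round hz2⟩⟩, fun x => ⟨_, rfl⟩,
    fun x => ⟨_, rfl⟩, hw1, hw2, ?_⟩
  · intro x m
    have h1 := intX_Dl_per hN i₁ i₂ hPper s (α • ev i₂) x m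
    simp only at h1 ⊢
    rw [h1, c₁.2.2.1 x m]
  · intro x m
    have h1 := intX_Dl_per hN i₁ i₂ hPper s (α • ev i₁) x m
    simp only at h1 ⊢
    rw [h1, c₂.2.2.1 x m]
  · filter_upwards [hA, intX_ae_sub hA (α • ev i₁), intX_ae_sub hA (α • ev i₂)] with x k1 k2 k3
    obtain ⟨⟨z1, e1⟩, ⟨z2, e2⟩, e3⟩ := k1
    obtain ⟨⟨z3, e4⟩, -⟩ := k2
    obtain ⟨-, ⟨z4, e5⟩, -⟩ := k3
    simp only [e1, e2, e4, e5, round_intCast]
    rw [← e1, ← e2, ← e4, ← e5]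
    linarith

end Pool.MP_2fe79c_gt.Geo
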