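import Pool.Agent.Lib.MP_2fe79c_gt.Geo.ContGap

/-!
MP_2fe79c_gt, geometric bodies. Module L1Gap: the L1 gap property GapP for the rotations rot p.
-/

set_option autoImplicit false
open MeasureTheory Filter Topology Pointwise

namespace Pool.MP_2fe79c_gt.Geo

/-- Cauchy-Schwarz for continuous functions on the unit cube -/
theorem l1gap_cs {n : ℕ} {f g : E n → ℝ} (hf : Continuous f) (hg : Continuous g) :
    (∫ x in Q n, f x * g x) ^ 2 ≤ (∫ x in Q n, f x ^ 2) * ∫ x in Q n, g x ^ 2 := by
  set A := ∫ x in Q n, f x ^ 2 with hA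
  set B := ∫ x in Q n, f x * g x with hB
  set C := ∫ x in Q n, g x ^ 2 with hC
  have h : ∀ t : ℝ, 0 ≤ C * (t * t) + (2 * B) * t + A := by
    intro t
    have h1 : C * (t * t) + (2 * B) * t + A = ∫ x in Q n, (f x + t * g x) ^ 2 := by
      have e1 : ∀ x, (f x + t * g x) ^ 2 = (f x ^ 2 + (2 * t) * (f x * g x)) + (t * t) * g x ^ 2 := by
        intro x; ring
      simp_rw [e1]
      rw [integral_add (contgap_intOn (by fun_prop)) (contgap_intOn (by fun_prop)),
        integral_add (contgap_intOn (by fun_prop)) (contgap_intOn (by fun_prop)),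
        integral_const_mul, integral_const_mul]
      ring
    rw [h1]
    exact integral_nonneg fun x => sq_nonneg _
  have h2 := discrim_le_zero h
  unfold discrim at h2
  nlinarith

theorem l1gap_scale {n : ℕ} {H : E n → ℝ} (hH : Continuous H) (h0 : ∀ x, 0 ≤ H x) :
    ∫ x in Q n, H ((5 : ℝ) • x) ≤ ∫ x in Metric.ball (0 : E n) (5 * n + 1), H x := by
  have h1 : ∫ x in Q n, H ((5 : ℝ) • x) =
      ((5 : ℝ) ^ n)⁻¹ * ∫ x in (5 : ℝ) • Q n, H x := by
    have := Measure.setIntegral_comp_smul_of_pos (volume : Measure (E n)) H (Q n)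
      (show (0 : ℝ) < 5 by norm_num)
    rw [this]
    simp
  have h2 : (5 : ℝ) • Q n ⊆ Metric.ball (0 : E n) (5 * n + 1) := by
    rintro _ ⟨y, hy, rfl⟩
    rw [mem_ball_zero_iff]
    have := norm_le_of_mem_Q hy
    simp only [norm_smul, Real.norm_eq_abs, abs_of_pos (show (0 : ℝ) < 5 by norm_num)]
    linarith
  have h3 : IntegrableOn H (Metric.ball (0 : E n) (5 * n + 1)) volume :=
    (hH.continuousOn.integrableOn_compact (isCompact_closedBall (0 : E n) (5 * n + 1))).mono_set
      Metric.ball_subset_closedBall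
  have h4 : ∫ x in (5 : ℝ) • Q n, H x ≤ ∫ x in Metric.ball (0 : E n) (5 * n + 1), H x :=
    setIntegral_mono_set h3 (Eventually.of_forall h0) (Eventually.of_forall h2)
  have h5 : 0 ≤ ∫ x in (5 : ℝ) • Q n, H x := integral_nonneg fun x => h0 x
  rw [h1]
  have h6 : ((5 : ℝ) ^ n)⁻¹ ≤ 1 := inv_le_one_of_one_le₀ (one_le_pow₀ (by norm_num))
  calc ((5 : ℝ) ^ n)⁻¹ * ∫ x in (5 : ℝ) • Q n, H x ≤ 1 * ∫ x in (5 : ℝ) • Q n, H x :=
        mul_le_mul_of_nonneg_right h6 h5
    _ ≤ _ := by rw [one_mul]; exact h4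

theorem l1gap_sqrt (a b : ℝ) (ha : 0 ≤ a) (hb : 0 ≤ b) : (√a - √b) ^ 2 ≤ |a - b| := by
  have h1 : (√a - √b) ^ 2 = |√a - √b| * |√a - √b| := by rw [← abs_mul, ← sq, abs_of_nonneg (sq_nonneg _)]
  have h2 : |√a - √b| ≤ √a + √b := by
    rw [abs_le]
    constructor <;> linarith [Real.sqrt_nonneg a, Real.sqrt_nonneg b]
  have h3 : |a - b| = |√a - √b| * (√a + √b) := by
    have : a - b = (√a - √b) * (√a + √b) := by
      nlinarith [Real.mul_self_sqrt ha, Real.mul_self_sqrt hb]
    rw [this, abs_mul, abs_of_nonneg (show 0 ≤ √a + √b by positivity)]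
  rw [h1, h3]
  exact mul_le_mul_of_nonneg_left h2 (abs_nonneg _)

theorem gapP_rot {n : ℕ} (hn : 3 ≤ n) :
    ∃ c : ℝ, 0 ≤ c ∧ GapP (fun p : Jn n => rot p) (5 * n + 1) c := by
  refine ⟨16 * n, by positivity, ?_⟩
  intro F hF hP h0
  -- the square root
  have hu : Continuous fun x => √(F x) := Real.continuous_sqrt.comp hF
  have huP : Per fun x => √(F x) := fun x m => by simp only [hP x m]
  set ub := ∫ y in Q n, √(F y) with hub
  set m := ∫ y in Q n, F y with hm
  set S := ∑ p : Jn n, ∫ x in Metric.ball (0 : E n) (5 * n + 1), |F (rot p x) - F x| with hS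
  set D := ∫ x in Q n, (√(F x) - ub) ^ 2 with hD
  have hub0 : 0 ≤ ub := integral_nonneg fun x => Real.sqrt_nonneg _
  have hm0 : 0 ≤ m := integral_nonneg fun x => h0 x
  have hD0 : 0 ≤ D := integral_nonneg fun x => sq_nonneg _
  have hsq : ∀ x, √(F x) ^ 2 = F x := fun x => Real.sq_sqrt (h0 x)
  -- the L2 gap
  have d1 : D ≤ n * S := by
    have g1 := contGap hn (fun x => √(F x)) hu huP
    refine g1.trans (mul_le_mul_of_nonneg_left (Finset.sum_le_sum fun p _ => ?_) (Nat.cast_nonneg n))
    have hro : Continuous fun x : E n => (5 : ℝ) • rot p x :=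
      (continuous_const_smul (5 : ℝ)).comp (rot p).continuous
    have h5 : Continuous fun x : E n => (5 : ℝ) • x := continuous_const_smul _
    have c1 : Continuous fun x : E n => √(F ((5 : ℝ) • rot p x)) := hu.comp hro
    have c2 : Continuous fun x : E n => √(F ((5 : ℝ) • x)) := hu.comp h5
    have c3 : Continuous fun x : E n => F ((5 : ℝ) • rot p x) := hF.comp hro
    have c4 : Continuous fun x : E n => F ((5 : ℝ) • x) := hF.comp h5
    have c5 : Continuous fun x : E n => F (rot p x) := hF.comp (rot p).continuous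
    have g2 : ∫ x in Q n, (√(F ((5 : ℝ) • rot p x)) - √(F ((5 : ℝ) • x))) ^ 2 ≤
        ∫ x in Q n, |F (rot p ((5 : ℝ) • x)) - F ((5 : ℝ) • x)| := by
      refine setIntegral_mono (contgap_intOn (by fun_prop)) (contgap_intOn ?_) fun x => ?_
      · exact ((c5.comp h5).sub c4).abs
      · have : rot p ((5 : ℝ) • x) = (5 : ℝ) • rot p x := by simp
        simp only
        rw [this]
        exact l1gap_sqrt _ _ (h0 _) (h0 _)
    refine g2.trans ?_
    exact l1gap_scale (H := fun x => |F (rot p x) - F x|) ((c5.sub hF).abs) (fun x => abs_nonneg _)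
  -- ub ^ 2 is at most the mean
  have m1 : ub ^ 2 ≤ m := by
    have := l1gap_cs (n := n) hu continuous_const (g := fun _ => (1 : ℝ))
    simp only [mul_one, one_pow, hsq] at this
    rw [← hub, ← hm] at this
    simpa [Measure.real] using this
  have m2 : ∫ x in Q n, (√(F x) + ub) ^ 2 ≤ 4 * m := by
    have e1 : ∫ x in Q n, (√(F x) + ub) ^ 2 ≤ ∫ x in Q n, (2 * F x + 2 * ub ^ 2) := by
      refine setIntegral_mono (contgap_intOn (by fun_prop)) (contgap_intOn (by fun_prop)) fun x => ?_
      have := hsq x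
      simp only
      nlinarith [sq_nonneg (√(F x) - ub)]
    have e2 : ∫ x in Q n, (2 * F x + 2 * ub ^ 2) = 2 * m + 2 * ub ^ 2 := by
      rw [integral_add (contgap_intOn (by fun_prop)) (contgap_intOn (by fun_prop)),
        integral_const_mul]
      simp [Measure.real, hm]
    linarith
  have m3 : (∫ x in Q n, |F x - ub ^ 2|) ^ 2 ≤ D * (4 * m) := by
    have e1 : ∀ x, |F x - ub ^ 2| = |√(F x) - ub| * (√(F x) + ub) := by
      intro x
      have : F x - ub ^ 2 = (√(F x) - ub) * (√(F x) + ub) := by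
        have := hsq x
        nlinarith
      rw [this, abs_mul, abs_of_nonneg (show 0 ≤ √(F x) + ub by positivity)]
    simp_rw [e1]
    have := l1gap_cs (n := n) (f := fun x => |√(F x) - ub|) (g := fun x => √(F x) + ub)
      (by fun_prop) (by fun_prop)
    simp only [sq_abs] at this
    exact this.trans (mul_le_mul_of_nonneg_left m2 hD0)
  set T := ∫ x in Q n, |F x - ub ^ 2| with hT
  have hT0 : 0 ≤ T := integral_nonneg fun x => abs_nonneg _
  have m4 : |m - ub ^ 2| ≤ T := by
    have e1 : m - ub ^ 2 = ∫ x in Q n, (F x - ub ^ 2) := by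
      rw [integral_sub (contgap_intOn hF) (contgap_intOn continuous_const)]
      simp [Measure.real, hm]
    rw [e1]
    exact abs_integral_le_integral_abs
  have m5 : ∫ x in Q n, |F x - m| ≤ 2 * T := by
    have e1 : ∫ x in Q n, |F x - m| ≤ ∫ x in Q n, (|F x - ub ^ 2| + |m - ub ^ 2|) := by
      refine setIntegral_mono (contgap_intOn (by fun_prop)) (contgap_intOn (by fun_prop)) fun x => ?_
      have e2 : F x - m = (F x - ub ^ 2) - (m - ub ^ 2) := by ring
      simp only
      rw [e2]
      exact abs_sub _ _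
    have e2 : ∫ x in Q n, (|F x - ub ^ 2| + |m - ub ^ 2|) = T + |m - ub ^ 2| := by
      rw [integral_add (contgap_intOn (by fun_prop)) (contgap_intOn (by fun_prop))]
      simp [Measure.real, hT]
    linarith
  have m6 : 0 ≤ ∫ x in Q n, |F x - m| := integral_nonneg fun x => abs_nonneg _
  calc (∫ x in Q n, |F x - m|) ^ 2 ≤ (2 * T) ^ 2 := pow_le_pow_left₀ m6 m5 2
    _ = 4 * T ^ 2 := by ring
    _ ≤ 4 * (D * (4 * m)) := by linarith
    _ = 16 * D * m := by ring
    _ ≤ 16 * (n * S) * m := by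
        refine mul_le_mul_of_nonneg_right ?_ hm0
        linarith
    _ = 16 * n * S * m := by ring

end Pool.MP_2fe79c_gt.Geo
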