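import Pool.Agent.Lib.MP_2fe79c_gt.Geo.Base

/-!
MP_2fe79c_gt, geometric bodies. Module Lev: levels of points of the circle.

lev t = i iff 2^(-(i+1)) < fract t ≤ 2^(-i) (for fract t ≠ 0; lev t = 0 if fract t = 0, junk):
with x = 1 / fract t ≥ 1, 2^i ≤ x < 2^(i+1) iff 2^i ≤ ⌊x⌋₊ < 2^(i+1) iff Nat.log 2 ⌊x⌋₊ = i.
badT = set of t with fract t = 0 or fract t = 2^(-i) for some i: closed under integer translations, countable.
Off badT lev is locally constant (fract is continuous at t with fract t ≠ 0; strict inequalities persist).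
goodT α t : t - m α is not in badT for all integers m; it is invariant under t ↦ t - α and t ↦ t + 1, and its
complement is countable, so for a.e. x in E n all coordinates are good (preimage of a countable set under a
coordinate is null: countable union of hyperplanes {x | x i = c}, null by e.g. Measure.addHaar_affineSubspace or by
transfer to the product measure).
lev_hit: the points m α (m = 1, 2, ...) are dense mod 1 (irrational rotation: e.g.
Real.exists_nat_abs_mul_sub_round_le / Dirichlet, or dense_zmultiples_iff / AddCircle dense multiples for an element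
of infinite order, plus the fact that positive multiples are also dense in a compact group). Simple
direct argument: by Dirichlet/pigeonhole there is q ≥ 1 with δ = q α - round(q α), 0 < |δ| < 2^(-b-2); moving by
steps -q α (mod 1), i.e. by -δ, the fractional part of t - k q α runs over the circle with steps |δ|, so for some
k ≥ 1 it falls in (0, 2^(-b)] - and it is never 0 for good t.
-/

set_option autoImplicit false
open MeasureTheory Filter Topology

namespace Pool.MP_2fe79c_gt.Geo

/-- level of a real number modulo 1 -/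
noncomputable def lev (t : ℝ) : ℕ := Nat.log 2 ⌊1 / Int.fract t⌋₊

/-- exceptional set for lev -/
def badT : Set ℝ := {t | Int.fract t = 0 ∨ ∃ i : ℕ, Int.fract t = 1 / 2 ^ i}

/-- no translate by a multiple of α is exceptional -/
def goodT (α t : ℝ) : Prop := ∀ m : ℤ, t - m * α ∉ badT

/-- the level of a point in the interval of level i -/
theorem lev_eq_of {t : ℝ} {i : ℕ} (h1 : 1 / 2 ^ (i + 1) < Int.fract t)
    (h2 : Int.fract t ≤ 1 / 2 ^ i) : lev t = i := by
  have h0 : (0 : ℝ) < Int.fract t := lt_trans (by positivity) h1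
  unfold lev
  apply Nat.log_eq_of_pow_le_of_lt_pow
  · apply Nat.le_floor
    rw [le_div_iff₀ h0]
    push_cast
    have := mul_le_mul_of_nonneg_left h2 (by positivity : (0 : ℝ) ≤ 2 ^ i)
    rwa [mul_one_div_cancel (by positivity)] at this
  · rw [Nat.floor_lt (by positivity), div_lt_iff₀ h0]
    push_cast
    have := mul_lt_mul_of_pos_left h1 (by positivity : (0 : ℝ) < 2 ^ (i + 1))
    rwa [mul_one_div_cancel (by positivity)] at this

/-- a point with non zero fractional part lies in the interval of its level -/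
theorem lev_spec {t : ℝ} (h0 : Int.fract t ≠ 0) :
    1 / 2 ^ (lev t + 1) < Int.fract t ∧ Int.fract t ≤ 1 / 2 ^ (lev t) := by
  have hp : (0 : ℝ) < Int.fract t := lt_of_le_of_ne (Int.fract_nonneg t) (Ne.symm h0)
  have h1 : (1 : ℝ) ≤ 1 / Int.fract t := by
    rw [le_div_iff₀ hp, one_mul]
    exact (Int.fract_lt_one t).le
  have hf : ⌊1 / Int.fract t⌋₊ ≠ 0 := by
    have : 1 ≤ ⌊1 / Int.fract t⌋₊ := Nat.le_floor (by exact_mod_cast h1)
    omega
  have h2 : 2 ^ lev t ≤ ⌊1 / Int.fract t⌋₊ := Nat.pow_log_le_self 2 hf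
  have h3 : ⌊1 / Int.fract t⌋₊ < 2 ^ (lev t + 1) := Nat.lt_pow_succ_log_self (by norm_num) _
  have h4 : ((2 ^ lev t : ℕ) : ℝ) ≤ 1 / Int.fract t := (Nat.le_floor_iff (by positivity)).1 h2
  have h5 : 1 / Int.fract t < ((2 ^ (lev t + 1) : ℕ) : ℝ) := (Nat.floor_lt (by positivity)).1 h3
  push_cast at h4 h5
  constructor
  · rw [div_lt_iff₀ hp] at h5
    rw [div_lt_iff₀ (by positivity)]
    linarith [mul_comm (Int.fract t) ((2 : ℝ) ^ (lev t + 1))]
  · rw [le_div_iff₀ hp] at h4
    rw [le_div_iff₀ (by positivity)]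
    linarith [mul_comm (Int.fract t) ((2 : ℝ) ^ (lev t))]

theorem le_lev_of {t : ℝ} {b : ℕ} (h0 : Int.fract t ≠ 0) (h : Int.fract t ≤ 1 / 2 ^ b) :
    b ≤ lev t := by
  by_contra hb
  push Not at hb
  have h1 := (lev_spec h0).1
  have h2 : (1 : ℝ) / 2 ^ b ≤ 1 / 2 ^ (lev t + 1) := by
    apply one_div_le_one_div_of_le (by positivity)
    exact pow_le_pow_right₀ (by norm_num) hb
  linarith

theorem lev_add_int (t : ℝ) (m : ℤ) : lev (t + m) = lev t := by
  unfold lev
  rw [Int.fract_add_intCast]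

theorem lev_locally {t : ℝ} (ht : t ∉ badT) : ∀ᶠ s in 𝓝 t, lev s = lev t := by
  have h0 : Int.fract t ≠ 0 := fun h => ht (Or.inl h)
  have h1 : ∀ i : ℕ, Int.fract t ≠ 1 / 2 ^ i := fun i h => ht (Or.inr ⟨i, h⟩)
  obtain ⟨h2, h3⟩ := lev_spec h0
  have h3' : Int.fract t < 1 / 2 ^ (lev t) := lt_of_le_of_ne h3 (h1 _)
  have hp : (0 : ℝ) < Int.fract t := lt_of_le_of_ne (Int.fract_nonneg t) (Ne.symm h0)
  have hl : Int.fract t = t - ⌊t⌋ := rfl
  have hfl := Int.fract_lt_one t
  have e1 : ∀ᶠ s in 𝓝 t, (⌊t⌋ : ℝ) + 1 / 2 ^ (lev t + 1) < s := by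
    apply eventually_gt_nhds
    linarith
  have e2 : ∀ᶠ s in 𝓝 t, s < (⌊t⌋ : ℝ) + 1 / 2 ^ (lev t) := by
    apply eventually_lt_nhds
    linarith
  have hle : (1 : ℝ) / 2 ^ (lev t) ≤ 1 := by
    rw [div_le_one (by positivity)]
    exact one_le_pow₀ (by norm_num)
  filter_upwards [e1, e2] with s hs1 hs2
  have hpos : (0 : ℝ) < 1 / 2 ^ (lev t + 1) := by positivity
  have hfs : ⌊s⌋ = ⌊t⌋ := by
    rw [Int.floor_eq_iff]
    constructor <;> linarith
  have hfr : Int.fract s = s - ⌊t⌋ := by
    rw [← hfs]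
    rfl
  apply lev_eq_of
  · rw [hfr]; linarith
  · rw [hfr]; linarith

theorem goodT_sub {α t : ℝ} (h : goodT α t) : goodT α (t - α) := by
  intro m
  have := h (m + 1)
  have e : t - ((m + 1 : ℤ) : ℝ) * α = t - α - m * α := by
    push_cast; ring
  rwa [e] at this

theorem countable_badT : badT.Countable := by
  have : badT ⊆ ⋃ (m : ℤ), ⋃ (i : Option ℕ),
      {(m : ℝ) + (match i with | none => 0 | some j => 1 / 2 ^ j)} := by
    rintro t (h | ⟨j, h⟩)
    · refine Set.mem_iUnion.2 ⟨⌊t⌋, Set.mem_iUnion.2 ⟨none, ?_⟩⟩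
      simp only [Set.mem_singleton_iff]
      rw [← h]
      exact (Int.floor_add_fract t).symm
    · refine Set.mem_iUnion.2 ⟨⌊t⌋, Set.mem_iUnion.2 ⟨some j, ?_⟩⟩
      simp only [Set.mem_singleton_iff]
      rw [← h]
      exact (Int.floor_add_fract t).symm
  refine Set.Countable.mono this ?_
  exact Set.countable_iUnion fun m => Set.countable_iUnion fun i => Set.countable_singleton _

/-- a property of almost every real number holds for the coordinates of almost every point -/
theorem ae_coord {n : ℕ} {p : ℝ → Prop} (hp : ∀ᵐ t ∂(volume : Measure ℝ), p t) :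
    ∀ᵐ x ∂(volume : Measure (E n)), ∀ i, p (x i) := by
  rw [ae_all_iff]
  intro i
  have h1 : Measure.QuasiMeasurePreserving (@WithLp.ofLp 2 (Fin n → ℝ)) volume volume :=
    (PiLp.volume_preserving_ofLp (Fin n)).quasiMeasurePreserving
  have h2 : Measure.QuasiMeasurePreserving (Function.eval i)
      (Measure.pi (fun _ : Fin n => (volume : Measure ℝ))) volume :=
    Measure.quasiMeasurePreserving_eval (fun _ : Fin n => (volume : Measure ℝ)) i
  exact (h2.comp h1).ae hp

theorem ae_goodT {n : ℕ} (α : ℝ) : ∀ᵐ x ∂(volume : Measure (E n)), ∀ i, goodT α (x i) := by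
  apply ae_coord
  rw [ae_iff]
  have : {t : ℝ | ¬ goodT α t} ⊆ ⋃ m : ℤ, (fun s => s + m * α) '' badT := by
    intro t ht
    simp only [Set.mem_ofPred_eq, goodT, not_forall, not_not] at ht
    obtain ⟨m, hm⟩ := ht
    exact Set.mem_iUnion.2 ⟨m, t - m * α, hm, by ring⟩
  apply measure_mono_null this
  exact (Set.countable_iUnion fun m => countable_badT.image _).measure_zero _

/-- backward orbits of good points visit every level -/
theorem lev_hit {α : ℝ} (hα : Irrational α) {t : ℝ} (ht : goodT α t) (b : ℕ) :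
    ∃ m : ℕ, 1 ≤ m ∧ b ≤ lev (t - m * α) := by
  -- it is enough to find a small positive value of `t - m α - z`
  suffices H : ∃ m : ℕ, 1 ≤ m ∧ ∃ z : ℤ, 0 ≤ t - m * α - z ∧ t - m * α - z ≤ 1 / 2 ^ b ∧
      t - m * α - z < 1 by
    obtain ⟨m, hm, z, h1, h2, h3⟩ := H
    refine ⟨m, hm, le_lev_of (fun h => ?_) ?_⟩
    · apply ht m
      left
      rw [← h]
      norm_cast
    · have : Int.fract (t - m * α) = t - m * α - z := by
        rw [Int.fract_eq_iff]
        exact ⟨h1, h3, z, by ring⟩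
      rw [this]
      exact h2
  obtain ⟨q, hq, -, hδ⟩ := Real.exists_nat_abs_mul_sub_round_le α (n := 2 ^ b) (by positivity)
  set r : ℤ := round ((q : ℝ) * α) with hr
  set δ : ℝ := (q : ℝ) * α - r with hδd
  have hδ0 : δ ≠ 0 := by
    intro h
    have h1 : Irrational ((q : ℝ) * α) := hα.natCast_mul (by omega)
    apply h1
    exact ⟨(r : ℚ), by push_cast; linarith⟩
  have hδ1 : |δ| < 1 / 2 ^ b := by
    refine lt_of_le_of_lt hδ ?_
    push_cast
    apply one_div_lt_one_div_of_lt (by positivity)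
    linarith
  have hle : (1 : ℝ) / 2 ^ b ≤ 1 := by
    rw [div_le_one (by positivity)]
    exact one_le_pow₀ (by norm_num)
  have hu0 := Int.fract_nonneg t
  have hu1 := Int.fract_lt_one t
  have hut : Int.fract t = t - ⌊t⌋ := rfl
  rcases lt_or_gt_of_ne hδ0 with hneg | hpos
  · -- `δ < 0`
    have hε : 0 < -δ := by linarith
    rw [abs_of_neg hneg] at hδ1
    set k : ℕ := ⌈(1 - Int.fract t) / (-δ)⌉₊ with hk
    have hk1 : (1 - Int.fract t) / (-δ) ≤ k := Nat.le_ceil _
    have hk2 : (k : ℝ) < (1 - Int.fract t) / (-δ) + 1 :=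
      Nat.ceil_lt_add_one (div_nonneg (by linarith) hε.le)
    have hk0 : 0 < k := Nat.ceil_pos.2 (div_pos (by linarith) hε)
    rw [div_le_iff₀ hε] at hk1
    have hk3 : (k : ℝ) * (-δ) < (1 - Int.fract t) + (-δ) := by
      have := mul_lt_mul_of_pos_right hk2 hε
      rwa [add_mul, div_mul_cancel₀ _ hε.ne', one_mul] at this
    refine ⟨k * q, Nat.mul_pos hk0 hq, ⌊t⌋ + 1 - k * r, ?_⟩
    have e : t - ((k * q : ℕ) : ℝ) * α - ((⌊t⌋ + 1 - k * r : ℤ) : ℝ)
        = Int.fract t - 1 + k * (-δ) := by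
      rw [hδd, hut]; push_cast; ring
    rw [e]
    refine ⟨by linarith, by linarith, by linarith⟩
  · -- `δ > 0`
    rw [abs_of_pos hpos] at hδ1
    set k : ℕ := ⌊(Int.fract t + 1) / δ⌋₊ with hk
    have hk1 : (k : ℝ) ≤ (Int.fract t + 1) / δ := Nat.floor_le (div_nonneg (by linarith) hpos.le)
    have hk2 : (Int.fract t + 1) / δ < k + 1 := Nat.lt_floor_add_one _
    have hk0 : 0 < k := by
      rw [hk, Nat.floor_pos, le_div_iff₀ hpos]
      linarith
    rw [le_div_iff₀ hpos] at hk1
    rw [div_lt_iff₀ hpos, add_mul, one_mul] at hk2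
    refine ⟨k * q, Nat.mul_pos hk0 hq, ⌊t⌋ - 1 - k * r, ?_⟩
    have e : t - ((k * q : ℕ) : ℝ) * α - ((⌊t⌋ - 1 - k * r : ℤ) : ℝ)
        = Int.fract t + 1 - k * δ := by
      rw [hδd, hut]; push_cast; ring
    rw [e]
    refine ⟨by linarith, by linarith, by linarith⟩

end Pool.MP_2fe79c_gt.Geo
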