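import Pool.Agent.Lib.MP_2fe79c_gt.Geo.Sandwich

/-!
MP_2fe79c_gt, geometric bodies. Module Riemann: Riemann sums of a Jordan set converge uniformly in the base point.

PROOF. (1) for a continuous φ : E n → ℝ with Sup0 ρ φ and ε > 0 there is L0 > 0 with
 |L^n * per (fun y => φ (L • y)) x - ∫ φ| ≤ ε for all x and 0 < L < L0. By periodicity (Per_per) take x in Q n.
 φ is uniformly continuous (compact support): |φ y - φ y'| ≤ ε' for ‖y-y'‖ ≤ L n. The cells L (x + m + Q n), m in Z^n, tile E n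
 with volume L^n each; ∫ φ = sum_m ∫_{L(x+m+Q)} φ and L^n φ(L(x+m)) = ∫_{L(x+m+Q)} φ(L(x+m)), so the difference is at most
 the sum of ε' L^n over the cells meeting the ball of radius ρ, total volume ≤ vol ball(ρ + 1 + n), for L ≤ 1.
 (Alternatively: per of y ↦ φ(L y) has mean ∫ φ(L y) dy = L^(-n) ∫ φ over Q n by integral_per, and for x, x' in Q n the
 difference of values is at most sum_m |φ(L(x+m)) - φ(L(x'+m))| ≤ ε' * #{m : ‖L(x+m)‖ < ρ or ‖L(x'+m)‖ < ρ} ≤ ε' (2(ρ/L + n) + 3)^n;
 multiply by L^n: ≤ ε' (2ρ + (2n+3)L)^n ≤ ε' (2ρ+2n+3)^n. This second way is simpler.)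
(2) f = indicator of A of 1: AC f, Bd 1 f, Sup0 R f (A bounded). sandwich: lo k ≤ f ≤ hi k continuous of bounded support,
 ∫ (hi k - lo k) → 0 by dominated convergence (support in a fixed ball as 2/(k+1) ≤ 2). Choose k with ∫(hi k - lo k) ≤ ε/2 and
 apply (1) to lo k, hi k with ε/2; per is monotone, and ∫ lo k ≤ vol A ≤ ∫ hi k.
-/

set_option autoImplicit false
open MeasureTheory Filter Topology

namespace Pool.MP_2fe79c_gt.Geo

theorem card_boxZ (n K : ℕ) : (boxZ n K).card = (2 * K + 1) ^ n := by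
  unfold boxZ
  rw [Pi.card_Icc]
  simp only [Int.card_Icc]
  rw [Finset.prod_const, Finset.card_univ, Fintype.card_fin]
  congr 1
  omega

/-- Riemann sums of continuous functions of bounded support -/
theorem riem_cont {n : ℕ} (φ : E n → ℝ) (hc : Continuous φ) (ρ b : ℝ) (hρ : 0 ≤ ρ)
    (hs : Sup0 ρ φ) (hb : Bd b φ) (ε : ℝ) (hε : 0 < ε) :
    ∃ L0 : ℝ, 0 < L0 ∧ ∀ L : ℝ, 0 < L → L < L0 → ∀ x : E n,
      |L ^ n * per (fun y => φ (L • y)) x - ∫ y, φ y| ≤ ε := by
  have hcs : HasCompactSupport φ := by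
    refine HasCompactSupport.of_support_subset_isCompact (isCompact_closedBall (0 : E n) ρ) ?_
    intro x hx
    rw [Function.mem_support] at hx
    rw [mem_closedBall_zero_iff]
    by_contra h
    exact hx (hs x (not_le.mp h).le)
  have huc : UniformContinuous φ := hcs.uniformContinuous_of_continuous hc
  have hC : (0:ℝ) < (2 * ρ + 2 * n + 3) ^ n := by positivity
  obtain ⟨δ, hδ, hφδ⟩ := Metric.uniformContinuous_iff.mp huc (ε / (2 * ρ + 2 * n + 3) ^ n)
    (by positivity)
  refine ⟨min 1 (δ / (2 * n + 1)), by positivity, fun L hL hL1 x => ?_⟩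
  have hL2 : L < 1 := hL1.trans_le (min_le_left _ _)
  have hL3 : L * (2 * n + 1) < δ := by
    have := hL1.trans_le (min_le_right _ _)
    rwa [lt_div_iff₀ (by positivity)] at this
  have hψs : Sup0 (ρ / L) (fun y => φ (L • y)) := by
    intro y hy
    apply hs
    rw [norm_smul, Real.norm_eq_abs, abs_of_pos hL]
    rw [div_le_iff₀ hL] at hy
    linarith
  have hψb : Bd b (fun y => φ (L • y)) := fun y => hb _
  have hψc : Continuous (fun y : E n => φ (L • y)) := hc.comp (continuous_const_smul L)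
  obtain ⟨x0, hx0, hxx0⟩ := (Per_per (fun y => φ (L • y))).exists_Q x
  rw [hxx0]
  set K := ⌈ρ / L + n⌉₊ with hKdef
  have hK : ρ / L + n ≤ K := Nat.le_ceil _
  have hK' : (K : ℝ) ≤ ρ / L + n + 1 := (Nat.ceil_lt_add_one (by positivity)).le
  have hLK : L * (2 * K + 1) ≤ 2 * ρ + 2 * n + 3 := by
    have h1 : L * (2 * K + 1) ≤ L * (2 * (ρ / L + n + 1) + 1) := by
      apply mul_le_mul_of_nonneg_left _ hL.le
      linarith
    have h2 : L * (2 * (ρ / L + n + 1) + 1) = 2 * ρ + L * (2 * n + 3) := by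
      field_simp
      ring
    have h3 : L * (2 * n + 3) ≤ 1 * (2 * n + 3) :=
      mul_le_mul_of_nonneg_right hL2.le (by positivity)
    linarith
  have hdiff : ∀ y ∈ Q n, ‖per (fun y => φ (L • y)) x0 - per (fun y => φ (L • y)) y‖ ≤
      ((boxZ n K).card : ℝ) * (ε / (2 * ρ + 2 * n + 3) ^ n) := by
    intro y hy
    rw [per_eq_sum hψs (norm_le_of_mem_Q hx0) hK, per_eq_sum hψs (norm_le_of_mem_Q hy) hK,
      ← Finset.sum_sub_distrib]
    refine (norm_sum_le _ _).trans ?_
    rw [← nsmul_eq_mul]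
    refine Finset.sum_le_card_nsmul _ _ _ fun m _ => ?_
    have h1 : dist (L • (x0 + zv m)) (L • (y + zv m)) < δ := by
      rw [dist_eq_norm, ← smul_sub, norm_smul, Real.norm_eq_abs, abs_of_pos hL,
        add_sub_add_right_eq_sub]
      have h2 : ‖x0 - y‖ ≤ 2 * n := by
        have := norm_sub_le x0 y
        linarith [norm_le_of_mem_Q hx0, norm_le_of_mem_Q hy]
      have h3 : L * ‖x0 - y‖ ≤ L * (2 * n + 1) := by
        apply mul_le_mul_of_nonneg_left _ hL.le
        linarith
      linarith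
    have h4 := hφδ h1
    rw [Real.dist_eq] at h4
    exact h4.le
  have hint : ∫ y in Q n, per (fun y => φ (L • y)) y = (L ^ n)⁻¹ * ∫ y, φ y := by
    rw [integral_per hψs hψb (AC.of_continuous hψc)]
    rw [Measure.integral_comp_smul]
    rw [finrank_euclideanSpace, Fintype.card_fin, smul_eq_mul, abs_of_pos (by positivity)]
  have hI1 : Integrable (fun y => per (fun y => φ (L • y)) y)
      ((volume : Measure (E n)).restrict (Q n)) :=
    (AC.per hψs (AC.of_continuous hψc)).integrableOn (per_Bd hψs hψb)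
      (by rw [volume_Q]; exact ENNReal.one_lt_top)
  have h5 : per (fun y => φ (L • y)) x0 - (L ^ n)⁻¹ * ∫ y, φ y =
      ∫ y in Q n, (per (fun y => φ (L • y)) x0 - per (fun y => φ (L • y)) y) := by
    rw [integral_sub (integrable_const _) hI1, hint]
    simp [volume_Q, Measure.real]
  have h6 : |per (fun y => φ (L • y)) x0 - (L ^ n)⁻¹ * ∫ y, φ y| ≤
      ((boxZ n K).card : ℝ) * (ε / (2 * ρ + 2 * n + 3) ^ n) := by
    rw [h5]
    have := norm_setIntegral_le_of_norm_le_const (μ := (volume : Measure (E n))) (s := Q n)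
      (by rw [volume_Q]; exact ENNReal.one_lt_top) hdiff
    simpa [volume_Q, Measure.real] using this
  have h7 : L ^ n * per (fun y => φ (L • y)) x0 - ∫ y, φ y =
      L ^ n * (per (fun y => φ (L • y)) x0 - (L ^ n)⁻¹ * ∫ y, φ y) := by
    rw [mul_sub, ← mul_assoc, mul_inv_cancel₀ (by positivity), one_mul]
  rw [h7, abs_mul, abs_of_pos (by positivity : (0:ℝ) < L ^ n)]
  calc L ^ n * |per (fun y => φ (L • y)) x0 - (L ^ n)⁻¹ * ∫ y, φ y|
      ≤ L ^ n * (((boxZ n K).card : ℝ) * (ε / (2 * ρ + 2 * n + 3) ^ n)) :=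
        mul_le_mul_of_nonneg_left h6 (by positivity)
    _ = (L * (2 * K + 1)) ^ n * (ε / (2 * ρ + 2 * n + 3) ^ n) := by
        rw [card_boxZ, mul_pow]
        push_cast
        ring
    _ ≤ (2 * ρ + 2 * n + 3) ^ n * (ε / (2 * ρ + 2 * n + 3) ^ n) := by
        apply mul_le_mul_of_nonneg_right _ (by positivity)
        exact pow_le_pow_left₀ (by positivity) hLK n
    _ = ε := by
        field_simp

theorem riemann {n : ℕ} (A : Set (E n)) (hA : Bornology.IsBounded A)
    (hf : volume (frontier A) = 0) (ε : ℝ) (hε : 0 < ε) :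
    ∃ L0 : ℝ, 0 < L0 ∧ ∀ L : ℝ, 0 < L → L < L0 → ∀ x : E n,
      |L ^ n * per (fun y => A.indicator (fun _ => (1 : ℝ)) (L • y)) x - (volume A).toReal| ≤ ε := by
  obtain ⟨R, hR, hAR⟩ := hA.subset_ball_lt 0 0
  set f : E n → ℝ := A.indicator (fun _ => (1 : ℝ)) with hfdef
  have hfAC : AC f := (AC.const 1).indicator hf
  have hfb : Bd 1 f := by
    intro x
    by_cases h : x ∈ A
    · rw [hfdef, Set.indicator_of_mem h]; simp
    · rw [hfdef, Set.indicator_of_notMem h]; simp
  have hfs : Sup0 R f := by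
    intro x hx
    apply Set.indicator_of_notMem
    intro h
    have := hAR h
    rw [mem_ball_zero_iff] at this
    linarith
  obtain ⟨lo, hi, hcont, hbd, htend, -, hsup⟩ := sandwich f 1 hfb hfAC
  have hsup2 : ∀ k, Sup0 (R + 2) (lo k) ∧ Sup0 (R + 2) (hi k) := by
    intro k
    have h1 : R + 2 * 1 / ((k:ℝ) + 1) ≤ R + 2 := by
      have : 2 * 1 / ((k:ℝ) + 1) ≤ 2 := by
        rw [div_le_iff₀ (by positivity)]
        have : (0:ℝ) ≤ k := by positivity
        linarith
      linarith
    exact ⟨(hsup R hfs k).1.mono h1, (hsup R hfs k).2.mono h1⟩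
  have hblo : ∀ k, Bd 1 (lo k) := fun k x => by
    rw [abs_le]
    have := hbd k x
    constructor <;> linarith [this.1, this.2.1, this.2.2.1, this.2.2.2]
  have hbhi : ∀ k, Bd 1 (hi k) := fun k x => by
    rw [abs_le]
    have := hbd k x
    constructor <;> linarith [this.1, this.2.1, this.2.2.1, this.2.2.2]
  have hIlo : ∀ k, Integrable (lo k) volume := fun k =>
    (AC.of_continuous (hcont k).1).integrable (hblo k) (hsup2 k).1
  have hIhi : ∀ k, Integrable (hi k) volume := fun k =>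
    (AC.of_continuous (hcont k).2).integrable (hbhi k) (hsup2 k).2
  have hIf : Integrable f volume := hfAC.integrable hfb hfs
  have hlim : Tendsto (fun k => ∫ x, (hi k x - lo k x)) atTop (𝓝 (∫ _x : E n, (0:ℝ))) := by
    refine tendsto_integral_of_dominated_convergence
      ((Metric.ball (0 : E n) (R + 2)).indicator fun _ => (2:ℝ)) ?_ ?_ ?_ ?_
    · intro k
      exact ((hcont k).2.sub (hcont k).1).aestronglyMeasurable
    · rw [integrable_indicator_iff Metric.isOpen_ball.measurableSet]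
      exact integrableOn_const measure_ball_lt_top.ne
    · intro k
      refine Eventually.of_forall fun x => ?_
      by_cases h : x ∈ Metric.ball (0 : E n) (R + 2)
      · rw [Set.indicator_of_mem h, Real.norm_eq_abs, abs_le]
        have := hbd k x
        constructor <;> linarith [this.1, this.2.1, this.2.2.1, this.2.2.2]
      · rw [Set.indicator_of_notMem h]
        rw [mem_ball_zero_iff, not_lt] at h
        rw [(hsup2 k).1 x h, (hsup2 k).2 x h]
        simp
    · exact htend
  rw [integral_zero, Metric.tendsto_atTop] at hlim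
  obtain ⟨N, hN⟩ := hlim (ε / 2) (by linarith)
  have hk := hN N le_rfl
  rw [Real.dist_eq, sub_zero, integral_sub (hIhi N) (hIlo N)] at hk
  have hk' := (abs_lt.mp hk).2
  have hvol : (volume A).toReal = ∫ x, f x := by
    rw [hfdef, integral_indicator₀ (nullMeasurableSet_of_null_frontier hf)]
    simp [Measure.real]
  have hlo_le : ∫ x, lo N x ≤ ∫ x, f x := integral_mono (hIlo N) hIf fun x => (hbd N x).2.1
  have hle_hi : ∫ x, f x ≤ ∫ x, hi N x := integral_mono hIf (hIhi N) fun x => (hbd N x).2.2.1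
  obtain ⟨L1, hL1, hlo⟩ := riem_cont (lo N) (hcont N).1 (R + 2) 1 (by linarith) (hsup2 N).1
    (hblo N) (ε / 2) (by linarith)
  obtain ⟨L2, hL2, hhi⟩ := riem_cont (hi N) (hcont N).2 (R + 2) 1 (by linarith) (hsup2 N).2
    (hbhi N) (ε / 2) (by linarith)
  refine ⟨min L1 L2, lt_min hL1 hL2, fun L hL hLm x => ?_⟩
  have h1 := hlo L hL (hLm.trans_le (min_le_left _ _)) x
  have h2 := hhi L hL (hLm.trans_le (min_le_right _ _)) x
  have hsc : ∀ (g : E n → ℝ), Sup0 (R + 2) g → Sup0 ((R + 2) / L) (fun y => g (L • y)) := by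
    intro g hg y hy
    apply hg
    rw [norm_smul, Real.norm_eq_abs, abs_of_pos hL]
    rw [div_le_iff₀ hL] at hy
    linarith
  have hLn : (0:ℝ) < L ^ n := by positivity
  have h3 : per (fun y => lo N (L • y)) x ≤ per (fun y => f (L • y)) x :=
    per_le_per (hsc _ (hsup2 N).1) (hsc _ (hfs.mono (by linarith))) (fun y => (hbd N _).2.1) x
  have h4 : per (fun y => f (L • y)) x ≤ per (fun y => hi N (L • y)) x :=
    per_le_per (hsc _ (hfs.mono (by linarith))) (hsc _ (hsup2 N).2) (fun y => (hbd N _).2.2.1) x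
  have h3' := mul_le_mul_of_nonneg_left h3 hLn.le
  have h4' := mul_le_mul_of_nonneg_left h4 hLn.le
  rw [abs_le] at h1 h2
  rw [hvol, abs_le]
  constructor <;> linarith [h1.1, h1.2, h2.1, h2.2]

end Pool.MP_2fe79c_gt.Geo
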