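import Pool.Agent.Lib.MP_2fe79c_gt.Geo.Absorb
import Pool.Agent.Lib.MP_2fe79c_gt.Geo.Riemann

/-!
MP_2fe79c_gt, geometric bodies. Module Main: indicators of Jordan sets of equal volume are equivalent (n ≥ 3).

PROOF. V = vol A = vol B. If V = 0 both indicators are 0 a.e.: Teq.congr of Teq.refl JF.zero. Let V > 0, C0 from absorb.
Choose ε > 0 with C0 (2ε + 2ε) ≤ V - 2ε, e.g. ε = V / (4 C0 + 4), and L > 0 with L < both L0's for this ε (riemann for A and B) and
L^n ≤ ε, L ≤ 1. Let a x = indicator_A (L x), b x = indicator_B (L x) (JF.scale of the indicator), FA = fold a, FB = fold b. On Q n both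
are in [(V-ε)/L^n, (V+ε)/L^n]. M = ⌊(V-ε)/L^n⌋₊ (natural), N = ⌈(V+ε)/L^n⌉₊ - M ≥ 1; N ≤ 2ε/L^n + 2, M ≥ (V-ε)/L^n - 1, so
C0 N ≤ C0 (2ε + 2L^n)/L^n ≤ (V - ε - L^n)/L^n ≤ M. Let χ = indicator of Q n (value 1). F = FA - M χ, G = FB - M χ: admissible
(JF.sub), 0 ≤ F, G ≤ N, vanish outside Q n; ∫ F = ∫ FA - M = ∫ a - M = V / L^n - M = ∫ G (∫ fold a = ∫_Q per a = ∫ a). absorb gives H ≤ C0 N ≤ M,
H = 0 outside Q n, F + H ~ G + H. Then a ~ FA = (F + H) + (M χ - H) ~ (G + H) + (M χ - H) = FB ~ b (Teq.add with Teq.refl of the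
admissible function M χ - H). By Teq.scale with L⁻¹: indicator_A ~ indicator_B.
-/

set_option autoImplicit false
open MeasureTheory Filter Topology

namespace Pool.MP_2fe79c_gt.Geo

theorem main_JF_ind {n : ℕ} (A : Set (E n)) (hA : Bornology.IsBounded A)
    (hf : volume (frontier A) = 0) (c : ℕ) : JF (A.indicator fun _ => (c : ℝ)) := by
  classical
  refine ⟨?_, ?_, ?_, ?_⟩
  · intro x
    by_cases hx : x ∈ A
    · exact ⟨c, by rw [Set.indicator_of_mem hx]⟩
    · exact ⟨0, by rw [Set.indicator_of_notMem hx]; simp⟩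
  · refine ⟨c, fun x => ?_⟩
    by_cases hx : x ∈ A
    · rw [Set.indicator_of_mem hx, abs_of_nonneg (Nat.cast_nonneg _)]
    · rw [Set.indicator_of_notMem hx, abs_zero]
      exact Nat.cast_nonneg _
  · obtain ⟨R, hR⟩ := hA.subset_ball 0
    refine ⟨R, fun x hx => ?_⟩
    apply Set.indicator_of_notMem
    intro h
    have := hR h
    rw [Metric.mem_ball, dist_zero_right] at this
    linarith
  · exact (AC.const _).indicator hf

theorem main_isBounded_Q (n : ℕ) : Bornology.IsBounded (Q n) := by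
  rw [isBounded_iff_forall_norm_le]
  exact ⟨n, fun x hx => norm_le_of_mem_Q hx⟩

theorem main_integral_ind {n : ℕ} (A : Set (E n)) (hf : volume (frontier A) = 0) :
    ∫ x, A.indicator (fun _ => (1 : ℝ)) x = (volume A).toReal := by
  rw [integral_indicator₀ (nullMeasurableSet_of_null_frontier hf)]
  simp [Measure.real]

theorem main_integral_fold {n : ℕ} {F : E n → ℝ} (hF : JF F) :
    ∫ x, fold F x = ∫ x, F x := by
  obtain ⟨R, hR⟩ := hF.sup
  obtain ⟨b, hb⟩ := hF.bd
  rw [← integral_per hR hb hF.ac]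
  unfold fold
  exact integral_indicator measurableSet_Q

theorem main_integrable {n : ℕ} {F : E n → ℝ} (hF : JF F) : Integrable F volume := by
  obtain ⟨R, hR⟩ := hF.sup
  obtain ⟨b, hb⟩ := hF.bd
  exact hF.ac.integrable hb hR

/-- the choice of the numbers -/
theorem main_numbers (V : ℝ) (hV : 0 < V) (C0 : ℕ) (p : ℝ) (hp : 0 < p)
    (hpe : p ≤ V / (4 * C0 + 4)) :
    ∃ M N : ℕ, 1 ≤ N ∧ (M : ℝ) ≤ (V - V / (4 * C0 + 4)) / p ∧
      (V + V / (4 * C0 + 4)) / p ≤ (M : ℝ) + N ∧ (C0 : ℝ) * N ≤ M := by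
  set ε : ℝ := V / (4 * C0 + 4) with hε
  have hc : (0 : ℝ) ≤ C0 := Nat.cast_nonneg _
  have hd : (0 : ℝ) < 4 * C0 + 4 := by positivity
  have hε0 : 0 < ε := div_pos hV hd
  have hVε : (4 * C0 + 4) * ε = V := by
    rw [hε]
    field_simp
  have h1 : 0 ≤ (V - ε) / p := by
    apply div_nonneg _ hp.le
    nlinarith
  have h2 : (V - ε) / p < (V + ε) / p := by
    rw [div_lt_div_iff_of_pos_right hp]
    linarith
  have hM1 : ((⌊(V - ε) / p⌋₊ : ℕ) : ℝ) ≤ (V - ε) / p := Nat.floor_le h1
  have hM2 : (V - ε) / p < ((⌊(V - ε) / p⌋₊ : ℕ) : ℝ) + 1 := Nat.lt_floor_add_one _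
  have hN1 : (V + ε) / p ≤ ((⌈(V + ε) / p⌉₊ : ℕ) : ℝ) := Nat.le_ceil _
  have hN2 : ((⌈(V + ε) / p⌉₊ : ℕ) : ℝ) < (V + ε) / p + 1 := Nat.ceil_lt_add_one (by linarith)
  have hlt : ⌊(V - ε) / p⌋₊ < ⌈(V + ε) / p⌉₊ := by
    have : ((⌊(V - ε) / p⌋₊ : ℕ) : ℝ) < ((⌈(V + ε) / p⌉₊ : ℕ) : ℝ) := by linarith
    exact_mod_cast this
  refine ⟨⌊(V - ε) / p⌋₊, ⌈(V + ε) / p⌉₊ - ⌊(V - ε) / p⌋₊, by omega, hM1, ?_, ?_⟩
  · rw [Nat.cast_sub hlt.le]
    linarith
  · rw [Nat.cast_sub hlt.le]
    have hep : 1 ≤ ε / p := by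
      rw [le_div_iff₀ hp]
      linarith
    have h3 : (V + ε) / p = (V - ε) / p + 2 * (ε / p) := by ring
    have h4 : ((⌈(V + ε) / p⌉₊ : ℕ) : ℝ) - ((⌊(V - ε) / p⌋₊ : ℕ) : ℝ) ≤ 4 * (ε / p) := by
      linarith
    have h5 : (C0 : ℝ) * (((⌈(V + ε) / p⌉₊ : ℕ) : ℝ) - ((⌊(V - ε) / p⌋₊ : ℕ) : ℝ)) ≤
        C0 * (4 * (ε / p)) := mul_le_mul_of_nonneg_left h4 hc
    have h6 : V / p = (4 * C0 + 4) * (ε / p) := by
      rw [← hVε]
      ring
    have h7 : (V - ε) / p = V / p - ε / p := by ring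
    nlinarith

theorem teq_main {n : ℕ} (hn : 3 ≤ n) (A B : Set (E n)) (hA : Bornology.IsBounded A)
    (hB : Bornology.IsBounded B) (hfA : volume (frontier A) = 0) (hfB : volume (frontier B) = 0)
    (hV : volume A = volume B) :
    Teq (A.indicator fun _ => (1 : ℝ)) (B.indicator fun _ => (1 : ℝ)) := by
  rcases eq_or_ne (volume A) 0 with h0 | h0
  · refine Teq.congr (Teq.refl JF.zero) ?_ ?_
    · have h1 : ∀ᵐ x ∂(volume : Measure (E n)), x ∉ A := measure_eq_zero_iff_ae_notMem.mp h0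
      filter_upwards [h1] with x hx
      rw [Set.indicator_of_notMem hx]
    · have h1 : ∀ᵐ x ∂(volume : Measure (E n)), x ∉ B :=
        measure_eq_zero_iff_ae_notMem.mp (hV ▸ h0)
      filter_upwards [h1] with x hx
      rw [Set.indicator_of_notMem hx]
  · obtain ⟨C0, habs⟩ := absorb hn
    have hVpos : 0 < (volume A).toReal := ENNReal.toReal_pos h0 hA.measure_lt_top.ne
    set V : ℝ := (volume A).toReal with hVdef
    have hVB : (volume B).toReal = V := by rw [hVdef, hV]
    set ε : ℝ := V / (4 * C0 + 4) with hε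
    have hε0 : 0 < ε := div_pos hVpos (by positivity)
    obtain ⟨LA, hLA, hrA⟩ := riemann A hA hfA ε hε0
    obtain ⟨LB, hLB, hrB⟩ := riemann B hB hfB ε hε0
    obtain ⟨L, hL0, hL1, hL2, hL3, hL4⟩ : ∃ L : ℝ, 0 < L ∧ L < LA ∧ L < LB ∧ L ≤ 1 ∧ L ≤ ε := by
      refine ⟨min (min LA LB) (min 1 ε) / 2, ?_, ?_, ?_, ?_, ?_⟩
      · have : 0 < min (min LA LB) (min 1 ε) :=
          lt_min (lt_min hLA hLB) (lt_min one_pos hε0)
        linarith
      · have : 0 < min (min LA LB) (min 1 ε) :=
          lt_min (lt_min hLA hLB) (lt_min one_pos hε0)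
        have h1 : min (min LA LB) (min 1 ε) ≤ LA := (min_le_left _ _).trans (min_le_left _ _)
        linarith
      · have : 0 < min (min LA LB) (min 1 ε) :=
          lt_min (lt_min hLA hLB) (lt_min one_pos hε0)
        have h1 : min (min LA LB) (min 1 ε) ≤ LB := (min_le_left _ _).trans (min_le_right _ _)
        linarith
      · have : 0 < min (min LA LB) (min 1 ε) :=
          lt_min (lt_min hLA hLB) (lt_min one_pos hε0)
        have h1 : min (min LA LB) (min 1 ε) ≤ 1 := (min_le_right _ _).trans (min_le_left _ _)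
        linarith
      · have : 0 < min (min LA LB) (min 1 ε) :=
          lt_min (lt_min hLA hLB) (lt_min one_pos hε0)
        have h1 : min (min LA LB) (min 1 ε) ≤ ε := (min_le_right _ _).trans (min_le_right _ _)
        linarith
    have hp : 0 < L ^ n := pow_pos hL0 n
    have hpe : L ^ n ≤ ε := (pow_le_of_le_one hL0.le hL3 (by omega)).trans hL4
    obtain ⟨M, N, hN1, hM, hMN, hCN⟩ := main_numbers V hVpos C0 (L ^ n) hp hpe
    set a : E n → ℝ := fun x => A.indicator (fun _ => (1 : ℝ)) (L • x) with ha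
    set b : E n → ℝ := fun x => B.indicator (fun _ => (1 : ℝ)) (L • x) with hb
    have hJA : JF (A.indicator fun _ => (1 : ℝ)) := by
      have := main_JF_ind A hA hfA 1
      simpa using this
    have hJB : JF (B.indicator fun _ => (1 : ℝ)) := by
      have := main_JF_ind B hB hfB 1
      simpa using this
    have hJa : JF a := hJA.scale hL0
    have hJb : JF b := hJB.scale hL0
    have hJχ : JF ((Q n).indicator fun _ => (M : ℝ)) :=
      main_JF_ind (Q n) (main_isBounded_Q n) volume_frontier_Q M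
    -- bounds of the periodizations
    have hbd : ∀ (W : ℝ) (f : E n → ℝ), (∀ x, |L ^ n * per f x - V| ≤ ε) → ∀ x,
        (M : ℝ) ≤ per f x ∧ per f x ≤ (M : ℝ) + N := by
      intro _ f hf x
      have h1 := abs_le.1 (hf x)
      constructor
      · refine hM.trans ?_
        rw [div_le_iff₀ hp]
        linarith [h1.1, mul_comm (L ^ n) (per f x)]
      · refine le_trans ?_ hMN
        rw [le_div_iff₀ hp]
        linarith [h1.2, mul_comm (L ^ n) (per f x)]
    have hpa := hbd 0 a (fun x => hrA L hL0 hL1 x)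
    have hpb := hbd 0 b (fun x => by
      have := hrB L hL0 hL2 x
      rw [hVB] at this
      exact this)
    -- the two functions
    have hle : ∀ f : E n → ℝ, (∀ x, (M : ℝ) ≤ per f x ∧ per f x ≤ (M : ℝ) + N) →
        (∀ x, (Q n).indicator (fun _ => (M : ℝ)) x ≤ fold f x) ∧
        (∀ x, x ∉ Q n → fold f x - (Q n).indicator (fun _ => (M : ℝ)) x = 0) ∧
        (∀ x, fold f x - (Q n).indicator (fun _ => (M : ℝ)) x ≤ N) := by
      intro f hf
      refine ⟨fun x => ?_, fun x hx => ?_, fun x => ?_⟩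
      · by_cases hx : x ∈ Q n
        · unfold fold
          rw [Set.indicator_of_mem hx, Set.indicator_of_mem hx]
          exact (hf x).1
        · rw [fold_notMem f hx, Set.indicator_of_notMem hx]
      · rw [fold_notMem f hx, Set.indicator_of_notMem hx, sub_zero]
      · by_cases hx : x ∈ Q n
        · unfold fold
          rw [Set.indicator_of_mem hx, Set.indicator_of_mem hx]
          linarith [(hf x).2]
        · rw [fold_notMem f hx, Set.indicator_of_notMem hx, sub_zero]
          exact Nat.cast_nonneg _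
    obtain ⟨ha1, ha2, ha3⟩ := hle a hpa
    obtain ⟨hb1, hb2, hb3⟩ := hle b hpb
    have hJFA := JF_fold hJa
    have hJFB := JF_fold hJb
    have hJF : JF (fun x => fold a x - (Q n).indicator (fun _ => (M : ℝ)) x) :=
      hJFA.sub hJχ ha1
    have hJG : JF (fun x => fold b x - (Q n).indicator (fun _ => (M : ℝ)) x) :=
      hJFB.sub hJχ hb1
    have hinta : ∫ x, a x = ∫ x, b x := by
      have h1 := Measure.integral_comp_smul (volume : Measure (E n))
        (A.indicator fun _ => (1 : ℝ)) L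
      have h2 := Measure.integral_comp_smul (volume : Measure (E n))
        (B.indicator fun _ => (1 : ℝ)) L
      rw [ha, hb]
      rw [main_integral_ind A hfA] at h1
      rw [main_integral_ind B hfB, ← hV] at h2
      exact h1.trans h2.symm
    have hint : ∫ x, (fold a x - (Q n).indicator (fun _ => (M : ℝ)) x) =
        ∫ x, (fold b x - (Q n).indicator (fun _ => (M : ℝ)) x) := by
      rw [integral_sub (main_integrable hJFA) (main_integrable hJχ),
        integral_sub (main_integrable hJFB) (main_integrable hJχ), main_integral_fold hJa,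
        main_integral_fold hJb, hinta]
    obtain ⟨H, hJH, hH0, hHb, hT⟩ := habs N _ _ hN1 hJF hJG ha2 hb2 ha3 hb3 hint
    have hHχ : ∀ x, H x ≤ (Q n).indicator (fun _ => (M : ℝ)) x := by
      intro x
      by_cases hx : x ∈ Q n
      · rw [Set.indicator_of_mem hx]
        exact (hHb x).trans hCN
      · rw [Set.indicator_of_notMem hx, hH0 x hx]
    have hT2 := hT.add (Teq.refl (hJχ.sub hJH hHχ))
    have hT3 : Teq (fold a) (fold b) := by
      have e1 : (fun x => fold a x - (Q n).indicator (fun _ => (M : ℝ)) x + H x +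
          ((Q n).indicator (fun _ => (M : ℝ)) x - H x)) = fold a := by
        funext x
        ring
      have e2 : (fun x => fold b x - (Q n).indicator (fun _ => (M : ℝ)) x + H x +
          ((Q n).indicator (fun _ => (M : ℝ)) x - H x)) = fold b := by
        funext x
        ring
      rw [← e1, ← e2]
      exact hT2
    have hT4 : Teq a b := ((Teq_fold hJa).trans hT3).trans (Teq_fold hJb).symm
    have hT5 := hT4.scale (_root_.inv_pos.2 hL0)
    have e1 : (fun x => a (L⁻¹ • x)) = A.indicator fun _ => (1 : ℝ) := by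
      funext x
      rw [ha]
      simp only [smul_smul, mul_inv_cancel₀ hL0.ne', one_smul]
    have e2 : (fun x => b (L⁻¹ • x)) = B.indicator fun _ => (1 : ℝ) := by
      funext x
      rw [hb]
      simp only [smul_smul, mul_inv_cancel₀ hL0.ne', one_smul]
    rw [e1, e2] at hT5
    exact hT5

end Pool.MP_2fe79c_gt.Geo
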