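import Pool.Agent.Lib.MP_2fe79c_gt.Geo.Toast

/-!
MP_2fe79c_gt, geometric bodies. Module Pot: potentials on the rectangles.

Write x₁ = x i₁, x₂ = x i₂, e₁ = ev i₁, e₂ = ev i₂. The rectangle set of level j is
KK N i₁ i₂ j = {x | x₁ ∉ N j ∧ x₂ ∉ N j}. ps α N j t = number of steps from t back to the last point not in N j,
i.e. the least m with t - (m+1) α ∈ N j (exists by hit applied to t - α). The potential is
pot j x = - sum_{i < p} c₂ (x - i α e₁ - q α e₂) + sum_{i < q} c₁ (x - i α e₂), p = ps j x₁, q = ps j x₂.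
PROOFS.
ps_succ: if t - α ∉ N j then ps j t = ps j (t - α) + 1. (The least m for t is ≥ 1, and shifts.)
pot_vert: if x₂ - α ∉ N j (and x₂ arbitrary) then pot j x - pot j (x - α e₂) = c₁ x exactly: p is the same,
  q x = q (x - α e₂) + 1, telescoping after the index shift (Finset.sum_range_succ').
pot_horz: if x₁ - α ∉ N j then pot j x - pot j (x - α e₁) + c₂ x is an integer, provided for all integers a (only
  0 ≤ a < q needed), y = x - a α e₂ satisfies: (c₁ y - c₁ (y - α e₁)) + (c₂ y - c₂ (y - α e₂)) ∈ ℤ. Indeed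
  pot j x - pot j (x - α e₁) = - c₂ (x - q α e₂) + sum_{i<q} [c₁ (x - i α e₂) - c₁ (x - i α e₂ - α e₁)]
  and each bracket is ≡ - c₂ (x - i α e₂) + c₂ (x - (i+1) α e₂); the sum telescopes to -c₂ x + c₂ (x - q α e₂).
pot_Per: c₁, c₂ periodic and ToastP.per. pot_AC: at x with x₁, x₂ ∉ B (invariance: then t - mα ∉ B for all m ≥ 0) the
  numbers p, q are locally constant (ps depends on finitely many memberships t - (m+1)α ∈ N j, m ≤ ps), so pot j is
  near x a fixed finite sum of translates of c₁, c₂, continuous at x for a.e. x (AC.comp_sub). The set of x with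
  x i ∈ B is null (countable union of hyperplanes).
-/

set_option autoImplicit false
open MeasureTheory Filter Topology

namespace Pool.MP_2fe79c_gt.Geo

/-- the rectangles of level j -/
def KK {n : ℕ} (N : ℕ → Set ℝ) (i₁ i₂ : Fin n) (j : ℕ) : Set (E n) :=
  {x | x i₁ ∉ N j ∧ x i₂ ∉ N j}

/-- number of steps back inside the complement of N j -/
noncomputable def ps (α : ℝ) (N : ℕ → Set ℝ) (j : ℕ) (t : ℝ) : ℕ :=
  sInf {m : ℕ | t - (m + 1) * α ∈ N j}

/-- potential on the rectangles of level j -/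
noncomputable def pot {n : ℕ} (α : ℝ) (N : ℕ → Set ℝ) (i₁ i₂ : Fin n) (c₁ c₂ : E n → ℝ) (j : ℕ)
    (x : E n) : ℝ :=
  - (∑ i ∈ Finset.range (ps α N j (x i₁)),
      c₂ (x - ((i : ℝ) * α) • ev i₁ - ((ps α N j (x i₂) : ℝ) * α) • ev i₂)) +
    ∑ i ∈ Finset.range (ps α N j (x i₂)), c₁ (x - ((i : ℝ) * α) • ev i₂)

theorem ps_succ {α : ℝ} {N : ℕ → Set ℝ} (hN : ToastP α N) {j : ℕ} {t : ℝ} (h : t - α ∉ N j) :
    ps α N j t = ps α N j (t - α) + 1 := by
  unfold ps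
  have h1 : 1 ≤ sInf {m : ℕ | t - ((m : ℝ) + 1) * α ∈ N j} := by
    obtain ⟨m, hm⟩ := hN.hit j (t - α)
    have hne : {m : ℕ | t - ((m : ℝ) + 1) * α ∈ N j}.Nonempty := by
      refine ⟨m, ?_⟩
      change t - ((m : ℝ) + 1) * α ∈ N j
      have : t - ((m : ℝ) + 1) * α = t - α - m * α := by ring
      rw [this]
      exact hm
    have h2 := Nat.sInf_mem hne
    rcases Nat.eq_zero_or_pos (sInf {m : ℕ | t - ((m : ℝ) + 1) * α ∈ N j}) with h0 | h0
    · rw [h0] at h2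
      exfalso
      apply h
      have : t - (((0 : ℕ) : ℝ) + 1) * α = t - α := by push_cast; ring
      rw [← this]
      exact h2
    · exact h0
  have h2 := Nat.sInf_add (n := 1) (p := fun m : ℕ => t - ((m : ℝ) + 1) * α ∈ N j) h1
  rw [← h2]
  congr 2
  ext m
  simp only [Set.mem_ofPred_eq]
  have : t - (((m + 1 : ℕ) : ℝ) + 1) * α = t - α - ((m : ℝ) + 1) * α := by push_cast; ring
  rw [this]

private theorem ev_apply_self {n : ℕ} (i : Fin n) : (ev i : E n) i = 1 := by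
  simp [ev]

private theorem ev_apply_ne {n : ℕ} {i k : Fin n} (h : k ≠ i) : (ev i : E n) k = 0 := by
  simp [ev, h]

private theorem sub_ev_self {n : ℕ} (x : E n) (a : ℝ) (i : Fin n) :
    (x - a • ev i) i = x i - a := by
  simp [ev_apply_self]

private theorem sub_ev_ne {n : ℕ} (x : E n) (a : ℝ) {i k : Fin n} (h : k ≠ i) :
    (x - a • ev i) k = x k := by
  simp [ev_apply_ne h]

theorem pot_vert {n : ℕ} {α : ℝ} {N : ℕ → Set ℝ} (hN : ToastP α N) {i₁ i₂ : Fin n} (h12 : i₁ ≠ i₂)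
    (c₁ c₂ : E n → ℝ) (j : ℕ) (x : E n) (h : x i₂ - α ∉ N j) :
    pot α N i₁ i₂ c₁ c₂ j x - pot α N i₁ i₂ c₁ c₂ j (x - α • ev i₂) = c₁ x := by
  unfold pot
  rw [sub_ev_self, sub_ev_ne x α h12, ps_succ hN h]
  rw [Finset.sum_range_succ']
  have e1 : ∀ i : ℕ, x - ((i : ℝ) * α) • ev i₁ - (((ps α N j (x i₂ - α) + 1 : ℕ) : ℝ) * α) • ev i₂ =
      x - α • ev i₂ - ((i : ℝ) * α) • ev i₁ - ((ps α N j (x i₂ - α) : ℝ) * α) • ev i₂ := by
    intro i
    push_cast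
    module
  have e2 : ∀ i : ℕ, x - (((i + 1 : ℕ) : ℝ) * α) • ev i₂ =
      x - α • ev i₂ - ((i : ℝ) * α) • ev i₂ := by
    intro i
    push_cast
    module
  have e3 : x - (((0 : ℕ) : ℝ) * α) • (ev i₂ : E n) = x := by simp
  simp only [e1, e2, e3]
  ring

theorem pot_horz {n : ℕ} {α : ℝ} {N : ℕ → Set ℝ} (hN : ToastP α N) {i₁ i₂ : Fin n} (h12 : i₁ ≠ i₂)
    (c₁ c₂ : E n → ℝ) (j : ℕ) (x : E n) (h : x i₁ - α ∉ N j)
    (hc : ∀ a : ℕ, ∃ z : ℤ, (c₁ (x - ((a : ℝ) * α) • ev i₂) -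
      c₁ (x - ((a : ℝ) * α) • ev i₂ - α • ev i₁)) + (c₂ (x - ((a : ℝ) * α) • ev i₂) -
      c₂ (x - ((a : ℝ) * α) • ev i₂ - α • ev i₂)) = z) :
    ∃ z : ℤ, pot α N i₁ i₂ c₁ c₂ j x - pot α N i₁ i₂ c₁ c₂ j (x - α • ev i₁) + c₂ x = z := by
  choose z hz using hc
  refine ⟨∑ a ∈ Finset.range (ps α N j (x i₂)), z a, ?_⟩
  have hsum : ∀ q : ℕ, ∑ a ∈ Finset.range q, (c₁ (x - ((a : ℝ) * α) • ev i₂) -
      c₁ (x - α • ev i₁ - ((a : ℝ) * α) • ev i₂)) + (c₂ x - c₂ (x - ((q : ℝ) * α) • ev i₂)) =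
      ((∑ a ∈ Finset.range q, z a : ℤ) : ℝ) := by
    intro q
    induction q with
    | zero => simp
    | succ q ih =>
      rw [Finset.sum_range_succ, Finset.sum_range_succ]
      push_cast
      push_cast at ih
      rw [← ih, ← hz q]
      have e1 : x - ((q : ℝ) * α) • ev i₂ - α • ev i₁ = x - α • ev i₁ - ((q : ℝ) * α) • ev i₂ := by
        module
      have e2 : x - (((q : ℝ) + 1) * α) • ev i₂ = x - ((q : ℝ) * α) • ev i₂ - α • ev i₂ := by
        module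
      rw [e1, e2]
      ring
  rw [← hsum]
  unfold pot
  rw [sub_ev_self, sub_ev_ne x α h12.symm, ps_succ hN h]
  rw [Finset.sum_range_succ', Finset.sum_sub_distrib]
  have e1 : ∀ i : ℕ, x - (((i + 1 : ℕ) : ℝ) * α) • ev i₁ - ((ps α N j (x i₂) : ℝ) * α) • ev i₂ =
      x - α • ev i₁ - ((i : ℝ) * α) • ev i₁ - ((ps α N j (x i₂) : ℝ) * α) • ev i₂ := by
    intro i
    push_cast
    module
  have e3 : x - (((0 : ℕ) : ℝ) * α) • (ev i₁ : E n) = x := by simp
  simp only [e1, e3]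
  ring

private theorem ps_add_int {α : ℝ} {N : ℕ → Set ℝ} (hN : ToastP α N) (j : ℕ) (t : ℝ) (m : ℤ) :
    ps α N j (t + m) = ps α N j t := by
  unfold ps
  congr 1
  ext k
  simp only [Set.mem_ofPred_eq]
  have : t + m - ((k : ℝ) + 1) * α = t - ((k : ℝ) + 1) * α + m := by ring
  rw [this, hN.per]

theorem pot_Per {n : ℕ} {α : ℝ} {N : ℕ → Set ℝ} (hN : ToastP α N) {i₁ i₂ : Fin n}
    {c₁ c₂ : E n → ℝ} (h₁ : Per c₁) (h₂ : Per c₂) (j : ℕ) : Per (pot α N i₁ i₂ c₁ c₂ j) := by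
  intro x m
  unfold pot
  have e1 : (x + zv m) i₁ = x i₁ + m i₁ := by simp
  have e2 : (x + zv m) i₂ = x i₂ + m i₂ := by simp
  rw [e1, e2, ps_add_int hN, ps_add_int hN]
  have e3 : ∀ v w : E n, x + zv m - v - w = x - v - w + zv m := by intro v w; abel
  have e4 : ∀ v : E n, x + zv m - v = x - v + zv m := by intro v; abel
  have e5 : ∀ v w : E n, c₂ (x + zv m - v - w) = c₂ (x - v - w) := by
    intro v w
    rw [e3, h₂]
  have e6 : ∀ v : E n, c₁ (x + zv m - v) = c₁ (x - v) := by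
    intro v
    rw [e4, h₁]
  simp only [e5, e6]

private theorem notMem_sub_mul {α : ℝ} {B : Set ℝ} (hB : ∀ t, t - α ∈ B → t ∈ B) {t : ℝ}
    (ht : t ∉ B) (m : ℕ) : t - m * α ∉ B := by
  induction m with
  | zero => simpa using ht
  | succ m ih =>
    intro h
    apply ih
    apply hB
    have : t - (m : ℝ) * α - α = t - ((m + 1 : ℕ) : ℝ) * α := by push_cast; ring
    rw [this]
    exact h

private theorem ps_locally {α : ℝ} {N : ℕ → Set ℝ} (hN : ToastP α N) {B : Set ℝ}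
    (hB : ∀ t, t - α ∈ B → t ∈ B)
    (hloc : ∀ t, t ∉ B → ∀ j, ∀ᶠ s in 𝓝 t, (s ∈ N j ↔ t ∈ N j)) (j : ℕ) {t : ℝ} (ht : t ∉ B) :
    ∀ᶠ s in 𝓝 t, ps α N j s = ps α N j t := by
  have h1 : ∀ m : ℕ, ∀ᶠ s in 𝓝 t, (s - ((m : ℝ) + 1) * α ∈ N j ↔ t - ((m : ℝ) + 1) * α ∈ N j) := by
    intro m
    have h2 : t - ((m : ℝ) + 1) * α ∉ B := by
      have := notMem_sub_mul hB ht (m + 1)
      push_cast at this
      exact this
    have h3 : Tendsto (fun s : ℝ => s - ((m : ℝ) + 1) * α) (𝓝 t) (𝓝 (t - ((m : ℝ) + 1) * α)) :=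
      (continuous_id.sub continuous_const).tendsto t
    exact h3.eventually (hloc _ h2 j)
  have h2 : ∀ᶠ s in 𝓝 t, ∀ m ∈ Finset.range (ps α N j t + 1),
      (s - ((m : ℝ) + 1) * α ∈ N j ↔ t - ((m : ℝ) + 1) * α ∈ N j) := by
    rw [Finset.eventually_all]
    exact fun m _ => h1 m
  have hne : {m : ℕ | t - ((m : ℝ) + 1) * α ∈ N j}.Nonempty := by
    obtain ⟨m, hm⟩ := hN.hit j (t - α)
    refine ⟨m, ?_⟩
    change t - ((m : ℝ) + 1) * α ∈ N j
    have : t - ((m : ℝ) + 1) * α = t - α - m * α := by ring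
    rw [this]
    exact hm
  have hmem : t - ((ps α N j t : ℝ) + 1) * α ∈ N j := Nat.sInf_mem hne
  filter_upwards [h2] with s hs
  apply le_antisymm
  · apply Nat.sInf_le
    change s - ((ps α N j t : ℝ) + 1) * α ∈ N j
    rw [hs _ (Finset.self_mem_range_succ _)]
    exact hmem
  · by_contra hlt
    rw [not_le] at hlt
    have hne' : {m : ℕ | s - ((m : ℝ) + 1) * α ∈ N j}.Nonempty := by
      refine ⟨ps α N j t, ?_⟩
      change s - ((ps α N j t : ℝ) + 1) * α ∈ N j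
      rw [hs _ (Finset.self_mem_range_succ _)]
      exact hmem
    have hmem' : s - ((ps α N j s : ℝ) + 1) * α ∈ N j := Nat.sInf_mem hne'
    rw [hs _ (Finset.mem_range.mpr (by omega))] at hmem'
    exact Nat.notMem_of_lt_sInf hlt hmem'

/-- a.e. point has both coordinates outside of a given countable set -/
theorem ae_coord_notMem {n : ℕ} {B : Set ℝ} (hB : B.Countable) :
    ∀ᵐ x ∂(volume : Measure (E n)), ∀ i, x i ∉ B := by
  rw [ae_all_iff]
  intro i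
  have h1 : ∀ᵐ y ∂(volume : Measure (Fin n → ℝ)), y i ∉ B := by
    have h2 : ∀ b ∈ B, ∀ᵐ y ∂(volume : Measure (Fin n → ℝ)), y i ≠ b := by
      intro b _
      exact Measure.ae_eval_ne (μ := fun _ : Fin n => (volume : Measure ℝ)) i b
    have h3 := (ae_ball_iff hB).mpr h2
    filter_upwards [h3] with y hy hyB
    exact hy _ hyB rfl
  exact (PiLp.volume_preserving_ofLp (Fin n)).quasiMeasurePreserving.ae h1

theorem pot_AC {n : ℕ} {α : ℝ} {N : ℕ → Set ℝ} (hN : ToastP α N) {i₁ i₂ : Fin n}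
    {c₁ c₂ : E n → ℝ} (h₁ : AC c₁) (h₂ : AC c₂) (j : ℕ) : AC (pot α N i₁ i₂ c₁ c₂ j) := by
  obtain ⟨B, hBc, hB, hloc⟩ := hN.loc
  have hF : ∀ pq : ℕ × ℕ, AC (fun x : E n => - (∑ i ∈ Finset.range pq.1,
      c₂ (x - ((i : ℝ) * α) • ev i₁ - ((pq.2 : ℝ) * α) • ev i₂)) +
    ∑ i ∈ Finset.range pq.2, c₁ (x - ((i : ℝ) * α) • ev i₂)) := by
    intro pq
    refine AC.add (AC.neg (AC.sum _ fun i _ => ?_)) (AC.sum _ fun i _ => h₁.comp_sub _)
    have h3 := h₂.comp_sub (((i : ℝ) * α) • (ev i₁ : E n) + ((pq.2 : ℝ) * α) • ev i₂)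
    simp only [← sub_sub] at h3
    exact h3
  have hF' := ae_all_iff.mpr hF
  filter_upwards [hF', ae_coord_notMem hBc] with x hx hxB
  have hp : ∀ i : Fin n, ∀ᶠ y in 𝓝 x, ps α N j (y i) = ps α N j (x i) := by
    intro i
    have h3 : Tendsto (fun y : E n => y i) (𝓝 x) (𝓝 (x i)) :=
      (by fun_prop : Continuous fun y : E n => y i).tendsto x
    exact h3.eventually (ps_locally hN hB hloc j (hxB i))
  refine (hx (ps α N j (x i₁), ps α N j (x i₂))).congr ?_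
  filter_upwards [hp i₁, hp i₂] with y e1 e2
  unfold pot
  rw [e1, e2]

end Pool.MP_2fe79c_gt.Geo
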