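import Pool.Agent.Lib.MP_2fe79c_gt.Geo.Teq

/-!
MP_2fe79c_gt, geometric bodies. Module Regular: from the type relation to geometric bodies.

PROOF. Let indicator_A = sum P_i, indicator_B = sum P_i ∘ g_i⁻¹ a.e., P_i admissible. Let U_i = interior {x | P_i x = 1},
X_i = interior (closure U_i).
(1) At a point of continuity of P_i (natural number valued, so locally constant) either x ∈ U_i or x ∈ interior of {P_i ≠ 1}; hence
   frontier U_i is null, also volume {P_i = 1} \ U_i = 0; X_i is regular open: interior (closure X_i) = X_i, bounded (P_i has bounded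
   support and 1 ≠ 0), frontier X_i ⊆ frontier U_i (closure X_i = closure U_i, X_i ⊇ U_i), X_i \ U_i ⊆ frontier U_i null.
(2) KEY: if U, V are regular open with null frontier and U = V a.e. then U = V: U \ closure V is open and null, so empty
   (open nonempty sets have positive measure), U ⊆ closure V, so U ⊆ interior (closure V) = V; symmetric. Similarly open sets
   with null intersection are disjoint.
(3) a.e. x: sum P_i x ∈ {0,1}, so at most one P_i x is nonzero, and it is 1. So X_i ∩ X_j is null, hence empty (i ≠ j), and the union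
   of the X_i is a.e. equal to A. W = interior (closure (⋃ X_i)): regular open, a.e. equal to ⋃ X_i (closure (⋃ X_i) \ ⋃ X_i is
   in the union of the frontiers), frontier null; so W = A by (2).
(4) The isometries preserve everything: g_i '' X_i is regular open with null frontier and a.e. equal to {x | P_i (g_i⁻¹ x) = 1}
   (g_i is a measure preserving homeomorphism: isom_measurePreserving; image_interior, image_closure for homeomorphisms). The same
   argument as (3) gives the disjointness of the g_i '' X_i and interior (closure (⋃ g_i '' X_i)) = B.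
-/

set_option autoImplicit false
open MeasureTheory Filter Topology

namespace Pool.MP_2fe79c_gt.Geo

theorem open_ae_disjoint {n : ℕ} {U V : Set (E n)} (hU : IsOpen U) (hV : IsOpen V)
    (h : volume (U ∩ V) = 0) : Disjoint U V := by
  rw [Set.disjoint_iff_inter_eq_empty]
  by_contra hne
  exact ((hU.inter hV).measure_pos volume (Set.nonempty_iff_ne_empty.mpr hne)).ne' h

theorem regular_subset {n : ℕ} {U V : Set (E n)} (hU : IsOpen U)
    (hV : interior (closure V) = V) (h : volume (U \ V) = 0) : U ⊆ V := by
  have h1 : Disjoint U (closure V)ᶜ := by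
    apply open_ae_disjoint hU isClosed_closure.isOpen_compl
    refine measure_mono_null ?_ h
    intro x hx
    exact ⟨hx.1, fun hxV => hx.2 (subset_closure hxV)⟩
  rw [← hV]
  apply interior_maximal _ hU
  intro x hx
  by_contra hxV
  exact Set.disjoint_left.mp h1 hx hxV

theorem union_regular {n m : ℕ} {A : Set (E n)} (hA : interior (closure A) = A)
    (Y : Fin m → Set (E n)) (hY : ∀ i, IsOpen (Y i)) (hYf : ∀ i, volume (frontier (Y i)) = 0)
    (h : ∀ᵐ x ∂(volume : Measure (E n)), A.indicator (fun _ => (1:ℝ)) x =
      ∑ i, (Y i).indicator (fun _ => (1:ℝ)) x) :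
    Pairwise (fun i j => Disjoint (Y i) (Y j)) ∧ interior (closure (⋃ i, Y i)) = A := by
  have hAo : IsOpen A := by rw [← hA]; exact isOpen_interior
  have h01 : ∀ (S : Set (E n)) x, 0 ≤ S.indicator (fun _ => (1:ℝ)) x := fun S x =>
    Set.indicator_nonneg (fun _ _ => zero_le_one) x
  have hle1 : ∀ x, A.indicator (fun _ => (1:ℝ)) x ≤ 1 := fun x => by
    by_cases hx : x ∈ A
    · rw [Set.indicator_of_mem hx]
    · rw [Set.indicator_of_notMem hx]; exact zero_le_one
  constructor
  · intro i j hij
    apply open_ae_disjoint (hY i) (hY j)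
    rw [measure_eq_zero_iff_ae_notMem]
    filter_upwards [h] with x hx hxY
    have h1 : ∑ k ∈ ({i, j} : Finset (Fin m)), (Y k).indicator (fun _ => (1:ℝ)) x ≤
        ∑ k, (Y k).indicator (fun _ => (1:ℝ)) x :=
      Finset.sum_le_sum_of_subset_of_nonneg (Finset.subset_univ _) fun k _ _ => h01 _ x
    rw [Finset.sum_pair hij, Set.indicator_of_mem hxY.1, Set.indicator_of_mem hxY.2, ← hx] at h1
    have := hle1 x
    linarith
  · have hopen : IsOpen (⋃ i, Y i) := isOpen_iUnion hY
    have hsub : (⋃ i, Y i) ⊆ interior (closure (⋃ i, Y i)) :=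
      interior_maximal subset_closure hopen
    have hreg : interior (closure (interior (closure (⋃ i, Y i)))) =
        interior (closure (⋃ i, Y i)) := interior_closure_idem
    apply Set.Subset.antisymm
    · apply regular_subset isOpen_interior hA
      have h1 : interior (closure (⋃ i, Y i)) \ A ⊆
          (⋃ i, frontier (Y i)) ∪ ((⋃ i, Y i) \ A) := by
        intro x hx
        by_cases hxY : x ∈ ⋃ i, Y i
        · exact Or.inr ⟨hxY, hx.2⟩
        · left
          have h2 : x ∈ closure (⋃ i, Y i) := interior_subset hx.1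
          rw [closure_iUnion_of_finite, Set.mem_iUnion] at h2
          obtain ⟨i, hi⟩ := h2
          refine Set.mem_iUnion.mpr ⟨i, ?_⟩
          rw [(hY i).frontier_eq]
          exact ⟨hi, fun hh => hxY (Set.mem_iUnion.mpr ⟨i, hh⟩)⟩
      refine measure_mono_null h1 (measure_union_null ?_ ?_)
      · exact measure_iUnion_null hYf
      · rw [measure_eq_zero_iff_ae_notMem]
        filter_upwards [h] with x hx hxY
        obtain ⟨i, hi⟩ := Set.mem_iUnion.mp hxY.1
        rw [Set.indicator_of_notMem hxY.2] at hx
        have h3 : (Y i).indicator (fun _ => (1:ℝ)) x ≤ ∑ k, (Y k).indicator (fun _ => (1:ℝ)) x :=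
          Finset.single_le_sum (f := fun k => (Y k).indicator (fun _ => (1:ℝ)) x)
            (fun k _ => h01 _ x) (Finset.mem_univ i)
        rw [Set.indicator_of_mem hi, ← hx] at h3
        linarith
    · apply regular_subset hAo hreg
      rw [measure_eq_zero_iff_ae_notMem]
      filter_upwards [h] with x hx hxA
      rw [Set.indicator_of_mem hxA.1] at hx
      have h3 : ∀ k ∈ (Finset.univ : Finset (Fin m)), (Y k).indicator (fun _ => (1:ℝ)) x = 0 := by
        intro k _
        apply Set.indicator_of_notMem
        intro hk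
        exact hxA.2 (hsub (Set.mem_iUnion.mpr ⟨k, hk⟩))
      rw [Finset.sum_eq_zero h3] at hx
      exact one_ne_zero hx

theorem natV_near {a b : ℝ} (ha : ∃ k : ℕ, a = k) (hb : ∃ k : ℕ, b = k) (h : |a - b| < 1) :
    a = b := by
  obtain ⟨k, rfl⟩ := ha
  obtain ⟨l, rfl⟩ := hb
  have h1 : |(k:ℤ) - (l:ℤ)| < 1 := by exact_mod_cast h
  have h2 : (k:ℤ) - (l:ℤ) = 0 := Int.abs_lt_one_iff.mp h1
  have h3 : (k:ℤ) = (l:ℤ) := by omega
  exact_mod_cast h3

theorem level_set {n : ℕ} {p : E n → ℝ} (hp : NatV p) (hac : AC p) :
    volume ({x | p x = 1} \ interior {x | p x = 1}) = 0 ∧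
      volume (frontier (interior {x | p x = 1})) = 0 := by
  have key : ∀ x, ContinuousAt p x → ∀ᶠ y in 𝓝 x, p y = p x := by
    intro x hx
    filter_upwards [hx.eventually (Metric.ball_mem_nhds (p x) one_pos)] with y hy
    exact natV_near (hp y) (hp x) (by simpa [Real.dist_eq] using hy)
  constructor
  · rw [measure_eq_zero_iff_ae_notMem]
    filter_upwards [hac] with x hx hxS
    apply hxS.2
    rw [mem_interior_iff_mem_nhds]
    filter_upwards [key x hx] with y hy
    rw [hy]
    exact hxS.1
  · rw [measure_eq_zero_iff_ae_notMem]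
    filter_upwards [hac] with x hx hxf
    rw [isOpen_interior.frontier_eq] at hxf
    by_cases h1 : p x = 1
    · apply hxf.2
      rw [mem_interior_iff_mem_nhds]
      filter_upwards [key x hx] with y hy
      rw [hy, h1]
    · have h2 : x ∈ closure {x | p x = 1} := closure_mono interior_subset hxf.1
      rw [mem_closure_iff_nhds] at h2
      obtain ⟨y, hy1, hy2⟩ := h2 _ (key x hx)
      apply h1
      rw [← hy2]
      exact hy1.symm

/-- the regularization of an open set with null frontier -/
theorem regularize {n : ℕ} {U : Set (E n)} (hU : IsOpen U) (hf : volume (frontier U) = 0) :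
    volume (interior (closure U) \ U) = 0 ∧ volume (frontier (interior (closure U))) = 0 := by
  have h1 : U ⊆ interior (closure U) := interior_maximal subset_closure hU
  constructor
  · refine measure_mono_null ?_ hf
    intro x hx
    rw [hU.frontier_eq]
    exact ⟨interior_subset hx.1, hx.2⟩
  · refine measure_mono_null ?_ hf
    intro x hx
    rw [isOpen_interior.frontier_eq] at hx
    rw [hU.frontier_eq]
    have h2 : closure (interior (closure U)) ⊆ closure U :=
      closure_minimal interior_subset isClosed_closure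
    exact ⟨h2 hx.1, fun h => hx.2 (h1 h)⟩

theorem regular {n : ℕ} (A B : Set (E n))
    (hA : Bornology.IsBounded A ∧ interior (closure A) = A ∧ volume (frontier A) = 0)
    (hB : Bornology.IsBounded B ∧ interior (closure B) = B ∧ volume (frontier B) = 0)
    (h : Teq (A.indicator fun _ => (1 : ℝ)) (B.indicator fun _ => (1 : ℝ))) :
    ∃ k : ℕ, ∃ P : Fin k → Set (E n), ∃ g : Fin k → (E n ≃ᵢ E n),
      (∀ i, Bornology.IsBounded (P i) ∧ interior (closure (P i)) = P i ∧
          volume (frontier (P i)) = 0) ∧
      Pairwise (fun i j => Disjoint (P i) (P j)) ∧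
      interior (closure (⋃ i, P i)) = A ∧
      Pairwise (fun i j => Disjoint (g i '' P i) (g j '' P j)) ∧
      interior (closure (⋃ i, g i '' P i)) = B := by
  obtain ⟨m, p, g, hJ, hFA, hFB⟩ := h
  set S : Fin m → Set (E n) := fun i => {x | p i x = 1} with hS
  set U : Fin m → Set (E n) := fun i => interior (S i) with hU
  set X : Fin m → Set (E n) := fun i => interior (closure (U i)) with hX
  have hlev := fun i => level_set (hJ i).nat (hJ i).ac
  have hreg := fun i => regularize (U := U i) isOpen_interior (hlev i).2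
  have hUX : ∀ i, U i ⊆ X i := fun i => interior_maximal subset_closure isOpen_interior
  -- X i and S i agree almost everywhere
  have hXS : ∀ i, ∀ᵐ x ∂(volume : Measure (E n)), (x ∈ X i ↔ x ∈ S i) := by
    intro i
    have h1 := measure_eq_zero_iff_ae_notMem.mp (hlev i).1
    have h2 := measure_eq_zero_iff_ae_notMem.mp (hreg i).1
    filter_upwards [h1, h2] with x hx1 hx2
    constructor
    · intro hx
      by_contra hxS
      exact hx2 ⟨hx, fun hxU => hxS (interior_subset hxU)⟩
    · intro hx
      by_contra hxX
      exact hx1 ⟨hx, fun hxU => hxX (hUX i hxU)⟩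
  have hval : ∀ (v : Fin m → ℝ), (∀ i, ∃ k : ℕ, v i = k) → ∑ i, v i ≤ 1 →
      ∀ i, v i = if v i = 1 then 1 else 0 := by
    intro v hv hsum i
    have h0 : ∀ j, 0 ≤ v j := fun j => by
      obtain ⟨k, hk⟩ := hv j
      rw [hk]; positivity
    have h1 : v i ≤ ∑ j, v j := Finset.single_le_sum (fun j _ => h0 j) (Finset.mem_univ i)
    obtain ⟨k, hk⟩ := hv i
    have h2 : (k:ℝ) ≤ 1 := by rw [← hk]; linarith
    have h3 : k ≤ 1 := by exact_mod_cast h2
    interval_cases k
    · rw [hk]; simp
    · rw [hk]; simp
  have hind_le : ∀ (C : Set (E n)) x, C.indicator (fun _ => (1:ℝ)) x ≤ 1 := fun C x => by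
    by_cases hx : x ∈ C
    · rw [Set.indicator_of_mem hx]
    · rw [Set.indicator_of_notMem hx]; exact zero_le_one
  have hAe : ∀ᵐ x ∂(volume : Measure (E n)), A.indicator (fun _ => (1:ℝ)) x =
      ∑ i, (X i).indicator (fun _ => (1:ℝ)) x := by
    have h1 : ∀ᵐ x ∂(volume : Measure (E n)), ∀ i, (x ∈ X i ↔ x ∈ S i) := ae_all_iff.mpr hXS
    filter_upwards [hFA, h1] with x hx hx1
    rw [hx]
    refine Finset.sum_congr rfl fun i _ => ?_
    have h2 := hval (fun i => p i x) (fun i => (hJ i).nat x) (by rw [← hx]; exact hind_le _ _) i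
    rw [h2]
    by_cases hpx : p i x = 1
    · have h3 : x ∈ X i := (hx1 i).mpr hpx
      rw [if_pos hpx, Set.indicator_of_mem h3]
    · have h3 : x ∉ X i := fun hh => hpx ((hx1 i).mp hh)
      rw [if_neg hpx, Set.indicator_of_notMem h3]
  have hBe : ∀ᵐ x ∂(volume : Measure (E n)), B.indicator (fun _ => (1:ℝ)) x =
      ∑ i, (g i '' X i).indicator (fun _ => (1:ℝ)) x := by
    have h1 : ∀ᵐ x ∂(volume : Measure (E n)), ∀ i, ((g i).symm x ∈ X i ↔ (g i).symm x ∈ S i) :=
      ae_all_iff.mpr fun i =>
        (isom_measurePreserving (g i).symm).quasiMeasurePreserving.ae (hXS i)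
    filter_upwards [hFB, h1] with x hx hx1
    rw [hx]
    refine Finset.sum_congr rfl fun i _ => ?_
    have h2 := hval (fun i => p i ((g i).symm x)) (fun i => (hJ i).nat _)
      (by rw [← hx]; exact hind_le _ _) i
    rw [h2]
    have h4 : x ∈ g i '' X i ↔ (g i).symm x ∈ X i := by
      constructor
      · rintro ⟨y, hy, rfl⟩
        rwa [(g i).symm_apply_apply]
      · intro hy
        exact ⟨_, hy, (g i).apply_symm_apply x⟩
    by_cases hpx : p i ((g i).symm x) = 1
    · have h3 : x ∈ g i '' X i := h4.mpr ((hx1 i).mpr hpx)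
      rw [if_pos hpx, Set.indicator_of_mem h3]
    · have h3 : x ∉ g i '' X i := fun hh => hpx ((hx1 i).mp (h4.mp hh))
      rw [if_neg hpx, Set.indicator_of_notMem h3]
  obtain ⟨hA1, hA2⟩ := union_regular hA.2.1 X (fun i => isOpen_interior) (fun i => (hreg i).2) hAe
  have hopenB : ∀ i, IsOpen (g i '' X i) := fun i =>
    (g i).toHomeomorph.isOpenMap _ isOpen_interior
  have hfrB : ∀ i, volume (frontier (g i '' X i)) = 0 := by
    intro i
    have h1 : frontier (g i '' X i) = g i '' frontier (X i) :=
      ((g i).toHomeomorph.image_frontier (X i)).symm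
    rw [h1]
    have h2 : g i '' frontier (X i) = (g i).symm ⁻¹' frontier (X i) :=
      (g i).toEquiv.image_eq_preimage_symm _
    rw [h2]
    exact (isom_measurePreserving (g i).symm).quasiMeasurePreserving.preimage_null (hreg i).2
  obtain ⟨hB1, hB2⟩ := union_regular hB.2.1 (fun i => g i '' X i) hopenB hfrB hBe
  refine ⟨m, X, g, ?_, hA1, hA2, hB1, hB2⟩
  intro i
  refine ⟨?_, interior_closure_idem, (hreg i).2⟩
  obtain ⟨R, hR⟩ := (hJ i).sup
  have h1 : Bornology.IsBounded (S i) := by
    refine Metric.isBounded_ball.subset (t := Metric.ball (0 : E n) R) ?_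
    intro x hx
    rw [mem_ball_zero_iff]
    by_contra hh
    have h2 := hR x (not_lt.mp hh)
    have h3 : p i x = 1 := hx
    rw [h3] at h2
    exact one_ne_zero h2
  exact (h1.closure).subset (interior_subset.trans (closure_mono interior_subset))

end Pool.MP_2fe79c_gt.Geo
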