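import Pool.Agent.Lib.MP_2fe79c_gt.Geo.Base

/-!
MP_2fe79c_gt, geometric bodies: the rational rotations in coordinate planes with
cosine 3/5 and sine 4/5, and their integral matrices.
-/

set_option autoImplicit false
open MeasureTheory Filter Topology

namespace Pool.MP_2fe79c_gt.Geo

variable {n : ℕ}

/-- ordered pairs of distinct coordinates -/
abbrev Jn (n : ℕ) := {p : Fin n × Fin n // p.1 ≠ p.2}

/-- the linear map that rotates the coordinates j = p.1 and k = p.2 -/
noncomputable def rotLin (p : Fin n × Fin n) : E n →ₗ[ℝ] E n where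
  toFun x := WithLp.toLp 2 (fun i => if i = p.1 then (3 * x p.1 - 4 * x p.2) / 5
    else if i = p.2 then (4 * x p.1 + 3 * x p.2) / 5 else x i)
  map_add' x y := by
    ext i
    simp only [PiLp.add_apply]
    split_ifs <;> ring
  map_smul' c x := by
    ext i
    simp only [PiLp.smul_apply, smul_eq_mul, RingHom.id_apply]
    split_ifs <;> ring

theorem rotLin_apply (p : Fin n × Fin n) (x : E n) (i : Fin n) :
    rotLin p x i = if i = p.1 then (3 * x p.1 - 4 * x p.2) / 5
    else if i = p.2 then (4 * x p.1 + 3 * x p.2) / 5 else x i := rfl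

theorem rotLin_norm (p : Jn n) (x : E n) : ‖rotLin p.1 x‖ = ‖x‖ := by
  have hne : p.1.2 ≠ p.1.1 := p.2.symm
  rw [EuclideanSpace.norm_eq, EuclideanSpace.norm_eq]
  congr 1
  rw [← Finset.add_sum_erase _ _ (Finset.mem_univ p.1.1), ← Finset.add_sum_erase _ _ (Finset.mem_univ p.1.1)]
  have h2 : p.1.2 ∈ (Finset.univ : Finset (Fin n)).erase p.1.1 := Finset.mem_erase.mpr ⟨hne, Finset.mem_univ _⟩
  rw [← Finset.add_sum_erase _ _ h2, ← Finset.add_sum_erase _ _ h2]
  have h3 : ∀ i ∈ ((Finset.univ : Finset (Fin n)).erase p.1.1).erase p.1.2,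
      ‖rotLin p.1 x i‖ ^ 2 = ‖x i‖ ^ 2 := by
    intro i hi
    rw [Finset.mem_erase, Finset.mem_erase] at hi
    rw [rotLin_apply, if_neg hi.2.1, if_neg hi.1]
  rw [Finset.sum_congr rfl h3, rotLin_apply, rotLin_apply, if_pos rfl, if_neg hne, if_pos rfl]
  simp only [Real.norm_eq_abs, sq_abs]
  ring

/-- the rotation as a linear isometry equivalence -/
noncomputable def rot (p : Jn n) : E n ≃ₗᵢ[ℝ] E n :=
  LinearIsometry.toLinearIsometryEquiv ⟨rotLin p.1, rotLin_norm p⟩ rfl

theorem rot_apply (p : Jn n) (x : E n) (i : Fin n) :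
    rot p x i = if i = p.1.1 then (3 * x p.1.1 - 4 * x p.1.2) / 5
    else if i = p.1.2 then (4 * x p.1.1 + 3 * x p.1.2) / 5 else x i := rfl

/-- the transpose of the integral matrix 5 * rot p -/
def mT (p : Fin n × Fin n) (z : Fin n → ℤ) : Fin n → ℤ := fun i =>
  if i = p.1 then 3 * z p.1 + 4 * z p.2 else if i = p.2 then 3 * z p.2 - 4 * z p.1 else 5 * z i

/-- multiplication by 5 on integer vectors -/
def m5 (z : Fin n → ℤ) : Fin n → ℤ := fun i => 5 * z i

/-- trigonometric polynomials -/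
noncomputable def tp (a : (Fin n → ℤ) →₀ ℂ) (x : E n) : ℂ :=
  a.sum fun z c => c * Complex.exp (2 * Real.pi * Complex.I * ((∑ i, (z i : ℝ) * x i : ℝ) : ℂ))

end Pool.MP_2fe79c_gt.Geo
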