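import Pool.Agent.Lib.MP_2fe79c_gt.Geo.RoundX

/-!
MP_2fe79c_gt, geometric bodies. Module RoundB: the rounding lemma for functions of bounded support.

PROOF. Fix α irrational with 0 < α < 1 (given) and let L = 2ρ + 2 (ρ ≥ 0 may be assumed, replace ρ by max ρ 0). Let
h in RB n ρ. H x = per (fun y => h (L • y)) x is in RX n: y ↦ h (L y) vanishes for ‖y‖ ≥ 1/2 (indeed ρ / L < 1/2), so for
each x at most one m contributes (two integer vectors differ by norm ≥ 1) and Bd b H. Let Q' = {x | ∀ i, -1/2 ≤ x i < 1/2},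
a fundamental domain; h (L x) = H x for x in Q' (if m ≠ 0 and x in Q' then x + m has a coordinate of absolute
value ≥ 1/2), and h (L x) = 0 for x not in Q'. Apply roundX to H: H = k' + (1-τ₁) c₁' + (1-τ₂) c₂' a.e. where
τ_l f = f(. - α e_l). Let χ be the indicator of Q'. Multiply by χ:
 h(L x) = χ k' + sum_l (χ c_l' - χ τ_l c_l').  With d_l = τ_l c_l' (periodic), c_l := χ c_l':
 χ d_l = τ_l c_l + (χ - τ_l χ) d_l, and χ - τ_l χ = 1_{S_l} - 1_{S_l + e_l}, S_l = {x ∈ Q' | x_l < -1/2 + α}, so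
 (χ - τ_l χ) d_l = 1_{S_l} d_l - τ_{e_l}(1_{S_l} d_l). So with u_l = - 1_{S_l} d_l:
 h(L x) = χ k' + sum_l (c_l - τ_{α e_l} c_l) + sum_l (u_l - τ_{e_l} u_l)   a.e.
Rescale x ↦ x / L: k x = (χ k') (x / L), etc., translation vectors V = (L α e₁, L α e₂, L e₁, L e₂). Supports are in
L • Q' (or its translates), norm ≤ L n: take R' = L * (n + 1) or larger. a.e. continuity: Q', S_l are convex sets, so
their frontiers are null (Convex.addHaar_frontier), AC.indicator; scaling by L: AC.comp_homeo with the quasi measure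
preserving map x ↦ L⁻¹ • x (addHaar scaling).
-/

set_option autoImplicit false
open MeasureTheory Filter Topology

namespace Pool.MP_2fe79c_gt.Geo

/-- the centred cube -/
def roundb_Q (n : ℕ) : Set (E n) := {x | ∀ i, -(1 / 2 : ℝ) ≤ x i ∧ x i < 1 / 2}

/-- a slab of the centred cube -/
def roundb_S {n : ℕ} (α : ℝ) (l : Fin n) : Set (E n) :=
  {x | x ∈ roundb_Q n ∧ x l < -(1 / 2 : ℝ) + α}

theorem roundb_convex_coord {n : ℕ} (i : Fin n) (s : Set ℝ) (hs : Convex ℝ s) :
    Convex ℝ {x : E n | x i ∈ s} := by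
  intro x hx y hy a b ha hb hab
  have : (a • x + b • y) i = a • x i + b • y i := by simp
  show (a • x + b • y) i ∈ s
  rw [this]
  exact hs hx hy ha hb hab

theorem roundb_convex_Q (n : ℕ) : Convex ℝ (roundb_Q n) := by
  have : roundb_Q n = ⋂ i, {x : E n | x i ∈ Set.Ico (-(1 / 2 : ℝ)) (1 / 2)} := by
    ext x
    simp [roundb_Q]
  rw [this]
  exact convex_iInter fun i => roundb_convex_coord i _ (convex_Ico _ _)

theorem roundb_convex_S {n : ℕ} (α : ℝ) (l : Fin n) : Convex ℝ (roundb_S α l) := by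
  have : roundb_S α l = roundb_Q n ∩ {x : E n | x l ∈ Set.Iio (-(1 / 2 : ℝ) + α)} := by
    ext x
    simp [roundb_S]
  rw [this]
  exact (roundb_convex_Q n).inter (roundb_convex_coord l _ (convex_Iio _))

theorem roundb_frontier_Q (n : ℕ) : volume (frontier (roundb_Q n)) = 0 :=
  (roundb_convex_Q n).addHaar_frontier volume

theorem roundb_frontier_S {n : ℕ} (α : ℝ) (l : Fin n) :
    volume (frontier (roundb_S α l)) = 0 :=
  (roundb_convex_S α l).addHaar_frontier volume

theorem roundb_norm {n : ℕ} {x : E n} (hx : x ∈ roundb_Q n) : ‖x‖ < n + 1 := by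
  rw [EuclideanSpace.norm_eq]
  have h1 : ∑ i, ‖x i‖ ^ 2 ≤ ∑ _i : Fin n, (1 : ℝ) := by
    refine Finset.sum_le_sum fun i _ => ?_
    have := hx i
    rw [Real.norm_eq_abs, sq_abs]
    nlinarith [this.1, this.2]
  have h2 : ∑ _i : Fin n, (1 : ℝ) = n := by simp
  rw [h2] at h1
  calc √(∑ i, ‖x i‖ ^ 2) ≤ √(n : ℝ) := Real.sqrt_le_sqrt h1
    _ < n + 1 := by
        rw [Real.sqrt_lt' (by positivity)]
        have : (0 : ℝ) ≤ n := by positivity
        nlinarith

open Classical in
/-- the difference of the indicators of the cube and of its translate -/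
theorem roundb_chi {n : ℕ} {α : ℝ} (h0 : 0 < α) (h1 : α < 1) (l : Fin n) (d : E n → ℝ)
    (hd : ∀ x, d (x - ev l) = d x) (x : E n) :
    (roundb_Q n).indicator d x - (if x - α • ev l ∈ roundb_Q n then d x else 0) =
      (roundb_S α l).indicator d x - (roundb_S α l).indicator d (x - ev l) := by
  have c1 : (x - α • ev l) l = x l - α := roundx_coord1 α l x
  have c2 : ∀ j, j ≠ l → (x - α • ev l) j = x j := fun j hj => roundx_coord2 α hj x
  have c3 : (x - ev l) l = x l - 1 := by
    have := roundx_coord1 1 l x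
    rwa [one_smul] at this
  have c4 : ∀ j, j ≠ l → (x - ev l) j = x j := fun j hj => by
    have := roundx_coord2 1 hj x
    rwa [one_smul] at this
  simp only [Set.indicator_apply, hd]
  by_cases ho : ∀ j, j ≠ l → -(1 / 2 : ℝ) ≤ x j ∧ x j < 1 / 2
  · have m1 : x ∈ roundb_Q n ↔ -(1 / 2 : ℝ) ≤ x l ∧ x l < 1 / 2 := by
      constructor
      · intro h; exact h l
      · intro h j
        by_cases hj : j = l
        · subst hj; exact h
        · exact ho j hj
    have m2 : x - α • ev l ∈ roundb_Q n ↔ -(1 / 2 : ℝ) ≤ x l - α ∧ x l - α < 1 / 2 := by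
      constructor
      · intro h
        have := h l
        rwa [c1] at this
      · intro h j
        by_cases hj : j = l
        · subst hj; rw [c1]; exact h
        · rw [c2 j hj]; exact ho j hj
    have m3 : x - ev l ∈ roundb_Q n ↔ -(1 / 2 : ℝ) ≤ x l - 1 ∧ x l - 1 < 1 / 2 := by
      constructor
      · intro h
        have := h l
        rwa [c3] at this
      · intro h j
        by_cases hj : j = l
        · subst hj; rw [c3]; exact h
        · rw [c4 j hj]; exact ho j hj
    have m4 : x ∈ roundb_S α l ↔ (-(1 / 2 : ℝ) ≤ x l ∧ x l < 1 / 2) ∧ x l < -(1 / 2) + α := by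
      show (x ∈ roundb_Q n ∧ _) ↔ _
      rw [m1]
    have m5 : x - ev l ∈ roundb_S α l ↔
        (-(1 / 2 : ℝ) ≤ x l - 1 ∧ x l - 1 < 1 / 2) ∧ x l - 1 < -(1 / 2) + α := by
      show (x - ev l ∈ roundb_Q n ∧ (x - ev l) l < _) ↔ _
      rw [m3, c3]
    rw [if_congr m1 rfl rfl, if_congr m2 rfl rfl, if_congr m4 rfl rfl, if_congr m5 rfl rfl]
    rcases lt_or_ge (x l) (-(1 / 2)) with a | a
    · rw [if_neg (by rintro ⟨h, -⟩; linarith), if_neg (by rintro ⟨h, -⟩; linarith),
        if_neg (by rintro ⟨⟨h, -⟩, -⟩; linarith), if_neg (by rintro ⟨⟨h, -⟩, -⟩; linarith)]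
    · rcases lt_or_ge (x l) (-(1 / 2) + α) with a' | a'
      · rw [if_pos ⟨a, by linarith⟩, if_neg (by rintro ⟨h, -⟩; linarith),
          if_pos ⟨⟨a, by linarith⟩, a'⟩, if_neg (by rintro ⟨⟨h, -⟩, -⟩; linarith)]
      · rcases lt_or_ge (x l) (1 / 2) with a2 | a2
        · rw [if_pos ⟨a, a2⟩, if_pos ⟨by linarith, by linarith⟩,
            if_neg (by rintro ⟨-, h⟩; linarith), if_neg (by rintro ⟨⟨h, -⟩, -⟩; linarith)]
          ring
        · rcases lt_or_ge (x l - α) (1 / 2) with a3 | a3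
          · rw [if_neg (by rintro ⟨-, h⟩; linarith), if_pos ⟨by linarith, a3⟩,
              if_neg (by rintro ⟨⟨-, h⟩, -⟩; linarith),
              if_pos ⟨⟨by linarith, by linarith⟩, by linarith⟩]
          · rw [if_neg (by rintro ⟨-, h⟩; linarith), if_neg (by rintro ⟨-, h⟩; linarith),
              if_neg (by rintro ⟨⟨-, h⟩, -⟩; linarith),
              if_neg (by rintro ⟨-, h⟩; linarith)]
  · push Not at ho
    obtain ⟨j, hj, hj'⟩ := ho
    have n1 : x ∉ roundb_Q n := fun h => by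
      have := h j
      exact absurd this.2 (not_lt.2 (hj' this.1))
    have n2 : x - α • ev l ∉ roundb_Q n := fun h => by
      have := h j
      rw [c2 j hj] at this
      exact absurd this.2 (not_lt.2 (hj' this.1))
    have n3 : x - ev l ∉ roundb_Q n := fun h => by
      have := h j
      rw [c4 j hj] at this
      exact absurd this.2 (not_lt.2 (hj' this.1))
    rw [if_neg n1, if_neg n2, if_neg (fun h => n1 h.1), if_neg (fun h => n3 h.1)]

theorem roundb_scale_AC {n : ℕ} {f : E n → ℝ} (hf : AC f) {L : ℝ} (hL : L ≠ 0) :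
    AC (fun x => f (L • x)) :=
  hf.comp_homeo (fun x => L • x) (by fun_prop) (Measure.quasiMeasurePreserving_smul volume hL)

/-- the rescaled indicator of a subset of the cube times a bounded function -/
theorem roundb_mem {n : ℕ} {L : ℝ} (hL : 0 < L) {A : Set (E n)} (hA : A ⊆ roundb_Q n)
    (hfr : volume (frontier A) = 0) {f : E n → ℝ} {b : ℝ} (hb : Bd b f) (hf : AC f) :
    (fun x => A.indicator f (L⁻¹ • x)) ∈ RB n (L * (n + 1)) ∧
      Bd b (fun x => A.indicator f (L⁻¹ • x)) := by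
  have hb0 : 0 ≤ b := (abs_nonneg _).trans (hb 0)
  have hB : Bd b (fun x => A.indicator f (L⁻¹ • x)) := by
    intro x
    by_cases h : L⁻¹ • x ∈ A
    · simp only [Set.indicator_of_mem h]
      exact hb _
    · simp only [Set.indicator_of_notMem h, abs_zero]
      exact hb0
  refine ⟨mem_RB.2 ⟨⟨b, hB⟩, ?_, ?_⟩, hB⟩
  · intro x hx
    apply Set.indicator_of_notMem
    intro h
    have h1 := roundb_norm (hA h)
    rw [norm_smul, norm_inv, Real.norm_eq_abs, abs_of_pos hL, inv_mul_lt_iff₀ hL] at h1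
    linarith
  · exact roundb_scale_AC (hf.indicator hfr) (inv_ne_zero hL.ne')

theorem roundB {n : ℕ} {α : ℝ} (hα : Irrational α) (h0 : 0 < α) (h1 : α < 1)
    {i₁ i₂ : Fin n} (h12 : i₁ ≠ i₂) (ρ : ℝ) :
    ∃ (R' : ℝ) (V : Fin 4 → E n), ∀ (h : RB n ρ) (b : ℝ), Bd b h.1 →
      ∃ (k : RB n R') (c : Fin 4 → RB n R'), IntV k.1 ∧ Bd (b + 9) k.1 ∧ (∀ j, Bd 2 (c j).1) ∧
        ∀ᵐ x ∂(volume : Measure (E n)),
          h.1 x = k.1 x + ∑ j, ((c j).1 x - (c j).1 (x - V j)) := by
  classical
  set L : ℝ := 2 * max ρ 0 + 2 with hLdef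
  have hρ0 : 0 ≤ max ρ 0 := le_max_right _ _
  have hL : 0 < L := by rw [hLdef]; linarith
  refine ⟨L * (n + 1), ![(L * α) • ev i₁, (L * α) • ev i₂, L • ev i₁, L • ev i₂], ?_⟩
  intro h b hb
  have hb0 : 0 ≤ b := (abs_nonneg _).trans (hb 0)
  obtain ⟨⟨_, _⟩, hsup, hAC⟩ := mem_RB.1 h.2
  set g : E n → ℝ := fun y => h.1 (L • y) with hg
  have hgsup : Sup0 (1 / 2) g := by
    intro y hy
    apply hsup
    rw [norm_smul, Real.norm_eq_abs, abs_of_pos hL]
    have : ρ ≤ max ρ 0 := le_max_left _ _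
    rw [hLdef]
    nlinarith
  have hgAC : AC g := roundb_scale_AC hAC hL.ne'
  have hgb : Bd b g := fun y => hb _
  have hgcoord : ∀ y : E n, (∃ i, 1 / 2 ≤ |y i|) → g y = 0 := by
    rintro y ⟨i, hi⟩
    exact hgsup y (hi.trans (abs_coord_le y i))
  -- the periodization
  have hHb : Bd b (per g) := by
    intro x
    by_cases hex : ∃ m : Fin n → ℤ, g (x + zv m) ≠ 0
    · obtain ⟨m, hm⟩ := hex
      have : per g x = g (x + zv m) := by
        unfold per
        refine tsum_eq_single m fun m' hm' => ?_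
        by_contra hne
        apply hm'
        funext i
        have a1 : |(x + zv m) i| < 1 / 2 := by
          by_contra hc
          exact hm (hgcoord _ ⟨i, not_lt.1 hc⟩)
        have a2 : |(x + zv m') i| < 1 / 2 := by
          by_contra hc
          exact hne (hgcoord _ ⟨i, not_lt.1 hc⟩)
        rw [roundx_zv_coord] at a1 a2
        rw [abs_lt] at a1 a2
        have a3 : ((m' i : ℤ) : ℝ) - (m i : ℤ) < 1 := by linarith [a1.1, a2.2]
        have a4 : ((m i : ℤ) : ℝ) - (m' i : ℤ) < 1 := by linarith [a1.2, a2.1]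
        have a5 : m' i - m i < 1 := by exact_mod_cast a3
        have a6 : m i - m' i < 1 := by exact_mod_cast a4
        omega
      rw [this]
      exact hgb _
    · push Not at hex
      have : per g x = 0 := by
        unfold per
        simp [hex]
      rw [this, abs_zero]
      exact hb0
  let H : RX n := ⟨per g, mem_RX.2 ⟨⟨b, hHb⟩, Per_per g, AC.per hgsup hgAC⟩⟩
  have hgH : ∀ x, g x = (roundb_Q n).indicator (per g) x := by
    intro x
    by_cases hx : x ∈ roundb_Q n
    · rw [Set.indicator_of_mem hx]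
      unfold per
      rw [tsum_eq_single 0]
      · simp
      · intro m hm
        obtain ⟨i, hi⟩ : ∃ i, m i ≠ 0 := by
          by_contra hc
          push Not at hc
          exact hm (funext hc)
        apply hgcoord
        refine ⟨i, ?_⟩
        rw [roundx_zv_coord]
        have hxi := hx i
        rcases lt_or_gt_of_ne hi with h' | h'
        · have : ((m i : ℤ) : ℝ) ≤ -1 := by exact_mod_cast (by omega : m i ≤ -1)
          rw [le_abs]
          right
          linarith [hxi.2]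
        · have : (1 : ℝ) ≤ ((m i : ℤ) : ℝ) := by exact_mod_cast (by omega : 1 ≤ m i)
          rw [le_abs]
          left
          linarith [hxi.1]
    · rw [Set.indicator_of_notMem hx]
      apply hgcoord
      simp only [roundb_Q, Set.mem_ofPred_eq, not_forall] at hx
      obtain ⟨i, hi⟩ := hx
      refine ⟨i, ?_⟩
      by_contra hc
      push Not at hc
      rw [abs_lt] at hc
      exact hi ⟨hc.1.le, hc.2⟩
  obtain ⟨k', c₁, c₂, hkI, hkB, hc₁B, hc₂B, hae⟩ := roundX hα h12 H b hHb
  obtain ⟨⟨_, _⟩, hk'per, hk'AC⟩ := mem_RX.1 k'.2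
  obtain ⟨⟨_, _⟩, hc₁per, hc₁AC⟩ := mem_RX.1 c₁.2
  obtain ⟨⟨_, _⟩, hc₂per, hc₂AC⟩ := mem_RX.1 c₂.2
  have hevz : ∀ i : Fin n, (ev i : E n) = zv (Pi.single i 1) := by
    intro i
    ext j
    rw [zv_apply]
    by_cases hj : j = i
    · subst hj; simp [ev]
    · simp [ev, hj]
  -- the functions `u`
  set d : Fin n → (E n → ℝ) → E n → ℝ := fun l f x => f (x - α • ev l) with hd
  have hdper : ∀ (l : Fin n) (f : E n → ℝ), Per f → ∀ x, d l f (x - ev l) = d l f x := by
    intro l f hf x
    simp only [hd]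
    rw [show x - ev l - α • ev l = (x - α • ev l) - ev l by abel, hevz l, hf.sub]
  have hnB : ∀ (l : Fin n) (f : E n → ℝ), Bd 2 f → Bd 2 (fun x => - d l f x) := by
    intro l f hf x
    simp only [abs_neg]
    exact hf _
  have mk := roundb_mem hL (le_refl (roundb_Q n)) (roundb_frontier_Q n) hkB hk'AC
  have m1 := roundb_mem hL (le_refl (roundb_Q n)) (roundb_frontier_Q n) hc₁B hc₁AC
  have m2 := roundb_mem hL (le_refl (roundb_Q n)) (roundb_frontier_Q n) hc₂B hc₂AC
  have m3 := roundb_mem hL (fun x (hx : x ∈ roundb_S α i₁) => hx.1) (roundb_frontier_S α i₁)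
    (hnB i₁ _ hc₁B) (hc₁AC.comp_sub _).neg
  have m4 := roundb_mem hL (fun x (hx : x ∈ roundb_S α i₂) => hx.1) (roundb_frontier_S α i₂)
    (hnB i₂ _ hc₂B) (hc₂AC.comp_sub _).neg
  refine ⟨⟨_, mk.1⟩, ![⟨_, m1.1⟩, ⟨_, m2.1⟩, ⟨_, m3.1⟩, ⟨_, m4.1⟩], ?_, mk.2, ?_, ?_⟩
  · intro x
    by_cases hx : L⁻¹ • x ∈ roundb_Q n
    · obtain ⟨z, hz⟩ := hkI (L⁻¹ • x)
      exact ⟨z, by simp only [Set.indicator_of_mem hx]; exact hz⟩
    · exact ⟨0, by simp only [Set.indicator_of_notMem hx]; simp⟩
  · intro j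
    fin_cases j
    · exact m1.2
    · exact m2.2
    · exact m3.2
    · exact m4.2
  · have hq := Measure.quasiMeasurePreserving_smul (volume : Measure (E n))
      (inv_ne_zero hL.ne')
    have hae' := hq.ae hae
    filter_upwards [hae'] with x hx
    rw [Fin.sum_univ_four]
    simp only [Matrix.cons_val_zero, Matrix.cons_val_one, Matrix.cons_val]
    have e0 : h.1 x = g (L⁻¹ • x) := by
      simp only [hg]
      rw [smul_smul, mul_inv_cancel₀ hL.ne', one_smul]
    set y : E n := L⁻¹ • x with hy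
    have t1 : ∀ l : Fin n, L⁻¹ • (x - (L * α) • ev l) = y - α • ev l := by
      intro l
      rw [smul_sub, smul_smul, ← mul_assoc, inv_mul_cancel₀ hL.ne', one_mul]
    have t2 : ∀ l : Fin n, L⁻¹ • (x - L • ev l) = y - ev l := by
      intro l
      rw [smul_sub, smul_smul, inv_mul_cancel₀ hL.ne', one_smul]
    rw [e0, hgH]
    rw [t1 i₁, t1 i₂, t2 i₁, t2 i₂]
    have q1 := roundb_chi h0 h1 i₁ (d i₁ c₁.1) (hdper i₁ _ hc₁per) y
    have q2 := roundb_chi h0 h1 i₂ (d i₂ c₂.1) (hdper i₂ _ hc₂per) y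
    have hx' : per g y = k'.1 y + (c₁.1 y - d i₁ c₁.1 y) + (c₂.1 y - d i₂ c₂.1 y) := hx
    have r1 : ∀ (l : Fin n) (f : E n → ℝ), (roundb_Q n).indicator f (y - α • ev l) =
        if y - α • ev l ∈ roundb_Q n then d l f y else 0 := by
      intro l f
      rw [Set.indicator_apply]
    have r2 : ∀ (l : Fin n) (f : E n → ℝ) (z : E n),
        (roundb_S α l).indicator (fun x => - d l f x) z =
        - (roundb_S α l).indicator (d l f) z := by
      intro l f z
      by_cases hz : z ∈ roundb_S α l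
      · rw [Set.indicator_of_mem hz, Set.indicator_of_mem hz]
      · rw [Set.indicator_of_notMem hz, Set.indicator_of_notMem hz, neg_zero]
    rw [r1 i₁, r1 i₂, r2 i₁, r2 i₁, r2 i₂, r2 i₂]
    have q0 : (roundb_Q n).indicator (per g) y = (roundb_Q n).indicator k'.1 y +
        ((roundb_Q n).indicator c₁.1 y - (roundb_Q n).indicator (d i₁ c₁.1) y) +
        ((roundb_Q n).indicator c₂.1 y - (roundb_Q n).indicator (d i₂ c₂.1) y) := by
      by_cases hyQ : y ∈ roundb_Q n
      · simp only [Set.indicator_of_mem hyQ]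
        exact hx'
      · simp only [Set.indicator_of_notMem hyQ]
        ring
    rw [q0]
    linarith

end Pool.MP_2fe79c_gt.Geo
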