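import Pool.Agent.Lib.MP_2fe79c_gt.Geo.Forest
import Pool.Agent.Lib.MP_2fe79c_gt.Geo.Floor

/-!
MP_2fe79c_gt, geometric bodies. Module RoundX: rounding a real function to an integral one
modulo coboundaries of the two translations by α e₁ and α e₂.

PROOF. Let L = Lop α i₁ i₂ and S x = tsum over m of (L^[m] h) x (by Lop_nilp, at every good x the sum is finite, and
near x it equals the finite sum over m < N). S is a.e. continuous (all L^[m] h are, Lop_AC; countable intersection
of co-null sets; ae_goodT), periodic, and S = h + L S at every good x (L is given by a finite sum of values; the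
children of good points are good by goodT_sub; all sums are finite there).
exists_threshold for the single function S gives s in [0,1). Let c x = Int.fract (S x - s) + s, so 0 ≤ c < 2, and
K x = (⌊S x - s⌋ : ℝ) = S x - c x. Then at good x:  h = S - L S = (K + c) - L (K + c) = k0 + (c - L c), where
k0 = K - L K is integer valued everywhere. Put c₁ x = c x if lev (x₁) ≤ lev (x₂), else 0, and c₂ x = c x otherwise,
else 0 (c₁ + c₂ = c). Then L c x = c₁ (x - α e₁) + c₂ (x - α e₂) (note (x - α e₁)₁ = x₁ - α, (x - α e₁)₂ = x₂, and for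
x - α e₂ the condition is: not lev x₁ ≤ lev (x₂ - α)). So h = k0 + (c₁ - c₁(.-α e₁)) + (c₂ - c₂(.-α e₂)) a.e.
a.e. continuity of K and c: AC.floor, AC.fract; of c₁, c₂: at good x the condition is locally constant
(lev_locally). Finally |k0 x| ≤ b + 8 for a.e. x; to have the bound everywhere replace k0 by
k x = max (-M) (min M (k0 x)) with M = ⌈b⌉ + 8 (an integer ≥ b + 8; b ≥ 0 from Bd b h), which is still integer
valued, a.e. continuous, periodic and equal to k0 a.e.; it is bounded by M ≤ b + 9.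
-/

set_option autoImplicit false
open MeasureTheory Filter Topology

namespace Pool.MP_2fe79c_gt.Geo

theorem roundx_coord1 {n : ℕ} (α : ℝ) (i : Fin n) (x : E n) : (x - α • ev i) i = x i - α := by
  simp [ev]

theorem roundx_coord2 {n : ℕ} (α : ℝ) {i j : Fin n} (hij : j ≠ i) (x : E n) :
    (x - α • ev i) j = x j := by
  simp [ev, hij]

theorem roundx_zv_coord {n : ℕ} (x : E n) (m : Fin n → ℤ) (i : Fin n) :
    (x + zv m) i = x i + (m i : ℝ) := by
  simp

/-- the set of pairs of good coordinates -/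
theorem roundx_children {n : ℕ} {α : ℝ} {i₁ i₂ : Fin n} (h12 : i₁ ≠ i₂) {x : E n}
    (h1 : goodT α (x i₁)) (h2 : goodT α (x i₂)) :
    (goodT α ((x - α • ev i₁) i₁) ∧ goodT α ((x - α • ev i₁) i₂)) ∧
    (goodT α ((x - α • ev i₂) i₁) ∧ goodT α ((x - α • ev i₂) i₂)) := by
  rw [roundx_coord1, roundx_coord1, roundx_coord2 α h12, roundx_coord2 α h12.symm]
  exact ⟨⟨goodT_sub h1, h2⟩, ⟨h1, goodT_sub h2⟩⟩

theorem roundx_iter_AC {n : ℕ} {α : ℝ} {i₁ i₂ : Fin n} {h : E n → ℝ} (hh : AC h) (m : ℕ) :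
    AC ((Lop α i₁ i₂)^[m] h) := by
  induction m with
  | zero => exact hh
  | succ m ih => rw [Function.iterate_succ_apply']; exact Lop_AC ih

theorem roundx_iter_Per {n : ℕ} {α : ℝ} {i₁ i₂ : Fin n} {h : E n → ℝ} (hh : Per h) (m : ℕ) :
    Per ((Lop α i₁ i₂)^[m] h) := by
  induction m with
  | zero => exact hh
  | succ m ih => rw [Function.iterate_succ_apply']; exact Lop_Per ih

/-- finiteness of the sum at good points -/
theorem roundx_fin {n : ℕ} {α : ℝ} (hα : Irrational α) {i₁ i₂ : Fin n} (h12 : i₁ ≠ i₂) (x : E n)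
    (h1 : goodT α (x i₁)) (h2 : goodT α (x i₂)) (h : E n → ℝ) :
    Summable (fun m : ℕ => ((Lop α i₁ i₂)^[m] h) x) := by
  obtain ⟨N, hN⟩ := Lop_nilp hα h12 x h1 h2
  have hN' := hN.self_of_nhds
  refine summable_of_ne_finset_zero (s := Finset.range N) fun m hm => ?_
  exact hN' m (by simpa using hm) h

theorem roundX {n : ℕ} {α : ℝ} (hα : Irrational α) {i₁ i₂ : Fin n} (h12 : i₁ ≠ i₂) (h : RX n)
    (b : ℝ) (hb : Bd b h.1) :
    ∃ k c₁ c₂ : RX n, IntV k.1 ∧ Bd (b + 9) k.1 ∧ Bd 2 c₁.1 ∧ Bd 2 c₂.1 ∧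
      ∀ᵐ x ∂(volume : Measure (E n)), h.1 x = k.1 x + (c₁.1 x - c₁.1 (x - α • ev i₁)) +
        (c₂.1 x - c₂.1 (x - α • ev i₂)) := by
  classical
  obtain ⟨⟨_, _⟩, hper, hAC⟩ := mem_RX.1 h.2
  set L : (E n → ℝ) → E n → ℝ := Lop α i₁ i₂ with hL
  set S : E n → ℝ := fun x => ∑' m : ℕ, (L^[m] h.1) x with hS
  have hgood : ∀ᵐ x ∂(volume : Measure (E n)), ∀ i, goodT α (x i) := ae_goodT α
  -- periodicity of `S`
  have hSper : Per S := by
    intro x m
    simp only [hS]
    exact tsum_congr fun k => roundx_iter_Per hper k x m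
  -- a.e. continuity
  have hSAC : AC S := by
    have hall : ∀ᵐ x ∂(volume : Measure (E n)), ∀ m, ContinuousAt (L^[m] h.1) x :=
      ae_all_iff.mpr fun m => roundx_iter_AC hAC m
    filter_upwards [hgood, hall] with x hx hc
    obtain ⟨N, hN⟩ := Lop_nilp hα h12 x (hx i₁) (hx i₂)
    have he : S =ᶠ[𝓝 x] fun y => ∑ m ∈ Finset.range N, (L^[m] h.1) y := by
      filter_upwards [hN] with y hy
      simp only [hS]
      exact tsum_eq_sum fun m hm => hy m (by simpa using hm) h.1
    refine ContinuousAt.congr ?_ he.symm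
    exact tendsto_finsetSum _ fun m _ => hc m
  -- the functional equation
  have hSeq : ∀ x : E n, (∀ i, goodT α (x i)) → S x = h.1 x + L S x := by
    intro x hx
    have hsum := roundx_fin hα h12 x (hx i₁) (hx i₂) h.1
    obtain ⟨⟨a1, a2⟩, ⟨b1, b2⟩⟩ := roundx_children h12 (hx i₁) (hx i₂)
    have hsa := roundx_fin hα h12 _ a1 a2 h.1
    have hsb := roundx_fin hα h12 _ b1 b2 h.1
    have e1 : S x = h.1 x + ∑' m : ℕ, (L^[m + 1] h.1) x := by
      simp only [hS]
      rw [hsum.tsum_eq_zero_add]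
      rfl
    rw [e1]
    congr 1
    have e2 : ∀ m : ℕ, (L^[m + 1] h.1) x =
        (if lev (x i₁ - α) ≤ lev (x i₂) then (L^[m] h.1) (x - α • ev i₁) else 0) +
        (if lev (x i₂ - α) < lev (x i₁) then (L^[m] h.1) (x - α • ev i₂) else 0) := by
      intro m
      rw [Function.iterate_succ_apply']
      rfl
    simp only [e2]
    have s1 : Summable (fun m : ℕ =>
        if lev (x i₁ - α) ≤ lev (x i₂) then (L^[m] h.1) (x - α • ev i₁) else 0) := by
      by_cases hc : lev (x i₁ - α) ≤ lev (x i₂)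
      · simpa only [if_pos hc] using hsa
      · simpa only [if_neg hc] using summable_zero
    have s2 : Summable (fun m : ℕ =>
        if lev (x i₂ - α) < lev (x i₁) then (L^[m] h.1) (x - α • ev i₂) else 0) := by
      by_cases hc : lev (x i₂ - α) < lev (x i₁)
      · simpa only [if_pos hc] using hsb
      · simpa only [if_neg hc] using summable_zero
    rw [s1.tsum_add s2]
    simp only [hL, Lop, hS]
    congr 1
    · by_cases hc : lev (x i₁ - α) ≤ lev (x i₂)
      · simp only [if_pos hc]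
      · simp only [if_neg hc, tsum_zero]
    · by_cases hc : lev (x i₂ - α) < lev (x i₁)
      · simp only [if_pos hc]
      · simp only [if_neg hc, tsum_zero]
  obtain ⟨s, hs0, hs1, hs⟩ := exists_threshold (fun _ : Unit => S) (fun _ => hSAC)
  have hs' := hs ()
  -- the functions
  set c : E n → ℝ := fun x => Int.fract (S x - s) + s with hc
  have hc0 : ∀ x, 0 ≤ c x := fun x => by
    have := Int.fract_nonneg (S x - s)
    simp only [hc]; linarith
  have hc2 : ∀ x, c x ≤ 2 := fun x => by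
    have := Int.fract_lt_one (S x - s)
    simp only [hc]; linarith
  have hcAC : AC c := (hSAC.fract s hs').add (AC.const s)
  have hcPer : Per c := by
    intro x m
    simp only [hc]
    rw [hSper x m]
  set c₁ : E n → ℝ := fun x => if lev (x i₁) ≤ lev (x i₂) then c x else 0 with hc₁
  set c₂ : E n → ℝ := fun x => if lev (x i₁) ≤ lev (x i₂) then 0 else c x with hc₂
  have hloc : ∀ᵐ x ∂(volume : Measure (E n)), ∀ᶠ y in 𝓝 x,
      (lev (y i₁) ≤ lev (y i₂) ↔ lev (x i₁) ≤ lev (x i₂)) := by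
    filter_upwards [hgood] with x hx
    have hb : ∀ i, x i ∉ badT := fun i => by
      have := hx i 0
      simpa using this
    have hev : ∀ i, ∀ᶠ y in 𝓝 x, lev (y i) = lev (x i) := by
      intro i
      have hcont : ContinuousAt (fun y : E n => y i) x := by fun_prop
      exact hcont.eventually (lev_locally (hb i))
    filter_upwards [hev i₁, hev i₂] with y h1 h2
    rw [h1, h2]
  have hc₁AC : AC c₁ := by
    filter_upwards [hloc, hcAC] with x hx hcx
    by_cases hx' : lev (x i₁) ≤ lev (x i₂)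
    · refine hcx.congr ?_
      filter_upwards [hx] with y hy
      simp only [hc₁]
      rw [if_pos (hy.2 hx')]
    · refine (continuousAt_const (y := (0 : ℝ))).congr ?_
      filter_upwards [hx] with y hy
      simp only [hc₁]
      rw [if_neg (fun h' => hx' (hy.1 h'))]
  have hc₂AC : AC c₂ := by
    filter_upwards [hloc, hcAC] with x hx hcx
    by_cases hx' : lev (x i₁) ≤ lev (x i₂)
    · refine (continuousAt_const (y := (0 : ℝ))).congr ?_
      filter_upwards [hx] with y hy
      simp only [hc₂]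
      rw [if_pos (hy.2 hx')]
    · refine hcx.congr ?_
      filter_upwards [hx] with y hy
      simp only [hc₂]
      rw [if_neg (fun h' => hx' (hy.1 h'))]
  have hc₁Per : Per c₁ := by
    intro x m
    simp only [hc₁, roundx_zv_coord, lev_add_int]
    rw [hcPer x m]
  have hc₂Per : Per c₂ := by
    intro x m
    simp only [hc₂, roundx_zv_coord, lev_add_int]
    rw [hcPer x m]
  have hc₁Bd : Bd 2 c₁ := by
    intro x
    simp only [hc₁]
    split_ifs
    · rw [abs_of_nonneg (hc0 x)]; exact hc2 x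
    · simp
  have hc₂Bd : Bd 2 c₂ := by
    intro x
    simp only [hc₂]
    split_ifs
    · simp
    · rw [abs_of_nonneg (hc0 x)]; exact hc2 x
  have hb0 : 0 ≤ b := (abs_nonneg _).trans (hb 0)
  -- the remainder
  set k0 : E n → ℝ := fun x => h.1 x - ((c₁ x - c₁ (x - α • ev i₁)) +
    (c₂ x - c₂ (x - α • ev i₂))) with hk0
  have hk0AC : AC k0 :=
    hAC.sub ((hc₁AC.sub (hc₁AC.comp_sub _)).add (hc₂AC.sub (hc₂AC.comp_sub _)))
  have hk0Per : Per k0 := by
    have hsh : ∀ (x : E n) (m : Fin n → ℤ) (v : E n), x + zv m - v = (x - v) + zv m := by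
      intro x m v; abel
    intro x m
    simp only [hk0]
    rw [hper x m, hc₁Per x m, hc₂Per x m, hsh, hsh, hc₁Per, hc₂Per]
  have hLc : ∀ x, L c x = c₁ (x - α • ev i₁) + c₂ (x - α • ev i₂) := by
    intro x
    simp only [hL, Lop, hc₁, hc₂]
    rw [roundx_coord1, roundx_coord2 α h12.symm, roundx_coord2 α h12, roundx_coord1]
    congr 1
    by_cases h' : lev (x i₁) ≤ lev (x i₂ - α)
    · rw [if_neg (not_lt.2 h'), if_pos h']
    · rw [if_pos (not_le.1 h'), if_neg h']
  have hk0int : ∀ᵐ x ∂(volume : Measure (E n)), ∃ z : ℤ, k0 x = z := by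
    filter_upwards [hgood] with x hx
    have hS1 := hSeq x hx
    have hc12 : c₁ x + c₂ x = c x := by
      simp only [hc₁, hc₂]
      split_ifs <;> simp
    have hSc : ∀ y, S y = (⌊S y - s⌋ : ℝ) + c y := by
      intro y
      simp only [hc]
      have := Int.floor_add_fract (S y - s)
      linarith
    have hLS : L S x = L (fun y => (⌊S y - s⌋ : ℝ)) x + L c x := by
      simp only [hL, Lop]
      have t1 := hSc (x - α • ev i₁)
      have t2 := hSc (x - α • ev i₂)
      split_ifs <;> linarith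
    have hLK : ∃ z : ℤ, L (fun y => (⌊S y - s⌋ : ℝ)) x = z := by
      simp only [hL, Lop]
      split_ifs
      · exact ⟨⌊S (x - α • ev i₁) - s⌋ + ⌊S (x - α • ev i₂) - s⌋, by push_cast; ring⟩
      · exact ⟨⌊S (x - α • ev i₁) - s⌋, by simp⟩
      · exact ⟨⌊S (x - α • ev i₂) - s⌋, by simp⟩
      · exact ⟨0, by simp⟩
    obtain ⟨z, hz⟩ := hLK
    refine ⟨⌊S x - s⌋ - z, ?_⟩
    have e3 := hSc x
    have e4 := hLc x
    simp only [hk0]
    push_cast
    linarith
  have hk0Bd : ∀ᵐ x ∂(volume : Measure (E n)), |k0 x| ≤ b + 8 := by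
    refine Eventually.of_forall fun x => ?_
    have a0 := abs_le.1 (hb x)
    have a1 := abs_le.1 (hc₁Bd x)
    have a2 := abs_le.1 (hc₁Bd (x - α • ev i₁))
    have a3 := abs_le.1 (hc₂Bd x)
    have a4 := abs_le.1 (hc₂Bd (x - α • ev i₂))
    simp only [hk0]
    rw [abs_le]
    constructor <;> linarith [a0.1, a0.2, a1.1, a1.2, a2.1, a2.2, a3.1, a3.2, a4.1, a4.2]
  set M : ℤ := ⌈b⌉ + 8 with hM
  have hM1 : b + 8 ≤ (M : ℝ) := by
    have := Int.le_ceil b
    rw [hM]; push_cast; linarith
  have hM2 : (M : ℝ) ≤ b + 9 := by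
    have := Int.ceil_lt_add_one b
    rw [hM]; push_cast; linarith
  have hM0 : (0 : ℝ) ≤ M := by linarith
  set k : E n → ℝ := fun x => max (-(M : ℝ)) (min (M : ℝ) ((_root_.round (k0 x) : ℤ) : ℝ)) with hk
  have hkAC : AC k := (AC.const _).max ((AC.const _).min (hk0AC.round hk0int))
  have hkPer : Per k := by
    intro x m
    simp only [hk]
    rw [hk0Per x m]
  have hkBd : Bd (b + 9) k := by
    intro x
    have h1 : -(M : ℝ) ≤ k x := le_max_left _ _
    have h2 : k x ≤ (M : ℝ) := max_le (by linarith) (min_le_left _ _)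
    rw [abs_le]
    constructor <;> linarith
  have hkInt : IntV k := by
    intro x
    refine ⟨max (-M) (min M (_root_.round (k0 x))), ?_⟩
    simp only [hk]
    push_cast
    rfl
  refine ⟨⟨k, mem_RX.2 ⟨⟨_, hkBd⟩, hkPer, hkAC⟩⟩, ⟨c₁, mem_RX.2 ⟨⟨_, hc₁Bd⟩, hc₁Per, hc₁AC⟩⟩,
    ⟨c₂, mem_RX.2 ⟨⟨_, hc₂Bd⟩, hc₂Per, hc₂AC⟩⟩, hkInt, hkBd, hc₁Bd, hc₂Bd, ?_⟩
  filter_upwards [hk0int, hk0Bd] with x hx hbx
  obtain ⟨z, hz⟩ := hx
  have hkx : k x = k0 x := by
    simp only [hk]
    rw [hz, round_intCast]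
    rw [hz] at hbx
    have := abs_le.1 hbx
    rw [min_eq_right (by linarith [this.2]), max_eq_right (by linarith [this.1])]
  show h.1 x = k x + (c₁ x - c₁ (x - α • ev i₁)) + (c₂ x - c₂ (x - α • ev i₂))
  rw [hkx]
  simp only [hk0]
  ring

end Pool.MP_2fe79c_gt.Geo
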