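import Pool.Agent.Lib.MP_2fe79c_gt.Geo.Base

/-!
MP_2fe79c_gt, geometric bodies. Module Sandwich: an a.e. continuous bounded function is squeezed
between continuous ones.

PROOF. lo k x = ⨅ y, (f y + (k+1) * ‖x - y‖), hi k x = ⨆ y, (f y - (k+1) * ‖x - y‖).
(The family is bounded below by -b; lo k is (k+1)-Lipschitz, hence continuous; y = x gives lo k x ≤ f x;
-b ≤ lo k x as f y ≥ -b; lo k x ≤ f x ≤ b. hi k can be defined as the negative of lo k for -f.)
At a point x of continuity of f: given eps choose d with |f y - f x| ≤ eps for ‖y - x‖ ≤ d; for ‖y-x‖ > d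
f y + (k+1)‖x-y‖ ≥ -b + (k+1) d ≥ f x once (k+1) d ≥ 2b; so lo k x ≥ f x - eps for large k. Same for hi.
Periodicity: substitute y -> y + zv m in the infimum. Support: if R + 2b/(k+1) ≤ ‖x‖ then f x = 0, and for
every y: either ‖y‖ < R, so ‖x-y‖ ≥ 2b/(k+1) and f y + (k+1)‖x-y‖ ≥ -b + 2b ≥ 0, or f y = 0 and the value
is ≥ 0; so lo k x = 0 (attained at y = x). (b ≥ 0 follows from Bd b f.)
-/

set_option autoImplicit false
open MeasureTheory Filter Topology

namespace Pool.MP_2fe79c_gt.Geo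

/-- the Lipschitz minorant -/
noncomputable def lipInf {n : ℕ} (f : E n → ℝ) (K : ℝ) (x : E n) : ℝ :=
  ⨅ y, (f y + K * ‖x - y‖)

theorem lipInf_bdd {n : ℕ} {f : E n → ℝ} {b K : ℝ} (hb : Bd b f) (hK : 0 ≤ K) (x : E n) :
    BddBelow (Set.range fun y => f y + K * ‖x - y‖) := by
  refine ⟨-b, ?_⟩
  rintro _ ⟨y, rfl⟩
  have h1 := (abs_le.mp (hb y)).1
  have h2 : 0 ≤ K * ‖x - y‖ := by positivity
  simp only
  linarith

theorem lipInf_le' {n : ℕ} {f : E n → ℝ} {b K : ℝ} (hb : Bd b f) (hK : 0 ≤ K) (x y : E n) :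
    lipInf f K x ≤ f y + K * ‖x - y‖ :=
  ciInf_le (lipInf_bdd hb hK x) y

theorem lipInf_le {n : ℕ} {f : E n → ℝ} {b K : ℝ} (hb : Bd b f) (hK : 0 ≤ K) (x : E n) :
    lipInf f K x ≤ f x := by
  have := lipInf_le' hb hK x x
  simpa using this

theorem le_lipInf {n : ℕ} {f : E n → ℝ} {b K : ℝ} (hb : Bd b f) (hK : 0 ≤ K) (x : E n) :
    -b ≤ lipInf f K x := by
  refine le_ciInf fun y => ?_
  have h1 := (abs_le.mp (hb y)).1
  have h2 : 0 ≤ K * ‖x - y‖ := by positivity
  linarith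

theorem lipInf_lip {n : ℕ} {f : E n → ℝ} {b K : ℝ} (hb : Bd b f) (hK : 0 ≤ K) (x x' : E n) :
    lipInf f K x ≤ lipInf f K x' + K * ‖x - x'‖ := by
  rw [← sub_le_iff_le_add]
  refine le_ciInf fun y => ?_
  have h1 := lipInf_le' hb hK x y
  have h2 : ‖x - y‖ ≤ ‖x - x'‖ + ‖x' - y‖ := by
    have := norm_add_le (x - x') (x' - y)
    simpa using this
  have h3 : K * ‖x - y‖ ≤ K * (‖x - x'‖ + ‖x' - y‖) := mul_le_mul_of_nonneg_left h2 hK
  linarith

theorem continuous_lipInf {n : ℕ} {f : E n → ℝ} {b K : ℝ} (hb : Bd b f) (hK : 0 ≤ K) :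
    Continuous (lipInf f K) := by
  have : LipschitzWith (Real.toNNReal K) (lipInf f K) := by
    refine LipschitzWith.of_dist_le_mul fun x x' => ?_
    rw [Real.coe_toNNReal K hK, Real.dist_eq, dist_eq_norm, abs_le]
    constructor
    · have := lipInf_lip hb hK x' x
      rw [norm_sub_rev] at this
      linarith
    · have := lipInf_lip hb hK x x'
      linarith
  exact this.continuous

theorem Per_lipInf {n : ℕ} {f : E n → ℝ} (hf : Per f) (K : ℝ) : Per (lipInf f K) := by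
  intro x m
  unfold lipInf
  rw [← (Equiv.addRight (zv m : E n)).iInf_comp (g := fun y => f y + K * ‖x + zv m - y‖)]
  congr 1
  funext y
  simp only [Equiv.coe_addRight]
  rw [hf y m, add_sub_add_right_eq_sub]

theorem Sup0_lipInf {n : ℕ} {f : E n → ℝ} {b K R : ℝ} (hb : Bd b f) (hK : 0 < K)
    (hf : Sup0 R f) : Sup0 (R + 2 * b / K) (lipInf f K) := by
  have hb0 : 0 ≤ b := (abs_nonneg _).trans (hb 0)
  intro x hx
  have hq : 0 ≤ 2 * b / K := by positivity
  have hfx : f x = 0 := hf x (by linarith)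
  apply le_antisymm
  · rw [← hfx]
    exact lipInf_le hb hK.le x
  · refine le_ciInf fun y => ?_
    by_cases hy : R ≤ ‖y‖
    · rw [hf y hy]
      have h2 : 0 ≤ K * ‖x - y‖ := by positivity
      linarith
    · push Not at hy
      have h1 : 2 * b / K ≤ ‖x - y‖ := by
        have h3 : ‖x‖ ≤ ‖x - y‖ + ‖y‖ := by
          have := norm_add_le (x - y) y
          simpa using this
        linarith
      have h2 : 2 * b ≤ K * ‖x - y‖ := by
        rw [div_le_iff₀ hK] at h1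
        linarith
      have h4 := (abs_le.mp (hb y)).1
      linarith

theorem lipInf_tendsto {n : ℕ} {f : E n → ℝ} {b : ℝ} (hb : Bd b f) {x : E n}
    (hx : ContinuousAt f x) :
    Tendsto (fun k : ℕ => lipInf f ((k : ℝ) + 1) x) atTop (𝓝 (f x)) := by
  rw [Metric.tendsto_atTop]
  intro ε hε
  rw [Metric.continuousAt_iff] at hx
  obtain ⟨d, hd, hxd⟩ := hx (ε / 2) (by linarith)
  obtain ⟨N, hN⟩ := exists_nat_gt (2 * b / d)
  refine ⟨N, fun k hk => ?_⟩
  have hK : (0:ℝ) ≤ (k:ℝ) + 1 := by positivity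
  have h1 : lipInf f ((k : ℝ) + 1) x ≤ f x := lipInf_le hb hK x
  have h2 : f x - ε / 2 ≤ lipInf f ((k : ℝ) + 1) x := by
    refine le_ciInf fun y => ?_
    by_cases hy : dist y x < d
    · have h3 := hxd hy
      rw [Real.dist_eq, abs_lt] at h3
      have h4 : 0 ≤ ((k:ℝ) + 1) * ‖x - y‖ := by positivity
      linarith [h3.1]
    · push Not at hy
      rw [dist_comm, dist_eq_norm] at hy
      have h3 := (abs_le.mp (hb y)).1
      have h4 := (abs_le.mp (hb x)).2
      have h5 : 2 * b < ((k:ℝ) + 1) * d := by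
        rw [div_lt_iff₀ hd] at hN
        have : (N:ℝ) ≤ k := by exact_mod_cast hk
        nlinarith
      have h6 : ((k:ℝ) + 1) * d ≤ ((k:ℝ) + 1) * ‖x - y‖ := mul_le_mul_of_nonneg_left hy hK
      linarith
  rw [Real.dist_eq, abs_lt]
  constructor <;> linarith

theorem sandwich {n : ℕ} (f : E n → ℝ) (b : ℝ) (hb : Bd b f) (hf : AC f) :
    ∃ lo hi : ℕ → E n → ℝ,
      (∀ k, Continuous (lo k) ∧ Continuous (hi k)) ∧
      (∀ k x, -b ≤ lo k x ∧ lo k x ≤ f x ∧ f x ≤ hi k x ∧ hi k x ≤ b) ∧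
      (∀ᵐ x ∂(volume : Measure (E n)), Tendsto (fun k => hi k x - lo k x) atTop (𝓝 0)) ∧
      (Per f → ∀ k, Per (lo k) ∧ Per (hi k)) ∧
      (∀ R, Sup0 R f → ∀ k : ℕ, Sup0 (R + 2 * b / (k + 1)) (lo k) ∧
        Sup0 (R + 2 * b / (k + 1)) (hi k)) := by
  have hb' : Bd b (fun x => - f x) := fun x => by
    rw [abs_neg]; exact hb x
  have hK : ∀ k : ℕ, (0:ℝ) ≤ (k:ℝ) + 1 := fun k => by positivity
  have hK' : ∀ k : ℕ, (0:ℝ) < (k:ℝ) + 1 := fun k => by positivity
  refine ⟨fun k x => lipInf f ((k:ℝ) + 1) x, fun k x => - lipInf (fun x => - f x) ((k:ℝ) + 1) x,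
    ?_, ?_, ?_, ?_, ?_⟩
  · intro k
    exact ⟨continuous_lipInf hb (hK k), (continuous_lipInf hb' (hK k)).neg⟩
  · intro k x
    have h1 := le_lipInf hb (hK k) x
    have h2 := lipInf_le hb (hK k) x
    have h3 := le_lipInf hb' (hK k) x
    have h4 := lipInf_le hb' (hK k) x
    refine ⟨h1, h2, ?_, ?_⟩ <;> linarith
  · filter_upwards [hf] with x hx
    have h1 := lipInf_tendsto hb hx
    have h2 := lipInf_tendsto hb' (x := x) hx.neg
    have h3 := h2.neg.sub h1
    simpa using h3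
  · intro hP k
    refine ⟨Per_lipInf hP _, ?_⟩
    have hP' : Per (fun x => - f x) := fun x m => by
      simp only [hP x m]
    intro x m
    simp only
    rw [Per_lipInf hP' _ x m]
  · intro R hS k
    have hS' : Sup0 R (fun x => - f x) := fun x hx => by
      simp only [hS x hx, neg_zero]
    refine ⟨Sup0_lipInf hb (hK' k) hS, ?_⟩
    intro x hx
    simp only
    rw [Sup0_lipInf hb' (hK' k) hS' x hx, neg_zero]

end Pool.MP_2fe79c_gt.Geo
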