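import Pool.Agent.Lib.MP_2fe79c_gt.Geo.Base

/-!
MP_2fe79c_gt, geometric bodies. Module Smooth: smoothing of a positive functional by a radial kernel.

PROOF. Let K x = c0 * max 0 (r - ‖x‖) with c0 > 0 such that ∫ K = 1. K is continuous, K ≥ 0, K (-x) = K x,
K (g x) = K x for linear isometries g, Sup0 r K. For x in E put G_x y = per (fun z => K (x - z)) y
= sum over m of K (x - y - zv m): continuous, periodic, ≥ 0, bounded, so an element of RX n (and of the
Banach space of bounded continuous functions E n →ᵇ ℝ). F x := φ G_x ≥ 0.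
 x -> G_x is uniformly continuous in the sup norm: |G_x y - G_x' y| ≤ C * c0 * ‖x - x'‖ (K is c0-Lipschitz;
 a bounded number of nonzero terms: per_Bd applied to z -> K (x-z) - K (x'-z) translated suitably) and
 G_{x + zv m} = G_x. Positivity gives |φ g| ≤ b * φ (oneX n) for Bd b g (φ (b*1 ± g) ≥ 0). So F is
 continuous and periodic.
 EXTENSION. Let P = the submodule of (E n →ᵇ ℝ) of periodic functions; φ restricted to P is a linear
 functional with |φ g| ≤ φ(1) ‖g‖, extend it to a continuous linear functional Φ on E n →ᵇ ℝ by Hahn-Banach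
 (Real.exists_extension_norm_eq / exists_extension_norm_eq).
 For continuous u with Sup0 ρ u put u' y = ∫ K (x - y) u x dx: continuous, Bd b u -> Bd b u' (∫K = 1),
 Sup0 (ρ + r) u'. For a linear isometry g:
   ∫ F (g x) u x dx = ∫ Φ (G_{g x}) u x dx = Φ (∫ u x • G_{g x} dx)    (ContinuousLinearMap.integral_comp_comm;
   the integrand x -> u x • G_{g x} is continuous with compact support, hence integrable)
 and the value of the Bochner integral at y (evaluation is a continuous linear map) is
   ∫ u x * (sum_m K (g x - y - zv m)) dx = sum_m ∫ u x * K (x - g.symm (y + zv m)) dx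
   = sum_m u' (g.symm (y + zv m)) = per (fun z => u' (g.symm z)) y
 (for fixed y only finitely many m matter). So the integral is perL (compL g u'), which is periodic, and
 Φ = φ on it.
 PAIRING. For continuous G in RX n: ∫_Q F x * G x dx = Φ (∫_Q G x • G_x dx), and the value at y of the inner
 integral is ∫_Q G x sum_m K (x - y - zv m) dx = ∫ G x K (x - y) dx =: G_K y (integral_per applied to
 x -> G x * K (x - y), which is bounded a.e. continuous with bounded support; its periodization is
 G x * sum_m K (x + zv m - y)). |G_K y - G y| ≤ ∫ K (x-y) |G x - G y| dx ≤ δ by hypothesis, so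
 |∫_Q F G - φ G| = |φ (G_K - G)| ≤ δ φ(1). For G = 1 one gets G_K = 1 and ∫_Q F = φ(1) exactly.
-/

set_option autoImplicit false
open MeasureTheory Filter Topology

namespace Pool.MP_2fe79c_gt.Geo

section SmoothAux

variable {n : ℕ}

/-! ### the kernel -/

/-- the tent function -/
noncomputable def smooth_k (n : ℕ) (r : ℝ) (x : E n) : ℝ := max 0 (r - ‖x‖)

theorem smooth_k_cont (r : ℝ) : Continuous (smooth_k n r) := by
  unfold smooth_k
  fun_prop

theorem smooth_k_nonneg (r : ℝ) (x : E n) : 0 ≤ smooth_k n r x := le_max_left _ _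

theorem smooth_k_sup0 (r : ℝ) : Sup0 r (smooth_k n r) := fun x hx =>
  max_eq_left (by linarith)

theorem smooth_k_lip (r : ℝ) (x y : E n) : |smooth_k n r x - smooth_k n r y| ≤ ‖x - y‖ := by
  unfold smooth_k
  have h1 : |max 0 (r - ‖x‖) - max 0 (r - ‖y‖)| ≤ |(r - ‖x‖) - (r - ‖y‖)| := by
    have := abs_max_sub_max_le_abs (r - ‖x‖) (r - ‖y‖) 0
    rwa [max_comm _ (0 : ℝ), max_comm _ (0 : ℝ)] at this
  refine h1.trans ?_
  have h2 : (r - ‖x‖) - (r - ‖y‖) = -(‖x‖ - ‖y‖) := by ring
  rw [h2, abs_neg]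
  exact abs_norm_sub_norm_le x y

theorem smooth_k_compact (r : ℝ) : HasCompactSupport (smooth_k n r) := by
  refine HasCompactSupport.intro (isCompact_closedBall (0 : E n) r) fun x hx => ?_
  refine smooth_k_sup0 r x ?_
  simp only [Metric.mem_closedBall, dist_zero_right, not_le] at hx
  exact hx.le

theorem smooth_k_pos {r : ℝ} (hr : 0 < r) : 0 < ∫ x, smooth_k n r x := by
  refine (smooth_k_cont r).integral_pos_of_hasCompactSupport_nonneg_nonzero (smooth_k_compact r)
    (smooth_k_nonneg r) (x := 0) ?_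
  unfold smooth_k
  rw [norm_zero, sub_zero, max_eq_right hr.le]
  exact hr.ne'

/-- the normalised kernel -/
noncomputable def smooth_K (n : ℕ) (r : ℝ) (x : E n) : ℝ :=
  (∫ y, smooth_k n r y)⁻¹ * smooth_k n r x

theorem smooth_K_cont (r : ℝ) : Continuous (smooth_K n r) := by
  unfold smooth_K
  exact continuous_const.mul (smooth_k_cont r)

theorem smooth_K_nonneg {r : ℝ} (hr : 0 < r) (x : E n) : 0 ≤ smooth_K n r x :=
  mul_nonneg (inv_nonneg.mpr (smooth_k_pos hr).le) (smooth_k_nonneg r x)

theorem smooth_K_sup0 (r : ℝ) : Sup0 r (smooth_K n r) := fun x hx => by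
  unfold smooth_K
  rw [smooth_k_sup0 r x hx, mul_zero]

theorem smooth_K_integral {r : ℝ} (hr : 0 < r) : ∫ x, smooth_K n r x = 1 := by
  unfold smooth_K
  rw [integral_const_mul]
  exact inv_mul_cancel₀ (smooth_k_pos hr).ne'

theorem smooth_K_neg (r : ℝ) (x : E n) : smooth_K n r (-x) = smooth_K n r x := by
  unfold smooth_K smooth_k
  rw [norm_neg]

theorem smooth_K_lin (r : ℝ) (g : E n ≃ₗᵢ[ℝ] E n) (x : E n) :
    smooth_K n r (g x) = smooth_K n r x := by
  unfold smooth_K smooth_k
  rw [g.norm_map]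

theorem smooth_K_lip {r : ℝ} (hr : 0 < r) (x y : E n) :
    |smooth_K n r x - smooth_K n r y| ≤ (∫ y, smooth_k n r y)⁻¹ * ‖x - y‖ := by
  unfold smooth_K
  rw [← mul_sub, abs_mul, abs_of_nonneg (inv_nonneg.mpr (smooth_k_pos hr).le)]
  exact mul_le_mul_of_nonneg_left (smooth_k_lip r x y) (inv_nonneg.mpr (smooth_k_pos hr).le)

theorem smooth_K_Bd {r : ℝ} (hr : 0 < r) :
    Bd ((∫ y, smooth_k n r y)⁻¹ * r) (smooth_K n r) := by
  intro x
  rw [abs_of_nonneg (smooth_K_nonneg hr x)]
  unfold smooth_K
  refine mul_le_mul_of_nonneg_left ?_ (inv_nonneg.mpr (smooth_k_pos hr).le)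
  exact max_le hr.le (by linarith [norm_nonneg x])

/-! ### the periodized kernel -/

/-- the periodized kernel -/
noncomputable def smooth_kp (n : ℕ) (r : ℝ) : E n → ℝ := per (smooth_K n r)

theorem smooth_kp_Per (r : ℝ) : Per (smooth_kp n r) := Per_per _

theorem smooth_kp_nonneg {r : ℝ} (hr : 0 < r) (x : E n) : 0 ≤ smooth_kp n r x :=
  per_nonneg (smooth_K_nonneg hr) x

theorem smooth_kp_Bd {r : ℝ} (hr : 0 < r) :
    Bd (Cp n r * ((∫ y, smooth_k n r y)⁻¹ * r)) (smooth_kp n r) :=
  per_Bd (smooth_K_sup0 r) (smooth_K_Bd hr)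

theorem smooth_kp_lip {r : ℝ} (hr : 0 < r) : ∃ L : ℝ, 0 ≤ L ∧ ∀ x y : E n, ‖x - y‖ ≤ 1 →
    |smooth_kp n r x - smooth_kp n r y| ≤ L * ‖x - y‖ := by
  refine ⟨Cp n (r + 1) * (∫ y, smooth_k n r y)⁻¹,
    mul_nonneg (Cp_nonneg _) (inv_nonneg.mpr (smooth_k_pos hr).le), fun x y hxy => ?_⟩
  -- `kp x - kp y` is the periodization of `z ↦ K z - K (z - (x - y))` at `x`
  have hs1 : Sup0 (r + 1) (smooth_K n r) := (smooth_K_sup0 r).mono (by linarith)
  have hs2 : Sup0 (r + 1) (tr (x - y) (smooth_K n r)) :=
    ((smooth_K_sup0 r).tr (x - y)).mono (by linarith)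
  have h1 : smooth_kp n r x - smooth_kp n r y =
      per (fun z => smooth_K n r z - tr (x - y) (smooth_K n r) z) x := by
    rw [per_sub hs1 hs2, per_tr]
    unfold smooth_kp tr
    congr 2
    abel
  have hs3 : Sup0 (r + 1) (fun z => smooth_K n r z - tr (x - y) (smooth_K n r) z) := fun z hz => by
    change smooth_K n r z - tr (x - y) (smooth_K n r) z = 0
    rw [hs1 z hz, hs2 z hz, sub_zero]
  have hb : Bd ((∫ y, smooth_k n r y)⁻¹ * ‖x - y‖)
      (fun z => smooth_K n r z - tr (x - y) (smooth_K n r) z) := fun z => by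
    change |smooth_K n r z - smooth_K n r (z - (x - y))| ≤ _
    refine (smooth_K_lip hr _ _).trans (le_of_eq ?_)
    congr 2
    abel
  rw [h1, mul_assoc]
  exact per_Bd hs3 hb x

theorem smooth_kp_cont {r : ℝ} (hr : 0 < r) : Continuous (smooth_kp n r) := by
  obtain ⟨L, hL0, hL⟩ := smooth_kp_lip (n := n) hr
  rw [Metric.continuous_iff]
  intro x ε hε
  refine ⟨min 1 (ε / (L + 1)), lt_min one_pos (by positivity), fun y hy => ?_⟩
  rw [dist_eq_norm] at hy
  rw [Real.dist_eq]
  have h1 : ‖y - x‖ < 1 := hy.trans_le (min_le_left _ _)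
  have h2 : ‖y - x‖ < ε / (L + 1) := hy.trans_le (min_le_right _ _)
  have h3 := hL y x h1.le
  rw [lt_div_iff₀ (by positivity)] at h2
  have h4 : L * ‖y - x‖ ≤ ‖y - x‖ * (L + 1) := by nlinarith [norm_nonneg (y - x)]
  linarith

/-! ### the Banach space of periodic continuous functions -/

/-- the Banach space of bounded continuous functions -/
def smooth_B (n : ℕ) : Type := BoundedContinuousFunction (E n) ℝ

noncomputable instance smooth_B_grp : NormedAddCommGroup (smooth_B n) :=
  inferInstanceAs (NormedAddCommGroup (BoundedContinuousFunction (E n) ℝ))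

noncomputable instance smooth_B_spc : NormedSpace ℝ (smooth_B n) :=
  inferInstanceAs (NormedSpace ℝ (BoundedContinuousFunction (E n) ℝ))

instance smooth_B_cpl : CompleteSpace (smooth_B n) :=
  inferInstanceAs (CompleteSpace (BoundedContinuousFunction (E n) ℝ))

/-- evaluation -/
noncomputable def smooth_evB (y : E n) : smooth_B n →L[ℝ] ℝ :=
  BoundedContinuousFunction.evalCLM ℝ y

theorem smooth_evB_norm (f : smooth_B n) (y : E n) : |smooth_evB y f| ≤ ‖f‖ :=
  BoundedContinuousFunction.norm_coe_le_norm f y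

theorem smooth_evB_cont (f : smooth_B n) : Continuous fun y => smooth_evB y f :=
  BoundedContinuousFunction.continuous f

theorem smooth_evB_ext {f g : smooth_B n} (h : ∀ y, smooth_evB y f = smooth_evB y g) : f = g :=
  BoundedContinuousFunction.ext h

/-- periodic bounded continuous functions -/
noncomputable def smooth_P (n : ℕ) : Submodule ℝ (smooth_B n) where
  carrier := {f | ∀ (x : E n) (m : Fin n → ℤ), smooth_evB (x + zv m) f = smooth_evB x f}
  add_mem' := by
    intro f g hf hg x m
    rw [map_add, map_add, hf, hg]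
  zero_mem' := fun x m => by rw [map_zero, map_zero]
  smul_mem' := by
    intro c f hf x m
    rw [map_smul, map_smul, hf]

theorem smooth_P_closed : IsClosed (smooth_P n : Set (smooth_B n)) := by
  have h : (smooth_P n : Set (smooth_B n)) =
      ⋂ x : E n, ⋂ m : Fin n → ℤ, {f | smooth_evB (x + zv m) f = smooth_evB x f} := by
    ext f
    simp only [Set.mem_iInter]
    rfl
  rw [h]
  refine isClosed_iInter fun x => isClosed_iInter fun m => isClosed_eq ?_ ?_
  · exact (smooth_evB (x + zv m)).continuous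
  · exact (smooth_evB x).continuous

theorem smooth_P_complete : CompleteSpace (smooth_P n) := smooth_P_closed.completeSpace_coe

/-- evaluation -/
noncomputable def smooth_ev (y : E n) : smooth_P n →L[ℝ] ℝ :=
  (smooth_evB y).comp (smooth_P n).subtypeL

theorem smooth_ev_norm (f : smooth_P n) (y : E n) : |smooth_ev y f| ≤ ‖f‖ :=
  smooth_evB_norm f.1 y

theorem smooth_ev_ext {f g : smooth_P n} (h : ∀ y, smooth_ev y f = smooth_ev y g) : f = g :=
  Subtype.ext (smooth_evB_ext h)

/-- a periodic continuous function as an element of RX -/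
noncomputable def smooth_toRX (n : ℕ) : smooth_P n →ₗ[ℝ] RX n where
  toFun f := ⟨fun x => smooth_ev x f, ⟨⟨‖f‖, fun x => smooth_ev_norm f x⟩, f.2,
    AC.of_continuous (smooth_evB_cont f.1)⟩⟩
  map_add' _ _ := rfl
  map_smul' _ _ := rfl

theorem smooth_toRX_apply (f : smooth_P n) (x : E n) : (smooth_toRX n f).1 x = smooth_ev x f := rfl

/-- bound for a positive functional -/
theorem smooth_bound (φ : RX n →ₗ[ℝ] ℝ) (hpos : ∀ g : RX n, (∀ x, 0 ≤ g.1 x) → 0 ≤ φ g)
    (g : RX n) (b : ℝ) (hb : Bd b g.1) : |φ g| ≤ b * φ (oneX n) := by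
  have h1 : 0 ≤ φ (b • oneX n + g) := hpos _ fun x => by
    change 0 ≤ b * 1 + g.1 x
    have := (abs_le.mp (hb x)).1
    linarith
  have h2 : 0 ≤ φ (b • oneX n - g) := hpos _ fun x => by
    change 0 ≤ b * 1 - g.1 x
    have := (abs_le.mp (hb x)).2
    linarith
  rw [map_add, map_smul, smul_eq_mul] at h1
  rw [map_sub, map_smul, smul_eq_mul] at h2
  rw [abs_le]
  constructor <;> linarith

/-- the functional on the Banach space -/
noncomputable def smooth_Phi (φ : RX n →ₗ[ℝ] ℝ)
    (hpos : ∀ g : RX n, (∀ x, 0 ≤ g.1 x) → 0 ≤ φ g) : smooth_P n →L[ℝ] ℝ :=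
  LinearMap.mkContinuous (φ ∘ₗ smooth_toRX n) (φ (oneX n)) fun f => by
    rw [mul_comm]
    exact smooth_bound φ hpos _ _ fun x => smooth_ev_norm f x

theorem smooth_Phi_apply (φ : RX n →ₗ[ℝ] ℝ)
    (hpos : ∀ g : RX n, (∀ x, 0 ≤ g.1 x) → 0 ≤ φ g) (f : smooth_P n) :
    smooth_Phi φ hpos f = φ (smooth_toRX n f) := rfl

/-- the translated kernels -/
noncomputable def smooth_G {r : ℝ} (hr : 0 < r) (x : E n) : smooth_P n :=
  ⟨BoundedContinuousFunction.ofNormedAddCommGroup (fun y => smooth_kp n r (x - y))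
    ((smooth_kp_cont hr).comp (by fun_prop)) _ (fun y => smooth_kp_Bd hr (x - y)), fun y m => by
      change smooth_kp n r (x - (y + zv m)) = smooth_kp n r (x - y)
      rw [← sub_sub]
      exact (smooth_kp_Per r).sub _ _⟩

theorem smooth_G_apply {r : ℝ} (hr : 0 < r) (x y : E n) :
    smooth_ev y (smooth_G hr x) = smooth_kp n r (x - y) := rfl

theorem smooth_G_Per {r : ℝ} (hr : 0 < r) : Per (smooth_G (n := n) hr) := by
  intro x m
  refine smooth_ev_ext fun y => ?_
  rw [smooth_G_apply, smooth_G_apply]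
  rw [show x + zv m - y = (x - y) + zv m by abel]
  exact smooth_kp_Per r _ _

theorem smooth_G_cont {r : ℝ} (hr : 0 < r) : Continuous (smooth_G (n := n) hr) := by
  obtain ⟨L, hL0, hL⟩ := smooth_kp_lip (n := n) hr
  rw [Metric.continuous_iff]
  intro x ε hε
  refine ⟨min 1 (ε / (L + 1)), lt_min one_pos (by positivity), fun y hy => ?_⟩
  rw [dist_eq_norm] at hy
  have h1 : ‖y - x‖ < 1 := hy.trans_le (min_le_left _ _)
  have h2 : ‖y - x‖ < ε / (L + 1) := hy.trans_le (min_le_right _ _)
  rw [lt_div_iff₀ (by positivity)] at h2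
  have h4 : L * ‖y - x‖ ≤ ‖y - x‖ * (L + 1) := by nlinarith [norm_nonneg (y - x)]
  have h5 : dist (smooth_G hr y) (smooth_G hr x) ≤ L * ‖y - x‖ := by
    rw [Subtype.dist_eq]
    refine (BoundedContinuousFunction.dist_le (by positivity)).mpr fun z => ?_
    change |smooth_kp n r (y - z) - smooth_kp n r (x - z)| ≤ _
    have h6 : ‖(y - z) - (x - z)‖ = ‖y - x‖ := by congr 1; abel
    have h7 := hL (y - z) (x - z) (by rw [h6]; exact h1.le)
    rwa [h6] at h7
  linarith

/-- integral formula for the functional -/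
theorem smooth_pull {r : ℝ} (hr : 0 < r) (φ : RX n →ₗ[ℝ] ℝ)
    (hpos : ∀ g : RX n, (∀ x, 0 ≤ g.1 x) → 0 ≤ φ g) (μ : Measure (E n)) (w : E n → ℝ)
    (g : E n → E n) (hint : Integrable (fun x => w x • smooth_G hr (g x)) μ) :
    ∃ f : RX n, (∀ y, f.1 y = ∫ x, w x * smooth_kp n r (g x - y) ∂μ) ∧
      ∫ x, smooth_Phi φ hpos (smooth_G hr (g x)) * w x ∂μ = φ f := by
  have : CompleteSpace (smooth_P n) := smooth_P_complete
  refine ⟨smooth_toRX n (∫ x, w x • smooth_G hr (g x) ∂μ), fun y => ?_, ?_⟩
  · rw [smooth_toRX_apply, ← ContinuousLinearMap.integral_comp_comm _ hint]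
    refine integral_congr_ae (Eventually.of_forall fun x => ?_)
    simp only [map_smul, smul_eq_mul, smooth_G_apply]
  · rw [← smooth_Phi_apply φ hpos, ← ContinuousLinearMap.integral_comp_comm _ hint]
    refine integral_congr_ae (Eventually.of_forall fun x => ?_)
    simp only [map_smul, smul_eq_mul]
    ring

theorem smooth_Q_finite : volume (Q n) < ⊤ := by rw [volume_Q]; exact ENNReal.one_lt_top

/-- integral over the cube against the periodized kernel -/
theorem smooth_fold {r : ℝ} (hr : 0 < r) (w : E n → ℝ) (hw : Per w) (hwc : Continuous w)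
    (b : ℝ) (hb : Bd b w) (y : E n) :
    ∫ x in Q n, w x * smooth_kp n r (x - y) = ∫ x, w x * smooth_K n r (x - y) := by
  have hs : Sup0 (r + ‖y‖) (fun x => w x * tr y (smooth_K n r) x) :=
    ((smooth_K_sup0 r).tr y).mul_left w
  have hc : Continuous (fun x => w x * tr y (smooth_K n r) x) :=
    hwc.mul ((smooth_K_cont r).comp (by fun_prop))
  have hb' : Bd (b * ((∫ y, smooth_k n r y)⁻¹ * r)) (fun x => w x * tr y (smooth_K n r) x) :=
    fun x => by
      change |w x * smooth_K n r (x - y)| ≤ _
      rw [abs_mul]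
      exact mul_le_mul (hb x) (smooth_K_Bd hr _) (abs_nonneg _) ((abs_nonneg _).trans (hb x))
  have h1 := integral_per hs hb' (AC.of_continuous hc)
  rw [show (∫ x, w x * smooth_K n r (x - y)) = ∫ x, w x * tr y (smooth_K n r) x from rfl, ← h1]
  refine integral_congr_ae (Eventually.of_forall fun x => ?_)
  dsimp only
  rw [per_mul_Per hw, per_tr]
  rfl

theorem smooth_intOn {r : ℝ} (hr : 0 < r) (w : E n → ℝ) (hwc : Continuous w) :
    Integrable (fun x => w x • smooth_G hr x) ((volume : Measure (E n)).restrict (Q n)) := by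
  have h1 : Continuous (fun x => w x • smooth_G (n := n) hr x) := hwc.smul (smooth_G_cont hr)
  exact (h1.continuousOn.integrableOn_compact (isCompact_closedBall (0 : E n) n)).mono_set
    fun x hx => by
      rw [Metric.mem_closedBall, dist_zero_right]
      exact norm_le_of_mem_Q hx

theorem smooth_K_integral_sub {r : ℝ} (hr : 0 < r) (y : E n) :
    ∫ x, smooth_K n r (x - y) = 1 := by
  rw [integral_sub_right_eq_self (fun x => smooth_K n r x) y]
  exact smooth_K_integral hr

theorem smooth_K_int {r : ℝ} (hr : 0 < r) (y : E n) :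
    Integrable (fun x => smooth_K n r (x - y)) := by
  have : AC (fun x => smooth_K n r (x - y)) :=
    AC.of_continuous ((smooth_K_cont r).comp (by fun_prop))
  exact this.integrable (R := r + ‖y‖) (fun x => smooth_K_Bd hr _) ((smooth_K_sup0 r).tr y)

/-- convolution with the kernel -/
noncomputable def smooth_conv (r : ℝ) (u : E n → ℝ) (y : E n) : ℝ :=
  ∫ x, u x * smooth_K n r (x - y)

theorem smooth_u_int {u : E n → ℝ} {ρ : ℝ} (hu : Continuous u) (hs : Sup0 ρ u)
    {v : E n → ℝ} (hv : Continuous v) : Integrable (fun x => u x * v x) := by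
  refine (hu.mul hv).integrable_of_hasCompactSupport ?_
  refine HasCompactSupport.intro (isCompact_closedBall (0 : E n) ρ) fun x hx => ?_
  simp only [Metric.mem_closedBall, dist_zero_right, not_le] at hx
  change u x * v x = 0
  rw [hs x hx.le, zero_mul]

theorem smooth_conv_Bd {r : ℝ} (hr : 0 < r) {u : E n → ℝ} {ρ : ℝ} (hu : Continuous u)
    (hs : Sup0 ρ u) (b : ℝ) (hb : Bd b u) : Bd b (smooth_conv r u) := by
  intro y
  unfold smooth_conv
  have hc : Continuous fun x : E n => smooth_K n r (x - y) :=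
    (smooth_K_cont r).comp (by fun_prop)
  calc |∫ x, u x * smooth_K n r (x - y)| ≤ ∫ x, |u x * smooth_K n r (x - y)| :=
        abs_integral_le_integral_abs
    _ ≤ ∫ x, b * smooth_K n r (x - y) := by
        refine integral_mono (smooth_u_int hu hs hc).abs ((smooth_K_int hr y).const_mul b)
          fun x => ?_
        change |u x * smooth_K n r (x - y)| ≤ b * smooth_K n r (x - y)
        rw [abs_mul, abs_of_nonneg (smooth_K_nonneg hr _)]
        exact mul_le_mul_of_nonneg_right (hb x) (smooth_K_nonneg hr _)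
    _ = b := by rw [integral_const_mul, smooth_K_integral_sub hr, mul_one]

theorem smooth_conv_sup0 {r : ℝ} {u : E n → ℝ} {ρ : ℝ} (hs : Sup0 ρ u) :
    Sup0 (ρ + r) (smooth_conv r u) := by
  intro y hy
  unfold smooth_conv
  refine integral_eq_zero_of_ae (Eventually.of_forall fun x => ?_)
  change u x * smooth_K n r (x - y) = 0
  by_cases hx : ρ ≤ ‖x‖
  · rw [hs x hx, zero_mul]
  · rw [smooth_K_sup0 r, mul_zero]
    push Not at hx
    have h1 := norm_sub_norm_le y x
    have h2 : ‖y - x‖ = ‖x - y‖ := norm_sub_rev y x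
    linarith

theorem smooth_conv_cont {r : ℝ} (hr : 0 < r) {u : E n → ℝ} {ρ : ℝ} (hu : Continuous u)
    (hs : Sup0 ρ u) : Continuous (smooth_conv r u) := by
  refine continuous_of_dominated (bound := fun x => |u x| * ((∫ y, smooth_k n r y)⁻¹ * r))
    (fun y => ?_) (fun y => Eventually.of_forall fun x => ?_) ?_ (Eventually.of_forall fun x => ?_)
  · have hc : Continuous fun x : E n => smooth_K n r (x - y) :=
      (smooth_K_cont r).comp (by fun_prop)
    exact (hu.mul hc).aestronglyMeasurable
  · rw [Real.norm_eq_abs, abs_mul]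
    exact mul_le_mul_of_nonneg_left (smooth_K_Bd hr _) (abs_nonneg _)
  · have h1 : Integrable u := by
      have := smooth_u_int hu hs (v := fun _ => (1 : ℝ)) continuous_const
      simpa using this
    exact h1.abs.mul_const _
  · exact continuous_const.mul ((smooth_K_cont r).comp (by fun_prop))

theorem smooth_exists_Bd {u : E n → ℝ} {ρ : ℝ} (hu : Continuous u) (hs : Sup0 ρ u) :
    ∃ b, Bd b u := by
  have h1 : HasCompactSupport u := by
    refine HasCompactSupport.intro (isCompact_closedBall (0 : E n) ρ) fun x hx => ?_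
    simp only [Metric.mem_closedBall, dist_zero_right, not_le] at hx
    exact hs x hx.le
  obtain ⟨b, hb⟩ := h1.exists_bound_of_continuous hu
  exact ⟨b, fun x => hb x⟩

/-- the smoothed function as an element of RB -/
noncomputable def smooth_u' {r : ℝ} (hr : 0 < r) {u : E n → ℝ} {ρ : ℝ} (hu : Continuous u)
    (hs : Sup0 ρ u) : RB n (ρ + r) :=
  ⟨smooth_conv r u, ⟨(smooth_exists_Bd hu hs).choose,
    smooth_conv_Bd hr hu hs _ (smooth_exists_Bd hu hs).choose_spec⟩, smooth_conv_sup0 hs,
    AC.of_continuous (smooth_conv_cont hr hu hs)⟩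

theorem smooth_box_neg (K : ℕ) (f : (Fin n → ℤ) → ℝ) :
    ∑ m ∈ boxZ n K, f (-m) = ∑ m ∈ boxZ n K, f m := by
  refine Finset.sum_nbij' (fun m => -m) (fun m => -m) ?_ ?_ ?_ ?_ ?_
  · intro m hm
    rw [mem_boxZ] at hm ⊢
    intro i
    rw [Pi.neg_apply, abs_neg]
    exact hm i
  · intro m hm
    rw [mem_boxZ] at hm ⊢
    intro i
    rw [Pi.neg_apply, abs_neg]
    exact hm i
  · intro m _
    exact neg_neg m
  · intro m _
    exact neg_neg m
  · intro m _
    rfl

theorem smooth_unfold {r : ℝ} {u : E n → ℝ} {ρ : ℝ} (hu : Continuous u)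
    (hs : Sup0 ρ u) (g : E n ≃ₗᵢ[ℝ] E n) (y : E n) :
    per (fun z => smooth_conv r u (g.symm z)) y = ∫ x, u x * smooth_kp n r (g x - y) := by
  obtain ⟨K, hK⟩ := exists_nat_ge ((ρ + r) + ‖y‖)
  rw [per_eq_sum ((smooth_conv_sup0 hs).comp_lin g.symm) le_rfl hK]
  unfold smooth_conv
  rw [← integral_finsetSum]
  · refine integral_congr_ae (Eventually.of_forall fun x => ?_)
    dsimp only
    by_cases hx : ρ ≤ ‖x‖
    · simp only [hs x hx, zero_mul, Finset.sum_const_zero]
    · push Not at hx
      have h1 : ‖g x - y‖ ≤ ρ + ‖y‖ := by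
        have := norm_sub_le (g x) y
        rw [g.norm_map] at this
        linarith
      have h2 : smooth_kp n r (g x - y) = ∑ m ∈ boxZ n K, smooth_K n r (g x - y + zv m) :=
        per_eq_sum (smooth_K_sup0 r) h1 (by linarith)
      rw [h2, ← smooth_box_neg, Finset.mul_sum]
      refine Finset.sum_congr rfl fun m _ => ?_
      congr 1
      rw [← smooth_K_lin r g, map_sub, g.apply_symm_apply, zv_neg]
      congr 1
      abel
  · intro m _
    exact smooth_u_int hu hs ((smooth_K_cont r).comp (by fun_prop))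

end SmoothAux

theorem smoothing {n : ℕ} (φ : RX n →ₗ[ℝ] ℝ) (hpos : ∀ g : RX n, (∀ x, 0 ≤ g.1 x) → 0 ≤ φ g)
    (r : ℝ) (hr : 0 < r) :
    ∃ F : E n → ℝ, Continuous F ∧ Per F ∧ (∀ x, 0 ≤ F x) ∧
      (∫ x in Q n, F x = φ (oneX n)) ∧
      (∀ (u : E n → ℝ) (ρ : ℝ), Continuous u → Sup0 ρ u →
        ∃ u' : RB n (ρ + r), (∀ b, Bd b u → Bd b u'.1) ∧
          ∀ g : E n ≃ₗᵢ[ℝ] E n,
            ∫ x, F (g x) * u x = φ (perL n (ρ + r) (compL n (ρ + r) g u'))) ∧
      (∀ (G : RX n) (δ : ℝ), Continuous G.1 → (∀ x y, ‖x - y‖ ≤ r → |G.1 x - G.1 y| ≤ δ) →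
        |∫ x in Q n, F x * G.1 x - φ G| ≤ δ * φ (oneX n)) := by
  refine ⟨fun x => smooth_Phi φ hpos (smooth_G hr x),
    (smooth_Phi φ hpos).continuous.comp (smooth_G_cont hr), fun x m => ?_, fun x => ?_, ?_, ?_, ?_⟩
  · dsimp only
    rw [smooth_G_Per hr x m]
  · refine hpos _ fun y => ?_
    rw [smooth_toRX_apply, smooth_G_apply]
    exact smooth_kp_nonneg hr _
  · obtain ⟨f, hf, h⟩ := smooth_pull hr φ hpos ((volume : Measure (E n)).restrict (Q n))
      (fun _ => 1) (fun x => x) (smooth_intOn hr (fun _ => (1 : ℝ)) continuous_const)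
    have h1 : f = oneX n := by
      apply Subtype.ext
      funext y
      rw [hf y]
      rw [smooth_fold hr (fun _ => (1 : ℝ)) (fun _ _ => rfl) continuous_const 1
        (fun x => by simp) y]
      simp only [one_mul]
      exact smooth_K_integral_sub hr y
    rw [h1] at h
    simpa using h
  · intro u ρ hu hs
    refine ⟨smooth_u' hr hu hs, fun b hb => smooth_conv_Bd hr hu hs b hb, fun g => ?_⟩
    have hint : Integrable (fun x => u x • smooth_G hr (g x)) := by
      have hc : Continuous (fun x => u x • smooth_G hr (g x)) :=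
        hu.smul ((smooth_G_cont hr).comp g.continuous)
      refine hc.integrable_of_hasCompactSupport ?_
      refine HasCompactSupport.intro (isCompact_closedBall (0 : E n) ρ) fun x hx => ?_
      simp only [Metric.mem_closedBall, dist_zero_right, not_le] at hx
      rw [hs x hx.le, zero_smul]
    obtain ⟨f, hf, h⟩ := smooth_pull hr φ hpos volume u (fun x => g x) hint
    rw [h]
    congr 1
    apply Subtype.ext
    funext y
    rw [hf y]
    exact (smooth_unfold hu hs g y).symm
  · intro G δ hG hδ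
    obtain ⟨b, hb⟩ := G.2.1
    obtain ⟨f, hf, h⟩ := smooth_pull hr φ hpos ((volume : Measure (E n)).restrict (Q n))
      G.1 (fun x => x) (smooth_intOn hr G.1 hG)
    have hFG : Integrable (fun x => smooth_Phi φ hpos (smooth_G hr x) * G.1 x)
        ((volume : Measure (E n)).restrict (Q n)) := by
      have h1 : Continuous (fun x => smooth_Phi φ hpos (smooth_G hr x) * G.1 x) :=
        ((smooth_Phi φ hpos).continuous.comp (smooth_G_cont hr)).mul hG
      exact (h1.continuousOn.integrableOn_compact (isCompact_closedBall (0 : E n) n)).mono_set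
        fun x hx => by
          rw [Metric.mem_closedBall, dist_zero_right]
          exact norm_le_of_mem_Q hx
    have hQ : ∫ x in Q n, (smooth_Phi φ hpos (smooth_G hr x) * G.1 x - φ G) =
        φ f - φ G := by
      rw [integral_sub hFG (integrable_const _), h, integral_const, probReal_univ, one_smul]
    dsimp only
    rw [hQ, ← map_sub]
    refine smooth_bound φ hpos _ _ fun y => ?_
    change |f.1 y - G.1 y| ≤ δ
    rw [hf y, smooth_fold hr G.1 G.2.2.1 hG b hb y]
    have hc : Continuous fun x : E n => smooth_K n r (x - y) :=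
      (smooth_K_cont r).comp (by fun_prop)
    have hKint := smooth_K_int hr y
    have h2 : G.1 y = ∫ x, G.1 y * smooth_K n r (x - y) := by
      rw [integral_const_mul, smooth_K_integral_sub hr, mul_one]
    have hGint : Integrable (fun x => G.1 x * smooth_K n r (x - y)) := by
      refine (hG.mul hc).integrable_of_hasCompactSupport ?_
      refine HasCompactSupport.intro (isCompact_closedBall (0 : E n) (r + ‖y‖)) fun x hx => ?_
      simp only [Metric.mem_closedBall, dist_zero_right, not_le] at hx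
      change G.1 x * smooth_K n r (x - y) = 0
      have h3 : smooth_K n r (x - y) = 0 := (smooth_K_sup0 r).tr y x hx.le
      rw [h3, mul_zero]
    rw [h2, ← integral_sub hGint (hKint.const_mul _)]
    calc |∫ x, (G.1 x * smooth_K n r (x - y) - G.1 y * smooth_K n r (x - y))|
        ≤ ∫ x, |G.1 x * smooth_K n r (x - y) - G.1 y * smooth_K n r (x - y)| :=
          abs_integral_le_integral_abs
      _ ≤ ∫ x, δ * smooth_K n r (x - y) := by
          refine integral_mono (hGint.sub (hKint.const_mul _)).abs (hKint.const_mul δ) fun x => ?_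
          change |G.1 x * smooth_K n r (x - y) - G.1 y * smooth_K n r (x - y)| ≤
            δ * smooth_K n r (x - y)
          rw [← sub_mul, abs_mul, abs_of_nonneg (smooth_K_nonneg hr _)]
          by_cases hxy : ‖x - y‖ ≤ r
          · exact mul_le_mul_of_nonneg_right (hδ x y hxy) (smooth_K_nonneg hr _)
          · push Not at hxy
            rw [smooth_K_sup0 r _ hxy.le, mul_zero, mul_zero]
      _ = δ := by rw [integral_const_mul, smooth_K_integral_sub hr, mul_one]

end Pool.MP_2fe79c_gt.Geo
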