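import Pool.Agent.Lib.MP_2fe79c_gt.Geo.Base

/-!
MP_2fe79c_gt, geometric bodies. Module Teq: the type relation on natural number valued functions.

JF F: F is natural number valued, bounded, of bounded support, a.e. continuous.
Teq F G: F = sum P_i, G = sum P_i ∘ g_i⁻¹ almost everywhere, with finitely many JF functions P_i and isometries g_i.
PROOFS: Teq_mk: the same with an arbitrary finite index type (Fintype.equivFin). refl: one piece, identity.
symm: pieces P_i ∘ g_i⁻¹ and isometries g_i⁻¹ (JF is invariant under isometries: AC.comp_isom, Sup0.comp_isom); the a.e.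
identities are as given. add: index type Fin m ⊕ Fin m'. isom: one piece. congr: a.e. equality.
scale: pieces x ↦ P_i (L x), isometries x ↦ L⁻¹ g_i (L x) (an isometry, as L > 0); a.e. identities pass through
x ↦ L x (quasi measure preserving).
JF closure: add, comp with isometry, indicator of a set with null frontier, scaling, max 0 (integer valued) etc.
-/

set_option autoImplicit false
open MeasureTheory Filter Topology

namespace Pool.MP_2fe79c_gt.Geo

/-- natural number valued -/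
def NatV {α : Type*} (f : α → ℝ) : Prop := ∀ x, ∃ k : ℕ, f x = k

/-- admissible functions -/
structure JF {n : ℕ} (F : E n → ℝ) : Prop where
  nat : NatV F
  bd : ∃ b, Bd b F
  sup : ∃ R, Sup0 R F
  ac : AC F

/-- the type relation -/
def Teq {n : ℕ} (F G : E n → ℝ) : Prop :=
  ∃ (m : ℕ) (P : Fin m → E n → ℝ) (g : Fin m → (E n ≃ᵢ E n)), (∀ i, JF (P i)) ∧
    (∀ᵐ x ∂(volume : Measure (E n)), F x = ∑ i, P i x) ∧
    (∀ᵐ x ∂(volume : Measure (E n)), G x = ∑ i, P i ((g i).symm x))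

theorem JF.zero {n : ℕ} : JF (fun _ : E n => (0 : ℝ)) := by
  exact ⟨fun _ => ⟨0, by simp⟩, ⟨0, fun _ => by simp⟩, ⟨0, fun _ _ => rfl⟩, AC.const _⟩

theorem JF.add {n : ℕ} {F G : E n → ℝ} (hF : JF F) (hG : JF G) : JF (fun x => F x + G x) := by
  obtain ⟨b, hb⟩ := hF.bd
  obtain ⟨c, hc⟩ := hG.bd
  obtain ⟨R, hR⟩ := hF.sup
  obtain ⟨R', hR'⟩ := hG.sup
  refine ⟨fun x => ?_, ⟨b + c, fun x => (abs_add_le _ _).trans (add_le_add (hb x) (hc x))⟩,
    ⟨max R R', (hR.mono (le_max_left _ _)).add (hR'.mono (le_max_right _ _))⟩, hF.ac.add hG.ac⟩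
  obtain ⟨k, hk⟩ := hF.nat x
  obtain ⟨k', hk'⟩ := hG.nat x
  exact ⟨k + k', by rw [hk, hk']; push_cast; rfl⟩

theorem JF.sum {n : ℕ} {ι : Type*} (s : Finset ι) {F : ι → E n → ℝ} (hF : ∀ i ∈ s, JF (F i)) :
    JF (fun x => ∑ i ∈ s, F i x) := by
  classical
  induction s using Finset.induction_on with
  | empty => simpa using JF.zero (n := n)
  | insert a s ha ih =>
    simp only [Finset.sum_insert ha]
    exact (hF a (Finset.mem_insert_self a s)).add
      (ih fun i hi => hF i (Finset.mem_insert_of_mem hi))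

theorem JF.comp_isom {n : ℕ} {F : E n → ℝ} (hF : JF F) (g : E n ≃ᵢ E n) :
    JF (fun x => F (g x)) := by
  obtain ⟨b, hb⟩ := hF.bd
  obtain ⟨R, hR⟩ := hF.sup
  exact ⟨fun x => hF.nat _, ⟨b, fun x => hb _⟩, ⟨_, hR.comp_isom g⟩, hF.ac.comp_isom g⟩

theorem JF.indicator {n : ℕ} {F : E n → ℝ} (hF : JF F) {A : Set (E n)}
    (hA : volume (frontier A) = 0) : JF (A.indicator F) := by
  obtain ⟨b, hb⟩ := hF.bd
  obtain ⟨R, hR⟩ := hF.sup
  have hb0 : 0 ≤ b := (abs_nonneg _).trans (hb 0)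
  refine ⟨fun x => ?_, ⟨b, fun x => ?_⟩, ⟨R, fun x hx => ?_⟩, hF.ac.indicator hA⟩
  · by_cases h : x ∈ A
    · rw [Set.indicator_of_mem h]; exact hF.nat x
    · rw [Set.indicator_of_notMem h]; exact ⟨0, by simp⟩
  · by_cases h : x ∈ A
    · rw [Set.indicator_of_mem h]; exact hb x
    · rw [Set.indicator_of_notMem h]; simpa using hb0
  · by_cases h : x ∈ A
    · rw [Set.indicator_of_mem h]; exact hR x hx
    · rw [Set.indicator_of_notMem h]

/-- homotheties preserve null sets -/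
theorem teq_quasi_smul {n : ℕ} {L : ℝ} (hL : 0 < L) :
    Measure.QuasiMeasurePreserving (fun x : E n => L • x) volume volume := by
  refine ⟨by fun_prop, ?_⟩
  have h1 := Measure.map_addHaar_smul (volume : Measure (E n)) hL.ne'
  rw [h1]
  exact Measure.smul_absolutelyContinuous

theorem JF.scale {n : ℕ} {F : E n → ℝ} (hF : JF F) {L : ℝ} (hL : 0 < L) :
    JF (fun x => F (L • x)) := by
  obtain ⟨b, hb⟩ := hF.bd
  obtain ⟨R, hR⟩ := hF.sup
  refine ⟨fun x => hF.nat _, ⟨b, fun x => hb _⟩, ⟨R / L, fun x hx => hR _ ?_⟩,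
    hF.ac.comp_homeo (fun x => L • x) (by fun_prop) (teq_quasi_smul hL)⟩
  rw [norm_smul, Real.norm_eq_abs, abs_of_pos hL]
  rw [div_le_iff₀ hL] at hx
  linarith

/-- difference of admissible functions, if it is nonnegative -/
theorem JF.sub {n : ℕ} {F G : E n → ℝ} (hF : JF F) (hG : JF G) (h : ∀ x, G x ≤ F x) :
    JF (fun x => F x - G x) := by
  obtain ⟨b, hb⟩ := hF.bd
  obtain ⟨c, hc⟩ := hG.bd
  obtain ⟨R, hR⟩ := hF.sup
  obtain ⟨R', hR'⟩ := hG.sup
  refine ⟨fun x => ?_, ⟨b + c, fun x => (abs_sub _ _).trans (add_le_add (hb x) (hc x))⟩,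
    ⟨max R R', fun x hx => ?_⟩, hF.ac.sub hG.ac⟩
  · obtain ⟨k, hk⟩ := hF.nat x
    obtain ⟨k', hk'⟩ := hG.nat x
    have h1 := h x
    rw [hk, hk'] at h1
    have h2 : k' ≤ k := by exact_mod_cast h1
    exact ⟨k - k', by rw [hk, hk', Nat.cast_sub h2]⟩
  · change F x - G x = 0
    rw [hR x ((le_max_left _ _).trans hx), hR' x ((le_max_right _ _).trans hx), sub_zero]

theorem Teq_mk {n : ℕ} {ι : Type*} [Fintype ι] {F G : E n → ℝ} (P : ι → E n → ℝ)
    (g : ι → (E n ≃ᵢ E n)) (hP : ∀ i, JF (P i))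
    (hF : ∀ᵐ x ∂(volume : Measure (E n)), F x = ∑ i, P i x)
    (hG : ∀ᵐ x ∂(volume : Measure (E n)), G x = ∑ i, P i ((g i).symm x)) : Teq F G := by
  classical
  let e := Fintype.equivFin ι
  refine ⟨Fintype.card ι, fun i => P (e.symm i), fun i => g (e.symm i), fun i => hP _, ?_, ?_⟩
  · filter_upwards [hF] with x hx
    rw [hx]
    exact (Equiv.sum_comp e.symm (fun i => P i x)).symm
  · filter_upwards [hG] with x hx
    rw [hx]
    exact (Equiv.sum_comp e.symm (fun i => P i ((g i).symm x))).symm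

theorem Teq.refl {n : ℕ} {F : E n → ℝ} (hF : JF F) : Teq F F := by
  refine Teq_mk (ι := Unit) (fun _ => F) (fun _ => IsometryEquiv.refl (E n)) (fun _ => hF) ?_ ?_
  · exact Eventually.of_forall fun x => by simp
  · exact Eventually.of_forall fun x => by simp [IsometryEquiv.symm, IsometryEquiv.refl]

theorem Teq.symm {n : ℕ} {F G : E n → ℝ} (h : Teq F G) : Teq G F := by
  obtain ⟨m, P, g, hP, hF, hG⟩ := h
  refine ⟨m, fun i x => P i ((g i).symm x), fun i => (g i).symm, fun i => (hP i).comp_isom _,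
    hG, ?_⟩
  filter_upwards [hF] with x hx
  rw [hx]
  refine Finset.sum_congr rfl fun i _ => ?_
  have h1 : (g i).symm ((g i).symm.symm x) = x := (g i).symm.apply_symm_apply x
  rw [h1]

theorem Teq.add {n : ℕ} {F G F' G' : E n → ℝ} (h : Teq F G) (h' : Teq F' G') :
    Teq (fun x => F x + F' x) (fun x => G x + G' x) := by
  obtain ⟨m, P, g, hP, hF, hG⟩ := h
  obtain ⟨m', P', g', hP', hF', hG'⟩ := h'
  refine Teq_mk (ι := Fin m ⊕ Fin m') (Sum.elim P P') (Sum.elim g g') ?_ ?_ ?_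
  · rintro (i | i)
    · exact hP i
    · exact hP' i
  · filter_upwards [hF, hF'] with x h1 h2
    rw [h1, h2, Fintype.sum_sum_type]
    rfl
  · filter_upwards [hG, hG'] with x h1 h2
    rw [h1, h2, Fintype.sum_sum_type]
    rfl

theorem Teq.sum {n : ℕ} {ι : Type*} (s : Finset ι) {F G : ι → E n → ℝ}
    (h : ∀ i ∈ s, Teq (F i) (G i)) : Teq (fun x => ∑ i ∈ s, F i x) (fun x => ∑ i ∈ s, G i x) := by
  classical
  induction s using Finset.induction_on with
  | empty => simpa using Teq.refl (JF.zero (n := n))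
  | insert a s ha ih =>
    simp only [Finset.sum_insert ha]
    exact (h a (Finset.mem_insert_self a s)).add
      (ih fun i hi => h i (Finset.mem_insert_of_mem hi))

theorem Teq.isom {n : ℕ} {F : E n → ℝ} (hF : JF F) (g : E n ≃ᵢ E n) :
    Teq F (fun x => F (g.symm x)) := by
  refine Teq_mk (ι := Unit) (fun _ => F) (fun _ => g) (fun _ => hF) ?_ ?_
  · exact Eventually.of_forall fun x => by simp
  · exact Eventually.of_forall fun x => by simp

theorem Teq.congr {n : ℕ} {F G F' G' : E n → ℝ} (h : Teq F G)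
    (hF : ∀ᵐ x ∂(volume : Measure (E n)), F x = F' x)
    (hG : ∀ᵐ x ∂(volume : Measure (E n)), G x = G' x) : Teq F' G' := by
  obtain ⟨m, P, g, hP, h1, h2⟩ := h
  refine ⟨m, P, g, hP, ?_, ?_⟩
  · filter_upwards [h1, hF] with x h3 h4
    rw [← h4, h3]
  · filter_upwards [h2, hG] with x h3 h4
    rw [← h4, h3]

/-- the conjugate of an isometry by a homothety -/
noncomputable def teqConj {n : ℕ} (g : E n ≃ᵢ E n) {L : ℝ} (hL : 0 < L) : E n ≃ᵢ E n where
  toFun x := L⁻¹ • g (L • x)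
  invFun x := L⁻¹ • g.symm (L • x)
  left_inv x := by
    simp only [smul_smul, mul_inv_cancel₀ hL.ne', one_smul, IsometryEquiv.symm_apply_apply,
      inv_mul_cancel₀ hL.ne']
  right_inv x := by
    simp only [smul_smul, mul_inv_cancel₀ hL.ne', one_smul, IsometryEquiv.apply_symm_apply,
      inv_mul_cancel₀ hL.ne']
  isometry_toFun := by
    refine Isometry.of_dist_eq fun x y => ?_
    rw [dist_smul₀, g.dist_eq, dist_smul₀, ← mul_assoc, ← norm_mul, inv_mul_cancel₀ hL.ne',
      norm_one, one_mul]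

theorem Teq.scale {n : ℕ} {F G : E n → ℝ} (h : Teq F G) {L : ℝ} (hL : 0 < L) :
    Teq (fun x => F (L • x)) (fun x => G (L • x)) := by
  obtain ⟨m, P, g, hP, h1, h2⟩ := h
  refine ⟨m, fun i x => P i (L • x), fun i => teqConj (g i) hL, fun i => (hP i).scale hL,
    (teq_quasi_smul hL).ae h1, ?_⟩
  filter_upwards [(teq_quasi_smul hL).ae h2] with x hx
  rw [hx]
  refine Finset.sum_congr rfl fun i _ => ?_
  have h3 : (teqConj (g i) hL).symm x = L⁻¹ • (g i).symm (L • x) := rfl
  rw [h3, smul_smul, mul_inv_cancel₀ hL.ne', one_smul]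

end Pool.MP_2fe79c_gt.Geo
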