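import Pool.Agent.Lib.MP_2fe79c_gt.Geo.Half

/-!
MP_2fe79c_gt, geometric bodies. Module ThmF: the real cohomological equation with uniform bounds.

PROOF. By half and scaling (apply it to f / b; b = 0 trivial) there is C0 such that every f in RX n with Bd b f
and ∫_Q f = 0 is f = T h + f' with Bd (C0 b) (h i), Bd (b/2) f', where T h = sum_i (perL (h i) - perL (compL (γ i) (h i))).
∫_Q f' = 0, because ∫_Q per k = ∫ k (integral_per) and ∫ k ∘ γ.symm = ∫ k (measure preserving).
Iterate: f = T h_0 + ... + T h_k + f_{k+1}, Bd (C0 b / 2^j) (h_j i), Bd (b/2^(k+1)) f_{k+1}. Put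
h i x = tsum_j (h_j i) x: bounded by 2 C0 b, Sup0 (R+1), a.e. continuous (AC.of_uniform; partial sums converge
uniformly), per (h i) x = tsum_j per (h_j i) x (per_eq_sum: finite sums), so f = T h pointwise. C = 2 C0.
-/

set_option autoImplicit false
open MeasureTheory Filter Topology

namespace Pool.MP_2fe79c_gt.Geo

theorem thmf_per_hasSum {n : ℕ} {R : ℝ} (G : ℕ → E n → ℝ) (hs : ∀ k, Sup0 R (G k))
    (hsum : ∀ x, Summable fun k => G k x) (x : E n) :
    HasSum (fun k => per (G k) x) (per (fun y => ∑' k, G k y) x) := by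
  obtain ⟨K, hK⟩ := exists_nat_ge (R + ‖x‖)
  have h1 : Sup0 R (fun y => ∑' k, G k y) := by
    intro y hy
    have : (fun k => G k y) = fun _ => 0 := funext fun k => hs k y hy
    simp only [this, tsum_zero]
  rw [per_eq_sum h1 le_rfl hK]
  have h2 : (fun k => per (G k) x) = fun k => ∑ m ∈ boxZ n K, G k (x + zv m) :=
    funext fun k => per_eq_sum (hs k) le_rfl hK
  rw [h2]
  exact hasSum_sum fun m _ => (hsum (x + zv m)).hasSum

/-- the operator of the cohomological equation -/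
noncomputable def thmf_T {n : ℕ} {ι : Type*} [Fintype ι] (γ : ι → (E n ≃ₗᵢ[ℝ] E n)) (R : ℝ)
    (h : ι → RB n R) : RX n := ∑ i, (perL n R (h i) - perL n R (compL n R (γ i) (h i)))

theorem thmf_T_apply {n : ℕ} {ι : Type*} [Fintype ι] (γ : ι → (E n ≃ₗᵢ[ℝ] E n)) (R : ℝ)
    (h : ι → RB n R) (x : E n) : (thmf_T γ R h).1 x =
      ∑ i, (per (h i).1 x - per (fun y => (h i).1 ((γ i).symm y)) x) := by
  unfold thmf_T
  rw [Submodule.coe_sum, Finset.sum_apply]
  rfl

theorem thmf_T_integral {n : ℕ} {ι : Type*} [Fintype ι] (γ : ι → (E n ≃ₗᵢ[ℝ] E n)) (R : ℝ)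
    (h : ι → RB n R) : ∫ x in Q n, (thmf_T γ R h).1 x = 0 := by
  simp_rw [thmf_T_apply]
  have hfin : volume (Q n) < ⊤ := by rw [volume_Q]; exact ENNReal.one_lt_top
  have hi1 : ∀ i, IntegrableOn (per (h i).1) (Q n) volume := fun i =>
    (AC.per (h i).2.2.1 (h i).2.2.2).integrableOn
      (per_Bd (h i).2.2.1 (h i).2.1.choose_spec) hfin
  have hi2 : ∀ i, IntegrableOn (per (fun y => (h i).1 ((γ i).symm y))) (Q n) volume := fun i =>
    (AC.per ((h i).2.2.1.comp_lin (γ i).symm) ((h i).2.2.2.comp_lin (γ i).symm)).integrableOn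
      (per_Bd ((h i).2.2.1.comp_lin (γ i).symm) (fun x => (h i).2.1.choose_spec _)) hfin
  have e0 : ∫ x in Q n, ∑ i, (per (h i).1 x - per (fun y => (h i).1 ((γ i).symm y)) x) =
      ∑ i, ∫ x in Q n, (per (h i).1 x - per (fun y => (h i).1 ((γ i).symm y)) x) :=
    integral_finsetSum _ fun i _ => (hi1 i).sub (hi2 i)
  rw [e0]
  refine Finset.sum_eq_zero fun i _ => ?_
  rw [integral_sub (hi1 i) (hi2 i), integral_per (h i).2.2.1 (h i).2.1.choose_spec (h i).2.2.2,
    integral_per ((h i).2.2.1.comp_lin (γ i).symm) (fun x => (h i).2.1.choose_spec _)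
      ((h i).2.2.2.comp_lin (γ i).symm)]
  have : ∫ x, (h i).1 ((γ i).symm x) = ∫ x, (h i).1 x :=
    (γ i).symm.measurePreserving.integral_comp (γ i).symm.toMeasurableEquiv.measurableEmbedding _
  rw [this, sub_self]

theorem thmF {n : ℕ} {ι : Type*} [Fintype ι] (γ : ι → (E n ≃ₗᵢ[ℝ] E n)) (R c : ℝ)
    (hgap : GapP γ R c) :
    ∃ C : ℝ, 0 ≤ C ∧ ∀ (f : RX n) (b : ℝ), Bd b f.1 → ∫ x in Q n, f.1 x = 0 →
      ∃ h : ι → RB n (R + 1), (∀ i, Bd (C * b) (h i).1) ∧
        ∀ x, f.1 x = ∑ i, (per (h i).1 x - per (fun y => (h i).1 ((γ i).symm y)) x) := by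
  obtain ⟨C, hC, hhalf⟩ := half γ R c hgap
  -- scaled step
  have hstep : ∀ (f : RX n) (b : ℝ), ∃ h : ι → RB n (R + 1), (0 < b → Bd b f.1 →
      ∫ x in Q n, f.1 x = 0 → (∀ i, Bd (C * b) (h i).1) ∧ Bd (b / 2) (f - thmf_T γ (R + 1) h).1) := by
    intro f b
    by_cases hyp : 0 < b ∧ Bd b f.1 ∧ ∫ x in Q n, f.1 x = 0
    · obtain ⟨hb, hf, hint⟩ := hyp
      have h1 : Bd 1 ((b⁻¹ : ℝ) • f).1 := by
        intro x
        change |b⁻¹ * f.1 x| ≤ 1
        rw [abs_mul, abs_of_pos (_root_.inv_pos.mpr hb), inv_mul_le_iff₀ hb]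
        simpa using hf x
      have h2 : ∫ x in Q n, ((b⁻¹ : ℝ) • f).1 x = 0 := by
        change ∫ x in Q n, b⁻¹ * f.1 x = 0
        rw [integral_const_mul, hint, mul_zero]
      obtain ⟨h, hh1, hh2⟩ := hhalf _ h1 h2
      refine ⟨fun i => b • h i, fun _ _ _ => ⟨fun i x => ?_, fun x => ?_⟩⟩
      · change |b * (h i).1 x| ≤ C * b
        rw [abs_mul, abs_of_pos hb, mul_comm]
        exact mul_le_mul_of_nonneg_right (hh1 i x) hb.le
      · have h3 : (f - thmf_T γ (R + 1) (fun i => b • h i)).1 x =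
            b * (((b⁻¹ : ℝ) • f) - thmf_T γ (R + 1) h).1 x := by
          have h4 : thmf_T γ (R + 1) (fun i => b • h i) = b • thmf_T γ (R + 1) h := by
            unfold thmf_T
            rw [Finset.smul_sum]
            refine Finset.sum_congr rfl fun i _ => ?_
            rw [map_smul, map_smul, map_smul, smul_sub]
          rw [h4]
          change f.1 x - b * (thmf_T γ (R + 1) h).1 x = b * (b⁻¹ * f.1 x - (thmf_T γ (R + 1) h).1 x)
          field_simp
        rw [h3, abs_mul, abs_of_pos hb]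
        have := hh2 x
        change |(((b⁻¹ : ℝ) • f) - thmf_T γ (R + 1) h).1 x| ≤ 1 / 2 at this
        calc b * |(((b⁻¹ : ℝ) • f) - thmf_T γ (R + 1) h).1 x| ≤ b * (1 / 2) :=
              mul_le_mul_of_nonneg_left this hb.le
          _ = b / 2 := by ring
    · exact ⟨0, fun h1 h2 h3 => absurd ⟨h1, h2, h3⟩ hyp⟩
  choose H hH using hstep
  refine ⟨2 * C, by positivity, fun f b hf hint => ?_⟩
  have hb0 : 0 ≤ b := (abs_nonneg _).trans (hf 0)
  rcases hb0.eq_or_lt with hb | hb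
  · refine ⟨0, fun i x => ?_, fun x => ?_⟩
    · rw [← hb]; simp
    · have h1 : f.1 x = 0 := by
        have := hf x
        rw [← hb] at this
        exact abs_nonpos_iff.mp this
      rw [h1]
      symm
      refine Finset.sum_eq_zero fun i _ => ?_
      change per (fun _ => (0 : ℝ)) x - per (fun _ => (0 : ℝ)) x = 0
      exact sub_self _
  -- the iteration
  let F : ℕ → RX n := fun k => Nat.rec f (fun k g => g - thmf_T γ (R + 1) (H g (b / 2 ^ k))) k
  have hF0 : F 0 = f := rfl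
  have hFs : ∀ k, F (k + 1) = F k - thmf_T γ (R + 1) (H (F k) (b / 2 ^ k)) := fun k => rfl
  have hmean : ∀ k, ∫ x in Q n, (F k).1 x = 0 := by
    intro k
    induction k with
    | zero => exact hint
    | succ k ih =>
      rw [hFs k]
      have hfin : volume (Q n) < ⊤ := by rw [volume_Q]; exact ENNReal.one_lt_top
      change ∫ x in Q n, ((F k).1 x - (thmf_T γ (R + 1) (H (F k) (b / 2 ^ k))).1 x) = 0
      rw [integral_sub, ih, thmf_T_integral, sub_zero]
      · exact (F k).2.2.2.integrableOn (F k).2.1.choose_spec hfin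
      · exact (thmf_T γ (R + 1) _).2.2.2.integrableOn (thmf_T γ (R + 1) _).2.1.choose_spec hfin
  have hBd : ∀ k, Bd (b / 2 ^ k) (F k).1 := by
    intro k
    induction k with
    | zero => rw [pow_zero, div_one]; exact hf
    | succ k ih =>
      rw [hFs k, pow_succ, ← div_div]
      exact (hH (F k) (b / 2 ^ k) (by positivity) ih (hmean k)).2
  have hHb : ∀ k i, Bd (C * (b / 2 ^ k)) (H (F k) (b / 2 ^ k) i).1 := fun k i =>
    (hH (F k) (b / 2 ^ k) (by positivity) (hBd k) (hmean k)).1 i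
  have hsumF : ∀ K x, f.1 x = ∑ k ∈ Finset.range K, (thmf_T γ (R + 1) (H (F k) (b / 2 ^ k))).1 x + (F K).1 x := by
    intro K x
    induction K with
    | zero => simp [hF0]
    | succ K ih =>
      rw [Finset.sum_range_succ, hFs K]
      change f.1 x = _ + _ + ((F K).1 x - (thmf_T γ (R + 1) (H (F K) (b / 2 ^ K))).1 x)
      rw [ih]; ring
  have hgeo : Summable fun k : ℕ => C * (b / 2 ^ k) := by
    apply Summable.mul_left
    exact summable_geometric_two' (2 * b) |>.congr (fun k => by field_simp)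
  have hgeo2 : ∑' k : ℕ, C * (b / 2 ^ k) = 2 * C * b := by
    rw [tsum_mul_left]
    have : ∑' k : ℕ, b / 2 ^ k = 2 * b := by
      have h2 := tsum_geometric_two' (2 * b)
      rw [← h2]
      refine tsum_congr fun k => ?_
      field_simp
    rw [this]; ring
  have hsumm : ∀ i x, Summable fun k => (H (F k) (b / 2 ^ k) i).1 x := fun i x =>
    Summable.of_norm_bounded hgeo (fun k => by rw [Real.norm_eq_abs]; exact hHb k i x)
  have hbound : ∀ i, Bd (2 * C * b) (fun x => ∑' k, (H (F k) (b / 2 ^ k) i).1 x) := by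
    intro i x
    rw [← hgeo2]
    exact tsum_of_norm_bounded hgeo.hasSum (fun k => by rw [Real.norm_eq_abs]; exact hHb k i x)
  have hsup : ∀ i, Sup0 (R + 1) (fun x => ∑' k, (H (F k) (b / 2 ^ k) i).1 x) := by
    intro i x hx
    have : (fun k => (H (F k) (b / 2 ^ k) i).1 x) = fun _ => 0 :=
      funext fun k => (H (F k) (b / 2 ^ k) i).2.2.1 x hx
    simp only [this, tsum_zero]
  have hAC : ∀ i, AC (fun x => ∑' k, (H (F k) (b / 2 ^ k) i).1 x) := by
    intro i
    refine AC.of_uniform (F := fun N x => ∑ k ∈ Finset.range N, (H (F k) (b / 2 ^ k) i).1 x)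
      (fun N => AC.sum _ fun k _ => (H (F k) (b / 2 ^ k) i).2.2.2) ?_
    exact tendstoUniformly_tsum_nat hgeo (fun k x => hHb k i x)
  refine ⟨fun i => ⟨fun x => ∑' k, (H (F k) (b / 2 ^ k) i).1 x, ⟨⟨_, hbound i⟩, hsup i, hAC i⟩⟩,
    fun i => hbound i, fun x => ?_⟩
  have h1 : HasSum (fun k => (thmf_T γ (R + 1) (H (F k) (b / 2 ^ k))).1 x)
      (∑ i, (per (fun y => ∑' k, (H (F k) (b / 2 ^ k) i).1 y) x -
        per (fun y => ∑' k, (H (F k) (b / 2 ^ k) i).1 ((γ i).symm y)) x)) := by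
    simp_rw [thmf_T_apply]
    refine hasSum_sum fun i _ => ?_
    refine HasSum.sub ?_ ?_
    · exact thmf_per_hasSum _ (fun k => (H (F k) (b / 2 ^ k) i).2.2.1) (hsumm i) x
    · exact thmf_per_hasSum (fun k y => (H (F k) (b / 2 ^ k) i).1 ((γ i).symm y))
        (fun k => (H (F k) (b / 2 ^ k) i).2.2.1.comp_lin (γ i).symm) (fun y => hsumm i _) x
  have h2 : Tendsto (fun K => ∑ k ∈ Finset.range K, (thmf_T γ (R + 1) (H (F k) (b / 2 ^ k))).1 x)
      atTop (𝓝 (f.1 x)) := by
    have h3 : Tendsto (fun K => (F K).1 x) atTop (𝓝 0) := by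
      refine squeeze_zero_norm (a := fun K : ℕ => b / 2 ^ K) (fun K => hBd K x) ?_
      exact tendsto_const_nhds.div_atTop (tendsto_pow_atTop_atTop_of_one_lt one_lt_two)
    have h4 : Tendsto (fun K => f.1 x - (F K).1 x) atTop (𝓝 (f.1 x - 0)) := tendsto_const_nhds.sub h3
    rw [sub_zero] at h4
    refine h4.congr fun K => ?_
    have := hsumF K x
    linarith
  exact tendsto_nhds_unique h2 h1.tendsto_sum_nat

end Pool.MP_2fe79c_gt.Geo
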