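import Pool.Agent.Lib.MP_2fe79c_gt.Geo.Base

/-!
MP_2fe79c_gt, geometric bodies. Module Toast: one-dimensional separators with nested boundaries.

PROOF. Write ‖t‖ for the distance |t - round t| to the nearest integer. Choose recursively δ_0 = 1/8 etc. and for
each j integers M_j ≥ 1 and reals δ_j > 0 with, for j ≥ 1, ‖M_j α‖ + δ_j < δ_{j-1} and δ_j ≤ δ_{j-1}, and
(2 M_j + 1) * 6 δ_j ≤ 2^(-j) for all j (first M_j by Dirichlet: some M ≥ 1 has ‖M α‖ < δ_{j-1}/2, e.g.
Real.exists_nat_abs_mul_sub_round_le; then δ_j small). Then ‖M_j α‖ + δ_j < δ_i for all i < j. Let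
  N j = {t | ∃ m : ℤ, |m| ≤ M_j ∧ ‖t - m α‖ < δ_j}.
(per) clear. (hit) backward density of the irrational rotation, see module Lev for hints (m = 0 allowed here).
(bdry) Let i < j and exactly one of t, t - α be in N j.
  Case t in N j, t - α not in N j: ‖t - m α‖ < δ_j with |m| ≤ M_j, and t - α = (t - m α) + (m-1) α, not in N j, so
  |m - 1| > M_j, so m = -M_j: ‖t + M_j α‖ < δ_j, so ‖t‖ < δ_j + ‖M_j α‖ < δ_i, hence t in N i (m = 0) and
  t - α in N i (m = -1, M_i ≥ 1).
  Case t not in N j, t - α in N j: ‖t - α - m α‖ < δ_j, |m| ≤ M_j, |m + 1| > M_j, so m = M_j: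
  ‖t - α‖ ≤ δ_j + ‖M_j α‖ < δ_i: t - α in N i (m = 0), t in N i (m = 1).
(loc) N j is open; if t is not in the closure of N j then N j^c is a neighbourhood; points of the boundary satisfy
  ‖t - m α‖ = δ_j for some m. The set of all t with ‖t - m α‖ = δ_j for some m in ℤ, j in ℕ is countable and
  invariant under t ↦ t - α. So B = this set.
(small) N j ∩ [0,1) is contained in the union over |m| ≤ M_j of {t in [0,1) | ‖t - m α‖ < δ_j}, each contained in
  the union of at most three intervals (c - δ_j, c + δ_j), c = fract(m α) + {-1, 0, 1}; total ≤ (2M_j+1) 6 δ_j ≤ 2^(-j).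
-/

set_option autoImplicit false
open MeasureTheory Filter Topology

namespace Pool.MP_2fe79c_gt.Geo

/-- a sequence of separators for the rotation by α -/
structure ToastP (α : ℝ) (N : ℕ → Set ℝ) : Prop where
  per : ∀ (j : ℕ) (t : ℝ) (m : ℤ), t + m ∈ N j ↔ t ∈ N j
  bdry : ∀ (i j : ℕ) (t : ℝ), i < j → ¬ (t ∈ N j ↔ t - α ∈ N j) → t ∈ N i ∧ t - α ∈ N i
  hit : ∀ (j : ℕ) (t : ℝ), ∃ m : ℕ, t - m * α ∈ N j
  loc : ∃ B : Set ℝ, B.Countable ∧ (∀ t, t - α ∈ B → t ∈ B) ∧
    ∀ t, t ∉ B → ∀ j, ∀ᶠ s in 𝓝 t, (s ∈ N j ↔ t ∈ N j)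
  small : ∀ j : ℕ, volume (N j ∩ Set.Ico 0 1) ≤ ENNReal.ofReal ((1 / 2) ^ j)

/-- backward density of the irrational rotation -/
private theorem back_dense {α : ℝ} (hα : Irrational α) {δ : ℝ} (hδ : 0 < δ) (t : ℝ) :
    ∃ (m : ℕ) (k : ℤ), |t - m * α - k| < δ := by
  obtain ⟨N, hN⟩ := exists_nat_gt (1 / δ)
  have hN0 : 0 < N := by
    have h1 : 0 < 1 / δ := by positivity
    have h2 : (0 : ℝ) < N := h1.trans hN
    exact_mod_cast h2
  obtain ⟨q, hq0, hqN, hq⟩ := Real.exists_nat_abs_mul_sub_round_le α hN0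
  set p : ℤ := round ((q : ℝ) * α) with hp
  set d : ℝ := q * α - p with hd
  have hNpos : (0 : ℝ) < N := by exact_mod_cast hN0
  have hdlt : |d| < δ := by
    refine lt_of_le_of_lt hq ?_
    rw [div_lt_iff₀ (by linarith)]
    have h1 : 1 < δ * N := by
      rw [div_lt_iff₀ hδ] at hN
      linarith
    nlinarith
  have hd0 : d ≠ 0 := by
    intro h0
    have h1 : Irrational ((q : ℝ) * α) := by
      have := hα.natCast_mul (m := q) (by omega)
      exact this
    apply h1
    exact ⟨(p : ℚ), by push_cast; linarith [hd, h0]⟩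
  rcases lt_or_gt_of_ne hd0 with hneg | hpos
  · have hdabs : |d| = -d := abs_of_neg hneg
    set n : ℕ := ⌊((⌈t⌉ : ℝ) - t) / (-d)⌋₊ with hn
    have hnn : 0 ≤ ((⌈t⌉ : ℝ) - t) / (-d) := div_nonneg (by linarith [Int.le_ceil t]) (by linarith)
    have h1 : (n : ℝ) ≤ ((⌈t⌉ : ℝ) - t) / (-d) := Nat.floor_le hnn
    have h2 : ((⌈t⌉ : ℝ) - t) / (-d) < n + 1 := Nat.lt_floor_add_one _
    rw [le_div_iff₀ (by linarith)] at h1
    rw [div_lt_iff₀ (by linarith)] at h2
    refine ⟨n * q, ⌈t⌉ - n * p, ?_⟩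
    have h3 : t - ((n * q : ℕ) : ℝ) * α - ((⌈t⌉ - n * p : ℤ) : ℝ) = (t - ⌈t⌉) - n * d := by
      rw [hd]; push_cast; ring
    rw [h3, abs_lt]
    constructor
    · nlinarith
    · nlinarith
  · have hdabs : |d| = d := abs_of_pos hpos
    set n : ℕ := ⌊(t - (⌊t⌋ : ℝ)) / d⌋₊ with hn
    have hnn : 0 ≤ (t - (⌊t⌋ : ℝ)) / d := div_nonneg (by linarith [Int.floor_le t]) (by linarith)
    have h1 : (n : ℝ) ≤ (t - (⌊t⌋ : ℝ)) / d := Nat.floor_le hnn
    have h2 : (t - (⌊t⌋ : ℝ)) / d < n + 1 := Nat.lt_floor_add_one _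
    rw [le_div_iff₀ (by linarith)] at h1
    rw [div_lt_iff₀ (by linarith)] at h2
    refine ⟨n * q, ⌊t⌋ - n * p, ?_⟩
    have h3 : t - ((n * q : ℕ) : ℝ) * α - ((⌊t⌋ - n * p : ℤ) : ℝ) = (t - ⌊t⌋) - n * d := by
      rw [hd]; push_cast; ring
    rw [h3, abs_lt]
    constructor
    · nlinarith
    · nlinarith

/-- one step of the choice -/
private theorem step (α : ℝ) {δ : ℝ} (hδ : 0 < δ) (j : ℕ) :
    ∃ (M : ℕ) (δ' : ℝ), 1 ≤ M ∧ 0 < δ' ∧ δ' ≤ δ ∧ (∃ K : ℤ, |(M : ℝ) * α - K| + δ' < δ) ∧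
      (2 * (M : ℝ) + 1) * (6 * δ') ≤ (1 / 2) ^ j := by
  obtain ⟨N, hN⟩ := exists_nat_gt (2 / δ)
  have hN0 : 0 < N := by
    have h1 : 0 < 2 / δ := by positivity
    have h2 : (0 : ℝ) < N := h1.trans hN
    exact_mod_cast h2
  obtain ⟨q, hq0, hqN, hq⟩ := Real.exists_nat_abs_mul_sub_round_le α hN0
  have hNpos : (0 : ℝ) < N := by exact_mod_cast hN0
  have hlt : |(q : ℝ) * α - round ((q : ℝ) * α)| < δ / 2 := by
    refine lt_of_le_of_lt hq ?_
    rw [div_lt_iff₀ (by linarith)]
    have h1 : 2 < δ * N := by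
      rw [div_lt_iff₀ hδ] at hN
      linarith
    nlinarith
  have hqp : (0 : ℝ) < 2 * (q : ℝ) + 1 := by positivity
  have hc : (0 : ℝ) < (1 / 2) ^ j / (6 * (2 * (q : ℝ) + 1)) := by positivity
  refine ⟨q, min (δ / 2) ((1 / 2) ^ j / (6 * (2 * (q : ℝ) + 1))), hq0, lt_min (by linarith) hc,
    (min_le_left _ _).trans (by linarith), ⟨round ((q : ℝ) * α), ?_⟩, ?_⟩
  · have := min_le_left (δ / 2) ((1 / 2) ^ j / (6 * (2 * (q : ℝ) + 1)))
    linarith
  · have h1 := min_le_right (δ / 2) ((1 / 2 : ℝ) ^ j / (6 * (2 * (q : ℝ) + 1)))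
    calc (2 * (q : ℝ) + 1) * (6 * min (δ / 2) ((1 / 2) ^ j / (6 * (2 * (q : ℝ) + 1))))
        ≤ (2 * (q : ℝ) + 1) * (6 * ((1 / 2) ^ j / (6 * (2 * (q : ℝ) + 1)))) := by
          apply mul_le_mul_of_nonneg_left _ hqp.le
          linarith
      _ = (1 / 2) ^ j := by
          field_simp

private theorem exists_seq (α : ℝ) : ∃ (M : ℕ → ℕ) (δ : ℕ → ℝ), (∀ j, 1 ≤ M j) ∧ (∀ j, 0 < δ j) ∧
    (∀ j, δ (j + 1) ≤ δ j) ∧ (∀ j, ∃ K : ℤ, |(M (j + 1) : ℝ) * α - K| + δ (j + 1) < δ j) ∧
    (∀ j, (2 * (M j : ℝ) + 1) * (6 * δ j) ≤ (1 / 2) ^ j) := by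
  classical
  choose! fM fδ h1 h2 h3 h4 h5 using fun (δ : ℝ) (j : ℕ) (hδ : 0 < δ) => step α (δ := δ) hδ j
  let st : ℕ → ℕ × ℝ := fun j => Nat.rec (fM 1 0, fδ 1 0) (fun k p => (fM p.2 (k + 1), fδ p.2 (k + 1))) j
  have hst : ∀ k, st (k + 1) = (fM (st k).2 (k + 1), fδ (st k).2 (k + 1)) := fun k => rfl
  have hst0 : st 0 = (fM 1 0, fδ 1 0) := rfl
  have hpos : ∀ k, 0 < (st k).2 := by
    intro k
    induction k with
    | zero => rw [hst0]; exact h2 1 0 one_pos
    | succ k ih => rw [hst]; exact h2 _ _ ih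
  refine ⟨fun j => (st j).1, fun j => (st j).2, ?_, hpos, ?_, ?_, ?_⟩
  · intro j
    cases j with
    | zero => simp only [hst0]; exact h1 1 0 one_pos
    | succ k => simp only [hst]; exact h1 _ _ (hpos k)
  · intro j
    simp only [hst]
    exact h3 _ _ (hpos j)
  · intro j
    simp only [hst]
    exact h4 _ _ (hpos j)
  · intro j
    cases j with
    | zero => simp only [hst0]; exact h5 1 0 one_pos
    | succ k => simp only [hst]; exact h5 _ _ (hpos k)

theorem toast {α : ℝ} (hα : Irrational α) : ∃ N : ℕ → Set ℝ, ToastP α N := by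
  classical
  obtain ⟨M, δ, hM, hδ, hmono, hK, hsm⟩ := exists_seq α
  have hanti : Antitone δ := antitone_nat_of_succ_le hmono
  have hK' : ∀ i j, i < j → ∃ K : ℤ, |(M j : ℝ) * α - K| + δ j < δ i := by
    intro i j hij
    obtain ⟨k, rfl⟩ : ∃ k, j = k + 1 := ⟨j - 1, by omega⟩
    obtain ⟨K, hK1⟩ := hK k
    exact ⟨K, hK1.trans_le (hanti (by omega))⟩
  have hδ1 : ∀ j, δ j < 1 := by
    intro j
    have h1 := hsm j
    have h2 : ((1 : ℝ) / 2) ^ j ≤ 1 := pow_le_one₀ (by norm_num) (by norm_num)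
    have h3 : (1 : ℝ) ≤ M j := by exact_mod_cast hM j
    nlinarith [hδ j]
  set N : ℕ → Set ℝ := fun j => {t | ∃ m : ℤ, |m| ≤ M j ∧ ∃ k : ℤ, |t - m * α - k| < δ j} with hN
  have memN : ∀ j t, t ∈ N j ↔ ∃ m : ℤ, |m| ≤ M j ∧ ∃ k : ℤ, |t - m * α - k| < δ j :=
    fun j t => Iff.rfl
  refine ⟨N, ?_, ?_, ?_, ?_, ?_⟩
  · -- per
    intro j t p
    rw [memN, memN]
    constructor
    · rintro ⟨m, hm, k, hk⟩
      refine ⟨m, hm, k - p, ?_⟩
      have : t - m * α - ((k - p : ℤ) : ℝ) = t + p - m * α - k := by push_cast; ring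
      rw [this]; exact hk
    · rintro ⟨m, hm, k, hk⟩
      refine ⟨m, hm, k + p, ?_⟩
      have : t + p - m * α - ((k + p : ℤ) : ℝ) = t - m * α - k := by push_cast; ring
      rw [this]; exact hk
  · -- bdry
    intro i j t hij hne
    obtain ⟨K, hKij⟩ := hK' i j hij
    have hMi : (1 : ℤ) ≤ M i := by exact_mod_cast hM i
    have hcase : (t ∈ N j ∧ t - α ∉ N j) ∨ (t ∉ N j ∧ t - α ∈ N j) := by
      by_cases h1 : t ∈ N j
      · by_cases h2 : t - α ∈ N j
        · exact absurd (iff_of_true h1 h2) hne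
        · exact Or.inl ⟨h1, h2⟩
      · by_cases h2 : t - α ∈ N j
        · exact Or.inr ⟨h1, h2⟩
        · exact absurd (iff_of_false h1 h2) hne
    rcases hcase with ⟨hin, hout⟩ | ⟨hout, hin⟩
    · obtain ⟨m, hm, k, hk⟩ := (memN j t).1 hin
      have hm1 : (M j : ℤ) < |m - 1| := by
        by_contra hcon
        push Not at hcon
        apply hout
        rw [memN]
        refine ⟨m - 1, hcon, k, ?_⟩
        have : t - α - ((m - 1 : ℤ) : ℝ) * α - k = t - m * α - k := by push_cast; ring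
        rw [this]; exact hk
      have hmM : m = -(M j : ℤ) := by
        rw [abs_le] at hm
        rcases le_or_gt 0 (m - 1) with h0 | h0
        · rw [abs_of_nonneg h0] at hm1; omega
        · rw [abs_of_neg h0] at hm1; omega
      have hkey : |t - (((k - K : ℤ)) : ℝ)| < δ i := by
        have h1 : t - (((k - K : ℤ)) : ℝ) = (t - m * α - k) + -((M j : ℝ) * α - K) := by
          rw [hmM]; push_cast; ring
        rw [h1]
        refine lt_of_le_of_lt (abs_add_le _ _) ?_
        rw [abs_neg]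
        linarith
      refine ⟨?_, ?_⟩
      · rw [memN]
        refine ⟨0, by simp, k - K, ?_⟩
        have : t - ((0 : ℤ) : ℝ) * α - ((k - K : ℤ) : ℝ) = t - ((k - K : ℤ) : ℝ) := by
          push_cast; ring
        rw [this]; exact hkey
      · rw [memN]
        refine ⟨-1, by simpa using hMi, k - K, ?_⟩
        have : t - α - ((-1 : ℤ) : ℝ) * α - ((k - K : ℤ) : ℝ) = t - ((k - K : ℤ) : ℝ) := by
          push_cast; ring
        rw [this]; exact hkey
    · obtain ⟨m, hm, k, hk⟩ := (memN j (t - α)).1 hin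
      have hm1 : (M j : ℤ) < |m + 1| := by
        by_contra hcon
        push Not at hcon
        apply hout
        rw [memN]
        refine ⟨m + 1, hcon, k, ?_⟩
        have : t - ((m + 1 : ℤ) : ℝ) * α - k = t - α - m * α - k := by push_cast; ring
        rw [this]; exact hk
      have hmM : m = (M j : ℤ) := by
        rw [abs_le] at hm
        rcases le_or_gt 0 (m + 1) with h0 | h0
        · rw [abs_of_nonneg h0] at hm1; omega
        · rw [abs_of_neg h0] at hm1; omega
      have hkey : |t - α - (((k + K : ℤ)) : ℝ)| < δ i := by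
        have h1 : t - α - (((k + K : ℤ)) : ℝ) = (t - α - m * α - k) + ((M j : ℝ) * α - K) := by
          rw [hmM]; push_cast; ring
        rw [h1]
        refine lt_of_le_of_lt (abs_add_le _ _) ?_
        linarith
      refine ⟨?_, ?_⟩
      · rw [memN]
        refine ⟨1, by simpa using hMi, k + K, ?_⟩
        have : t - ((1 : ℤ) : ℝ) * α - ((k + K : ℤ) : ℝ) = t - α - ((k + K : ℤ) : ℝ) := by
          push_cast; ring
        rw [this]; exact hkey
      · rw [memN]
        refine ⟨0, by simp, k + K, ?_⟩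
        have : t - α - ((0 : ℤ) : ℝ) * α - ((k + K : ℤ) : ℝ) = t - α - ((k + K : ℤ) : ℝ) := by
          push_cast; ring
        rw [this]; exact hkey
  · -- hit
    intro j t
    obtain ⟨m, k, hmk⟩ := back_dense hα (hδ j) t
    refine ⟨m, ?_⟩
    rw [memN]
    refine ⟨0, by simp, k, ?_⟩
    have : t - m * α - ((0 : ℤ) : ℝ) * α - k = t - m * α - k := by push_cast; ring
    rw [this]; exact hmk
  · -- loc
    refine ⟨{t | ∃ (j : ℕ) (m k : ℤ), |t - m * α - k| = δ j}, ?_, ?_, ?_⟩
    · have hset : {t : ℝ | ∃ (j : ℕ) (m k : ℤ), |t - m * α - k| = δ j} ⊆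
          ⋃ (j : ℕ), ⋃ (m : ℤ), ⋃ (k : ℤ), ({m * α + k + δ j, m * α + k - δ j} : Set ℝ) := by
        rintro t ⟨j, m, k, h⟩
        simp only [Set.mem_iUnion]
        refine ⟨j, m, k, ?_⟩
        rcases (abs_eq (hδ j).le).1 h with h1 | h1
        · left; linarith
        · right
          simp only [Set.mem_singleton_iff]
          linarith
      refine Set.Countable.mono hset ?_
      refine Set.countable_iUnion fun j => Set.countable_iUnion fun m => Set.countable_iUnion fun k => ?_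
      exact (Set.toFinite _).countable
    · rintro t ⟨j, m, k, h⟩
      refine ⟨j, m + 1, k, ?_⟩
      rw [← h]
      congr 1
      push_cast; ring
    · intro t ht j
      by_cases hin : t ∈ N j
      · obtain ⟨m, hm, k, hk⟩ := (memN j t).1 hin
        have hev : ∀ᶠ s : ℝ in 𝓝 t, |s - m * α - k| < δ j := by
          have hc : Continuous (fun s : ℝ => |s - m * α - k|) := by fun_prop
          exact hc.continuousAt.eventually_lt continuousAt_const hk
        filter_upwards [hev] with s hs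
        exact iff_of_true ((memN j s).2 ⟨m, hm, k, hs⟩) hin
      · have hev : ∀ m : ℤ, |m| ≤ M j → ∀ᶠ s : ℝ in 𝓝 t, ∀ k : ℤ, ¬ |s - m * α - k| < δ j := by
          intro m hm
          set x : ℝ := t - m * α with hx
          have h1 : δ j < |x - round x| := by
            refine lt_of_le_of_ne ?_ ?_
            · by_contra hcon
              push Not at hcon
              exact hin ((memN j t).2 ⟨m, hm, round x, hcon⟩)
            · intro h
              exact ht ⟨j, m, round x, h.symm⟩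
          have h2 : ∀ᶠ s : ℝ in 𝓝 t, |s - t| < |x - round x| - δ j := by
            have hc : Continuous (fun s : ℝ => |s - t|) := by fun_prop
            refine hc.continuousAt.eventually_lt continuousAt_const ?_
            simp only [sub_self, abs_zero]
            linarith
          filter_upwards [h2] with s hs k hk
          have h3 := round_le x k
          have h4 : x - k = (s - m * α - k) + -(s - t) := by rw [hx]; ring
          have h5 : |x - k| ≤ |s - m * α - k| + |s - t| := by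
            rw [h4]
            refine (abs_add_le _ _).trans ?_
            rw [abs_neg]
          linarith
        have hev' : ∀ᶠ s : ℝ in 𝓝 t, ∀ m ∈ Finset.Icc (-(M j : ℤ)) (M j), ∀ k : ℤ,
            ¬ |s - m * α - k| < δ j := by
          rw [Filter.eventually_all_finset]
          intro m hm
          rw [Finset.mem_Icc] at hm
          exact hev m (abs_le.2 hm)
        filter_upwards [hev'] with s hs
        refine iff_of_false ?_ hin
        intro hsN
        obtain ⟨m, hm, k, hk⟩ := (memN j s).1 hsN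
        exact hs m (Finset.mem_Icc.2 (abs_le.1 hm)) k hk
  · -- small
    intro j
    have hsub : N j ∩ Set.Ico 0 1 ⊆ ⋃ m ∈ Finset.Icc (-(M j : ℤ)) (M j), ⋃ c ∈ Finset.Icc (-1 : ℤ) 1,
        Metric.ball (Int.fract ((m : ℝ) * α) + c) (δ j) := by
      rintro t ⟨htN, ht0, ht1⟩
      obtain ⟨m, hm, k, hk⟩ := (memN j t).1 htN
      simp only [Set.mem_iUnion, exists_prop]
      refine ⟨m, Finset.mem_Icc.2 (abs_le.1 hm), ⌊(m : ℝ) * α⌋ + k, ?_, ?_⟩
      · have h1 : t - m * α - k = t - Int.fract ((m : ℝ) * α) - ((⌊(m : ℝ) * α⌋ + k : ℤ) : ℝ) := by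
          have := Int.floor_add_fract ((m : ℝ) * α)
          push_cast
          linarith
        rw [h1, abs_lt] at hk
        have h2 := Int.fract_nonneg ((m : ℝ) * α)
        have h3 := Int.fract_lt_one ((m : ℝ) * α)
        have h4 := hδ1 j
        rw [Finset.mem_Icc]
        constructor
        · have : (-2 : ℝ) < ((⌊(m : ℝ) * α⌋ + k : ℤ) : ℝ) := by linarith
          have h5 : (-2 : ℤ) < ⌊(m : ℝ) * α⌋ + k := by exact_mod_cast this
          omega
        · have : ((⌊(m : ℝ) * α⌋ + k : ℤ) : ℝ) < 2 := by linarith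
          have h5 : ⌊(m : ℝ) * α⌋ + k < (2 : ℤ) := by exact_mod_cast this
          omega
      · rw [Metric.mem_ball, Real.dist_eq]
        have h1 : t - (Int.fract ((m : ℝ) * α) + ((⌊(m : ℝ) * α⌋ + k : ℤ) : ℝ)) = t - m * α - k := by
          have := Int.floor_add_fract ((m : ℝ) * α)
          push_cast
          linarith
        rw [h1]
        exact hk
    refine (measure_mono hsub).trans ?_
    refine (measure_biUnion_finset_le _ _).trans ?_
    have h1 : ∀ m ∈ Finset.Icc (-(M j : ℤ)) (M j), volume (⋃ c ∈ Finset.Icc (-1 : ℤ) 1,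
        Metric.ball (Int.fract ((m : ℝ) * α) + c) (δ j)) ≤ ENNReal.ofReal (6 * δ j) := by
      intro m _
      refine (measure_biUnion_finset_le _ _).trans ?_
      have h2 : ∀ c ∈ Finset.Icc (-1 : ℤ) 1, volume (Metric.ball (Int.fract ((m : ℝ) * α) + c) (δ j)) ≤
          ENNReal.ofReal (2 * δ j) := by
        intro c _
        rw [Real.volume_ball]
      refine (Finset.sum_le_card_nsmul _ _ _ h2).trans ?_
      have h3 : (Finset.Icc (-1 : ℤ) 1).card = 3 := by decide
      rw [h3, ← ENNReal.ofReal_nsmul]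
      apply ENNReal.ofReal_le_ofReal
      rw [nsmul_eq_mul]
      push_cast
      linarith
    refine (Finset.sum_le_card_nsmul _ _ _ h1).trans ?_
    have h3 : (Finset.Icc (-(M j : ℤ)) (M j)).card = 2 * M j + 1 := by
      rw [Int.card_Icc]
      omega
    rw [h3, ← ENNReal.ofReal_nsmul]
    apply ENNReal.ofReal_le_ofReal
    rw [nsmul_eq_mul]
    push_cast
    have := hsm j
    linarith

end Pool.MP_2fe79c_gt.Geo
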