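import Pool.Agent.Lib.MP_2fe79c_gt.Geo.Teq

/-!
MP_2fe79c_gt, geometric bodies. Module Trans: transitivity of the type relation (common refinement).

PROOF. Refinement: let P_i (i < m), R_j (j < m') be JF with sum P_i = sum R_j a.e. Put A_i = P_0 + ... + P_{i-1},
B_j = R_0 + ... + R_{j-1} (A_0 = B_0 = 0) and
 S_ij = min (A_{i+1}) (B_{j+1}) - min (A_{i+1}) (B_j) - min (A_i) (B_{j+1}) + min (A_i) (B_j)  ≥ 0
(for A_i ≤ A_{i+1}, B_j ≤ B_{j+1}: check cases), natural number valued, bounded, bounded support (if P_i x = 0 then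
A_i = A_{i+1} and S_ij = 0), a.e. continuous (AC.min, AC.sub, AC.sum). Telescoping: sum_j S_ij = min (A_{i+1}) (B_m') - min (A_i) (B_m')
= P_i wherever A_m = B_m' (as A_i ≤ A_m = B_m'), and sum_i S_ij = R_j there.
Transitivity: F = sum P_i, G = sum P_i ∘ g_i⁻¹ = sum R_j, H = sum R_j ∘ k_j⁻¹. Refine P'_i = P_i ∘ g_i⁻¹ and R_j by S_ij.
Then P_i = sum_j S_ij ∘ g_i a.e. and H = sum_j sum_i S_ij ∘ k_j⁻¹. So with the pieces S_ij ∘ g_i and the isometries
g_ij := x ↦ k_j (g_i x) (g_i.trans k_j), whose inverse is x ↦ g_i⁻¹ (k_j⁻¹ x), Teq_mk on Fin m × Fin m' gives Teq F H.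
-/

set_option autoImplicit false
open MeasureTheory Filter Topology

namespace Pool.MP_2fe79c_gt.Geo

theorem trans_jf_min {n : ℕ} {F G : E n → ℝ} (hF : JF F) (hG : JF G) :
    JF (fun x => min (F x) (G x)) := by
  obtain ⟨b, hb⟩ := hF.bd
  obtain ⟨c, hc⟩ := hG.bd
  obtain ⟨R, hR⟩ := hF.sup
  obtain ⟨R', hR'⟩ := hG.sup
  refine ⟨fun x => ?_, ⟨max b c, fun x => ?_⟩, ⟨max R R', fun x hx => ?_⟩, hF.ac.min hG.ac⟩
  · obtain ⟨k, hk⟩ := hF.nat x
    obtain ⟨k', hk'⟩ := hG.nat x
    exact ⟨min k k', by rw [hk, hk']; push_cast; rfl⟩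
  · exact (abs_min_le_max_abs_abs).trans (max_le_max (hb x) (hc x))
  · change min (F x) (G x) = 0
    rw [hR x ((le_max_left _ _).trans hx), hR' x ((le_max_right _ _).trans hx), min_self]

theorem trans_ineq {A A' B B' : ℝ} (hA : A ≤ A') (hB : B ≤ B') :
    min A B' - min A B ≤ min A' B' - min A' B := by
  rcases le_total A B' with h1 | h1 <;> rcases le_total A B with h2 | h2 <;>
    rcases le_total A' B' with h3 | h3 <;> rcases le_total A' B with h4 | h4 <;>
    simp only [min_eq_left, min_eq_right, h1, h2, h3, h4] <;> linarith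

/-- the pieces of the common refinement -/
noncomputable def transS {n : ℕ} (p r : ℕ → E n → ℝ) (i j : ℕ) (x : E n) : ℝ :=
  (min (∑ l ∈ Finset.range (i + 1), p l x) (∑ l ∈ Finset.range (j + 1), r l x) -
    min (∑ l ∈ Finset.range (i + 1), p l x) (∑ l ∈ Finset.range j, r l x)) -
  (min (∑ l ∈ Finset.range i, p l x) (∑ l ∈ Finset.range (j + 1), r l x) -
    min (∑ l ∈ Finset.range i, p l x) (∑ l ∈ Finset.range j, r l x))

theorem trans_nonneg {n : ℕ} {F : E n → ℝ} (hF : JF F) (x : E n) : 0 ≤ F x := by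
  obtain ⟨k, hk⟩ := hF.nat x
  rw [hk]
  exact Nat.cast_nonneg k

theorem trans_mono {n : ℕ} {p : ℕ → E n → ℝ} (hp : ∀ i, JF (p i)) (x : E n) {i j : ℕ}
    (hij : i ≤ j) : ∑ l ∈ Finset.range i, p l x ≤ ∑ l ∈ Finset.range j, p l x :=
  Finset.sum_le_sum_of_subset_of_nonneg (Finset.range_mono hij)
    (fun l _ _ => trans_nonneg (hp l) x)

theorem transS_jf {n : ℕ} {p r : ℕ → E n → ℝ} (hp : ∀ i, JF (p i)) (hr : ∀ i, JF (r i))
    (i j : ℕ) : JF (transS p r i j) := by
  have hA : ∀ i, JF (fun x => ∑ l ∈ Finset.range i, p l x) := fun i => JF.sum _ fun l _ => hp l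
  have hB : ∀ i, JF (fun x => ∑ l ∈ Finset.range i, r l x) := fun i => JF.sum _ fun l _ => hr l
  refine JF.sub (JF.sub (trans_jf_min (hA (i + 1)) (hB (j + 1)))
    (trans_jf_min (hA (i + 1)) (hB j)) ?_) (JF.sub (trans_jf_min (hA i) (hB (j + 1)))
    (trans_jf_min (hA i) (hB j)) ?_) ?_
  · exact fun x => min_le_min_left _ (trans_mono hr x (Nat.le_succ j))
  · exact fun x => min_le_min_left _ (trans_mono hr x (Nat.le_succ j))
  · exact fun x => trans_ineq (trans_mono hp x (Nat.le_succ i)) (trans_mono hr x (Nat.le_succ j))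

theorem transS_comm {n : ℕ} (p r : ℕ → E n → ℝ) (i j : ℕ) (x : E n) :
    transS p r i j x = transS r p j i x := by
  unfold transS
  simp only [min_comm (∑ l ∈ Finset.range _, p l x)]
  ring

theorem transS_sum {n : ℕ} {p r : ℕ → E n → ℝ} (hp : ∀ i, JF (p i)) (hr : ∀ i, JF (r i))
    {m m' : ℕ} {x : E n} (h : ∑ l ∈ Finset.range m, p l x = ∑ l ∈ Finset.range m', r l x)
    {i : ℕ} (hi : i < m) : ∑ j ∈ Finset.range m', transS p r i j x = p i x := by
  let f : ℕ → ℝ := fun j => min (∑ l ∈ Finset.range (i + 1), p l x) (∑ l ∈ Finset.range j, r l x) -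
    min (∑ l ∈ Finset.range i, p l x) (∑ l ∈ Finset.range j, r l x)
  have h1 : ∀ j, transS p r i j x = f (j + 1) - f j := by
    intro j
    simp only [transS, f]
    ring
  simp only [h1]
  rw [Finset.sum_range_sub]
  have h2 : f 0 = 0 := by
    have h3 : ∀ i, 0 ≤ ∑ l ∈ Finset.range i, p l x := fun i =>
      Finset.sum_nonneg fun l _ => trans_nonneg (hp l) x
    simp only [f, Finset.range_zero, Finset.sum_empty]
    rw [min_eq_right (h3 _), min_eq_right (h3 _), sub_zero]
  have h4 : f m' = p i x := by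
    simp only [f, ← h]
    rw [min_eq_left (trans_mono hp x (by omega)), min_eq_left (trans_mono hp x hi.le),
      Finset.sum_range_succ]
    ring
  rw [h2, h4, sub_zero]

/-- extension of a finite family of functions by zero -/
noncomputable def transExt {n m : ℕ} (P : Fin m → E n → ℝ) (i : ℕ) : E n → ℝ :=
  if h : i < m then P ⟨i, h⟩ else fun _ => 0

theorem transExt_jf {n m : ℕ} {P : Fin m → E n → ℝ} (hP : ∀ i, JF (P i)) (i : ℕ) :
    JF (transExt P i) := by
  unfold transExt
  split_ifs with h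
  · exact hP _
  · exact JF.zero

theorem transExt_apply {n m : ℕ} (P : Fin m → E n → ℝ) (i : Fin m) :
    transExt P i = P i := by
  unfold transExt
  rw [dif_pos i.2]

theorem transExt_sum {n m : ℕ} (P : Fin m → E n → ℝ) (x : E n) :
    ∑ l ∈ Finset.range m, transExt P l x = ∑ i, P i x := by
  rw [Finset.sum_range]
  exact Finset.sum_congr rfl fun i _ => by rw [transExt_apply]

theorem Teq.trans {n : ℕ} {F G H : E n → ℝ} (h : Teq F G) (h' : Teq G H) : Teq F H := by
  obtain ⟨m, P, g, hP, hF, hG⟩ := h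
  obtain ⟨m', R, k, hR, hG', hH⟩ := h'
  let P' : Fin m → E n → ℝ := fun i x => P i ((g i).symm x)
  have hP' : ∀ i, JF (P' i) := fun i => (hP i).comp_isom _
  have hsum : ∀ᵐ x ∂(volume : Measure (E n)), ∑ l ∈ Finset.range m, transExt P' l x =
      ∑ l ∈ Finset.range m', transExt R l x := by
    filter_upwards [hG, hG'] with x h1 h2
    rw [transExt_sum, transExt_sum, ← h2, h1]
  refine Teq_mk (ι := Fin m × Fin m')
    (fun ij x => transS (transExt P') (transExt R) ij.1 ij.2 (g ij.1 x))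
    (fun ij => (g ij.1).trans (k ij.2))
    (fun ij => (transS_jf (transExt_jf hP') (transExt_jf hR) _ _).comp_isom _) ?_ ?_
  · have h1 : ∀ᵐ x ∂(volume : Measure (E n)), ∀ i : Fin m,
        ∑ l ∈ Finset.range m, transExt P' l (g i x) =
        ∑ l ∈ Finset.range m', transExt R l (g i x) :=
      ae_all_iff.mpr fun i => (isom_measurePreserving (g i)).quasiMeasurePreserving.ae hsum
    filter_upwards [hF, h1] with x h2 h3
    rw [h2, Fintype.sum_prod_type]
    refine Finset.sum_congr rfl fun i _ => ?_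
    have h4 := transS_sum (transExt_jf hP') (transExt_jf hR) (h3 i) i.2
    rw [Finset.sum_range] at h4
    rw [h4, transExt_apply]
    simp only [P', IsometryEquiv.symm_apply_apply]
  · have h1 : ∀ᵐ x ∂(volume : Measure (E n)), ∀ j : Fin m',
        ∑ l ∈ Finset.range m, transExt P' l ((k j).symm x) =
        ∑ l ∈ Finset.range m', transExt R l ((k j).symm x) :=
      ae_all_iff.mpr fun j => (isom_measurePreserving (k j).symm).quasiMeasurePreserving.ae hsum
    filter_upwards [hH, h1] with x h2 h3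
    rw [h2, Fintype.sum_prod_type_right]
    refine Finset.sum_congr rfl fun j _ => ?_
    have h4 := transS_sum (transExt_jf hR) (transExt_jf hP') (h3 j).symm j.2
    rw [Finset.sum_range] at h4
    rw [← transExt_apply R j, ← h4]
    refine Finset.sum_congr rfl fun i _ => ?_
    rw [transS_comm]
    have h5 : ((g i).trans (k j)).symm x = (g i).symm ((k j).symm x) := rfl
    simp only [h5, IsometryEquiv.apply_symm_apply]

end Pool.MP_2fe79c_gt.Geo
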