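import Pool.Agent.Lib.MP_2fe79c_gt.Geo.Comb

/-!
MP_2fe79c_gt, geometric bodies. Module Trig: the spectral gap for trigonometric polynomials.

PROOF. tp a x = sum over z of a z * exp(2 pi i z.x).
(1) tp_norm_sq: on the unit cube Q n the functions exp(2 pi i z.x), z in Z^n, are orthonormal:
    transfer the integral to (Fin n → ℝ) by PiLp.volume_preserving_ofLp / toLp (Q_eq_preimage in Base),
    the integrand is a product over the coordinates, integral over [0,1)^n of a product is the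
    product of the integrals (MeasureTheory.integral_fintype_prod_volume_eq_prod after writing the
    restricted measure of a product set as the product measure, Measure.restrict_pi_pi), and
    the integral over [0,1) of exp(2 pi i m t) is 0 for m ≠ 0 and 1 for m = 0 (fourier lemmas or
    integral_exp_mul_complex). Then expand ||tp a||^2 as a double finite sum.
(2) tp_rot: sum_i z_i * (5 • rot p x)_i = sum_i (mT p z)_i * x_i (direct computation, rot_apply, mT),
    hence tp a ((5:ℝ) • rot p x) = tp (a.mapDomain (mT p.1)) x by Finsupp.sum_mapDomain_index.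
(3) tp_five: the same with m5.
(4) trigGap: tp is additive in a (tp (a - b) = tp a - tp b), so the right-hand integrals are
    ||a.mapDomain (mT p) - a.mapDomain m5||^2 by (1), and combGap applies.
-/

set_option autoImplicit false
open MeasureTheory Filter Topology

namespace Pool.MP_2fe79c_gt.Geo

/-- the character of frequency `z` -/
noncomputable def ech {n : ℕ} (z : Fin n → ℤ) (x : E n) : ℂ :=
  Complex.exp (2 * Real.pi * Complex.I * ((∑ i, (z i : ℝ) * x i : ℝ) : ℂ))

theorem tp_eq {n : ℕ} (a : (Fin n → ℤ) →₀ ℂ) (x : E n) :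
    tp a x = a.sum fun z c => c * ech z x := rfl

theorem continuous_ech {n : ℕ} (z : Fin n → ℤ) : Continuous (ech z : E n → ℂ) := by
  unfold ech
  fun_prop

theorem norm_ech {n : ℕ} (z : Fin n → ℤ) (x : E n) : ‖ech z x‖ = 1 := by
  unfold ech
  rw [Complex.norm_exp]
  simp

theorem ech_mul_conj {n : ℕ} (z w : Fin n → ℤ) (x : E n) :
    ech z x * (starRingEnd ℂ) (ech w x) = ech (z - w) x := by
  unfold ech
  rw [← Complex.exp_conj, ← Complex.exp_add]
  congr 1
  simp only [map_mul, Complex.conj_ofReal, Complex.conj_I, map_ofNat, Pi.sub_apply, Int.cast_sub,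
    sub_mul, Finset.sum_sub_distrib]
  push_cast
  ring

theorem integral_exp_Ico (m : ℤ) :
    ∫ t in Set.Ico (0:ℝ) 1, Complex.exp (2 * Real.pi * Complex.I * (((m : ℝ) * t : ℝ) : ℂ)) =
      if m = 0 then 1 else 0 := by
  rw [integral_Ico_eq_integral_Ioo, ← integral_Ioc_eq_integral_Ioo,
    ← intervalIntegral.integral_of_le zero_le_one]
  split_ifs with h
  · subst h
    simp
  · have hc : (2 * Real.pi * Complex.I * (m : ℂ)) ≠ 0 := by
      have h1 : (m : ℂ) ≠ 0 := by exact_mod_cast h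
      have h2 : (Real.pi : ℂ) ≠ 0 := by exact_mod_cast Real.pi_ne_zero
      simp [h1, h2]
    have h3 : ∀ t : ℝ, Complex.exp (2 * Real.pi * Complex.I * (((m : ℝ) * t : ℝ) : ℂ)) =
        Complex.exp ((2 * Real.pi * Complex.I * (m : ℂ)) * t) := by
      intro t
      congr 1
      push_cast
      ring
    simp only [h3]
    rw [integral_exp_mul_complex hc]
    have h4 : Complex.exp (2 * Real.pi * Complex.I * (m : ℂ) * ((1:ℝ) : ℂ)) = 1 := by
      have := Complex.exp_int_mul_two_pi_mul_I m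
      rw [← this]
      congr 1
      push_cast
      ring
    rw [h4]
    simp

theorem integral_ech {n : ℕ} (m : Fin n → ℤ) :
    ∫ x in Q n, ech m x = if m = 0 then 1 else 0 := by
  rw [Q_eq_preimage]
  have h1 : ∀ x : E n, ech m x =
      (fun y : Fin n → ℝ => ∏ i, Complex.exp (2 * Real.pi * Complex.I * (((m i : ℝ) * y i : ℝ) : ℂ)))
        (WithLp.ofLp x) := by
    intro x
    simp only [ech]
    rw [← Complex.exp_sum]
    congr 1
    push_cast
    rw [Finset.mul_sum]
  have h2 := (PiLp.volume_preserving_ofLp (Fin n)).setIntegral_preimage_emb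
    (MeasurableEquiv.toLp 2 (Fin n → ℝ)).symm.measurableEmbedding
    (fun y : Fin n → ℝ => ∏ i, Complex.exp (2 * Real.pi * Complex.I * (((m i : ℝ) * y i : ℝ) : ℂ)))
    (Set.univ.pi fun _ : Fin n => Set.Ico (0 : ℝ) 1)
  rw [setIntegral_congr_fun (g := fun x : E n => (fun y : Fin n → ℝ => ∏ i, Complex.exp (2 * Real.pi * Complex.I * (((m i : ℝ) * y i : ℝ) : ℂ)))
        (WithLp.ofLp x)) ?_ (fun x _ => h1 x)]
  swap
  · rw [← Q_eq_preimage]; exact measurableSet_Q
  rw [h2]
  rw [volume_pi, Measure.restrict_pi_pi]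
  rw [integral_fintype_prod_eq_prod
    (f := fun i (t : ℝ) => Complex.exp (2 * Real.pi * Complex.I * (((m i : ℝ) * t : ℝ) : ℂ)))]
  simp only [integral_exp_Ico]
  split_ifs with h
  · subst h
    simp
  · obtain ⟨i, hi⟩ := Function.ne_iff.mp h
    apply Finset.prod_eq_zero (Finset.mem_univ i)
    exact if_neg hi

theorem continuous_tp {n : ℕ} (a : (Fin n → ℤ) →₀ ℂ) : Continuous (tp a : E n → ℂ) := by
  have : (tp a : E n → ℂ) = fun x => ∑ z ∈ a.support, a z * ech z x := by
    funext x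
    rfl
  rw [this]
  exact continuous_finsetSum _ fun z _ => continuous_const.mul (continuous_ech z)

theorem tp_norm_sq {n : ℕ} (a : (Fin n → ℤ) →₀ ℂ) :
    ∫ x in Q n, ‖tp a x‖ ^ 2 = a.sum fun _ c => ‖c‖ ^ 2 := by
  have key : ∀ x : E n, ((‖tp a x‖ ^ 2 : ℝ) : ℂ) =
      ∑ z ∈ a.support, ∑ w ∈ a.support, (a z * (starRingEnd ℂ) (a w)) * ech (z - w) x := by
    intro x
    rw [Complex.ofReal_pow, ← Complex.mul_conj', tp_eq, Finsupp.sum, map_sum, Finset.sum_mul_sum]
    refine Finset.sum_congr rfl fun z _ => Finset.sum_congr rfl fun w _ => ?_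
    rw [map_mul, ← ech_mul_conj]
    ring
  have hint : ∀ (c : ℂ) (z : Fin n → ℤ), Integrable (fun x : E n => c * ech z x)
      ((volume : Measure (E n)).restrict (Q n)) := by
    intro c z
    refine Integrable.const_mul ?_ c
    refine Integrable.of_bound (continuous_ech z).aestronglyMeasurable 1 ?_
    exact Filter.Eventually.of_forall fun x => (norm_ech z x).le
  have h2 : ((∫ x in Q n, ‖tp a x‖ ^ 2 : ℝ) : ℂ) = ((a.sum fun _ c => ‖c‖ ^ 2 : ℝ) : ℂ) := by
    rw [← integral_complex_ofReal]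
    simp only [key]
    rw [integral_finsetSum _ fun z _ => integrable_finsetSum _ fun w _ => hint _ _]
    have h3 : ∀ z ∈ a.support, ∫ x in Q n, ∑ w ∈ a.support,
        (a z * (starRingEnd ℂ) (a w)) * ech (z - w) x = a z * (starRingEnd ℂ) (a z) := by
      intro z hz
      rw [integral_finsetSum _ fun w _ => hint _ _]
      have h4 : ∀ w ∈ a.support, ∫ x in Q n, (a z * (starRingEnd ℂ) (a w)) * ech (z - w) x =
          if z = w then a z * (starRingEnd ℂ) (a w) else 0 := by
        intro w _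
        rw [integral_const_mul, integral_ech]
        by_cases h : z = w
        · subst h
          simp
        · rw [if_neg (sub_ne_zero.mpr h), if_neg h, mul_zero]
      rw [Finset.sum_congr rfl h4, Finset.sum_ite_eq, if_pos hz]
    rw [Finset.sum_congr rfl h3, Finsupp.sum, Complex.ofReal_sum]
    refine Finset.sum_congr rfl fun z _ => ?_
    rw [Complex.mul_conj', Complex.ofReal_pow]
  exact_mod_cast h2

theorem ech_rot {n : ℕ} (z : Fin n → ℤ) (p : Jn n) (x : E n) :
    ech z ((5 : ℝ) • rot p x) = ech (mT p.1 z) x := by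
  unfold ech
  congr 3
  have hne : p.1.2 ≠ p.1.1 := p.2.symm
  rw [← Finset.add_sum_erase _ _ (Finset.mem_univ p.1.1),
    ← Finset.add_sum_erase _ _ (Finset.mem_univ p.1.1)]
  have h2 : p.1.2 ∈ (Finset.univ : Finset (Fin n)).erase p.1.1 :=
    Finset.mem_erase.mpr ⟨hne, Finset.mem_univ _⟩
  rw [← Finset.add_sum_erase _ _ h2, ← Finset.add_sum_erase _ _ h2]
  have h3 : ∀ i ∈ ((Finset.univ : Finset (Fin n)).erase p.1.1).erase p.1.2,
      (z i : ℝ) * ((5 : ℝ) • rot p x) i = (mT p.1 z i : ℝ) * x i := by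
    intro i hi
    rw [Finset.mem_erase, Finset.mem_erase] at hi
    rw [PiLp.smul_apply, rot_apply, if_neg hi.2.1, if_neg hi.1]
    unfold mT
    rw [if_neg hi.2.1, if_neg hi.1]
    push_cast
    simp only [smul_eq_mul]
    ring
  rw [Finset.sum_congr rfl h3]
  rw [PiLp.smul_apply, PiLp.smul_apply, rot_apply, rot_apply, if_pos rfl, if_neg hne, if_pos rfl]
  unfold mT
  rw [if_pos rfl, if_neg hne, if_pos rfl]
  push_cast
  simp only [smul_eq_mul]
  ring

theorem ech_five {n : ℕ} (z : Fin n → ℤ) (x : E n) :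
    ech z ((5 : ℝ) • x) = ech (m5 z) x := by
  unfold ech
  congr 3
  refine Finset.sum_congr rfl fun i _ => ?_
  rw [PiLp.smul_apply]
  unfold m5
  push_cast
  simp only [smul_eq_mul]
  ring

theorem tp_mapDomain {n : ℕ} (f : (Fin n → ℤ) → (Fin n → ℤ)) (a : (Fin n → ℤ) →₀ ℂ) (x : E n) :
    tp (a.mapDomain f) x = a.sum fun z c => c * ech (f z) x := by
  rw [tp_eq, Finsupp.sum_mapDomain_index]
  · intro z
    rw [zero_mul]
  · intro z c d
    rw [add_mul]

theorem tp_rot {n : ℕ} (a : (Fin n → ℤ) →₀ ℂ) (p : Jn n) (x : E n) :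
    tp a ((5 : ℝ) • rot p x) = tp (a.mapDomain (mT p.1)) x := by
  rw [tp_mapDomain, tp_eq]
  refine Finsupp.sum_congr fun z _ => ?_
  rw [ech_rot]

theorem tp_five {n : ℕ} (a : (Fin n → ℤ) →₀ ℂ) (x : E n) :
    tp a ((5 : ℝ) • x) = tp (a.mapDomain m5) x := by
  rw [tp_mapDomain, tp_eq]
  refine Finsupp.sum_congr fun z _ => ?_
  rw [ech_five]

theorem tp_sub {n : ℕ} (a b : (Fin n → ℤ) →₀ ℂ) (x : E n) :
    tp (a - b) x = tp a x - tp b x := by
  rw [tp_eq, tp_eq, tp_eq, Finsupp.sum_sub_index]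
  intro z c d
  rw [sub_mul]

theorem trigGap {n : ℕ} (hn : 3 ≤ n) (a : (Fin n → ℤ) →₀ ℂ) (h0 : a 0 = 0) :
    ∫ x in Q n, ‖tp a x‖ ^ 2 ≤ n * ∑ p : Jn n,
      ∫ x in Q n, ‖tp a ((5 : ℝ) • rot p x) - tp a ((5 : ℝ) • x)‖ ^ 2 := by
  have h1 : ∀ p : Jn n, ∫ x in Q n, ‖tp a ((5 : ℝ) • rot p x) - tp a ((5 : ℝ) • x)‖ ^ 2 =
      (a.mapDomain (mT p.1) - a.mapDomain m5).sum fun _ c => ‖c‖ ^ 2 := by
    intro p
    rw [← tp_norm_sq]
    congr 1
    funext x
    rw [tp_rot, tp_five, tp_sub]
  simp only [h1]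
  rw [tp_norm_sq]
  exact combGap hn a h0

end Pool.MP_2fe79c_gt.Geo
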