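import Pool.Agent.Lib.MP_2fe79c_gt.Geo.L1Gap
import Pool.Agent.Lib.MP_2fe79c_gt.Geo.ThmF
import Pool.Agent.Lib.MP_2fe79c_gt.Geo.RoundB
import Pool.Agent.Lib.MP_2fe79c_gt.Geo.IntX

/-!
MP_2fe79c_gt, geometric bodies. Module UThm: integral solutions with uniform bounds.

PROOF. α = sqrt 2 - 1 (irrational, in (0,1)), i₁ = 0, i₂ = 1. gapP_rot and thmF with γ = rot give, for f integral with
Bd N f and mean zero, h_p ∈ RB n (5n+2) (p in Jn n), Bd (C₁ N) h_p, f = sum_p (per h_p - per (h_p ∘ rot p⁻¹)).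
roundB with ρ = 5n+2: h_p = k_p + sum_j (c_pj - tr (V j) c_pj) a.e. Then, a.e. (identities a.e. pass to per because
there are countably many integer vectors; and to compositions with isometries):
 per h_p = per k_p + sum_j (per c_pj - tr (V j) (per c_pj))                       (per_tr)
 per (h_p ∘ rot p⁻¹) = per (k_p ∘ rot p⁻¹) + sum_j (per c'_pj - tr (rot p (V j)) (per c'_pj)),  c'_pj = c_pj ∘ rot p⁻¹.
So f - sum_p (per k_p - per (k_p ∘ rot p⁻¹)) = sum_{i ∈ I} (u_i - tr v_i u_i) with the finite index set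
I = Jn n × Fin 4 × Bool, u_i ∈ RX n, Bd (2 Cp n R') u_i (per_Bd).
roundX for each u_i: u_i = k'_i + (1-τ₁) c_i1 + (1-τ₂) c_i2. Put C_l = sum_i (c_il - tr v_i c_il), Bd (4 card I) C_l. Then
 f = sum_p (per k_p - per (k_p ∘ rot p⁻¹)) + sum_i (k'_i - tr v_i k'_i) + (C₁ - τ₁ C₁) + (C₂ - τ₂ C₂)   a.e.
(translations commute). f and the first two sums are integer valued (per of an integer valued function with bounded
support is a finite sum of integers), so intX applies to C₁, C₂ and gives w₁, w₂ ∈ RX n integer valued, Bd (4 card I + 4).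
Finally for w ∈ RX n: w = per (1_Q w) (per_indicator_Q) and w - tr v w = per (1_Q w) - per ((1_Q w)(. - v)), and
y ↦ y - v is g.symm for g = IsometryEquiv.addRight v. So every term is of the required form, with the index set
Jn n ⊕ I ⊕ Fin 2 (transport to Fin m by Fintype.equivFin); supports in the ball of radius max R' (n+1); bounds
≤ C N with C = C₁ + 9 + (2 Cp n R' + 9) + (4 card I + 4), as N ≥ 1. (RB n R is monotone in R.)
-/

set_option autoImplicit false
open MeasureTheory Filter Topology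

namespace Pool.MP_2fe79c_gt.Geo

variable {n : ℕ}

/-- the periodization of an integer valued function is integer valued -/
theorem uthm_per_int {R : ℝ} {h : E n → ℝ} (hs : Sup0 R h) (hi : IntV h) : IntV (per h) := by
  intro x
  obtain ⟨K, hK⟩ := exists_nat_ge (R + ‖x‖)
  choose z hz using hi
  refine ⟨∑ m ∈ boxZ n K, z (x + zv m), ?_⟩
  rw [per_eq_sum hs le_rfl hK]
  push_cast
  exact Finset.sum_congr rfl fun m _ => hz _

/-- the periodization of a sum with coboundaries -/
theorem uthm_lin {R : ℝ} {κ : Type*} [Fintype κ] {k : E n → ℝ} {c : κ → E n → ℝ}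
    (hk : Sup0 R k) (hc : ∀ j, Sup0 R (c j)) (V : κ → E n) (x : E n) :
    per (fun y => k y + ∑ j, (c j y - c j (y - V j))) x =
      per k x + ∑ j, (per (c j) x - per (c j) (x - V j)) := by
  have h1 : ∀ j, per (c j) (x - V j) = per (fun y => c j (y - V j)) x :=
    fun j => (congrFun (per_tr (V j) (c j)) x).symm
  simp_rw [h1]
  unfold per
  have s1 : Summable fun m : Fin n → ℤ => k (x + zv m) := per_summable hk x
  have s2 : ∀ j, Summable fun m : Fin n → ℤ => c j (x + zv m) := fun j => per_summable (hc j) x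
  have s3 : ∀ j, Summable fun m : Fin n → ℤ => c j (x + zv m - V j) :=
    fun j => per_summable ((hc j).tr (V j)) x
  rw [s1.tsum_add (summable_sum fun j _ => (s2 j).sub (s3 j)),
    Summable.tsum_finsetSum fun j _ => (s2 j).sub (s3 j)]
  congr 1
  exact Finset.sum_congr rfl fun j _ => (s2 j).tsum_sub (s3 j)

/-- identities almost everywhere pass to periodizations -/
theorem uthm_ae_per {F G : E n → ℝ} (h : ∀ᵐ x ∂(volume : Measure (E n)), F x = G x) :
    ∀ᵐ x ∂(volume : Measure (E n)), per F x = per G x := by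
  have h1 : ∀ᵐ x ∂(volume : Measure (E n)), ∀ m : Fin n → ℤ, F (x + zv m) = G (x + zv m) :=
    ae_all_iff.mpr fun m =>
      (measurePreserving_add_right volume (zv m)).quasiMeasurePreserving.ae h
  filter_upwards [h1] with x hx
  exact tsum_congr hx

/-- translation on `RX n` -/
noncomputable def uthm_shift (v : E n) (w : RX n) : RX n :=
  ⟨fun x => w.1 (x - v), by
    obtain ⟨⟨b, hb⟩, hp, ha⟩ := w.2
    refine ⟨⟨b, fun x => hb _⟩, fun x m => ?_, ha.comp_sub v⟩
    change w.1 (x + zv m - v) = w.1 (x - v)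
    rw [show x + zv m - v = (x - v) + zv m by abel, hp]⟩

theorem uthm_shift_apply (v : E n) (w : RX n) (x : E n) : (uthm_shift v w).1 x = w.1 (x - v) := rfl

/-- restriction to the unit cube -/
noncomputable def uthm_ind (R : ℝ) (hR : (n : ℝ) + 1 ≤ R) (w : RX n) : RB n R :=
  ⟨(Q n).indicator w.1, by
    obtain ⟨⟨b, hb⟩, hp, ha⟩ := w.2
    refine ⟨⟨|b|, fun x => ?_⟩, fun x hx => ?_, ha.indicator volume_frontier_Q⟩
    · by_cases h : x ∈ Q n
      · rw [Set.indicator_of_mem h]; exact (hb x).trans (le_abs_self b)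
      · rw [Set.indicator_of_notMem h]; simp
    · apply Set.indicator_of_notMem
      intro h
      linarith [norm_le_of_mem_Q h]⟩

theorem uthm_ind_val (R : ℝ) (hR : (n : ℝ) + 1 ≤ R) (w : RX n) :
    (uthm_ind R hR w).1 = (Q n).indicator w.1 := rfl

theorem uthm_ind_int (R : ℝ) (hR : (n : ℝ) + 1 ≤ R) (w : RX n) (hw : IntV w.1) :
    IntV (uthm_ind R hR w).1 := by
  intro x
  rw [uthm_ind_val]
  by_cases h : x ∈ Q n
  · rw [Set.indicator_of_mem h]; exact hw x
  · rw [Set.indicator_of_notMem h]; exact ⟨0, by simp⟩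

theorem uthm_ind_Bd (R : ℝ) (hR : (n : ℝ) + 1 ≤ R) (w : RX n) {b : ℝ} (hw : Bd b w.1) :
    Bd b (uthm_ind R hR w).1 := by
  intro x
  rw [uthm_ind_val]
  by_cases h : x ∈ Q n
  · rw [Set.indicator_of_mem h]; exact hw x
  · rw [Set.indicator_of_notMem h]; simpa using (abs_nonneg _).trans (hw x)

theorem uthm_ind_per (R : ℝ) (hR : (n : ℝ) + 1 ≤ R) (w : RX n) (x : E n) :
    per (uthm_ind R hR w).1 x = w.1 x := per_indicator_Q w.2.2.1 x

theorem uthm_ind_per_add (R : ℝ) (hR : (n : ℝ) + 1 ≤ R) (w : RX n) (v x : E n) :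
    per (fun y => (uthm_ind R hR w).1 ((IsometryEquiv.addRight v).symm y)) x = w.1 (x - v) := by
  have h1 : (fun y => (uthm_ind R hR w).1 ((IsometryEquiv.addRight v).symm y)) =
      tr v (uthm_ind R hR w).1 := by
    funext y
    simp only [tr]
    congr 1
  rw [h1, per_tr]
  exact uthm_ind_per R hR w (x - v)

/-- monotonicity in the radius -/
def uthm_mono {R R' : ℝ} (h : R ≤ R') (k : RB n R) : RB n R' := ⟨k.1, k.2.1, k.2.2.1.mono h, k.2.2.2⟩

theorem uthm_mono_val {R R' : ℝ} (h : R ≤ R') (k : RB n R) : (uthm_mono h k).1 = k.1 := rfl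

theorem uthm_C_apply {κ : Type*} [Fintype κ] (c : κ → RX n) (v : κ → E n) (x : E n) :
    (∑ i, (c i - uthm_shift (v i) (c i)) : RX n).1 x = ∑ i, ((c i).1 x - (c i).1 (x - v i)) := by
  rw [Submodule.coe_sum, Finset.sum_apply]
  rfl

/-- rounding of the coboundaries of translations -/
theorem uthm_part2 {α : ℝ} (hα : Irrational α) {i₁ i₂ : Fin n} (h12 : i₁ ≠ i₂)
    {κ : Type*} [Fintype κ] (v : κ → E n) (u : κ → RX n) (b : ℝ) (hu : ∀ i, Bd b (u i).1)
    (f k0 : E n → ℝ) (hfi : IntV f) (hki : IntV k0)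
    (hf : ∀ᵐ x ∂(volume : Measure (E n)), f x = k0 x + ∑ i, ((u i).1 x - (u i).1 (x - v i))) :
    ∃ (k' : κ → RX n) (w₁ w₂ : RX n), (∀ i, IntV (k' i).1 ∧ Bd (b + 9) (k' i).1) ∧
      (IntV w₁.1 ∧ Bd (4 * Fintype.card κ + 4) w₁.1) ∧
      (IntV w₂.1 ∧ Bd (4 * Fintype.card κ + 4) w₂.1) ∧
      ∀ᵐ x ∂(volume : Measure (E n)), f x = k0 x + ∑ i, ((k' i).1 x - (k' i).1 (x - v i)) +
        ((w₁.1 x - w₁.1 (x - α • ev i₁)) + (w₂.1 x - w₂.1 (x - α • ev i₂))) := by
  choose k' c₁ c₂ hk' hkb hc₁ hc₂ hae using fun i => roundX hα h12 (u i) b (hu i)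
  set C₁ : RX n := ∑ i, (c₁ i - uthm_shift (v i) (c₁ i)) with hC₁
  set C₂ : RX n := ∑ i, (c₂ i - uthm_shift (v i) (c₂ i)) with hC₂
  have hbd : ∀ c : κ → RX n, (∀ i, Bd 2 (c i).1) →
      Bd (4 * Fintype.card κ) (∑ i, (c i - uthm_shift (v i) (c i)) : RX n).1 := by
    intro c hc x
    rw [uthm_C_apply]
    calc |∑ i, ((c i).1 x - (c i).1 (x - v i))| ≤ ∑ i, |(c i).1 x - (c i).1 (x - v i)| :=
          Finset.abs_sum_le_sum_abs _ _
      _ ≤ ∑ _i : κ, (4 : ℝ) := by
          refine Finset.sum_le_sum fun i _ => ?_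
          have h1 := abs_le.1 (hc i x)
          have h2 := abs_le.1 (hc i (x - v i))
          rw [abs_le]
          constructor <;> linarith
      _ = 4 * Fintype.card κ := by simp [mul_comm]
  -- the main identity
  have key : ∀ᵐ x ∂(volume : Measure (E n)), f x = k0 x +
      ∑ i, ((k' i).1 x - (k' i).1 (x - v i)) +
      ((C₁.1 x - C₁.1 (x - α • ev i₁)) + (C₂.1 x - C₂.1 (x - α • ev i₂))) := by
    have h1 : ∀ᵐ x ∂(volume : Measure (E n)), ∀ i, (u i).1 x = (k' i).1 x +
        ((c₁ i).1 x - (c₁ i).1 (x - α • ev i₁)) + ((c₂ i).1 x - (c₂ i).1 (x - α • ev i₂)) :=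
      eventually_all.2 fun i => hae i
    have h2 : ∀ᵐ x ∂(volume : Measure (E n)), ∀ i, (u i).1 (x - v i) = (k' i).1 (x - v i) +
        ((c₁ i).1 (x - v i) - (c₁ i).1 (x - v i - α • ev i₁)) +
        ((c₂ i).1 (x - v i) - (c₂ i).1 (x - v i - α • ev i₂)) :=
      eventually_all.2 fun i =>
        (measurePreserving_sub_right volume (v i)).quasiMeasurePreserving.ae (hae i)
    filter_upwards [hf, h1, h2] with x hx hx1 hx2
    rw [hx, hC₁, hC₂]
    simp only [uthm_C_apply]
    rw [← Finset.sum_sub_distrib, ← Finset.sum_sub_distrib, ← Finset.sum_add_distrib, add_assoc,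
      ← Finset.sum_add_distrib]
    congr 1
    refine Finset.sum_congr rfl fun i _ => ?_
    rw [hx1 i, hx2 i, sub_right_comm x (v i) (α • ev i₁), sub_right_comm x (v i) (α • ev i₂)]
    ring
  obtain ⟨w₁, w₂, hw₁, hw₂, hb₁, hb₂, hw⟩ := intX hα h12 C₁ C₂ _ (hbd c₁ hc₁) (hbd c₂ hc₂) (by
    filter_upwards [key] with x hx
    obtain ⟨z1, hz1⟩ := hfi x
    obtain ⟨z2, hz2⟩ := hki x
    choose z3 hz3 using fun i => hk' i x
    choose z4 hz4 using fun i => hk' i (x - v i)
    refine ⟨z1 - z2 - ∑ i, (z3 i - z4 i), ?_⟩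
    have h3 : ∑ i, ((k' i).1 x - (k' i).1 (x - v i)) = ((∑ i, (z3 i - z4 i) : ℤ) : ℝ) := by
      push_cast
      exact Finset.sum_congr rfl fun i _ => by rw [hz3, hz4]
    rw [h3, hz1, hz2] at hx
    push_cast at hx ⊢
    linarith)
  refine ⟨k', w₁, w₂, fun i => ⟨hk' i, hkb i⟩, ⟨hw₁, hb₁⟩, ⟨hw₂, hb₂⟩, ?_⟩
  filter_upwards [key, hw] with x hx hx2
  rw [hx2]
  exact hx

/-- the first rounding step -/
theorem uthm_part1 (hn : 3 ≤ n) {α : ℝ} (hα : Irrational α) (h0 : 0 < α) (h1 : α < 1)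
    {i₁ i₂ : Fin n} (h12 : i₁ ≠ i₂) :
    ∃ (R' C' : ℝ) (v : (Jn n × Fin 4 × Bool) → E n), 0 ≤ C' ∧
      ∀ (f : RX n) (N : ℝ), 1 ≤ N → Bd N f.1 → ∫ x in Q n, f.1 x = 0 →
        ∃ (k : Jn n → RB n R') (u : Jn n × Fin 4 × Bool → RX n),
          (∀ p, IntV (k p).1 ∧ Bd (C' * N) (k p).1) ∧ (∀ i, Bd C' (u i).1) ∧
          ∀ᵐ x ∂(volume : Measure (E n)), f.1 x =
            ∑ p, (per (k p).1 x - per (fun y => (k p).1 ((rot p).symm y)) x) +
              ∑ i, ((u i).1 x - (u i).1 (x - v i)) := by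
  obtain ⟨c, -, hgap⟩ := gapP_rot hn
  obtain ⟨C₁, hC₁, hF⟩ := thmF (fun p : Jn n => rot p) (5 * n + 1) c hgap
  obtain ⟨R', V, hV⟩ := roundB hα h0 h1 h12 (5 * n + 1 + 1 : ℝ)
  have hCp : 0 ≤ Cp n R' := Cp_nonneg R'
  refine ⟨R', C₁ + 9 + Cp n R' * 2,
    fun i => if i.2.2 then V i.2.1 else rot i.1 (V i.2.1), by positivity,
    fun f N hN hb hint => ?_⟩
  obtain ⟨h, hhb, hfh⟩ := hF f N hb hint
  choose k c' hki hkb hcb hae using fun p => hV (h p) (C₁ * N) (hhb p)
  refine ⟨k, fun i => if i.2.2 then perL n R' (c' i.1 i.2.1) else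
    - perL n R' (compL n R' (rot i.1) (c' i.1 i.2.1)), fun p => ⟨hki p, fun x => ?_⟩, ?_, ?_⟩
  · refine (hkb p x).trans ?_
    have : 0 ≤ Cp n R' * 2 * N := by positivity
    nlinarith
  · rintro ⟨p, j, ε⟩ x
    have hCp2 : Cp n R' * 2 ≤ C₁ + 9 + Cp n R' * 2 := by linarith
    cases ε
    · change |(-(perL n R' (compL n R' (rot p) (c' p j))).1) x| ≤ _
      rw [perL_apply, Pi.neg_apply, abs_neg]
      exact (per_Bd (compL n R' (rot p) (c' p j)).2.2.1 (fun y => hcb p j _) x).trans hCp2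
    · change |(perL n R' (c' p j)).1 x| ≤ _
      rw [perL_apply]
      exact (per_Bd (c' p j).2.2.1 (hcb p j) x).trans hCp2
  · have e1 : ∀ᵐ x ∂(volume : Measure (E n)), ∀ p, per (h p).1 x = per (k p).1 x +
        ∑ j, (per (c' p j).1 x - per (c' p j).1 (x - V j)) := by
      refine eventually_all.2 fun p => ?_
      filter_upwards [uthm_ae_per (hae p)] with x hx
      rw [hx, uthm_lin (k p).2.2.1 (fun j => (c' p j).2.2.1) V x]
    have e2 : ∀ᵐ x ∂(volume : Measure (E n)), ∀ p,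
        per (fun y => (h p).1 ((rot p).symm y)) x = per (fun y => (k p).1 ((rot p).symm y)) x +
        ∑ j, (per (compL n R' (rot p) (c' p j)).1 x -
          per (compL n R' (rot p) (c' p j)).1 (x - rot p (V j))) := by
      refine eventually_all.2 fun p => ?_
      have h3 : ∀ᵐ y ∂(volume : Measure (E n)), (h p).1 ((rot p).symm y) =
          (k p).1 ((rot p).symm y) + ∑ j, ((c' p j).1 ((rot p).symm y) -
            (c' p j).1 ((rot p).symm (y - rot p (V j)))) := by
        have h4 := (rot p).symm.measurePreserving.quasiMeasurePreserving.ae (hae p)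
        filter_upwards [h4] with y hy
        rw [hy]
        simp only [map_sub, LinearIsometryEquiv.symm_apply_apply]
      filter_upwards [uthm_ae_per h3] with x hx
      rw [hx]
      exact uthm_lin (k := fun y => (k p).1 ((rot p).symm y))
        (c := fun j y => (c' p j).1 ((rot p).symm y)) ((k p).2.2.1.comp_lin (rot p).symm)
        (fun j => (c' p j).2.2.1.comp_lin (rot p).symm) (fun j => rot p (V j)) x
    filter_upwards [e1, e2] with x hx1 hx2
    rw [hfh x]
    have e3 : ∀ F : Jn n × Fin 4 × Bool → ℝ, ∑ i, F i = ∑ p, ∑ j, (F (p, j, true) + F (p, j, false)) := by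
      intro F
      rw [Fintype.sum_prod_type]
      refine Finset.sum_congr rfl fun p _ => ?_
      rw [Fintype.sum_prod_type]
      refine Finset.sum_congr rfl fun j _ => ?_
      rw [Fintype.sum_bool]
    rw [e3, ← Finset.sum_add_distrib]
    refine Finset.sum_congr rfl fun p _ => ?_
    rw [hx1 p, hx2 p]
    have e4 : ∀ j : Fin 4, ((per (c' p j).1 x - per (c' p j).1 (x - V j)) +
        (-(per (compL n R' (rot p) (c' p j)).1 x) -
          -(per (compL n R' (rot p) (c' p j)).1 (x - rot p (V j))))) =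
        (per (c' p j).1 x - per (c' p j).1 (x - V j)) -
        (per (compL n R' (rot p) (c' p j)).1 x -
          per (compL n R' (rot p) (c' p j)).1 (x - rot p (V j))) := fun j => by ring
    have e5 : ∑ j : Fin 4, ((per (c' p j).1 x - per (c' p j).1 (x - V j)) +
        (-(per (compL n R' (rot p) (c' p j)).1 x) -
          -(per (compL n R' (rot p) (c' p j)).1 (x - rot p (V j))))) =
        ∑ j, (per (c' p j).1 x - per (c' p j).1 (x - V j)) -
        ∑ j, (per (compL n R' (rot p) (c' p j)).1 x -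
          per (compL n R' (rot p) (c' p j)).1 (x - rot p (V j))) := by
      rw [← Finset.sum_sub_distrib]
      exact Finset.sum_congr rfl fun j _ => e4 j
    have e6 : per (k p).1 x + ∑ j, (per (c' p j).1 x - per (c' p j).1 (x - V j)) -
        (per (fun y => (k p).1 ((rot p).symm y)) x +
        ∑ j, (per (compL n R' (rot p) (c' p j)).1 x -
          per (compL n R' (rot p) (c' p j)).1 (x - rot p (V j)))) =
        per (k p).1 x - per (fun y => (k p).1 ((rot p).symm y)) x +
        ∑ j : Fin 4, ((per (c' p j).1 x - per (c' p j).1 (x - V j)) +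
        (-(per (compL n R' (rot p) (c' p j)).1 x) -
          -(per (compL n R' (rot p) (c' p j)).1 (x - rot p (V j))))) := by
      rw [e5]
      ring
    exact e6

theorem uThm {n : ℕ} (hn : 3 ≤ n) :
    ∃ (m : ℕ) (g : Fin m → (E n ≃ᵢ E n)) (R C : ℝ), 0 ≤ C ∧
      ∀ (f : RX n) (N : ℝ), 1 ≤ N → IntV f.1 → Bd N f.1 → ∫ x in Q n, f.1 x = 0 →
        ∃ k : Fin m → RB n R, (∀ i, IntV (k i).1 ∧ Bd (C * N) (k i).1) ∧
          ∀ᵐ x ∂(volume : Measure (E n)), f.1 x = ∑ i, (per (k i).1 x -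
            per (fun y => (k i).1 ((g i).symm y)) x) := by
  -- the data
  have hα : Irrational (√2 - 1) := by
    have := irrational_sqrt_two.sub_natCast 1
    simpa using this
  have h0 : 0 < √2 - 1 := by
    have : 1 < √(2 : ℝ) := by
      rw [Real.lt_sqrt (by norm_num)]
      norm_num
    linarith
  have h1 : √2 - 1 < 1 := by
    have : √(2 : ℝ) < 2 := by
      rw [Real.sqrt_lt' (by norm_num)]
      norm_num
    linarith
  set α : ℝ := √2 - 1 with hαd
  let i₁ : Fin n := ⟨0, by omega⟩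
  let i₂ : Fin n := ⟨1, by omega⟩
  have h12 : i₁ ≠ i₂ := by
    intro h
    have := congrArg Fin.val h
    simp [i₁, i₂] at this
  obtain ⟨R', C', v, hC', hmain⟩ := uthm_part1 hn hα h0 h1 h12
  let κ : Type := Jn n × Fin 4 × Bool
  let T : Type := Jn n ⊕ (κ ⊕ Bool)
  let G : T → (E n ≃ᵢ E n) := Sum.elim (fun p => (rot p).toIsometryEquiv)
    (Sum.elim (fun i => IsometryEquiv.addRight (v i))
      (fun e => IsometryEquiv.addRight (α • ev (if e then i₁ else i₂))))
  let R : ℝ := max R' (n + 1)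
  have hR1 : R' ≤ R := le_max_left _ _
  have hR2 : (n : ℝ) + 1 ≤ R := le_max_right _ _
  let C : ℝ := C' + 9 + (4 * Fintype.card κ + 4)
  let eq : Fin (Fintype.card T) ≃ T := (Fintype.equivFin T).symm
  refine ⟨Fintype.card T, fun i => G (eq i), R, C, by positivity, fun f N hN hfi hfb hint => ?_⟩
  obtain ⟨k, u, hk, hu, hae⟩ := hmain f N hN hfb hint
  obtain ⟨k', w₁, w₂, hk', hw₁, hw₂, hae'⟩ := uthm_part2 hα h12 v u C' hu f.1
    (fun x => ∑ p, (per (k p).1 x - per (fun y => (k p).1 ((rot p).symm y)) x)) hfi (by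
      intro x
      choose z1 hz1 using fun p => uthm_per_int (k p).2.2.1 (hk p).1 x
      choose z2 hz2 using fun p => uthm_per_int ((k p).2.2.1.comp_lin (rot p).symm)
        (fun y => (hk p).1 _) x
      refine ⟨∑ p, (z1 p - z2 p), ?_⟩
      push_cast
      exact Finset.sum_congr rfl fun p _ => by rw [← hz1, ← hz2]) hae
  let W : Bool → RX n := fun e => if e then w₁ else w₂
  let K : T → RB n R := Sum.elim (fun p => uthm_mono hR1 (k p))
    (Sum.elim (fun i => uthm_ind R hR2 (k' i)) (fun e => uthm_ind R hR2 (W e)))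
  have hcard : (0 : ℝ) ≤ 4 * Fintype.card κ + 4 := by positivity
  have hbig : ∀ b : ℝ, 0 ≤ b → b ≤ C → b ≤ C * N := by
    intro b hb0 hb
    nlinarith
  have hK : ∀ t, IntV (K t).1 ∧ Bd (C * N) (K t).1 := by
    rintro (p | i | e)
    · refine ⟨(hk p).1, fun x => ((hk p).2 x).trans ?_⟩
      exact mul_le_mul_of_nonneg_right (by simp only [C]; linarith) (by linarith)
    · refine ⟨uthm_ind_int R hR2 (k' i) (hk' i).1, fun x =>
        (uthm_ind_Bd R hR2 (k' i) (hk' i).2 x).trans ?_⟩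
      exact hbig _ (by positivity) (by simp only [C]; linarith)
    · have hWi : IntV (W e).1 ∧ Bd (4 * Fintype.card κ + 4) (W e).1 := by
        cases e
        · exact hw₂
        · exact hw₁
      refine ⟨uthm_ind_int R hR2 (W e) hWi.1, fun x => (uthm_ind_Bd R hR2 (W e) hWi.2 x).trans ?_⟩
      exact hbig _ hcard (by simp only [C]; linarith)
  refine ⟨fun i => K (eq i), fun i => hK (eq i), ?_⟩
  filter_upwards [hae'] with x hx
  rw [hx]
  rw [Equiv.sum_comp eq (fun t => per (K t).1 x - per (fun y => (K t).1 ((G t).symm y)) x)]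
  rw [Fintype.sum_sum_type, Fintype.sum_sum_type, Fintype.sum_bool, add_assoc]
  congr 1
  congr 1
  · refine Finset.sum_congr rfl fun i _ => ?_
    change _ = per (uthm_ind R hR2 (k' i)).1 x -
      per (fun y => (uthm_ind R hR2 (k' i)).1 ((IsometryEquiv.addRight (v i)).symm y)) x
    rw [uthm_ind_per, uthm_ind_per_add]
  · change _ = (per (uthm_ind R hR2 w₁).1 x -
      per (fun y => (uthm_ind R hR2 w₁).1 ((IsometryEquiv.addRight (α • ev i₁)).symm y)) x) +
      (per (uthm_ind R hR2 w₂).1 x -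
      per (fun y => (uthm_ind R hR2 w₂).1 ((IsometryEquiv.addRight (α • ev i₂)).symm y)) x)
    rw [uthm_ind_per, uthm_ind_per_add, uthm_ind_per, uthm_ind_per_add]

end Pool.MP_2fe79c_gt.Geo
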